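import Pool.Agent.Lib.MP_4a593f_gt.BH.AlgB0

/-!
Row AlgB: the curvature term of the Weitzenböck formula in an orthonormal frame.
-/

open scoped Matrix

noncomputable section

namespace BH

variable {n p : ℕ} {G : Fin n → Fin n → E n → ℝ}

/-- `⟨ι_c(S·b), ι_l b⟩` in components -/
theorem algb_ip0_iot_act (S : Matrix (Fin n) (Fin n) ℝ) (l c : Fin n) (b : Alt n (p + 1)) :
    ip0 (iot c (act S b)) (iot l b) = -((p.factorial : ℝ))⁻¹ *
      ((∑ J : Fin p → Fin n, ∑ m, S m c * arr (iot m b) J * arr (iot l b) J) +
        ∑ s : Fin p, ∑ J : Fin p → Fin n, ∑ m,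
          S m (J s) * arr (iot c b) (Function.update J s m) * arr (iot l b) J) := by
  have h1 : iot c (act S b) = act S (iot c b) - ∑ m, S m c • iot m b := by
    rw [act_iot]
    abel
  have h2 : ∀ J, arr (iot c (act S b)) J =
      -(∑ s, ∑ m, S m (J s) * arr (iot c b) (Function.update J s m)) -
        ∑ m, S m c * arr (iot m b) J := by
    intro J
    rw [h1]
    have e1 : arr (act S (iot c b) - ∑ m, S m c • iot m b) J =
        arr (act S (iot c b)) J - arr (∑ m, S m c • iot m b) J := rfl
    have e2 : arr (∑ m, S m c • iot m b) J = ∑ m, S m c * arr (iot m b) J := by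
      unfold arr
      simp
    rw [e1, e2, arr_act]
  unfold ip0
  simp only [h2]
  rw [neg_mul, ← mul_neg]
  congr 1
  have h3 : ∑ s : Fin p, ∑ J : Fin p → Fin n, ∑ m,
      S m (J s) * arr (iot c b) (Function.update J s m) * arr (iot l b) J =
      ∑ J : Fin p → Fin n, (∑ s, ∑ m, S m (J s) * arr (iot c b) (Function.update J s m)) *
        arr (iot l b) J := by
    rw [Finset.sum_comm]
    refine Finset.sum_congr rfl fun J _ => ?_
    simp only [Finset.sum_mul]
  rw [h3, ← Finset.sum_add_distrib, ← Finset.sum_neg_distrib]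
  refine Finset.sum_congr rfl fun J _ => ?_
  rw [← Finset.sum_mul]
  ring

/-- the curvature term in an orthonormal frame -/
theorem wz_frame' {y : E n} {u : Matrix (Fin n) (Fin n) ℝ} (hu : uᵀ * gmat G y * u = 1)
    (hR : HopfBig.IsCurvature (rfr G y u)) (a : Alt n (p + 1)) :
    ipG (gmat G y) (wz G y a) a =
      ((p.factorial : ℝ))⁻¹ * HopfBig.bochner (rfr G y u) (arr (pb u a)) := by
  set R := rfr G y u with hRd
  set b := pb u a with hb
  have h1 : ipG (gmat G y) (wz G y a) a = ((p.factorial : ℝ))⁻¹ * ∑ l, ∑ c,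
      ((∑ J : Fin p → Fin n, ∑ m, R l c m c * arr (iot m b) J * arr (iot l b) J) +
        ∑ s : Fin p, ∑ J : Fin p → Fin n, ∑ m,
          R l c m (J s) * arr (iot c b) (Function.update J s m) * arr (iot l b) J) := by
    rw [ipG_frame hu, algb_pb_wz hu, ← hb]
    have e1 : ∀ x : Alt n (p + 1), ip0 (-x) b = -ip0 x b := fun x =>
      map_neg (AddMonoidHom.mk' (fun x : Alt n (p + 1) => ip0 x b)
        fun x z => ip0_add_left x z b) x
    have e2 : ∀ (ι : Type) (s : Finset ι) (f : ι → Alt n (p + 1)),
        ip0 (∑ i ∈ s, f i) b = ∑ i ∈ s, ip0 (f i) b := fun ι s f =>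
      map_sum (AddMonoidHom.mk' (fun x : Alt n (p + 1) => ip0 x b)
        fun x z => ip0_add_left x z b) f s
    rw [e1, e2, Finset.mul_sum, ← Finset.sum_neg_distrib]
    refine Finset.sum_congr rfl fun l _ => ?_
    rw [e2, Finset.mul_sum, ← Finset.sum_neg_distrib]
    refine Finset.sum_congr rfl fun c _ => ?_
    rw [ip0_eps, algb_ip0_iot_act, neg_mul, neg_neg]
    rfl
  rw [h1]
  congr 1
  simp only [Finset.sum_add_distrib]
  have hric : ∑ l, ∑ c, ∑ J : Fin p → Fin n, ∑ m, R l c m c * arr (iot m b) J * arr (iot l b) J =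
      ∑ i, ∑ j, HopfBig.ricci R i j *
        ∑ J : Fin p → Fin n, arr b (Fin.cons i J) * arr b (Fin.cons j J) := by
    refine Finset.sum_congr rfl fun l _ => ?_
    have e3 : ∀ m : Fin n, HopfBig.ricci R l m *
        ∑ J : Fin p → Fin n, arr b (Fin.cons l J) * arr b (Fin.cons m J) =
        ∑ c, ∑ J : Fin p → Fin n, R l c m c * arr (iot m b) J * arr (iot l b) J := by
      intro m
      unfold HopfBig.ricci
      rw [Finset.sum_mul]
      refine Finset.sum_congr rfl fun c _ => ?_
      rw [Finset.mul_sum]
      refine Finset.sum_congr rfl fun J _ => ?_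
      rw [arr_iot, arr_iot]
      ring
    simp only [e3]
    rw [Finset.sum_comm (s := Finset.univ (α := Fin n)) (t := Finset.univ (α := Fin n))
      (f := fun m c => ∑ J : Fin p → Fin n, R l c m c * arr (iot m b) J * arr (iot l b) J)]
    refine Finset.sum_congr rfl fun c _ => ?_
    rw [Finset.sum_comm]
  rw [hric]
  cases p with
  | zero =>
    simp only [Finset.univ_eq_empty, Finset.sum_empty, Finset.sum_const_zero, add_zero]
    unfold HopfBig.bochner
    refine Finset.sum_congr rfl fun i _ => Finset.sum_congr rfl fun j _ => ?_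
    have e4 : ∀ (k : Fin n) (J : Fin 0 → Fin n), (Fin.cons k J : Fin 1 → Fin n) = ![k] := by
      intro k J
      funext t
      fin_cases t
      rfl
    simp only [e4, Finset.sum_const, Finset.card_univ, Fintype.card_pi, Finset.univ_eq_empty,
      Finset.prod_empty, one_smul]
    ring
  | succ q =>
    unfold HopfBig.bochner
    have e5 : ∑ l, ∑ c, ∑ s : Fin (q + 1), ∑ J : Fin (q + 1) → Fin n, ∑ m,
        R l c m (J s) * arr (iot c b) (Function.update J s m) * arr (iot l b) J =
        (q + 1 : ℝ) * ∑ l, ∑ c, ∑ m, ∑ j, R l c m j *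
          ∑ K : Fin q → Fin n, arr b (Fin.cons l (Fin.cons j K)) *
            arr b (Fin.cons c (Fin.cons m K)) := by
      rw [Finset.mul_sum]
      refine Finset.sum_congr rfl fun l _ => ?_
      rw [Finset.mul_sum]
      refine Finset.sum_congr rfl fun c _ => ?_
      have e6 : ∀ s : Fin (q + 1), ∑ J : Fin (q + 1) → Fin n, ∑ m,
          R l c m (J s) * arr (iot c b) (Function.update J s m) * arr (iot l b) J =
          ∑ m, ∑ j, R l c m j *
            ∑ K : Fin q → Fin n, arr b (Fin.cons l (Fin.cons j K)) *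
              arr b (Fin.cons c (Fin.cons m K)) := by
        intro s
        rw [algb_slot_sum (iot c b) (iot l b) (fun m j => R l c m j) s]
        rw [Finset.sum_comm (s := Finset.univ (α := Fin n)) (t := Finset.univ (α := Fin n))
          (f := fun m j => R l c m j * ∑ K : Fin q → Fin n,
            arr b (Fin.cons l (Fin.cons j K)) * arr b (Fin.cons c (Fin.cons m K)))]
        refine Finset.sum_congr rfl fun j _ => ?_
        rw [Finset.sum_comm]
        refine Finset.sum_congr rfl fun m _ => ?_
        rw [Finset.mul_sum]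
        refine Finset.sum_congr rfl fun K _ => ?_
        rw [arr_iot, arr_iot]
        ring
      simp only [e6, Finset.sum_const, Finset.card_univ, Fintype.card_fin, nsmul_eq_mul]
      push_cast
      ring
    rw [e5, algb_curv_W hR (fun i j k l => ∑ K : Fin q → Fin n, arr b (Fin.cons i (Fin.cons j K)) *
      arr b (Fin.cons k (Fin.cons l K)))]
    · ring
    · intro i j k l
      rw [← Finset.sum_neg_distrib]
      refine Finset.sum_congr rfl fun K _ => ?_
      rw [algb_arr_swap b i j K]
      ring

end BH
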