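import Pool.Agent.Lib.MP_4a593f_gt.Big.G3
import Pool.Agent.Lib.MP_4a593f_gt.Big.K1
import Pool.Agent.Lib.MP_4a593f_gt.Big.K2
import Pool.Agent.Lib.MP_4a593f_gt.Big.K3

/-!
Row Alg, part C: positivity of the curvature term in degree `p` gives positivity in degree
`n - p` (the star operator on Fock space, as in `Q5/Hodge.lean`).
-/

open scoped BigOperators

noncomputable section

namespace BH

open HopfBig

namespace AlgC

variable {n p : ℕ}

/-- the sign of the star operator -/
def hsig (s : Finset (Fin n)) : ℝ := ∏ a ∈ s, (-1 : ℝ) ^ a.val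

theorem hsig_sq (s : Finset (Fin n)) : hsig s * hsig s = 1 := by
  rw [hsig, ← Finset.prod_mul_distrib]
  refine Finset.prod_eq_one fun a _ => ?_
  rw [← mul_pow]
  simp

theorem hsig_insert {a : Fin n} {s : Finset (Fin n)} (h : a ∉ s) :
    hsig (insert a s) = (-1 : ℝ) ^ a.val * hsig s := by
  rw [hsig, Finset.prod_insert h, hsig]

theorem pow_sq_one (k : ℕ) : (-1 : ℝ) ^ k * (-1 : ℝ) ^ k = 1 := by
  rw [← mul_pow]
  simp

/-- the two signs -/
theorem sg_compl (a : Fin n) (s : Finset (Fin n)) :
    sg a sᶜ = (-1 : ℝ) ^ a.val * sg a s := by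
  have h1 : (s.filter (· < a)).card + (sᶜ.filter (· < a)).card = a.val := by
    have h2 : (s.filter (· < a)) ∪ (sᶜ.filter (· < a)) = Finset.univ.filter (· < a) := by
      ext b
      simp only [Finset.mem_union, Finset.mem_filter, Finset.mem_compl, Finset.mem_univ, true_and]
      tauto
    have h3 : Disjoint (s.filter (· < a)) (sᶜ.filter (· < a)) := by
      rw [Finset.disjoint_left]
      intro b hb hb'
      rw [Finset.mem_filter] at hb hb'
      exact (Finset.mem_compl.1 hb'.1) hb.1
    rw [← Finset.card_union_of_disjoint h3, h2]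
    have h4 : (Finset.univ.filter (· < a)) = Finset.Iio a := by
      ext b
      simp
    rw [h4, Fin.card_Iio]
  rw [sg, sg, ← h1, pow_add, mul_comm ((-1 : ℝ) ^ (s.filter (· < a)).card), mul_assoc,
    pow_sq_one, mul_one]

/-- the star operator -/
def hU : Fk n →ₗ[ℝ] Fk n where
  toFun f := WithLp.toLp 2 fun s => hsig s * f sᶜ
  map_add' f g := by
    ext s; simp only [PiLp.add_apply]; ring
  map_smul' r f := by
    ext s; simp only [PiLp.smul_apply, RingHom.id_apply, smul_eq_mul]; ring

theorem hU_apply (f : Fk n) (s : Finset (Fin n)) : hU f s = hsig s * f sᶜ := rfl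

theorem hU_an (a : Fin n) (f : Fk n) : hU (an a f) = cr a (hU f) := by
  ext s
  rw [hU_apply, an_apply, cr_apply, hU_apply]
  by_cases h : a ∈ s
  · have h' : a ∉ sᶜ := by simpa using h
    rw [if_neg h', if_pos h]
    have h1 : insert a sᶜ = (s.erase a)ᶜ := by
      ext b
      simp only [Finset.mem_insert, Finset.mem_compl, Finset.mem_erase]
      tauto
    have h2 : hsig s = (-1 : ℝ) ^ a.val * hsig (s.erase a) := by
      rw [← hsig_insert (Finset.notMem_erase a s), Finset.insert_erase h]
    rw [h1, h2, sg_compl]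
    have h3 := pow_sq_one a.val
    linear_combination (hsig (s.erase a) * sg a s * f (s.erase a)ᶜ) * h3
  · have h' : a ∈ sᶜ := by simpa using h
    rw [if_pos h', if_neg h, mul_zero]

theorem hU_cr (a : Fin n) (f : Fk n) : hU (cr a f) = an a (hU f) := by
  ext s
  rw [hU_apply, cr_apply, an_apply, hU_apply]
  by_cases h : a ∈ s
  · have h' : a ∉ sᶜ := by simpa using h
    rw [if_neg h', if_pos h, mul_zero]
  · have h' : a ∈ sᶜ := by simpa using h
    rw [if_pos h', if_neg h, sg_compl, hsig_insert h, Finset.compl_insert]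
    ring

theorem rho_hU {L : Mat n} (hL : Skew L) (f : Fk n) : rho L (hU f) = hU (rho L f) := by
  rw [rho_apply, rho_apply]
  simp only [map_sum, map_smul, hU_cr, hU_an, an_cr, smul_sub]
  simp only [Finset.sum_sub_distrib]
  have h1 : ∑ a, ∑ b, L a b • (if a = b then hU f else 0) = 0 := by
    refine Finset.sum_eq_zero fun a _ => Finset.sum_eq_zero fun b _ => ?_
    by_cases h : a = b
    · have h2 : L a b = 0 := by
        have h3 := hL a b
        rw [← h] at h3 ⊢
        linarith
      rw [h2, zero_smul]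
    · rw [if_neg h, smul_zero]
  rw [h1, zero_sub, Finset.sum_comm, ← Finset.sum_neg_distrib]
  refine Finset.sum_congr rfl fun a _ => ?_
  rw [← Finset.sum_neg_distrib]
  refine Finset.sum_congr rfl fun b _ => ?_
  rw [hL a b, neg_smul]

theorem inner_hU (f : Fk n) : inner ℝ (hU f) (hU f) = inner ℝ f f := by
  rw [K3aux.inner_eq_sum, K3aux.inner_eq_sum]
  have h1 : ∀ s : Finset (Fin n), hU f s * hU f s = f sᶜ * f sᶜ := by
    intro s
    rw [hU_apply]
    linear_combination f sᶜ ^ 2 * hsig_sq s
  simp only [h1]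
  exact Equiv.sum_comp (Function.Involutive.toPerm compl compl_compl)
    (fun s : Finset (Fin n) => f s * f s)

theorem deg_hU {q : ℕ} (hpq : p + q = n) {ψ : Fk n} (h : Deg q ψ) : Deg p (hU ψ) := by
  intro s hs
  have hle : s.card ≤ n := by simpa using Finset.card_le_univ s
  rw [hU_apply, h sᶜ, mul_zero]
  rw [Finset.card_compl, Fintype.card_fin]
  omega

/-- the curvature term in Fock space -/
def bF (R : Fin n → Fin n → Fin n → Fin n → ℝ) (f : Fk n) : ℝ :=
  (∑ i, ∑ j, ricci R i j * inner ℝ (an i f) (an j f)) -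
    (1 / 2) * ∑ i, ∑ j, ∑ k, ∑ l, R i j k l * inner ℝ (an j (an i f)) (an l (an k f))

theorem bF_hU {R : Fin n → Fin n → Fin n → Fin n → ℝ} (hR : IsCurvature R) (f : Fk n) :
    bF R (hU f) = bF R f := by
  obtain ⟨m, E, r, -, hs, -, -, -, hRr, -, -⟩ := curv_spectral hR
  unfold bF
  rw [← weitz_fock hR (hU f), ← weitz_fock hR f, weitz_spectral E r hs hRr (hU f),
    weitz_spectral E r hs hRr f]
  refine Finset.sum_congr rfl fun i _ => ?_
  rw [rho_hU (hs i), inner_hU]

theorem bochner_bF (R : Fin n → Fin n → Fin n → Fin n → ℝ) {f : Fk n} (hf : Deg p f) :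
    bochner R (comp p f) = ((p - 1).factorial : ℝ) * bF R f := by
  cases p with
  | zero =>
    have h1 : ∀ i : Fin n, an i f = 0 := fun i => hf.an_zero i
    unfold bF
    simp [h1, bochner]
  | succ p => exact bochner_comp R hf

theorem comp_eq_zero {f : Fk n} (hf : Deg p f) (h : comp p f = 0) : f = 0 := by
  have h1 := sum_comp hf hf
  have h2 : ∑ I : Fin p → Fin n, comp p f I * comp p f I = 0 := by
    refine Finset.sum_eq_zero fun I _ => ?_
    rw [h, Pi.zero_apply, mul_zero]
  rw [h2] at h1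
  have h3 : (p.factorial : ℝ) ≠ 0 := by positivity
  exact inner_self_eq_zero.1 ((mul_eq_zero.1 h1.symm).resolve_left h3)

theorem comp_zero (p : ℕ) : comp p (0 : Fk n) = 0 := by
  have h1 : Deg p (0 : Fk n) := fun s _ => rfl
  have h2 := sum_comp h1 h1
  rw [inner_zero_left, mul_zero] at h2
  have h3 := (Finset.sum_eq_zero_iff_of_nonneg
    (fun I _ => mul_self_nonneg (comp p (0 : Fk n) I))).1 h2
  funext I
  exact mul_self_eq_zero.1 (h3 I (Finset.mem_univ I))

end AlgC

open AlgC

/-- the star operator on arrays: positivity in degree `p` gives positivity in degree `n - p` -/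
theorem bochner_star {n : ℕ} {R : Fin n → Fin n → Fin n → Fin n → ℝ}
    (hR : HopfBig.IsCurvature R) {p q : ℕ} (hpq : p + q = n)
    (h : ∀ φ : (Fin p → Fin n) → ℝ, HopfBig.IsForm φ → φ ≠ 0 → 0 < HopfBig.bochner R φ) :
    ∀ φ : (Fin q → Fin n) → ℝ, HopfBig.IsForm φ → φ ≠ 0 → 0 < HopfBig.bochner R φ := by
  intro φ hφ h0
  obtain ⟨f, hf, rfl⟩ := exists_comp φ hφ
  have hf0 : f ≠ 0 := by
    rintro rfl
    exact h0 (comp_zero q)
  have hd : Deg p (hU f) := deg_hU hpq hf
  have h1 : comp p (hU f) ≠ 0 := by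
    intro h2
    have h3 := comp_eq_zero hd h2
    have h4 := inner_hU f
    rw [h3, inner_zero_left] at h4
    exact hf0 (inner_self_eq_zero.1 h4.symm)
  have h2 := h _ (comp_isForm p (hU f)) h1
  rw [bochner_bF R hd, bF_hU hR] at h2
  rw [bochner_bF R hf]
  have h3 : (0 : ℝ) < ((p - 1).factorial : ℝ) := by positivity
  have h4 : (0 : ℝ) < ((q - 1).factorial : ℝ) := by positivity
  exact mul_pos h4 ((mul_pos_iff_of_pos_left h3).1 h2)

end BH
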