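import Pool.Agent.Lib.MP_4a593f_gt.BH.AlgR

/-!
Rows AlgD: sectional curvature bounds and `k`-positivity in an orthonormal frame
(linear algebra, change of basis).
-/

open scoped Matrix

noncomputable section

namespace BH

variable {n : ℕ}

theorem frame2 {g u : Matrix (Fin n) (Fin n) ℝ} (hu : uᵀ * g * u = 1) (a b : Fin n) :
    ∑ i, ∑ j, g i j * u i a * u j b = if a = b then 1 else 0 := by
  have h := congrFun (congrFun hu a) b
  rw [Matrix.one_apply, Matrix.mul_apply] at h
  rw [← h, Finset.sum_comm]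
  refine Finset.sum_congr rfl fun j _ => ?_
  rw [Matrix.mul_apply, Finset.sum_mul]
  refine Finset.sum_congr rfl fun i _ => ?_
  rw [Matrix.transpose_apply]
  ring

theorem frame2_sum {g u : Matrix (Fin n) (Fin n) ℝ} (hu : uᵀ * g * u = 1) (v w : Fin n → ℝ) :
    ∑ i, ∑ j, g i j * (∑ a, u i a * v a) * (∑ b, u j b * w b) = ∑ i, v i * w i := by
  rw [frame_pair]
  refine Finset.sum_congr rfl fun a _ => ?_
  simp only [frame2 hu]
  rw [Finset.sum_eq_single a]
  · rw [if_pos rfl, one_mul]
  · intro b _ hb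
    rw [if_neg (Ne.symm hb), zero_mul, zero_mul]
  · intro h
    exact absurd (Finset.mem_univ a) h

theorem pair_sum (u : Matrix (Fin n) (Fin n) ℝ) (v w : Fin n → ℝ) (i j : Fin n) :
    (∑ a, u i a * v a) * (∑ b, u j b * w b) = ∑ a, ∑ b, u i a * u j b * (v a * w b) := by
  rw [Finset.sum_mul_sum]
  refine Finset.sum_congr rfl fun a _ => Finset.sum_congr rfl fun b _ => ?_
  ring

variable {G : Fin n → Fin n → E n → ℝ}

theorem sec_sum (y : E n) (u : Matrix (Fin n) (Fin n) ℝ) (v w : Fin n → ℝ) :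
    ∑ i, ∑ j, ∑ k, ∑ l, riem G i j k l y * (∑ a, u i a * v a) * (∑ b, u j b * w b) *
        (∑ c, u k c * v c) * (∑ d, u l d * w d) =
      ∑ a, ∑ b, ∑ c, ∑ d, (∑ i, ∑ j, ∑ k, ∑ l, riem G i j k l y * u i a * u j b * u k c * u l d) *
        v a * w b * v c * w d := by
  have h := frame4 (fun i j k l => riem G i j k l y) u (fun a b => v a * w b) (fun a b => v a * w b)
  calc _ = ∑ i, ∑ j, ∑ k, ∑ l, riem G i j k l y * (∑ a, ∑ b, u i a * u j b * (v a * w b)) *
        (∑ c, ∑ d, u k c * u l d * (v c * w d)) := by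
        refine Finset.sum_congr rfl fun i _ => Finset.sum_congr rfl fun j _ =>
          Finset.sum_congr rfl fun k _ => Finset.sum_congr rfl fun l _ => ?_
        rw [← pair_sum, ← pair_sum]
        ring
    _ = _ := h
    _ = _ := by
        refine Finset.sum_congr rfl fun i _ => Finset.sum_congr rfl fun j _ =>
          Finset.sum_congr rfl fun k _ => Finset.sum_congr rfl fun l _ => ?_
        ring

/-- sectional curvature bounds in a frame -/
theorem sec_frame {y : E n} {u : Matrix (Fin n) (Fin n) ℝ} (hu : uᵀ * gmat G y * u = 1)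
    {lo hi : ℝ}
    (h : ∀ v w : Fin n → ℝ,
      lo * ((∑ i, ∑ j, G i j y * v i * v j) * (∑ i, ∑ j, G i j y * w i * w j) -
          (∑ i, ∑ j, G i j y * v i * w j) ^ 2) ≤
        ∑ i, ∑ j, ∑ k, ∑ l, riem G i j k l y * v i * w j * v k * w l ∧
      ∑ i, ∑ j, ∑ k, ∑ l, riem G i j k l y * v i * w j * v k * w l ≤
        hi * ((∑ i, ∑ j, G i j y * v i * v j) * (∑ i, ∑ j, G i j y * w i * w j) -
          (∑ i, ∑ j, G i j y * v i * w j) ^ 2))
    (v w : Fin n → ℝ) :
    lo * ((∑ i, v i * v i) * (∑ i, w i * w i) - (∑ i, v i * w i) ^ 2) ≤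
        ∑ i, ∑ j, ∑ k, ∑ l, rfr G y u i j k l * v i * w j * v k * w l ∧
      ∑ i, ∑ j, ∑ k, ∑ l, rfr G y u i j k l * v i * w j * v k * w l ≤
        hi * ((∑ i, v i * v i) * (∑ i, w i * w i) - (∑ i, v i * w i) ^ 2) := by
  have h1 := h (fun i => ∑ a, u i a * v a) (fun i => ∑ a, u i a * w a)
  have e : ∀ v w : Fin n → ℝ,
      ∑ i, ∑ j, G i j y * (∑ a, u i a * v a) * (∑ b, u j b * w b) = ∑ i, v i * w i :=
    fun v w => frame2_sum (g := gmat G y) hu v w
  simp only [e, sec_sum] at h1
  exact h1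

/-- `k`-positivity in a frame -/
theorem kpos_frame {k : ℕ} {y : E n} {u : Matrix (Fin n) (Fin n) ℝ}
    (hu : uᵀ * gmat G y * u = 1)
    (h : ∀ w : Fin k → Fin n → Fin n → ℝ, (∀ s i j, w s j i = -w s i j) →
      (∀ s t, (1 / 2) * ∑ i, ∑ j, ∑ a, ∑ c, G i a y * G j c y * w s i j * w t a c =
        if s = t then 1 else 0) →
      0 < ∑ s, (1 / 4) * ∑ i, ∑ j, ∑ a, ∑ c, riem G i j a c y * w s i j * w s a c) :
    HopfBig.KPositive (rfr G y u) k := by
  intro ω hω ho
  have h1 := h (fun s i j => ∑ a, ∑ b, u i a * u j b * ω s a b) ?_ ?_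
  · have h2 : ∀ s, (1 / 4) * ∑ i, ∑ j, ∑ a, ∑ c, riem G i j a c y *
        (∑ a, ∑ b, u i a * u j b * ω s a b) * (∑ p, ∑ q, u a p * u c q * ω s p q) =
        HopfBig.curvOp (rfr G y u) (ω s) := by
      intro s
      unfold HopfBig.curvOp
      congr 1
      exact frame4 (fun i j k l => riem G i j k l y) u (ω s) (ω s)
    simp only [h2] at h1
    exact h1
  · intro s i j
    beta_reduce
    rw [Finset.sum_comm, ← Finset.sum_neg_distrib]
    refine Finset.sum_congr rfl fun a _ => ?_
    rw [← Finset.sum_neg_distrib]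
    refine Finset.sum_congr rfl fun b _ => ?_
    rw [hω s a b]
    ring
  · intro s t
    rw [← ho s t]
    unfold HopfBig.inner2
    congr 1
    beta_reduce
    have h3 := frame4 (fun i j k l => G i k y * G j l y) u (ω s) (ω t)
    beta_reduce at h3
    rw [h3]
    have h4 : ∀ a b c d : Fin n,
        ∑ i, ∑ j, ∑ k, ∑ l, G i k y * G j l y * u i a * u j b * u k c * u l d =
        (if a = c then 1 else 0) * (if b = d then 1 else 0) := by
      intro a b c d
      have e1 := frame2 (g := gmat G y) hu a c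
      have e2 := frame2 (g := gmat G y) hu b d
      rw [← e1, ← e2, Finset.sum_mul_sum]
      refine Finset.sum_congr rfl fun i _ => Finset.sum_congr rfl fun j _ => ?_
      rw [Finset.sum_mul_sum]
      refine Finset.sum_congr rfl fun k _ => Finset.sum_congr rfl fun l _ => ?_
      change G i k y * G j l y * u i a * u j b * u k c * u l d =
        G i k y * u i a * u k c * (G j l y * u j b * u l d)
      ring
    simp only [h4]
    refine Finset.sum_congr rfl fun a _ => Finset.sum_congr rfl fun b _ => ?_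
    rw [Finset.sum_eq_single a]
    · rw [Finset.sum_eq_single b]
      · simp
      · intro d _ hd
        simp [Ne.symm hd]
      · intro hh
        exact absurd (Finset.mem_univ b) hh
    · intro c _ hc
      refine Finset.sum_eq_zero fun d _ => ?_
      simp [Ne.symm hc]
    · intro hh
      exact absurd (Finset.mem_univ a) hh

end BH
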