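import Pool.Agent.Lib.MP_4a593f_gt.BH.Ip
import Pool.Agent.Lib.MP_4a593f_gt.Big.K0

/-!
Rows AlgR: change of basis for 4-tensors, the curvature components `rfr` in a frame.
-/

open scoped Matrix

noncomputable section

namespace BH

section Sums

variable {α : Type*} [Fintype α]

theorem sum4_swap (f : α → α → α → α → ℝ) :
    ∑ a, ∑ b, ∑ c, ∑ d, f a b c d = ∑ c, ∑ d, ∑ a, ∑ b, f a b c d := by
  have h1 : ∑ a, ∑ b, ∑ c, ∑ d, f a b c d =
      ∑ x : α × α, ∑ z : α × α, f x.1 x.2 z.1 z.2 := by simp only [Fintype.sum_prod_type]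
  rw [h1, Finset.sum_comm]
  simp only [Fintype.sum_prod_type]

theorem frame_pair (T P : α → α → ℝ) (w w' : α → ℝ) :
    ∑ x, ∑ z, T x z * (∑ s, P x s * w s) * (∑ t, P z t * w' t) =
      ∑ s, ∑ t, (∑ x, ∑ z, T x z * P x s * P z t) * w s * w' t := by
  have h1 : ∀ x z, T x z * (∑ s, P x s * w s) * (∑ t, P z t * w' t) =
      ∑ s, ∑ t, T x z * P x s * P z t * w s * w' t := by
    intro x z
    rw [mul_assoc, Finset.sum_mul_sum, Finset.mul_sum]
    refine Finset.sum_congr rfl fun s _ => ?_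
    rw [Finset.mul_sum]
    refine Finset.sum_congr rfl fun t _ => ?_
    ring
  simp only [h1]
  rw [sum4_swap]
  refine Finset.sum_congr rfl fun s _ => Finset.sum_congr rfl fun t _ => ?_
  simp only [Finset.sum_mul]

end Sums

variable {n : ℕ}

theorem frame4 (T : Fin n → Fin n → Fin n → Fin n → ℝ) (u : Matrix (Fin n) (Fin n) ℝ)
    (w w' : Fin n → Fin n → ℝ) :
    ∑ i, ∑ j, ∑ k, ∑ l, T i j k l * (∑ a, ∑ b, u i a * u j b * w a b) *
        (∑ c, ∑ d, u k c * u l d * w' c d) =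
      ∑ a, ∑ b, ∑ c, ∑ d, (∑ i, ∑ j, ∑ k, ∑ l, T i j k l * u i a * u j b * u k c * u l d) *
        w a b * w' c d := by
  have h := frame_pair (α := Fin n × Fin n) (fun x z => T x.1 x.2 z.1 z.2)
    (fun x s => u x.1 s.1 * u x.2 s.2) (fun s => w s.1 s.2) (fun s => w' s.1 s.2)
  simp only [Fintype.sum_prod_type] at h
  rw [h]
  refine Finset.sum_congr rfl fun a _ => Finset.sum_congr rfl fun b _ =>
    Finset.sum_congr rfl fun c _ => Finset.sum_congr rfl fun d _ => ?_
  congr 2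
  refine Finset.sum_congr rfl fun i _ => Finset.sum_congr rfl fun j _ =>
    Finset.sum_congr rfl fun k _ => Finset.sum_congr rfl fun l _ => ?_
  ring

/-- the curvature components in the frame given by the columns of `u` -/
def rfr (G : Fin n → Fin n → E n → ℝ) (y : E n) (u : Matrix (Fin n) (Fin n) ℝ)
    (a b c d : Fin n) : ℝ :=
  ∑ i, ∑ j, ∑ k, ∑ l, riem G i j k l y * u i a * u j b * u k c * u l d

end BH
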