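import Pool.Agent.Lib.MP_4a593f_gt.BH.LNab
import Pool.Agent.Lib.MP_4a593f_gt.BH.AlgR

/-!
Row Alg, symmetries: the symmetries of the curvature tensor in coordinates.
-/

open scoped Manifold ContDiff Topology Matrix

noncomputable section

namespace BH

variable {n p : ℕ} {U : Set (E n)} {G : Fin n → Fin n → E n → ℝ}

/-! ### Partial derivatives -/

theorem algS_diff {u : E n → ℝ} (hU : IsOpen U) (hu : ContDiffOn ℝ ∞ u U) {y : E n}
    (hy : y ∈ U) : DifferentiableAt ℝ u y :=
  (hu.contDiffAt (hU.mem_nhds hy)).differentiableAt (by simp)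

theorem algS_congr {u v : E n → ℝ} (hU : IsOpen U) (h : ∀ z ∈ U, u z = v z) {y : E n}
    (hy : y ∈ U) (i : Fin n) : pd i u y = pd i v y := by
  unfold pd
  rw [(Filter.eventuallyEq_of_mem (hU.mem_nhds hy) h).fderiv_eq]

theorem algS_pd_smooth {u : E n → ℝ} (hU : IsOpen U) (hu : ContDiffOn ℝ ∞ u U) (i : Fin n) :
    ContDiffOn ℝ ∞ (pd i u) U := by
  have h1 : ContDiffOn ℝ ∞ (fderiv ℝ u) U := hu.fderiv_of_isOpen hU (by simp)
  exact h1.clm_apply contDiffOn_const

theorem algS_comm {u : E n → ℝ} (hU : IsOpen U) (hu : ContDiffOn ℝ ∞ u U) {y : E n}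
    (hy : y ∈ U) (i j : Fin n) : pd i (pd j u) y = pd j (pd i u) y := by
  have h0 : ContDiffAt ℝ ∞ u y := hu.contDiffAt (hU.mem_nhds hy)
  have h1 : ContDiffAt ℝ ∞ (fderiv ℝ u) y := h0.fderiv_right (by simp)
  have h2 : DifferentiableAt ℝ (fderiv ℝ u) y := h1.differentiableAt (by simp)
  have key : ∀ a b : Fin n, pd a (pd b u) y = fderiv ℝ (fderiv ℝ u) y (bv a) (bv b) := by
    intro a b
    have e : pd b u = fun z => fderiv ℝ u z (bv b) := rfl
    have h3 := fderiv_clm_apply h2 (differentiableAt_const (bv b) : DifferentiableAt ℝ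
      (fun _ : E n => (bv b : E n)) y)
    unfold pd at e ⊢
    rw [h3]
    simp
  have hs : IsSymmSndFDerivAt ℝ u y := h0.isSymmSndFDerivAt (by
    rw [minSmoothness_of_isRCLikeNormedField]
    exact WithTop.coe_le_coe.2 le_top)
  rw [key, key]
  exact hs (bv i) (bv j)

theorem algS_pd_add {u v : E n → ℝ} {y : E n} (hu : DifferentiableAt ℝ u y)
    (hv : DifferentiableAt ℝ v y) (i : Fin n) :
    pd i (fun z => u z + v z) y = pd i u y + pd i v y := by
  unfold pd
  rw [fderiv_fun_add hu hv]
  rfl

theorem algS_pd_sub {u v : E n → ℝ} {y : E n} (hu : DifferentiableAt ℝ u y)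
    (hv : DifferentiableAt ℝ v y) (i : Fin n) :
    pd i (fun z => u z - v z) y = pd i u y - pd i v y := by
  unfold pd
  rw [fderiv_fun_sub hu hv]
  rfl

theorem algS_pd_mul {u v : E n → ℝ} {y : E n} (hu : DifferentiableAt ℝ u y)
    (hv : DifferentiableAt ℝ v y) (i : Fin n) :
    pd i (fun z => u z * v z) y = pd i u y * v y + u y * pd i v y := by
  unfold pd
  rw [fderiv_fun_mul hu hv]
  simp only [add_apply, smul_apply, smul_eq_mul]
  ring

theorem algS_pd_sum {ι : Type*} (s : Finset ι) {u : ι → E n → ℝ} {y : E n}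
    (hu : ∀ a ∈ s, DifferentiableAt ℝ (u a) y) (i : Fin n) :
    pd i (fun z => ∑ a ∈ s, u a z) y = ∑ a ∈ s, pd i (u a) y := by
  unfold pd
  rw [fderiv_fun_sum hu]
  simp

/-! ### The lowered Christoffel symbols -/

theorem algS_low (hU : IsOpen U) (hG : IsMet U G) (k j l : Fin n) {z : E n} (hz : z ∈ U) :
    2 * ∑ m, G k m z * chr G m j l z =
      pd j (G l k) z + pd l (G j k) z - pd k (G j l) z := by
  rw [pd_metric hU hG j l k hz, pd_metric hU hG l j k hz, pd_metric hU hG k j l hz,
    ← Finset.sum_add_distrib, ← Finset.sum_sub_distrib, Finset.mul_sum]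
  refine Finset.sum_congr rfl fun m _ => ?_
  rw [chr_symm hU hG m l j hz, chr_symm hU hG m k j hz, chr_symm hU hG m k l hz,
    hG.symm m k z hz, hG.symm m l z hz, hG.symm j m z hz]
  ring

/-- the derivative of the lowered Christoffel symbols -/
theorem algS_dlow (hU : IsOpen U) (hG : IsMet U G) (i k j l : Fin n) {y : E n} (hy : y ∈ U) :
    2 * ∑ m, (pd i (G k m) y * chr G m j l y + G k m y * pd i (chr G m j l) y) =
      pd i (pd j (G l k)) y + pd i (pd l (G j k)) y - pd i (pd k (G j l)) y := by
  have dG : ∀ a b, DifferentiableAt ℝ (G a b) y := fun a b => algS_diff hU (hG.smooth a b) hy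
  have dC : ∀ m, DifferentiableAt ℝ (chr G m j l) y := fun m =>
    algS_diff hU (chr_smooth hU hG m j l) hy
  have dP : ∀ c a b, DifferentiableAt ℝ (pd c (G a b)) y := fun c a b =>
    algS_diff hU (algS_pd_smooth hU (hG.smooth a b) c) hy
  have h1 : pd i (fun z => ∑ m, G k m z * chr G m j l z) y =
      ∑ m, (pd i (G k m) y * chr G m j l y + G k m y * pd i (chr G m j l) y) := by
    rw [algS_pd_sum (u := fun m z => G k m z * chr G m j l z) _
      (fun m _ => (dG k m).fun_mul (dC m))]
    exact Finset.sum_congr rfl fun m _ => algS_pd_mul (dG k m) (dC m) i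
  have h2 : pd i (fun z => ∑ m, G k m z * chr G m j l z) y =
      pd i (fun z => (1 / 2) * ((pd j (G l k) z + pd l (G j k) z) - pd k (G j l) z)) y := by
    refine algS_congr hU (fun z hz => ?_) hy i
    have := algS_low hU hG k j l hz
    linarith
  have h3 : pd i (fun z => (1 / 2 : ℝ) * ((pd j (G l k) z + pd l (G j k) z) -
      pd k (G j l) z)) y = (1 / 2) * (pd i (pd j (G l k)) y + pd i (pd l (G j k)) y -
        pd i (pd k (G j l)) y) := by
    rw [algS_pd_mul (u := fun _ => (1 / 2 : ℝ)) (differentiableAt_const _)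
      (((dP j l k).fun_add (dP l j k)).fun_sub (dP k j l)),
      algS_pd_sub ((dP j l k).fun_add (dP l j k)) (dP k j l), algS_pd_add (dP j l k) (dP l j k)]
    have : pd i (fun _ : E n => (1 / 2 : ℝ)) y = 0 := by
      unfold pd
      simp
    rw [this]
    ring
  rw [h1, h3] at h2
  rw [h2]
  ring

/-- `⟨Γ_ik, Γ_jl⟩` -/
def gg (G : Fin n → Fin n → E n → ℝ) (y : E n) (i k j l : Fin n) : ℝ :=
  ∑ m, ∑ a, chr G a i k y * G a m y * chr G m j l y

theorem gg_symm (hG : IsMet U G) {y : E n} (hy : y ∈ U) (i k j l : Fin n) :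
    gg G y i k j l = gg G y j l i k := by
  unfold gg
  rw [Finset.sum_comm]
  refine Finset.sum_congr rfl fun a _ => Finset.sum_congr rfl fun m _ => ?_
  rw [hG.symm a m y hy]
  ring

/-- the curvature tensor by second derivatives of the metric -/
theorem riem_expl (hU : IsOpen U) (hG : IsMet U G) (i j k l : Fin n) {y : E n} (hy : y ∈ U) :
    riem G i j k l y = (1 / 2) * (pd i (pd l (G j k)) y - pd i (pd k (G j l)) y -
      pd j (pd l (G i k)) y + pd j (pd k (G i l)) y) - gg G y i k j l + gg G y j k i l := by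
  have e1 := algS_dlow hU hG i k j l hy
  have e2 := algS_dlow hU hG j k i l hy
  have e3 := algS_comm hU (hG.smooth l k) hy i j
  have key : ∀ i j : Fin n, ∑ m, pd i (G k m) y * chr G m j l y =
      gg G y i k j l + ∑ m, G k m y * ∑ a, chr G m i a y * chr G a j l y := by
    intro i j
    have h1 : ∀ m, pd i (G k m) y * chr G m j l y =
        (∑ a, chr G a i k y * G a m y * chr G m j l y) +
          ∑ a, chr G a i m y * G k a y * chr G m j l y := by
      intro m
      rw [pd_metric hU hG i k m hy, Finset.sum_mul, ← Finset.sum_add_distrib]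
      refine Finset.sum_congr rfl fun a _ => ?_
      ring
    rw [Finset.sum_congr rfl fun m _ => h1 m, Finset.sum_add_distrib]
    refine congrArg₂ (· + ·) rfl ?_
    rw [Finset.sum_comm]
    refine Finset.sum_congr rfl fun a _ => ?_
    rw [Finset.mul_sum]
    refine Finset.sum_congr rfl fun m _ => ?_
    ring
  have h4 : riem G i j k l y = ∑ m, G k m y * pd i (chr G m j l) y -
      ∑ m, G k m y * pd j (chr G m i l) y +
      (∑ m, G k m y * ∑ a, chr G m i a y * chr G a j l y -
        ∑ m, G k m y * ∑ a, chr G m j a y * chr G a i l y) := by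
    unfold riem
    rw [← Finset.sum_sub_distrib, ← Finset.sum_sub_distrib, ← Finset.sum_add_distrib]
    refine Finset.sum_congr rfl fun m _ => ?_
    rw [Finset.sum_sub_distrib]
    ring
  rw [Finset.sum_add_distrib, key i j] at e1
  rw [Finset.sum_add_distrib, key j i] at e2
  rw [h4]
  linarith

/-! ### The symmetries -/

theorem riem_skew12 (_hU : IsOpen U) (_hG : IsMet U G) (i j k l : Fin n) {y : E n}
    (_hy : y ∈ U) : riem G j i k l y = -riem G i j k l y := by
  unfold riem
  rw [← Finset.sum_neg_distrib]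
  refine Finset.sum_congr rfl fun m _ => ?_
  have : ∑ a, (chr G m j a y * chr G a i l y - chr G m i a y * chr G a j l y) =
      -∑ a, (chr G m i a y * chr G a j l y - chr G m j a y * chr G a i l y) := by
    rw [← Finset.sum_neg_distrib]
    exact Finset.sum_congr rfl fun a _ => by ring
  rw [this]
  ring

theorem riem_skew34 (hU : IsOpen U) (hG : IsMet U G) (i j k l : Fin n) {y : E n} (hy : y ∈ U) :
    riem G i j l k y = -riem G i j k l y := by
  rw [riem_expl hU hG i j k l hy, riem_expl hU hG i j l k hy, gg_symm hG hy i l j k,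
    gg_symm hG hy j l i k]
  ring

theorem riem_cyc (hU : IsOpen U) (hG : IsMet U G) (i j k l : Fin n) {y : E n} (hy : y ∈ U) :
    riem G i j l k y + riem G j k l i y + riem G k i l j y = 0 := by
  unfold riem
  rw [← Finset.sum_add_distrib, ← Finset.sum_add_distrib]
  refine Finset.sum_eq_zero fun m _ => ?_
  have c : ∀ a b c' : Fin n, pd a (chr G m b c') y = pd a (chr G m c' b) y := fun a b c' =>
    algS_congr hU (fun z hz => chr_symm hU hG m b c' hz) hy a
  have s : ∑ a, (chr G m i a y * chr G a j k y - chr G m j a y * chr G a i k y) +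
      ∑ a, (chr G m j a y * chr G a k i y - chr G m k a y * chr G a j i y) +
      ∑ a, (chr G m k a y * chr G a i j y - chr G m i a y * chr G a k j y) = 0 := by
    rw [← Finset.sum_add_distrib, ← Finset.sum_add_distrib]
    refine Finset.sum_eq_zero fun a _ => ?_
    rw [chr_symm hU hG a k i hy, chr_symm hU hG a j i hy, chr_symm hU hG a k j hy]
    ring
  rw [c j k i, c k j i, c i k j]
  linear_combination G l m y * s

theorem riem_bianchi (hU : IsOpen U) (hG : IsMet U G) (i j k l : Fin n) {y : E n}
    (hy : y ∈ U) : riem G i j k l y + riem G j k i l y + riem G k i j l y = 0 := by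
  have h := riem_cyc hU hG i j k l hy
  rw [riem_skew34 hU hG i j k l hy, riem_skew34 hU hG j k i l hy,
    riem_skew34 hU hG k i j l hy] at h
  linarith

theorem rfr_curv (hU : IsOpen U) (hG : IsMet U G) {y : E n} (hy : y ∈ U)
    (u : Matrix (Fin n) (Fin n) ℝ) : HopfBig.IsCurvature (rfr G y u) := by
  refine ⟨fun a b c d => ?_, fun a b c d => ?_, fun a b c d => ?_⟩
  · unfold rfr
    rw [Finset.sum_comm]
    simp only [← Finset.sum_neg_distrib]
    refine Finset.sum_congr rfl fun i _ => Finset.sum_congr rfl fun j _ =>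
      Finset.sum_congr rfl fun k _ => Finset.sum_congr rfl fun l _ => ?_
    rw [riem_skew12 hU hG i j k l hy]
    ring
  · unfold rfr
    simp only [← Finset.sum_neg_distrib]
    refine Finset.sum_congr rfl fun i _ => Finset.sum_congr rfl fun j _ => ?_
    rw [Finset.sum_comm]
    refine Finset.sum_congr rfl fun k _ => Finset.sum_congr rfl fun l _ => ?_
    rw [riem_skew34 hU hG i j k l hy]
    ring
  · have h2 : rfr G y u b c a d = ∑ i, ∑ j, ∑ k, ∑ l,
        riem G j k i l y * u i a * u j b * u k c * u l d := by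
      unfold rfr
      -- sum over (j, k, i)
      rw [Finset.sum_congr rfl fun j _ => Finset.sum_comm, Finset.sum_comm]
      refine Finset.sum_congr rfl fun i _ => Finset.sum_congr rfl fun j _ =>
        Finset.sum_congr rfl fun k _ => Finset.sum_congr rfl fun l _ => ?_
      ring
    have h3 : rfr G y u c a b d = ∑ i, ∑ j, ∑ k, ∑ l,
        riem G k i j l y * u i a * u j b * u k c * u l d := by
      unfold rfr
      rw [Finset.sum_comm, Finset.sum_congr rfl fun i _ => Finset.sum_comm]
      refine Finset.sum_congr rfl fun i _ => Finset.sum_congr rfl fun j _ =>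
        Finset.sum_congr rfl fun k _ => Finset.sum_congr rfl fun l _ => ?_
      ring
    rw [h2, h3]
    unfold rfr
    simp only [← Finset.sum_add_distrib]
    refine Finset.sum_eq_zero fun i _ => Finset.sum_eq_zero fun j _ =>
      Finset.sum_eq_zero fun k _ => Finset.sum_eq_zero fun l _ => ?_
    linear_combination u i a * u j b * u k c * u l d * riem_bianchi hU hG i j k l hy

theorem arr_form (a : Alt n p) : HopfBig.IsForm (arr a) := by
  intro σ I
  have h := a.toAlternatingMap.map_perm (fun s => bv (I s)) σ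
  have e : arr a (I ∘ σ) = a.toAlternatingMap (fun s => bv (I (σ s))) := rfl
  rw [e]
  have e2 : (fun s => bv (I (σ s)) : Fin p → E n) = (fun s => bv (I s)) ∘ σ := rfl
  rw [e2]
  rw [h]
  change ((Equiv.Perm.sign σ : ℤˣ) • a (fun s => bv (I s)) : ℝ) = _
  rw [Units.smul_def, zsmul_eq_mul]
  rfl

end BH
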