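import Pool.Agent.Lib.MP_4a593f_gt.BH.LWz
import Pool.Agent.Lib.MP_4a593f_gt.BH.AlgB
import Pool.Agent.Lib.MP_4a593f_gt.BH.AlgC
import Pool.Agent.Lib.MP_4a593f_gt.BH.AlgD
import Pool.Agent.Lib.MP_4a593f_gt.BH.AlgS

/-!
Rows Alg: the curvature term at a point in an orthonormal frame is `HopfBig.bochner`
(`rfr`: AlgR; symmetries of `riem`, `rfr_curv`, `arr_form`: AlgS; `bochner_star`: AlgC;
`sec_frame`, `kpos_frame`: AlgD; `wz_frame'`: AlgB).
-/

open scoped Manifold ContDiff Topology Matrix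

noncomputable section

namespace BH

variable {n p : ℕ} {U : Set (E n)} {G : Fin n → Fin n → E n → ℝ}

/-- the curvature term in an orthonormal frame -/
theorem wz_frame (hU : IsOpen U) (hG : IsMet U G) {y : E n} (hy : y ∈ U)
    {u : Matrix (Fin n) (Fin n) ℝ} (hu : uᵀ * gmat G y * u = 1) (a : Alt n (p + 1)) :
    ipG (gmat G y) (wz G y a) a =
      ((p.factorial : ℝ))⁻¹ * HopfBig.bochner (rfr G y u) (arr (pb u a)) :=
  wz_frame' hu (rfr_curv hU hG hy u) a

end BH
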