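import Pool.Agent.Lib.MP_4a593f_gt.BH.LWz
import Pool.Agent.Lib.MP_4a593f_gt.BH.AlgR

/-!
Row AlgB, first part: pullback of the operators to a frame, components.
-/

open scoped Matrix

noncomputable section

namespace BH

variable {n p : ℕ}

theorem algb_pb_sum {ι : Type*} (B : Matrix (Fin n) (Fin n) ℝ) (s : Finset ι) (f : ι → Alt n p) :
    pb B (∑ i ∈ s, f i) = ∑ i ∈ s, pb B (f i) :=
  map_sum (AddMonoidHom.mk' (pb B : Alt n p → Alt n p) (pb_add B)) f s

theorem algb_pb_neg (B : Matrix (Fin n) (Fin n) ℝ) (a : Alt n p) : pb B (-a) = -pb B a :=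
  map_neg (AddMonoidHom.mk' (pb B : Alt n p → Alt n p) (pb_add B)) a

theorem algb_act_sum {ι : Type*} (s : Finset ι) (A : ι → Matrix (Fin n) (Fin n) ℝ) (a : Alt n p) :
    act (∑ i ∈ s, A i) a = ∑ i ∈ s, act (A i) a :=
  map_sum (AddMonoidHom.mk' (fun A : Matrix (Fin n) (Fin n) ℝ => act A a)
    fun A B => act_add A B a) A s

theorem algb_sum4_swap {ι M : Type*} [Fintype ι] [AddCommMonoid M] (f : ι → ι → ι → ι → M) :
    ∑ a, ∑ b, ∑ c, ∑ d, f a b c d = ∑ c, ∑ d, ∑ a, ∑ b, f a b c d := by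
  have h1 : ∑ a, ∑ b, ∑ c, ∑ d, f a b c d =
      ∑ x : ι × ι, ∑ z : ι × ι, f x.1 x.2 z.1 z.2 := by simp only [Fintype.sum_prod_type]
  rw [h1, Finset.sum_comm]
  simp only [Fintype.sum_prod_type]

section Frame

variable {g u : Matrix (Fin n) (Fin n) ℝ}

theorem algb_frame_inv (hu : uᵀ * g * u = 1) : u⁻¹ = uᵀ * g :=
  Matrix.inv_eq_left_inv hu

theorem algb_frame_unit (hu : uᵀ * g * u = 1) : IsUnit u.det := by
  have h1 : (uᵀ * g * u).det = 1 := by rw [hu, Matrix.det_one]
  rw [Matrix.det_mul] at h1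
  exact isUnit_iff_ne_zero.2 fun h => by rw [h, mul_zero] at h1; exact zero_ne_one h1

theorem algb_frame_ginv (hu : uᵀ * g * u = 1) : g⁻¹ = u * uᵀ := by
  have h1 : u * (uᵀ * g) = 1 := mul_eq_one_comm.1 hu
  exact Matrix.inv_eq_left_inv (by rw [Matrix.mul_assoc]; exact h1)

theorem algb_pb_iou (hu : uᵀ * g * u = 1) (j : Fin n) (b : Alt n (p + 1)) :
    pb u (iou g j b) = ∑ c, u j c • iot c (pb u b) := by
  have h1 : iou g j b = ∑ m, g⁻¹ j m • iot m b := by
    unfold iou
    simp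
  rw [h1, algb_pb_sum]
  simp only [pb_smul, iot_pb, Finset.smul_sum, smul_smul]
  rw [Finset.sum_comm]
  refine Finset.sum_congr rfl fun m _ => ?_
  rw [← Finset.sum_smul, algb_frame_ginv hu, Matrix.mul_apply]
  rfl

theorem algb_pb_act (hu : uᵀ * g * u = 1) (A : Matrix (Fin n) (Fin n) ℝ) (a : Alt n p) :
    pb u (act A a) = act (uᵀ * g * A * u) (pb u a) := by
  have h1 := algb_frame_unit hu
  rw [act_pb _ u h1, algb_frame_inv hu]
  have h2 : u * (uᵀ * g) = 1 := mul_eq_one_comm.1 hu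
  have h3 : A = u * (uᵀ * g * A * u) * (uᵀ * g) :=
    calc A = (u * (uᵀ * g)) * A * (u * (uᵀ * g)) := by rw [h2, Matrix.one_mul, Matrix.mul_one]
      _ = u * (uᵀ * g * A * u) * (uᵀ * g) := by simp only [Matrix.mul_assoc]
  exact congrArg (fun X => pb u (act X a)) h3

end Frame

variable {G : Fin n → Fin n → E n → ℝ}

/-- the curvature matrices in the frame -/
def sfr (G : Fin n → Fin n → E n → ℝ) (y : E n) (u : Matrix (Fin n) (Fin n) ℝ) (l c : Fin n) :
    Matrix (Fin n) (Fin n) ℝ := Matrix.of fun d e => rfr G y u l c d e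

theorem algb_sfr_eq (y : E n) (u : Matrix (Fin n) (Fin n) ℝ) (l c : Fin n) :
    sfr G y u l c = ∑ k, ∑ j, (u k l * u j c) • (uᵀ * gmat G y * rmat G k j y * u) := by
  ext d e
  rw [Matrix.sum_apply]
  simp only [Matrix.sum_apply]
  unfold sfr rfr
  rw [Matrix.of_apply]
  refine Finset.sum_congr rfl fun k _ => Finset.sum_congr rfl fun j _ => ?_
  have h1 : (uᵀ * gmat G y * rmat G k j y * u) d e = ∑ x, ∑ i, u x d * riem G k j x i y * u i e := by
    rw [Matrix.mul_assoc uᵀ, Matrix.mul_assoc uᵀ, Matrix.mul_apply]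
    refine Finset.sum_congr rfl fun x _ => ?_
    rw [Matrix.mul_apply, Finset.mul_sum]
    refine Finset.sum_congr rfl fun i _ => ?_
    have h2 : (gmat G y * rmat G k j y) x i = riem G k j x i y := by
      rw [riem_eq, Matrix.mul_apply]
      rfl
    rw [h2, Matrix.transpose_apply]
    ring
  rw [Matrix.smul_apply, h1, smul_eq_mul, Finset.mul_sum]
  refine Finset.sum_congr rfl fun x _ => ?_
  rw [Finset.mul_sum]
  refine Finset.sum_congr rfl fun i _ => ?_
  ring

theorem algb_pb_wz {y : E n} {u : Matrix (Fin n) (Fin n) ℝ} (hu : uᵀ * gmat G y * u = 1)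
    (a : Alt n (p + 1)) :
    pb u (wz G y a) = -∑ l, ∑ c, eps l (iot c (act (sfr G y u l c) (pb u a))) := by
  have h1 : pb u (wz G y a) = -∑ k, ∑ j, ∑ l, ∑ c,
      (u k l * u j c) • eps l (iot c (act (uᵀ * gmat G y * rmat G k j y * u) (pb u a))) := by
    unfold wz
    rw [algb_pb_neg, algb_pb_sum]
    congr 1
    refine Finset.sum_congr rfl fun k _ => ?_
    rw [algb_pb_sum]
    refine Finset.sum_congr rfl fun j _ => ?_
    rw [pb_eps]
    refine Finset.sum_congr rfl fun l _ => ?_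
    rw [algb_pb_iou hu, map_sum, Finset.smul_sum]
    refine Finset.sum_congr rfl fun c _ => ?_
    rw [map_smul, smul_smul, algb_pb_act hu]
  rw [h1, algb_sum4_swap]
  congr 1
  refine Finset.sum_congr rfl fun l _ => Finset.sum_congr rfl fun c _ => ?_
  rw [algb_sfr_eq, algb_act_sum]
  simp only [algb_act_sum, act_smul, map_sum, map_smul]

/-! ### components -/

theorem algb_arr_perm (a : Alt n p) (σ : Equiv.Perm (Fin p)) (I : Fin p → Fin n) :
    arr a (I ∘ σ) = (Equiv.Perm.sign σ : ℤ) * arr a I := by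
  have h := a.toAlternatingMap.map_perm (fun s => (bv (I s) : E n)) σ
  unfold arr
  have h2 : (a fun s => bv ((I ∘ σ) s)) = a.toAlternatingMap ((fun s => (bv (I s) : E n)) ∘ σ) := rfl
  rw [h2, h]
  rcases Int.units_eq_one_or (Equiv.Perm.sign σ) with h3 | h3 <;> simp [h3]

/-- one slot `s` in place of the slot `0` -/
theorem algb_slot_sum {q : ℕ} (x z : Alt n (q + 1)) (F : Fin n → Fin n → ℝ) (s : Fin (q + 1)) :
    ∑ J : Fin (q + 1) → Fin n, ∑ m, F m (J s) * arr x (Function.update J s m) * arr z J =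
      ∑ j, ∑ K : Fin q → Fin n, ∑ m, F m j * arr x (Fin.cons m K) * arr z (Fin.cons j K) := by
  have h1 : ∑ J : Fin (q + 1) → Fin n, ∑ m, F m (J s) * arr x (Function.update J s m) * arr z J =
      ∑ J : Fin (q + 1) → Fin n, ∑ m, F m (J 0) * arr x (Function.update J 0 m) * arr z J := by
    rw [← Equiv.sum_comp ((Equiv.swap 0 s).arrowCongr (Equiv.refl (Fin n)))]
    refine Finset.sum_congr rfl fun J _ => Finset.sum_congr rfl fun m _ => ?_
    have e0 : ((Equiv.swap 0 s).arrowCongr (Equiv.refl (Fin n))) J = J ∘ (Equiv.swap 0 s) := by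
      funext t
      simp [Equiv.arrowCongr]
    rw [e0]
    have e1 : (J ∘ (Equiv.swap 0 s)) s = J 0 := by simp
    have e2 : Function.update (J ∘ (Equiv.swap 0 s)) s m =
        Function.update J 0 m ∘ (Equiv.swap 0 s) := by
      rw [Function.update_comp_equiv]
      simp
    rw [e1, e2, algb_arr_perm, algb_arr_perm]
    rcases Int.units_eq_one_or (Equiv.Perm.sign (Equiv.swap 0 s)) with h3 | h3 <;> simp [h3]
  rw [h1, ← (Fin.consEquiv (fun _ => Fin n)).sum_comp, Fintype.sum_prod_type]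
  refine Finset.sum_congr rfl fun j _ => Finset.sum_congr rfl fun K _ =>
    Finset.sum_congr rfl fun m _ => ?_
  simp [Fin.consEquiv, Fin.update_cons_zero]

theorem algb_arr_swap {q : ℕ} (a : Alt n (q + 2)) (i j : Fin n) (K : Fin q → Fin n) :
    arr a (Fin.cons j (Fin.cons i K)) = -arr a (Fin.cons i (Fin.cons j K)) := by
  have h := algb_arr_perm a (Equiv.swap 0 1) (Fin.cons i (Fin.cons j K))
  have e : (Fin.cons i (Fin.cons j K) : Fin (q + 2) → Fin n) ∘ (Equiv.swap 0 1) =
      Fin.cons j (Fin.cons i K) := by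
    funext t
    refine Fin.cases ?_ (fun t => ?_) t
    · simp
    · refine Fin.cases ?_ (fun t => ?_) t
      · simp
      · have h1 : (t.succ.succ : Fin (q + 2)) ≠ 0 := Fin.succ_ne_zero _
        have h2 : (t.succ.succ : Fin (q + 2)) ≠ 1 := by
          intro h
          exact Fin.succ_ne_zero t (Fin.succ_injective _ (h.trans (by simp)))
        simp only [Function.comp_apply, Equiv.swap_apply_of_ne_of_ne h1 h2, Fin.cons_succ]
  rw [e] at h
  rw [h]
  simp [Equiv.Perm.sign_swap]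

theorem algb_curv_W {R : Fin n → Fin n → Fin n → Fin n → ℝ} (hR : HopfBig.IsCurvature R)
    (W : Fin n → Fin n → Fin n → Fin n → ℝ) (hW : ∀ a b c d, W b a c d = -W a b c d) :
    ∑ l, ∑ c, ∑ m, ∑ j, R l c m j * W l j c m =
      -(1 / 2) * ∑ i, ∑ j, ∑ k, ∑ l, R i j k l * W i j k l := by
  obtain ⟨h12, h34, hB⟩ := hR
  have hX : ∑ l, ∑ c, ∑ m, ∑ j, R l c m j * W l j c m =
      ∑ l, ∑ j, ∑ c, ∑ m, R l c m j * W l j c m := by
    refine Finset.sum_congr rfl fun l _ => ?_
    rw [Finset.sum_comm (s := Finset.univ (α := Fin n)) (t := Finset.univ (α := Fin n))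
      (f := fun j c => ∑ m, R l c m j * W l j c m)]
    refine Finset.sum_congr rfl fun c _ => ?_
    rw [Finset.sum_comm]
  have h0 : ∑ l, ∑ j, ∑ c, ∑ m, (R l j c m + R j c l m + R c l j m) * W l j c m = 0 := by
    refine Finset.sum_eq_zero fun l _ => Finset.sum_eq_zero fun j _ =>
      Finset.sum_eq_zero fun c _ => Finset.sum_eq_zero fun m _ => ?_
    rw [hB, zero_mul]
  have hS2 : ∑ l, ∑ j, ∑ c, ∑ m, R c l j m * W l j c m =
      ∑ l, ∑ j, ∑ c, ∑ m, R l c m j * W l j c m := by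
    refine Finset.sum_congr rfl fun l _ => Finset.sum_congr rfl fun j _ =>
      Finset.sum_congr rfl fun c _ => Finset.sum_congr rfl fun m _ => ?_
    rw [h12 l c, h34 l c m j]
    ring
  have hS1 : ∑ l, ∑ j, ∑ c, ∑ m, R j c l m * W l j c m =
      ∑ l, ∑ j, ∑ c, ∑ m, R l c m j * W l j c m := by
    rw [Finset.sum_comm]
    refine Finset.sum_congr rfl fun l _ => Finset.sum_congr rfl fun j _ =>
      Finset.sum_congr rfl fun c _ => Finset.sum_congr rfl fun m _ => ?_
    rw [hW l j, h34 l c m j]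
    ring
  simp only [add_mul, Finset.sum_add_distrib] at h0
  rw [hS1, hS2] at h0
  rw [hX]
  linarith

end BH
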