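import Pool.Agent.Lib.MP_4a593f_gt.BH.AlgB
import Pool.Agent.Lib.MP_4a593f_gt.BH.AlgD

/-!
Row AlgE: from positivity of `HopfBig.bochner` in every orthonormal frame to positivity of the
curvature term `wz`; positive sectional and positive Ricci curvature in a frame.
-/

open scoped Matrix

noncomputable section

namespace BH

variable {n p : ℕ} {G : Fin n → Fin n → E n → ℝ}

/-- positivity of the curvature term -/
theorem wz_pos {y : E n} (hG : (gmat G y).PosDef)
    (hR : ∀ u : Matrix (Fin n) (Fin n) ℝ, uᵀ * gmat G y * u = 1 →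
      HopfBig.IsCurvature (rfr G y u))
    (h : ∀ u : Matrix (Fin n) (Fin n) ℝ, uᵀ * gmat G y * u = 1 →
      ∀ φ : (Fin (p + 1) → Fin n) → ℝ, HopfBig.IsForm φ → φ ≠ 0 →
        0 < HopfBig.bochner (rfr G y u) φ)
    {a : Alt n (p + 1)} (ha : a ≠ 0) : 0 < ipG (gmat G y) (wz G y a) a := by
  obtain ⟨u, hu⟩ := exists_frame hG
  rw [wz_frame' hu (hR u hu)]
  have h1 : pb u a ≠ 0 := by
    intro h0
    apply ha
    have h2 : u * (uᵀ * gmat G y) = 1 := mul_eq_one_comm.1 hu
    have h3 : pb (uᵀ * gmat G y) (pb u a) = a := by rw [pb_pb, h2, pb_one]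
    rw [← h3, h0]
    ext v
    rfl
  have h4 : arr (pb u a) ≠ 0 := by
    intro h0
    exact h1 (arr_inj (h0.trans (by funext I; rfl)))
  have h5 : HopfBig.IsForm (arr (pb u a)) := fun σ I => algb_arr_perm (pb u a) σ I
  exact mul_pos (inv_pos.2 (by exact_mod_cast p.factorial_pos)) (h u hu _ h5 h4)

/-- positive sectional curvature in a frame -/
theorem secpos_frame {y : E n} {u : Matrix (Fin n) (Fin n) ℝ} (hu : uᵀ * gmat G y * u = 1)
    (h : ∀ v w : Fin n → ℝ,
      0 < (∑ i, ∑ j, G i j y * v i * v j) * (∑ i, ∑ j, G i j y * w i * w j) -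
          (∑ i, ∑ j, G i j y * v i * w j) ^ 2 →
      0 < ∑ i, ∑ j, ∑ k, ∑ l, riem G i j k l y * v i * w j * v k * w l)
    (v w : Fin n → ℝ)
    (hvw : 0 < (∑ i, v i * v i) * (∑ i, w i * w i) - (∑ i, v i * w i) ^ 2) :
    0 < ∑ i, ∑ j, ∑ k, ∑ l, rfr G y u i j k l * v i * w j * v k * w l := by
  have h1 := h (fun i => ∑ a, u i a * v a) (fun i => ∑ a, u i a * w a)
  have e : ∀ v w : Fin n → ℝ,
      ∑ i, ∑ j, G i j y * (∑ a, u i a * v a) * (∑ b, u j b * w b) = ∑ i, v i * w i :=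
    fun v w => frame2_sum (g := gmat G y) hu v w
  simp only [e, sec_sum] at h1
  exact h1 hvw

/-- the Ricci form in a frame -/
theorem ric_sum {y : E n} {u : Matrix (Fin n) (Fin n) ℝ} (hu : uᵀ * gmat G y * u = 1)
    (v : Fin n → ℝ) :
    ∑ i, ∑ j, (∑ k, ∑ l, (gmat G y)⁻¹ k l * riem G i k j l y) *
        (∑ a, u i a * v a) * (∑ b, u j b * v b) =
      ∑ a, ∑ b, (∑ c, rfr G y u a c b c) * v a * v b := by
  rw [frame_pair]
  refine Finset.sum_congr rfl fun a _ => Finset.sum_congr rfl fun b _ => ?_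
  congr 2
  have h1 : ∀ k l, (gmat G y)⁻¹ k l = ∑ c, u k c * u l c := by
    intro k l
    rw [algb_frame_ginv hu, Matrix.mul_apply]
    rfl
  unfold rfr
  have h2 : ∀ i j, (∑ k, ∑ l, (gmat G y)⁻¹ k l * riem G i k j l y) * u i a * u j b =
      ∑ k, ∑ l, ∑ c, riem G i k j l y * u i a * u k c * u j b * u l c := by
    intro i j
    rw [Finset.sum_mul, Finset.sum_mul]
    refine Finset.sum_congr rfl fun k _ => ?_
    rw [Finset.sum_mul, Finset.sum_mul]
    refine Finset.sum_congr rfl fun l _ => ?_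
    rw [h1, Finset.sum_mul, Finset.sum_mul, Finset.sum_mul]
    refine Finset.sum_congr rfl fun c _ => ?_
    ring
  simp only [h2]
  have h3 : ∀ i, ∑ j, ∑ k, ∑ l, ∑ c, riem G i k j l y * u i a * u k c * u j b * u l c =
      ∑ c, ∑ k, ∑ j, ∑ l, riem G i k j l y * u i a * u k c * u j b * u l c := by
    intro i
    calc _ = ∑ j, ∑ k, ∑ c, ∑ l, riem G i k j l y * u i a * u k c * u j b * u l c := by
          refine Finset.sum_congr rfl fun j _ => Finset.sum_congr rfl fun k _ => ?_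
          rw [Finset.sum_comm]
      _ = ∑ j, ∑ c, ∑ k, ∑ l, riem G i k j l y * u i a * u k c * u j b * u l c := by
          refine Finset.sum_congr rfl fun j _ => ?_
          rw [Finset.sum_comm]
      _ = ∑ c, ∑ j, ∑ k, ∑ l, riem G i k j l y * u i a * u k c * u j b * u l c :=
          Finset.sum_comm
      _ = _ := by
          refine Finset.sum_congr rfl fun c _ => ?_
          rw [Finset.sum_comm]
  simp only [h3]
  rw [Finset.sum_comm]

/-- positive Ricci curvature in a frame -/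
theorem ricpos_frame {y : E n} {u : Matrix (Fin n) (Fin n) ℝ} (hu : uᵀ * gmat G y * u = 1)
    (h : ∀ v : Fin n → ℝ, v ≠ 0 →
      0 < ∑ i, ∑ j, (∑ k, ∑ l, (gmat G y)⁻¹ k l * riem G i k j l y) * v i * v j)
    (v : Fin n → ℝ) (hv : v ≠ 0) :
    0 < ∑ a, ∑ b, HopfBig.ricci (rfr G y u) a b * v a * v b := by
  have h1 := h (fun i => ∑ a, u i a * v a) ?_
  · rw [ric_sum hu] at h1
    exact h1
  · intro h0
    apply hv
    have h2 : u.mulVec v = 0 := by
      funext i
      exact congrFun h0 i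
    have h3 : (uᵀ * gmat G y).mulVec (u.mulVec v) = v := by
      rw [Matrix.mulVec_mulVec, hu, Matrix.one_mulVec]
    rw [← h3, h2, Matrix.mulVec_zero]

end BH
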