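import Pool.Agent.Lib.MP_4a593f_gt.BH.Pt
import Pool.Agent.Lib.MP_4a593f_gt.Final
import Pool.Agent.Lib.MP_4a593f_gt.EU.Seven
import Pool.Agent.Lib.MP_4a593f_gt.EU.Final

/-!
Pointwise input for the theorems on closed manifolds: pinched sectional curvature.

* `pt_six`   : `n = 6`, `sec ∈ [a, b]`, `4 b < 31 a`: all odd degrees;
* `pt_eight` : `n = 8`, `sec ∈ [a, b]`, `391 b < 1891 a`: all odd degrees;
* `pt_even`  : `n` even, `sec ∈ [a, b]`, `8 b < 33 a`: degrees `1, 3, n - 3, n - 1`.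
-/

open scoped BigOperators

namespace HopfPt

open HopfBig

variable {n : ℕ}

/-- all sectional curvatures lie in `[a, b]` -/
def SecInA (R : Fin n → Fin n → Fin n → Fin n → ℝ) (a b : ℝ) : Prop :=
  ∀ v w : Fin n → ℝ,
    a * ((∑ i, v i * v i) * (∑ i, w i * w i) - (∑ i, v i * w i) ^ 2) ≤
      ∑ i, ∑ j, ∑ k, ∑ l, R i j k l * v i * w j * v k * w l ∧
    ∑ i, ∑ j, ∑ k, ∑ l, R i j k l * v i * w j * v k * w l ≤
      b * ((∑ i, v i * v i) * (∑ i, w i * w i) - (∑ i, v i * w i) ^ 2)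

theorem SecInA.le (hn : 2 ≤ n) {R : Fin n → Fin n → Fin n → Fin n → ℝ} {a b : ℝ}
    (h : SecInA R a b) : a ≤ b := by
  obtain ⟨m, rfl⟩ : ∃ m, n = m + 2 := ⟨n - 2, by omega⟩
  have h1 := h (Pi.single 0 1) (Pi.single 1 1)
  have e1 : ∑ i : Fin (m + 2), (Pi.single 0 (1 : ℝ) : Fin (m + 2) → ℝ) i *
      (Pi.single 0 (1 : ℝ) : Fin (m + 2) → ℝ) i = 1 := by
    rw [Finset.sum_eq_single 0]
    · simp
    · intro i _ hi
      rw [Pi.single_eq_of_ne hi, mul_zero]
    · intro h; exact absurd (Finset.mem_univ _) h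
  have e2 : ∑ i : Fin (m + 2), (Pi.single 1 (1 : ℝ) : Fin (m + 2) → ℝ) i *
      (Pi.single 1 (1 : ℝ) : Fin (m + 2) → ℝ) i = 1 := by
    rw [Finset.sum_eq_single 1]
    · simp
    · intro i _ hi
      rw [Pi.single_eq_of_ne hi, mul_zero]
    · intro h; exact absurd (Finset.mem_univ _) h
  have e3 : ∑ i : Fin (m + 2), (Pi.single 0 (1 : ℝ) : Fin (m + 2) → ℝ) i *
      (Pi.single 1 (1 : ℝ) : Fin (m + 2) → ℝ) i = 0 := by
    refine Finset.sum_eq_zero fun i _ => ?_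
    by_cases hi : i = 0
    · subst hi
      rw [Pi.single_eq_of_ne (by simp : (0 : Fin (m + 2)) ≠ 1), mul_zero]
    · rw [Pi.single_eq_of_ne hi, zero_mul]
  rw [e1, e2, e3] at h1
  have h2 := h1.1.trans h1.2
  norm_num at h2
  exact h2

/-- positivity of the lower bound -/
theorem SecInA.pos (hn : 2 ≤ n) {R : Fin n → Fin n → Fin n → Fin n → ℝ} {a b s t : ℝ}
    (h : SecInA R a b) (hs : 0 < s) (hst : s ≤ t) (hab : s * b < t * a) : 0 < a := by
  have h1 := h.le hn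
  by_contra hcon
  push Not at hcon
  nlinarith

theorem SecInA.secPos {R : Fin n → Fin n → Fin n → Fin n → ℝ} {a b : ℝ}
    (h : SecInA R a b) (ha : 0 < a) : SecPosA R := fun v w hg =>
  lt_of_lt_of_le (mul_pos ha hg) (h v w).1

/-! ### 3-forms -/

/-- the array of a 3-form with three indices -/
def arr3 (φ : (Fin 3 → Fin n) → ℝ) (i j k : Fin n) : ℝ := φ ![i, j, k]

theorem cons_cons_eq (i j : Fin n) (K : Fin 1 → Fin n) :
    (Fin.cons i (Fin.cons j K : Fin 2 → Fin n) : Fin 3 → Fin n) = ![i, j, K 0] := by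
  funext x
  fin_cases x <;> rfl

theorem cons_two_eq (i : Fin n) (I : Fin 2 → Fin n) :
    (Fin.cons i I : Fin 3 → Fin n) = ![i, I 0, I 1] := by
  funext x
  fin_cases x <;> rfl

theorem sum_one (F : (Fin 1 → Fin n) → ℝ) : ∑ K, F K = ∑ k, F ![k] := by
  rw [K3aux.sum_cons]
  refine Finset.sum_congr rfl fun k _ => ?_
  rw [Fintype.sum_unique]
  congr 1

theorem sum_two (F : (Fin 2 → Fin n) → ℝ) : ∑ K, F K = ∑ k, ∑ l, F ![k, l] := by
  rw [K3aux.sum_cons]
  refine Finset.sum_congr rfl fun k _ => ?_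
  rw [sum_one]
  refine Finset.sum_congr rfl fun l _ => ?_
  congr 1

theorem bochner_three (R : Fin n → Fin n → Fin n → Fin n → ℝ) (φ : (Fin 3 → Fin n) → ℝ) :
    bochner R φ =
      (∑ i, ∑ j, (∑ a, R i a j a) * ∑ k, ∑ l, arr3 φ i k l * arr3 φ j k l)
        - ∑ m, ∑ i, ∑ j, ∑ k, ∑ l, R i j k l * arr3 φ i j m * arr3 φ k l m := by
  rw [bochner]
  have e1 : ((((1 : ℕ) : ℝ) + 1) / 2) = 1 := by norm_num
  rw [e1, one_mul]
  congr 1
  · refine Finset.sum_congr rfl fun i _ => Finset.sum_congr rfl fun j _ => ?_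
    rw [sum_two]
    unfold ricci
    congr 1
  · have e2 : ∀ i j k l : Fin n, ∑ K : Fin 1 → Fin n, φ (Fin.cons i (Fin.cons j K)) *
        φ (Fin.cons k (Fin.cons l K)) = ∑ m, arr3 φ i j m * arr3 φ k l m := by
      intro i j k l
      rw [sum_one]
      refine Finset.sum_congr rfl fun m _ => ?_
      rw [cons_cons_eq, cons_cons_eq]
      rfl
    have e3 : ∀ F : Fin n → Fin n → Fin n → Fin n → Fin n → ℝ,
        ∑ m, ∑ i, ∑ j, ∑ k, ∑ l, F m i j k l = ∑ i, ∑ j, ∑ k, ∑ l, ∑ m, F m i j k l := by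
      intro F
      rw [Finset.sum_comm]
      refine Finset.sum_congr rfl fun i _ => ?_
      rw [Finset.sum_comm]
      refine Finset.sum_congr rfl fun j _ => ?_
      rw [Finset.sum_comm]
      refine Finset.sum_congr rfl fun k _ => ?_
      rw [Finset.sum_comm]
    rw [e3]
    refine Finset.sum_congr rfl fun i _ => Finset.sum_congr rfl fun j _ =>
      Finset.sum_congr rfl fun k _ => Finset.sum_congr rfl fun l _ => ?_
    rw [e2, Finset.mul_sum]
    exact Finset.sum_congr rfl fun m _ => by ring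

theorem arr3_skew {φ : (Fin 3 → Fin n) → ℝ} (h : IsForm φ) :
    (∀ i j k, arr3 φ j i k = -arr3 φ i j k) ∧ ∀ i j k, arr3 φ i k j = -arr3 φ i j k := by
  constructor
  · intro i j k
    have h1 := h (Equiv.swap 0 1) ![i, j, k]
    rw [Equiv.Perm.sign_swap (by decide)] at h1
    have h2 : (![i, j, k] : Fin 3 → Fin n) ∘ (Equiv.swap 0 1) = ![j, i, k] := by
      funext x
      fin_cases x <;> rfl
    rw [h2] at h1
    unfold arr3
    rw [h1]
    simp
  · intro i j k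
    have h1 := h (Equiv.swap 1 2) ![i, j, k]
    rw [Equiv.Perm.sign_swap (by decide)] at h1
    have h2 : (![i, j, k] : Fin 3 → Fin n) ∘ (Equiv.swap 1 2) = ![i, k, j] := by
      funext x
      fin_cases x <;> rfl
    rw [h2] at h1
    unfold arr3
    rw [h1]
    simp

theorem arr3_ne {φ : (Fin 3 → Fin n) → ℝ} (h : φ ≠ 0) :
    0 < ∑ i, ∑ j, ∑ k, arr3 φ i j k ^ 2 := by
  have h1 := sum_sq_pos h
  have h2 : ∑ I, φ I ^ 2 = ∑ i, ∑ j, ∑ k, arr3 φ i j k ^ 2 := by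
    rw [K3aux.sum_cons]
    refine Finset.sum_congr rfl fun i _ => ?_
    rw [sum_two]
    refine Finset.sum_congr rfl fun j _ => Finset.sum_congr rfl fun k _ => ?_
    rw [cons_two_eq]
    rfl
  rwa [h2] at h1

/-! ### Dimension six -/

/-- all sectional curvatures are at least `a` -/
def SecGEA (R : Fin n → Fin n → Fin n → Fin n → ℝ) (a : ℝ) : Prop :=
  ∀ v w : Fin n → ℝ,
    a * ((∑ i, v i * v i) * (∑ i, w i * w i) - (∑ i, v i * w i) ^ 2) ≤
      ∑ i, ∑ j, ∑ k, ∑ l, R i j k l * v i * w j * v k * w l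

/-- the sectional curvatures of any two orthogonal planes add up to at most `2 b` -/
def OrthA (R : Fin n → Fin n → Fin n → Fin n → ℝ) (b : ℝ) : Prop :=
  ∀ v : Fin 4 → Fin n → ℝ, (∀ s t, ∑ i, v s i * v t i = if s = t then 1 else 0) →
    (∑ i, ∑ j, ∑ k, ∑ l, R i j k l * v 0 i * v 1 j * v 0 k * v 1 l) +
      (∑ i, ∑ j, ∑ k, ∑ l, R i j k l * v 2 i * v 3 j * v 2 k * v 3 l) ≤ 2 * b

theorem SecGEA.secPos {R : Fin n → Fin n → Fin n → Fin n → ℝ} {a : ℝ}
    (h : SecGEA R a) (ha : 0 < a) : SecPosA R := fun v w hg =>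
  lt_of_lt_of_le (mul_pos ha hg) (h v w)

theorem SecInA.orth {R : Fin n → Fin n → Fin n → Fin n → ℝ} {a b : ℝ}
    (h : SecInA R a b) : OrthA R b := by
  intro v hv
  have h1 := (h (v 0) (v 1)).2
  have h2 := (h (v 2) (v 3)).2
  have e0 := hv 0 0
  have e1 := hv 1 1
  have e2 := hv 2 2
  have e3 := hv 3 3
  have e4 := hv 0 1
  have e5 := hv 2 3
  simp only [if_true] at e0 e1 e2 e3
  rw [if_neg (by decide)] at e4 e5
  rw [e0, e1, e4] at h1
  rw [e2, e3, e5] at h2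
  linarith

theorem SecInA.ge {R : Fin n → Fin n → Fin n → Fin n → ℝ} {a b : ℝ}
    (h : SecInA R a b) : SecGEA R a := fun v w => (h v w).1

/-- `n = 6`: sectional curvature at least `a > 0`, the curvatures of orthogonal planes add up to at
most `2 b`, `4 b < 31 a`: all odd degrees. -/
theorem pt_six {R : Fin 6 → Fin 6 → Fin 6 → Fin 6 → ℝ} (h : IsCurvature R) {a b : ℝ}
    (ha : 0 < a) (hs : SecGEA R a) (ho : OrthA R b) (hab : 4 * b < 31 * a)
    {p : ℕ} (hp : Odd p) (hpn : p ≤ 6) {φ : (Fin p → Fin 6) → ℝ} (hφ : IsForm φ) (h0 : φ ≠ 0) :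
    0 < bochner R φ := by
  refine odd_of_low (by decide) h
    (fun χ _ hχ0 => ric_pos ((hs.secPos ha).ricPos (by norm_num) h) hχ0)
    (fun q hq h5 h2 χ hχ hχ0 => ?_) hp hpn hφ h0
  have h3 : q = 3 := by omega
  subst h3
  have h1 : Pool.HopfSix.IsCurvature R := ⟨h.1, h.2.1, h.2.2⟩
  have h4 : Pool.HopfSix.SecGE R a := fun u v => hs u v
  have h6 : Pool.HopfSix.OrthLE R b := fun u hu => ho u hu
  have h7 : Pool.HopfSix.IsThreeForm (arr3 χ) := ⟨(arr3_skew hχ).1, (arr3_skew hχ).2⟩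
  have h8 := Pool.HopfSix.bochner_bound h1 h4 h6 h7
  have h9 : Pool.HopfSix.bochner R (arr3 χ) = bochner R χ := by
    rw [bochner_three]
    rfl
  rw [h9] at h8
  refine lt_of_lt_of_le (mul_pos ?_ (arr3_ne hχ0)) h8
  linarith

/-- `n = 6`: sectional curvature in `[a, b]`, `4 b < 31 a`: all odd degrees. -/
theorem pt_six' {R : Fin 6 → Fin 6 → Fin 6 → Fin 6 → ℝ} (h : IsCurvature R) {a b : ℝ}
    (hs : SecInA R a b) (hab : 4 * b < 31 * a)
    {p : ℕ} (hp : Odd p) (hpn : p ≤ 6) {φ : (Fin p → Fin 6) → ℝ} (hφ : IsForm φ) (h0 : φ ≠ 0) :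
    0 < bochner R φ :=
  pt_six h (hs.pos (by norm_num) (by norm_num) (by norm_num) hab) hs.ge hs.orth hab hp hpn hφ h0

/-! ### Dimension eight and all even dimensions -/

theorem three_eight {R : Fin 8 → Fin 8 → Fin 8 → Fin 8 → ℝ} (h : IsCurvature R) {a b : ℝ}
    (hs : SecInA R a b) (hab : 391 * b < 1891 * a)
    {φ : (Fin 3 → Fin 8) → ℝ} (hφ : IsForm φ) (h0 : φ ≠ 0) :
    0 < bochner R φ := by
  have ha : 0 < a := hs.pos (by norm_num) (by norm_num) (by norm_num) hab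
  have hR : Pool.Hopf3.IsCurvature R := ⟨h.1, h.2.1, h.2.2⟩
  have h7 : Pool.Hopf3.Form3 (arr3 φ) := ⟨(arr3_skew hφ).1, (arr3_skew hφ).2⟩
  have h3 : Pool.Hopf3.SecIn R a (max b (2 * a)) := by
    intro u v
    refine ⟨(hs u v).1, (hs u v).2.trans ?_⟩
    refine mul_le_mul_of_nonneg_right (le_max_left _ _) ?_
    have := Finset.sum_mul_sq_le_sq_mul_sq Finset.univ u v
    simp only [sq] at this ⊢
    linarith
  have h4 := Pool.Hopf3.EU.bochner_ge_seven hR
    (lt_of_lt_of_le (by linarith : a < 2 * a) (le_max_right _ _)) h3 h7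
  have h9 : Pool.Hopf3.bochner R (arr3 φ) = bochner R φ := by
    rw [bochner_three]
    rfl
  have h10 : Pool.Hopf3.ip3 (arr3 φ) (arr3 φ) = 1 / 6 * ∑ i, ∑ j, ∑ k, arr3 φ i j k ^ 2 := by
    unfold Pool.Hopf3.ip3
    congr 1
    exact Finset.sum_congr rfl fun i _ => Finset.sum_congr rfl fun j _ =>
      Finset.sum_congr rfl fun k _ => by ring
  rw [h9, h10] at h4
  refine lt_of_lt_of_le (mul_pos ?_ (mul_pos (by norm_num) (arr3_ne h0))) h4
  rcases max_cases b (2 * a) with h5 | h5 <;> rw [h5.1] <;> linarith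

/-- `n = 8`: sectional curvature in `[a, b]`, `391 b < 1891 a`: all odd degrees. -/
theorem pt_eight {R : Fin 8 → Fin 8 → Fin 8 → Fin 8 → ℝ} (h : IsCurvature R) {a b : ℝ}
    (hs : SecInA R a b) (hab : 391 * b < 1891 * a)
    {p : ℕ} (hp : Odd p) (hpn : p ≤ 8) {φ : (Fin p → Fin 8) → ℝ} (hφ : IsForm φ) (h0 : φ ≠ 0) :
    0 < bochner R φ := by
  have ha : 0 < a := hs.pos (by norm_num) (by norm_num) (by norm_num) hab
  refine odd_of_low (by decide) h
    (fun χ _ hχ0 => ric_pos ((hs.secPos ha).ricPos (by norm_num) h) hχ0)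
    (fun q hq h5 h2 χ hχ hχ0 => ?_) hp hpn hφ h0
  have h3 : q = 3 := by
    obtain ⟨b, hb⟩ := hq
    omega
  subst h3
  exact three_eight h hs hab hχ hχ0

theorem three_even (hn : Even n) (hn4 : 4 ≤ n) {R : Fin n → Fin n → Fin n → Fin n → ℝ}
    (h : IsCurvature R) {a b : ℝ} (hs : SecInA R a b) (hab : 8 * b < 33 * a)
    {φ : (Fin 3 → Fin n) → ℝ} (hφ : IsForm φ) (h0 : φ ≠ 0) :
    0 < bochner R φ := by
  obtain ⟨m, hm1, rfl⟩ : ∃ m : ℕ, 1 ≤ m ∧ n = 2 * m + 1 + 1 := by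
    obtain ⟨k, hk⟩ := hn
    exact ⟨k - 1, by omega, by omega⟩
  have ha : 0 < a := hs.pos (by omega) (by norm_num) (by norm_num) hab
  have hR : Pool.Hopf3.IsCurvature R := ⟨h.1, h.2.1, h.2.2⟩
  have h7 : Pool.Hopf3.Form3 (arr3 φ) := ⟨(arr3_skew hφ).1, (arr3_skew hφ).2⟩
  have h3 : Pool.Hopf3.SecIn R a (max b (2 * a)) := by
    intro u v
    refine ⟨(hs u v).1, (hs u v).2.trans ?_⟩
    refine mul_le_mul_of_nonneg_right (le_max_left _ _) ?_
    have := Finset.sum_mul_sq_le_sq_mul_sq Finset.univ u v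
    simp only [sq] at this ⊢
    linarith
  have h4 := Pool.Hopf3.EU.bochner_ge_even hm1 hR
    (lt_of_lt_of_le (by linarith : a < 2 * a) (le_max_right _ _)) h3 h7
  have h9 : Pool.Hopf3.bochner R (arr3 φ) = bochner R φ := by
    rw [bochner_three]
    rfl
  have h10 : Pool.Hopf3.ip3 (arr3 φ) (arr3 φ) = 1 / 6 * ∑ i, ∑ j, ∑ k, arr3 φ i j k ^ 2 := by
    unfold Pool.Hopf3.ip3
    congr 1
    exact Finset.sum_congr rfl fun i _ => Finset.sum_congr rfl fun j _ =>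
      Finset.sum_congr rfl fun k _ => by ring
  rw [h9, h10] at h4
  have hm0 : 0 < 2 * (m : ℝ) - 1 := by
    have : (1 : ℝ) ≤ m := by exact_mod_cast hm1
    linarith
  refine lt_of_lt_of_le (mul_pos (mul_pos (mul_pos (by norm_num) hm0) ?_)
    (mul_pos (by norm_num) (arr3_ne h0))) h4
  rcases max_cases b (2 * a) with h5 | h5 <;> rw [h5.1] <;> linarith

/-- `n` even, sectional curvature in `[a, b]`, `8 b < 33 a`: degrees `1, 3, n - 3, n - 1`. -/
theorem pt_even (hn : Even n) (hn4 : 4 ≤ n) {R : Fin n → Fin n → Fin n → Fin n → ℝ}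
    (h : IsCurvature R) {a b : ℝ} (hs : SecInA R a b) (hab : 8 * b < 33 * a)
    {p : ℕ} (hp : p = 1 ∨ p = 3 ∨ p + 3 = n ∨ p + 1 = n)
    {φ : (Fin p → Fin n) → ℝ} (hφ : IsForm φ) (h0 : φ ≠ 0) :
    0 < bochner R φ := by
  have ha : 0 < a := hs.pos (by omega) (by norm_num) (by norm_num) hab
  have hr : RicPosA R := (hs.secPos ha).ricPos (by omega) h
  rcases hp with rfl | rfl | hp | hp
  · exact ric_pos hr h0
  · exact three_even hn hn4 h hs hab hφ h0
  · exact BH.bochner_star h (by omega : 3 + p = n)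
      (fun χ hχ hχ0 => three_even hn hn4 h hs hab hχ hχ0) φ hφ h0
  · exact BH.bochner_star h (by omega : 1 + p = n) (fun χ _ hχ0 => ric_pos hr hχ0) φ hφ h0

end HopfPt
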