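import Pool.Agent.Lib.MP_4a593f_gt.BH.AlgD
import Pool.Agent.Lib.MP_4a593f_gt.BH.Pt2

/-!
Lower sectional curvature bounds and the condition on orthogonal planes in an orthonormal frame.
-/

open scoped Matrix

noncomputable section

namespace BH

variable {n : ℕ} {G : Fin n → Fin n → E n → ℝ}

/-- a lower bound of the sectional curvature in a frame -/
theorem secge_frame {y : E n} {u : Matrix (Fin n) (Fin n) ℝ} (hu : uᵀ * gmat G y * u = 1)
    {lo : ℝ}
    (h : ∀ v w : Fin n → ℝ,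
      lo * ((∑ i, ∑ j, G i j y * v i * v j) * (∑ i, ∑ j, G i j y * w i * w j) -
          (∑ i, ∑ j, G i j y * v i * w j) ^ 2) ≤
        ∑ i, ∑ j, ∑ k, ∑ l, riem G i j k l y * v i * w j * v k * w l) :
    HopfPt.SecGEA (rfr G y u) lo := by
  intro v w
  have h1 := h (fun i => ∑ a, u i a * v a) (fun i => ∑ a, u i a * w a)
  have e : ∀ v w : Fin n → ℝ,
      ∑ i, ∑ j, G i j y * (∑ a, u i a * v a) * (∑ b, u j b * w b) = ∑ i, v i * w i :=
    fun v w => frame2_sum (g := gmat G y) hu v w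
  simp only [e, sec_sum] at h1
  exact h1

/-- the condition on orthogonal planes in a frame -/
theorem orth_frame {y : E n} {u : Matrix (Fin n) (Fin n) ℝ} (hu : uᵀ * gmat G y * u = 1)
    {b : ℝ}
    (h : ∀ v : Fin 4 → Fin n → ℝ,
      (∀ s t, ∑ i, ∑ j, G i j y * v s i * v t j = if s = t then 1 else 0) →
      (∑ i, ∑ j, ∑ k, ∑ l, riem G i j k l y * v 0 i * v 1 j * v 0 k * v 1 l) +
        (∑ i, ∑ j, ∑ k, ∑ l, riem G i j k l y * v 2 i * v 3 j * v 2 k * v 3 l) ≤ 2 * b) :
    HopfPt.OrthA (rfr G y u) b := by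
  intro v hv
  have h1 := h (fun s i => ∑ a, u i a * v s a) (fun s t => by
    rw [← hv s t]
    exact frame2_sum (g := gmat G y) hu (v s) (v t))
  simp only [sec_sum] at h1
  exact h1

end BH
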