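import Mathlib

/-!
# Pullback of alternating maps is a smooth operation

`(f z).compContinuousLinearMap (g z)` is a smooth function of `z` if `f` and `g` are.
-/

open scoped ContDiff Topology

noncomputable section

namespace BH

variable {H V W G : Type*} [NormedAddCommGroup H] [NormedSpace ℝ H]
  [NormedAddCommGroup V] [NormedSpace ℝ V] [NormedAddCommGroup W] [NormedSpace ℝ W]
  [NormedAddCommGroup G] [NormedSpace ℝ G] {p : ℕ}

/-- Alternatization as a continuous linear map. -/
def altC : ContinuousMultilinearMap ℝ (fun _ : Fin p => V) G →L[ℝ] V [⋀^Fin p]→L[ℝ] G :=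
  LinearMap.mkContinuous
    { toFun := fun f => ContinuousMultilinearMap.alternatization f
      map_add' := fun f h => map_add _ f h
      map_smul' := fun c f => by
        ext v
        simp [ContinuousMultilinearMap.alternatization_apply_apply, Finset.smul_sum,
          smul_comm c] } (p.factorial : ℝ) fun f => by
    refine ContinuousAlternatingMap.opNorm_le_bound _ (by positivity) fun v => ?_
    change ‖ContinuousMultilinearMap.alternatization f v‖ ≤ _
    rw [ContinuousMultilinearMap.alternatization_apply_apply]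
    refine (norm_sum_le _ _).trans ?_
    have h1 : ∀ σ : Equiv.Perm (Fin p),
        ‖Equiv.Perm.sign σ • f (v ∘ σ)‖ ≤ ‖f‖ * ∏ i, ‖v i‖ := fun σ => by
      have h2 : ‖Equiv.Perm.sign σ • f (v ∘ σ)‖ = ‖f (v ∘ σ)‖ := by
        rcases Int.units_eq_one_or (Equiv.Perm.sign σ) with h | h <;> simp [h]
      rw [h2]
      refine (f.le_opNorm _).trans (le_of_eq ?_)
      congr 1
      exact Equiv.prod_comp σ fun i => ‖v i‖
    refine (Finset.sum_le_sum fun σ _ => h1 σ).trans (le_of_eq ?_)
    rw [Finset.sum_const, Finset.card_univ, Fintype.card_perm, Fintype.card_fin, nsmul_eq_mul,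
      mul_assoc]

theorem altC_coe (f : V [⋀^Fin p]→L[ℝ] G) :
    altC f.toContinuousMultilinearMap = (p.factorial : ℝ) • f := by
  ext v
  change ContinuousMultilinearMap.alternatization f.toContinuousMultilinearMap v = _
  rw [ContinuousMultilinearMap.alternatization_apply_apply]
  have h1 : ∀ σ : Equiv.Perm (Fin p),
      Equiv.Perm.sign σ • f.toContinuousMultilinearMap (v ∘ σ) = f v := fun σ => by
    have h2 : f.toContinuousMultilinearMap (v ∘ σ) = Equiv.Perm.sign σ • f v :=
      f.toAlternatingMap.map_perm v σ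
    rw [h2, smul_smul, Int.units_mul_self, one_smul]
  rw [Finset.sum_congr rfl fun σ _ => h1 σ, Finset.sum_const, Finset.card_univ,
    Fintype.card_perm, Fintype.card_fin, ContinuousAlternatingMap.smul_apply, Nat.cast_smul_eq_nsmul]

theorem eq_altC (f : V [⋀^Fin p]→L[ℝ] G) :
    f = ((p.factorial : ℝ)⁻¹) • altC f.toContinuousMultilinearMap := by
  rw [altC_coe, smul_smul, inv_mul_cancel₀ (by positivity), one_smul]

/-- Smoothness into alternating maps can be checked for multilinear maps. -/
theorem contDiffAt_of_coe {r : WithTop ℕ∞} {f : H → V [⋀^Fin p]→L[ℝ] G} {x : H}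
    (hf : ContDiffAt ℝ r (fun z => (f z).toContinuousMultilinearMap) x) : ContDiffAt ℝ r f x := by
  have h1 : f = fun z => ((p.factorial : ℝ)⁻¹) • altC (f z).toContinuousMultilinearMap := by
    funext z
    exact eq_altC (f z)
  rw [h1]
  have h2 : ContDiffAt ℝ r (fun z => altC (f z).toContinuousMultilinearMap) x :=
    (altC (V := V) (G := G) (p := p)).contDiff.contDiffAt.comp x hf
  exact h2.const_smul ((p.factorial : ℝ)⁻¹)

/-- The pullback `(f z)(g z . , ..., g z .)` is smooth in `z`. -/
theorem contDiffAt_pbk {r : WithTop ℕ∞} {f : H → W [⋀^Fin p]→L[ℝ] G} {g : H → V →L[ℝ] W}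
    {x : H} (hf : ContDiffAt ℝ r f x) (hg : ContDiffAt ℝ r g x) :
    ContDiffAt ℝ r (fun z => (f z).compContinuousLinearMap (g z)) x := by
  refine contDiffAt_of_coe ?_
  have h1 : ContDiffAt ℝ r (fun z => (f z).toContinuousMultilinearMap) x :=
    (ContinuousAlternatingMap.toContinuousMultilinearMapCLM ℝ
      (𝕜 := ℝ) (E := W) (F := G) (ι := Fin p)).contDiff.contDiffAt.comp x hf
  have h2 : ContDiffAt ℝ r (fun z => ContinuousMultilinearMap.compContinuousLinearMapContinuousMultilinear
      ℝ (fun _ : Fin p => V) (fun _ : Fin p => W) G (fun _ => g z)) x := by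
    refine (ContinuousMultilinearMap.contDiff _).contDiffAt.comp x ?_
    exact contDiffAt_pi.2 fun _ => hg
  exact h2.clm_apply h1

theorem contDiffOn_pbk {r : WithTop ℕ∞} {f : H → W [⋀^Fin p]→L[ℝ] G} {g : H → V →L[ℝ] W}
    {s : Set H} (hs : IsOpen s) (hf : ContDiffOn ℝ r f s) (hg : ContDiffOn ℝ r g s) :
    ContDiffOn ℝ r (fun z => (f z).compContinuousLinearMap (g z)) s := fun _ hx =>
  (contDiffAt_pbk (hf.contDiffAt (hs.mem_nhds hx))
    (hg.contDiffAt (hs.mem_nhds hx))).contDiffWithinAt

end BH
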