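import Pool.Agent.Lib.MP_4a593f_gt.BH.Defs

/-!
Rows Chg: change of charts for forms, `d` in every chart.
-/

open scoped Manifold ContDiff Bundle Topology

noncomputable section

universe u

namespace BH

variable {n p : ℕ} {M : Type u} [TopologicalSpace M] [ChartedSpace (E n) M]

/-- the transition map from the chart `e` to the chart `e'` -/
def tr (e e' : OpenPartialHomeomorph M (E n)) : E n → E n := fun y => e' (e.symm y)

/-- the domain of `tr e e'` -/
def ov (e e' : OpenPartialHomeomorph M (E n)) : Set (E n) := e.target ∩ e.symm ⁻¹' e'.source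

/-- pullback of a form by a linear map -/
abbrev pbk (A : E n →L[ℝ] E n) (a : Alt n p) : Alt n p := a.compContinuousLinearMap A

theorem ov_open (e e' : OpenPartialHomeomorph M (E n)) : IsOpen (ov e e') :=
  e.isOpen_inter_preimage_symm e'.open_source

theorem tr_mem {e e' : OpenPartialHomeomorph M (E n)} {y : E n} (hy : y ∈ ov e e') :
    tr e e' y ∈ ov e' e := by
  refine ⟨e'.map_source hy.2, ?_⟩
  rw [Set.mem_preimage, tr, e'.left_inv hy.2]
  exact e.map_target hy.1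

theorem tr_tr {e e' : OpenPartialHomeomorph M (E n)} {y : E n} (hy : y ∈ ov e e') :
    tr e' e (tr e e' y) = y := by
  rw [tr, tr, e'.left_inv hy.2, e.right_inv hy.1]

theorem symm_tr {e e' : OpenPartialHomeomorph M (E n)} {y : E n} (hy : y ∈ ov e e') :
    e'.symm (tr e e' y) = e.symm y := by
  rw [tr, e'.left_inv hy.2]

/-- moving the base point of a form -/
theorem form_congr {x x' : M} (h : x = x') (α : Form n M p) (w : Fin p → E n) :
    α x w = α x' w := by
  subst h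
  rfl

variable [IsManifold 𝓘(ℝ, E n) ∞ M]

theorem tr_smooth {e e' : OpenPartialHomeomorph M (E n)} (he : e ∈ atlas (E n) M)
    (he' : e' ∈ atlas (E n) M) : ContDiffOn ℝ ∞ (tr e e') (ov e e') := by
  have h1 : ContMDiffOn 𝓘(ℝ, E n) 𝓘(ℝ, E n) ∞ e' e'.source :=
    contMDiffOn_of_mem_maximalAtlas (IsManifold.subset_maximalAtlas he')
  have h2 : ContMDiffOn 𝓘(ℝ, E n) 𝓘(ℝ, E n) ∞ e.symm e.target :=
    contMDiffOn_symm_of_mem_maximalAtlas (IsManifold.subset_maximalAtlas he)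
  have h3 : ContMDiffOn 𝓘(ℝ, E n) 𝓘(ℝ, E n) ∞ (e' ∘ e.symm) (ov e e') :=
    h1.comp (h2.mono Set.inter_subset_left) fun _ hy => hy.2
  exact contMDiffOn_iff_contDiffOn.mp h3

theorem tr_contDiffAt {e e' : OpenPartialHomeomorph M (E n)} (he : e ∈ atlas (E n) M)
    (he' : e' ∈ atlas (E n) M) {y : E n} (hy : y ∈ ov e e') : ContDiffAt ℝ ∞ (tr e e') y :=
  (tr_smooth he he').contDiffAt ((ov_open e e').mem_nhds hy)

theorem tr_differentiableAt {e e' : OpenPartialHomeomorph M (E n)} (he : e ∈ atlas (E n) M)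
    (he' : e' ∈ atlas (E n) M) {y : E n} (hy : y ∈ ov e e') :
    DifferentiableAt ℝ (tr e e') y :=
  (tr_contDiffAt he he' hy).differentiableAt (by simp)

theorem minSmoothness_le : minSmoothness ℝ 2 ≤ ∞ := by
  rw [minSmoothness_of_isRCLikeNormedField]
  exact WithTop.coe_le_coe.mpr le_top

theorem atlas_mdiff {e : OpenPartialHomeomorph M (E n)} (he : e ∈ atlas (E n) M) :
    e.MDifferentiable 𝓘(ℝ, E n) 𝓘(ℝ, E n) := by
  have : IsManifold 𝓘(ℝ, E n) 1 M := IsManifold.of_le (n := ∞) (by simp)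
  exact mdifferentiable_of_mem_atlas he

/-- chain rule -/
theorem mfderiv_symm_tr {e e' : OpenPartialHomeomorph M (E n)} (he : e ∈ atlas (E n) M)
    (he' : e' ∈ atlas (E n) M) {y : E n} (hy : y ∈ ov e e') (v : E n) :
    (mfderiv 𝓘(ℝ, E n) 𝓘(ℝ, E n) e.symm y v : E n) =
      (mfderiv 𝓘(ℝ, E n) 𝓘(ℝ, E n) e'.symm (tr e e' y) (fderiv ℝ (tr e e') y v) : E n) := by
  have h1 : (e.symm : E n → M) =ᶠ[𝓝 y] (e'.symm ∘ tr e e') := by
    filter_upwards [(ov_open e e').mem_nhds hy] with z hz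
    exact (symm_tr hz).symm
  have h2 := h1.mfderiv_eq (I := 𝓘(ℝ, E n)) (I' := 𝓘(ℝ, E n))
  have h3 := mfderiv_comp (I := 𝓘(ℝ, E n)) (I' := 𝓘(ℝ, E n)) (I'' := 𝓘(ℝ, E n)) y
    (g := (e'.symm : E n → M)) (f := tr e e')
    ((atlas_mdiff he').mdifferentiableAt_symm (tr_mem hy).1)
    (tr_differentiableAt he he' hy).mdifferentiableAt
  rw [mfderiv_eq_fderiv] at h3
  have h4 := congrArg (fun L : E n →L[ℝ] E n => L v) h2
  have h5 := congrArg (fun L : E n →L[ℝ] E n => L v) h3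
  exact h4.trans h5

/-- chain rule, the other side -/
theorem mfderiv_mfderiv_symm {e e' : OpenPartialHomeomorph M (E n)} (he : e ∈ atlas (E n) M)
    (he' : e' ∈ atlas (E n) M) {y : E n} (hy : y ∈ ov e e') (v : E n) :
    (mfderiv 𝓘(ℝ, E n) 𝓘(ℝ, E n) e' (e.symm y)
      (mfderiv 𝓘(ℝ, E n) 𝓘(ℝ, E n) e.symm y v) : E n) = fderiv ℝ (tr e e') y v := by
  have h3 := mfderiv_comp (I := 𝓘(ℝ, E n)) (I' := 𝓘(ℝ, E n)) (I'' := 𝓘(ℝ, E n)) y
    (g := (e' : M → E n)) (f := (e.symm : E n → M))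
    ((atlas_mdiff he').mdifferentiableAt hy.2)
    ((atlas_mdiff he).mdifferentiableAt_symm hy.1)
  have h4 : mfderiv 𝓘(ℝ, E n) 𝓘(ℝ, E n) ((e' : M → E n) ∘ (e.symm : E n → M)) y =
      fderiv ℝ (tr e e') y := mfderiv_eq_fderiv
  rw [h4] at h3
  exact (congrArg (fun L : E n →L[ℝ] E n => L v) h3).symm

theorem loc_tr {e e' : OpenPartialHomeomorph M (E n)} (he : e ∈ atlas (E n) M)
    (he' : e' ∈ atlas (E n) M) (α : Form n M p) {y : E n} (hy : y ∈ ov e e') :
    loc e α y = pbk (fderiv ℝ (tr e e') y) (loc e' α (tr e e' y)) := by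
  ext v
  change α (e.symm y) (fun i => (mfderiv 𝓘(ℝ, E n) 𝓘(ℝ, E n) e.symm y (v i) : E n)) =
    α (e'.symm (tr e e' y)) (fun i => (mfderiv 𝓘(ℝ, E n) 𝓘(ℝ, E n) e'.symm (tr e e' y)
      (fderiv ℝ (tr e e') y (v i)) : E n))
  have h : (fun i => (mfderiv 𝓘(ℝ, E n) 𝓘(ℝ, E n) e.symm y (v i) : E n)) =
      fun i => (mfderiv 𝓘(ℝ, E n) 𝓘(ℝ, E n) e'.symm (tr e e' y)
      (fderiv ℝ (tr e e') y (v i)) : E n) := funext fun i => mfderiv_symm_tr he he' hy (v i)
  rw [h]
  exact form_congr (symm_tr hy).symm α _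

/-- the derivative of a transition map is invertible -/
theorem fderiv_tr_comp {e e' : OpenPartialHomeomorph M (E n)} (he : e ∈ atlas (E n) M)
    (he' : e' ∈ atlas (E n) M) {y : E n} (hy : y ∈ ov e e') (v : E n) :
    fderiv ℝ (tr e' e) (tr e e' y) (fderiv ℝ (tr e e') y v) = v := by
  have h1 : (tr e' e ∘ tr e e') =ᶠ[𝓝 y] id := by
    filter_upwards [(ov_open e e').mem_nhds hy] with z hz
    exact tr_tr hz
  have h2 := h1.fderiv_eq (𝕜 := ℝ)
  rw [fderiv_comp y (tr_differentiableAt he' he (tr_mem hy)) (tr_differentiableAt he he' hy),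
    fderiv_id] at h2
  exact congrArg (fun L : E n →L[ℝ] E n => L v) h2

/-- a form is determined by its expressions in charts -/
theorem form_ext {α β : Form n M p}
    (h : ∀ e ∈ atlas (E n) M, ∀ y ∈ e.target, loc e α y = loc e β y) : α = β := by
  funext x
  ext w
  have he := chart_mem_atlas (E n) x
  have hx := mem_chart_source (E n) x
  have h1 := h _ he _ (mem_chart_target (E n) x)
  have h2 := DFunLike.congr_fun h1 fun i =>
    (mfderiv 𝓘(ℝ, E n) 𝓘(ℝ, E n) (chartAt (E n) x) x (w i) : E n)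
  have h3 : ∀ i, (mfderiv 𝓘(ℝ, E n) 𝓘(ℝ, E n) (chartAt (E n) x).symm (chartAt (E n) x x)
      (mfderiv 𝓘(ℝ, E n) 𝓘(ℝ, E n) (chartAt (E n) x) x (w i)) : E n) = w i := fun i =>
    congrArg (fun L : E n →L[ℝ] E n => L (w i)) ((atlas_mdiff he).symm_comp_deriv hx)
  have h4 : ∀ γ : Form n M p, loc (chartAt (E n) x) γ (chartAt (E n) x x)
      (fun i => (mfderiv 𝓘(ℝ, E n) 𝓘(ℝ, E n) (chartAt (E n) x) x (w i) : E n)) = γ x w := by
    intro γ
    change γ ((chartAt (E n) x).symm (chartAt (E n) x x)) (fun i =>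
      (mfderiv 𝓘(ℝ, E n) 𝓘(ℝ, E n) (chartAt (E n) x).symm (chartAt (E n) x x)
      (mfderiv 𝓘(ℝ, E n) 𝓘(ℝ, E n) (chartAt (E n) x) x (w i)) : E n)) = γ x w
    rw [funext h3]
    exact form_congr ((chartAt (E n) x).left_inv hx) γ w
  exact (h4 α).symm.trans (h2.trans (h4 β))

theorem loc_dM {α : Form n M p} (hα : Smooth α) {e : OpenPartialHomeomorph M (E n)}
    (he : e ∈ atlas (E n) M) {y : E n} (hy : y ∈ e.target) :
    loc e (dM α) y = extDeriv (loc e α) y := by
  have he' := chart_mem_atlas (E n) (e.symm y)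
  have hy' : y ∈ ov e (chartAt (E n) (e.symm y)) := ⟨hy, mem_chart_source (E n) (e.symm y)⟩
  have h1 : loc e α =ᶠ[𝓝 y] fun z => (loc (chartAt (E n) (e.symm y)) α
      (tr e (chartAt (E n) (e.symm y)) z)).compContinuousLinearMap
        (fderiv ℝ (tr e (chartAt (E n) (e.symm y))) z) := by
    filter_upwards [(ov_open _ _).mem_nhds hy'] with z hz
    exact loc_tr he he' α hz
  have hd : DifferentiableAt ℝ (loc (chartAt (E n) (e.symm y)) α)
      (tr e (chartAt (E n) (e.symm y)) y) := hα.differentiableAt (e.symm y)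
  rw [h1.extDeriv_eq, extDeriv_pullback (r := ∞) hd (tr_contDiffAt he he' hy') minSmoothness_le]
  ext v
  change extDeriv (loc (chartAt (E n) (e.symm y)) α) (chartAt (E n) (e.symm y) (e.symm y))
    (fun i => (mfderiv 𝓘(ℝ, E n) 𝓘(ℝ, E n) (chartAt (E n) (e.symm y)) (e.symm y)
      (mfderiv 𝓘(ℝ, E n) 𝓘(ℝ, E n) e.symm y (v i)) : E n)) =
    extDeriv (loc (chartAt (E n) (e.symm y)) α) (tr e (chartAt (E n) (e.symm y)) y)
      (fun i => fderiv ℝ (tr e (chartAt (E n) (e.symm y))) y (v i))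
  rw [funext fun i => mfderiv_mfderiv_symm he he' hy' (v i)]
  rfl

theorem contDiffOn_extDeriv {U : Set (E n)} (hU : IsOpen U) {a : E n → Alt n p}
    (ha : ContDiffOn ℝ ∞ a U) : ContDiffOn ℝ ∞ (extDeriv a) U := by
  have h := ha.fderiv_of_isOpen (m := ∞) hU (by simp)
  exact (ContinuousAlternatingMap.alternatizeUncurryFinCLM ℝ (E n) ℝ).contDiff.comp_contDiffOn h

theorem Smooth.dM {α : Form n M p} (hα : Smooth α) : Smooth (dM α) := fun e he =>
  (contDiffOn_extDeriv e.open_target (hα e he)).congr fun _ hy => loc_dM hα he hy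

theorem dM_dM {α : Form n M p} (hα : Smooth α) : BH.dM (BH.dM α) = 0 := by
  refine form_ext fun e he y hy => ?_
  have h1 : loc e (BH.dM α) =ᶠ[𝓝 y] extDeriv (loc e α) := by
    filter_upwards [e.open_target.mem_nhds hy] with z hz
    exact loc_dM hα he hz
  rw [loc_dM hα.dM he hy, h1.extDeriv_eq, extDeriv_extDeriv_apply (r := ∞)
    ((hα e he).contDiffAt (e.open_target.mem_nhds hy)) minSmoothness_le, loc_zero]
  rfl

end BH
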