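import Pool.Agent.Lib.MP_4a593f_gt.BH.Fun

/-!
Row Cov: finite atlases with a partition of unity.
-/

open scoped Manifold ContDiff Bundle Topology

noncomputable section

universe u

namespace BH

variable {n p : ℕ} {M : Type u} [TopologicalSpace M] [ChartedSpace (E n) M]

variable (n M)

/-- a finite family of charts with a subordinate partition of unity -/
structure Cover where
  /-- number of charts -/
  N : ℕ
  /-- the charts -/
  ch : Fin N → OpenPartialHomeomorph M (E n)
  /-- the partition of unity -/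
  χ : Fin N → M → ℝ
  mem : ∀ i, ch i ∈ atlas (E n) M
  smooth : ∀ i, SmF n (χ i)
  nonneg : ∀ i x, 0 ≤ χ i x
  sum : ∀ x, ∑ i, χ i x = 1
  supp : ∀ i, tsupport (χ i) ⊆ (ch i).source

theorem exists_cover [IsManifold 𝓘(ℝ, E n) ∞ M] [CompactSpace M] [T2Space M] :
    Nonempty (Cover n M) := by
  obtain ⟨t, ht⟩ := (isCompact_univ (X := M)).elim_finite_subcover
    (fun x : M => (chartAt (E n) x).source) (fun x => (chartAt (E n) x).open_source)
    (fun x _ => Set.mem_iUnion.2 ⟨x, mem_chart_source (E n) x⟩)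
  let c : Fin t.card → M := fun i => (t.equivFin.symm i : M)
  obtain ⟨f, hf⟩ := SmoothPartitionOfUnity.exists_isSubordinate 𝓘(ℝ, E n)
    (isClosed_univ (X := M)) (fun i => (chartAt (E n) (c i)).source)
    (fun i => (chartAt (E n) (c i)).open_source) (fun x hx => by
      obtain ⟨y, hy⟩ := Set.mem_iUnion.1 (ht hx)
      obtain ⟨hyt, hy⟩ := Set.mem_iUnion.1 hy
      refine Set.mem_iUnion.2 ⟨t.equivFin ⟨y, hyt⟩, ?_⟩
      have h : c (t.equivFin ⟨y, hyt⟩) = y := by
        simp only [c, Equiv.symm_apply_apply]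
      rw [h]
      exact hy)
  refine ⟨⟨t.card, fun i => chartAt (E n) (c i), fun i => f i, fun i => chart_mem_atlas _ _,
    fun i => smF_of_contMDiff (f i).contMDiff, fun i x => f.nonneg i x, fun x => ?_,
    fun i => hf i⟩⟩
  rw [← finsum_eq_sum_of_fintype]
  exact f.sum_eq_one (Set.mem_univ x)

variable {n M}

/-- the compact image of the support of `χ_i` in the chart -/
def Cover.K (C : Cover n M) (i : Fin C.N) : Set (E n) := C.ch i '' tsupport (C.χ i)

theorem Cover.K_compact [CompactSpace M] (C : Cover n M) (i : Fin C.N) : IsCompact (C.K i) :=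
  ((isClosed_tsupport _).isCompact).image_of_continuousOn
    ((C.ch i).continuousOn.mono (C.supp i))

theorem Cover.K_subset (C : Cover n M) (i : Fin C.N) : C.K i ⊆ (C.ch i).target := by
  rintro _ ⟨x, hx, rfl⟩
  exact (C.ch i).map_source (C.supp i hx)

theorem Cover.χ_off (C : Cover n M) (i : Fin C.N) {y : E n} (hy : y ∈ (C.ch i).target)
    (h : y ∉ C.K i) : C.χ i ((C.ch i).symm y) = 0 := by
  by_contra h0
  exact h ⟨(C.ch i).symm y, subset_tsupport _ h0, (C.ch i).right_inv hy⟩

theorem Cover.sum_fs (C : Cover n M) (α : Form n M p) : ∑ i, fs (C.χ i) α = α := by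
  funext x
  rw [Finset.sum_apply]
  change ∑ i, C.χ i x • α x = α x
  rw [← Finset.sum_smul, C.sum x, one_smul]

end BH
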