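import Pool.Agent.Lib.MP_4a593f_gt.BH.Par

/-!
# The homotopy formula on a cylinder

For a `(p+1)`-form `Om` on `R x E` near `[0,1] x {x}` put `cyl Om x (v) = int_0^1 Om(t,x)(d/dt, v)`.
Then `d (cyl Om) + cyl (d Om) = Om|_{t=1} - Om|_{t=0}`.
-/

open Set Filter MeasureTheory Topology ContinuousAlternatingMap

namespace Pool.Agent.Lib.MP_4a593f_gt.BH

set_option linter.unusedSectionVars false

variable {E F : Type} [NormedAddCommGroup E] [NormedSpace ℝ E]
  [NormedAddCommGroup F] [NormedSpace ℝ F] [CompleteSpace F] {p : ℕ}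

/-- The restriction of a form on `R x E` to the slice at time `t`. -/
noncomputable def slice (Om : ℝ × E → (ℝ × E) [⋀^Fin p]→L[ℝ] F) (t : ℝ) (x : E) :
    E [⋀^Fin p]→L[ℝ] F :=
  (Om (t, x)).compContinuousLinearMap (ContinuousLinearMap.inr ℝ ℝ E)

/-- Contraction with the vector field of the time variable, restricted to the slice. -/
noncomputable def fib (Om : ℝ × E → (ℝ × E) [⋀^Fin (p + 1)]→L[ℝ] F) (z : E × ℝ) :
    E [⋀^Fin p]→L[ℝ] F :=
  ((Om (z.2, z.1)).curryLeft (1, 0)).compContinuousLinearMap (ContinuousLinearMap.inr ℝ ℝ E)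

/-- Integration over the fibre of the cylinder. -/
noncomputable def cyl (Om : ℝ × E → (ℝ × E) [⋀^Fin (p + 1)]→L[ℝ] F) (x : E) :
    E [⋀^Fin p]→L[ℝ] F :=
  ∫ t in Icc (0 : ℝ) 1, fib Om (x, t)

/-- The linear map behind `fib`. -/
noncomputable def fibL : ((ℝ × E) [⋀^Fin (p + 1)]→L[ℝ] F) →L[ℝ] (E [⋀^Fin p]→L[ℝ] F) :=
  (compContinuousLinearMapCLM (ContinuousLinearMap.inr ℝ ℝ E)).comp
    ((ContinuousLinearMap.apply ℝ ((ℝ × E) [⋀^Fin p]→L[ℝ] F) ((1, 0) : ℝ × E)).comp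
      (curryLeftLI (𝕜 := ℝ) (E := ℝ × E) (F := F) (n := p)).toContinuousLinearMap)

/-- The linear map behind `slice`. -/
noncomputable def sliceL : ((ℝ × E) [⋀^Fin p]→L[ℝ] F) →L[ℝ] (E [⋀^Fin p]→L[ℝ] F) :=
  compContinuousLinearMapCLM (ContinuousLinearMap.inr ℝ ℝ E)

theorem fib_eq (Om : ℝ × E → (ℝ × E) [⋀^Fin (p + 1)]→L[ℝ] F) (z : E × ℝ) :
    fib Om z = fibL (Om (z.2, z.1)) := by
  ext v
  simp [fib, fibL]

theorem slice_eq (Om : ℝ × E → (ℝ × E) [⋀^Fin p]→L[ℝ] F) (t : ℝ) (x : E) :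
    slice Om t x = sliceL (Om (t, x)) := by
  ext v
  simp [slice, sliceL]

/-- Cartan's formula for the field `d/dt`, in coordinates. -/
theorem fib_pt (D : ℝ × E →L[ℝ] (ℝ × E) [⋀^Fin (p + 1)]→L[ℝ] F) :
    alternatizeUncurryFin ((fibL.comp D).comp (ContinuousLinearMap.inr ℝ ℝ E)) +
      fibL (alternatizeUncurryFin D) = sliceL (D (1, 0)) := by
  ext v
  have h1 : ∀ (w : Fin p → E) (y : ℝ × E),
      fibL (D y) w = D y (Fin.cons ((1, 0) : ℝ × E) (fun i => ((0 : ℝ), w i))) := by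
    intro w y
    simp [fibL]
    rfl
  have h2 : ∀ (T : (ℝ × E) [⋀^Fin (p + 2)]→L[ℝ] F) (w : Fin (p + 1) → E),
      fibL T w = T (Fin.cons ((1, 0) : ℝ × E) (fun i => ((0 : ℝ), w i))) := by
    intro T w
    simp [fibL]
    rfl
  have h3 : ∀ i : Fin (p + 1), (Fin.succ i).removeNth
      (Fin.cons ((1, 0) : ℝ × E) (fun i => ((0 : ℝ), v i)) : Fin (p + 2) → ℝ × E) =
      Fin.cons ((1, 0) : ℝ × E) (fun j => ((0 : ℝ), i.removeNth v j)) := by
    intro i
    funext j
    refine Fin.cases ?_ (fun j => ?_) j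
    · simp [Fin.removeNth]
    · simp [Fin.removeNth]
  simp only [ContinuousAlternatingMap.add_apply, alternatizeUncurryFin_apply, h2,
    ContinuousLinearMap.comp_apply, ContinuousLinearMap.inr_apply, h1]
  rw [Fin.sum_univ_succ (n := p + 1)]
  simp only [h3, Fin.cons_zero, Fin.cons_succ, Fin.val_succ, Fin.val_zero, pow_zero, one_smul,
    pow_succ, mul_neg, mul_one, neg_smul, Finset.sum_neg_distrib, Fin.removeNth_zero,
    Fin.tail_cons]
  rw [add_comm, add_assoc, neg_add_cancel, add_zero]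
  simp [sliceL]
  rfl

theorem contDiffAt_fib {Om : ℝ × E → (ℝ × E) [⋀^Fin (p + 1)]→L[ℝ] F} {r : WithTop ℕ∞}
    {t : ℝ} {x : E} (h : ContDiffAt ℝ r Om (t, x)) : ContDiffAt ℝ r (fib Om) (x, t) := by
  have h1 : fib Om = fun z => fibL (Om (z.2, z.1)) := funext fun z => fib_eq Om z
  rw [h1]
  have h2 : ContDiffAt ℝ r (fun z : E × ℝ => (z.2, z.1)) (x, t) := by fun_prop
  exact fibL.contDiff.contDiffAt.comp (x, t) (ContDiffAt.comp (x, t) h h2)

/-- Smoothness of the fibre integral. -/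
theorem contDiffOn_cyl {Om : ℝ × E → (ℝ × E) [⋀^Fin (p + 1)]→L[ℝ] F} {r : ℕ∞} {U : Set E}
    (hU : IsOpen U) (h : ∀ x ∈ U, ∀ t ∈ Icc (0 : ℝ) 1, ContDiffAt ℝ r Om (t, x)) :
    ContDiffOn ℝ r (cyl Om) U :=
  contDiffOn_intK volume isCompact_Icc hU fun x hx t ht => contDiffAt_fib (h x hx t ht)

/-- **Homotopy formula.** -/
theorem extDeriv_cyl {Om : ℝ × E → (ℝ × E) [⋀^Fin (p + 1)]→L[ℝ] F} {U : Set E}
    (hU : IsOpen U) (h : ∀ x ∈ U, ∀ t ∈ Icc (0 : ℝ) 1, ContDiffAt ℝ 1 Om (t, x)) {x : E}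
    (hx : x ∈ U) :
    extDeriv (cyl Om) x + cyl (extDeriv Om) x = slice Om 1 x - slice Om 0 x := by
  have h1 : HasFDerivAt (cyl Om) (∫ t in Icc (0 : ℝ) 1, dfst (fib Om) (x, t)) x :=
    hasFDerivAt_intK volume isCompact_Icc hU (fun x hx t ht => contDiffAt_fib (h x hx t ht)) hx
  have hd : ∀ t ∈ Icc (0 : ℝ) 1, ContinuousAt (dfst (fib Om)) (x, t) := fun t ht =>
    (contDiffAt_dfst (m := 0) (contDiffAt_fib (h x hx t ht)) (by simp)).continuousAt
  have hi1 : IntegrableOn (fun t => dfst (fib Om) (x, t)) (Icc (0 : ℝ) 1) :=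
    integrableOn_slice volume isCompact_Icc hd
  have hdf : ∀ t ∈ Icc (0 : ℝ) 1, dfst (fib Om) (x, t) =
      (fibL.comp (fderiv ℝ Om (t, x))).comp (ContinuousLinearMap.inr ℝ ℝ E) := by
    intro t ht
    have h2 : HasFDerivAt (fun z => fib Om (z, t)) (dfst (fib Om) (x, t)) x :=
      hasFDerivAt_fst ((contDiffAt_fib (h x hx t ht)).differentiableAt one_ne_zero)
    have h3 : HasFDerivAt (fun z : E => (t, z)) (ContinuousLinearMap.inr ℝ ℝ E) x :=
      hasFDerivAt_prodMk_right t x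
    have h4 : HasFDerivAt Om (fderiv ℝ Om (t, x)) (t, x) :=
      ((h x hx t ht).differentiableAt one_ne_zero).hasFDerivAt
    have h5 : HasFDerivAt (fun z => fibL (Om (t, z)))
        (fibL.comp ((fderiv ℝ Om (t, x)).comp (ContinuousLinearMap.inr ℝ ℝ E))) x :=
      (fibL (E := E) (F := F) (p := p)).hasFDerivAt.comp x (h4.comp x h3)
    have h6 : (fun z => fib Om (z, t)) = fun z => fibL (Om (t, z)) :=
      funext fun z => fib_eq Om (z, t)
    rw [h6] at h2
    exact h2.unique h5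
  have hcont : ContinuousOn (fun t => fderiv ℝ Om (t, x)) (Icc (0 : ℝ) 1) := fun t ht => by
    have h2 : ContinuousAt (fderiv ℝ Om) (t, x) :=
      ((h x hx t ht).fderiv_right (m := 0) (by simp)).continuousAt
    have h3 : ContinuousAt (fun t : ℝ => (t, x)) t := by fun_prop
    exact (h2.comp (f := fun t : ℝ => (t, x)) h3).continuousWithinAt
  have hi2 : IntegrableOn (fun t => fib (extDeriv Om) (x, t)) (Icc (0 : ℝ) 1) := by
    refine ContinuousOn.integrableOn_compact isCompact_Icc ?_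
    have h2 : ContinuousOn (fun t => fibL (alternatizeUncurryFinCLM ℝ (ℝ × E) F
        (fderiv ℝ Om (t, x)))) (Icc (0 : ℝ) 1) := by
      exact (fibL (E := E) (F := F) (p := p + 1)).continuous.comp_continuousOn
        ((alternatizeUncurryFinCLM (n := p + 1) ℝ (ℝ × E) F).continuous.comp_continuousOn hcont)
    refine h2.congr fun t _ => ?_
    rw [fib_eq]
    rfl
  have h7 : extDeriv (cyl Om) x = ∫ t in Icc (0 : ℝ) 1,
      alternatizeUncurryFin (dfst (fib Om) (x, t)) := by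
    unfold extDeriv
    rw [h1.fderiv]
    exact ((alternatizeUncurryFinCLM ℝ E F).integral_comp_comm hi1).symm
  have hi3 : IntegrableOn (fun t => alternatizeUncurryFin (dfst (fib Om) (x, t)))
      (Icc (0 : ℝ) 1) := by
    have h := ContinuousLinearMap.integrable_comp
      (alternatizeUncurryFinCLM (n := p) ℝ E F : _ →L[ℝ] E [⋀^Fin (p + 1)]→L[ℝ] F) hi1
    exact h
  rw [h7, cyl, ← integral_add hi3 hi2]
  have h8 : ∫ t in Icc (0 : ℝ) 1, (alternatizeUncurryFin (dfst (fib Om) (x, t)) +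
      fib (extDeriv Om) (x, t)) = ∫ t in Icc (0 : ℝ) 1, sliceL (fderiv ℝ Om (t, x) (1, 0)) := by
    refine setIntegral_congr_fun measurableSet_Icc fun t ht => ?_
    change alternatizeUncurryFin (dfst (fib Om) (x, t)) + fib (extDeriv Om) (x, t) = _
    rw [hdf t ht, fib_eq]
    exact fib_pt (fderiv ℝ Om (t, x))
  rw [h8, slice_eq, slice_eq, integral_Icc_eq_integral_Ioc,
    ← intervalIntegral.integral_of_le zero_le_one]
  have h9 : ∀ t ∈ Set.uIcc (0 : ℝ) 1, HasDerivAt (fun t => sliceL (Om (t, x)))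
      (sliceL (fderiv ℝ Om (t, x) (1, 0))) t := by
    intro t ht
    rw [uIcc_of_le zero_le_one] at ht
    have h4 : HasFDerivAt Om (fderiv ℝ Om (t, x)) (t, x) :=
      ((h x hx t ht).differentiableAt one_ne_zero).hasFDerivAt
    have h3 : HasDerivAt (fun t : ℝ => (t, x)) ((1 : ℝ), (0 : E)) t :=
      (hasDerivAt_id t).prodMk (hasDerivAt_const t x)
    exact (sliceL (E := E) (F := F) (p := p + 1)).hasFDerivAt.comp_hasDerivAt t
      (h4.comp_hasDerivAt t h3)
  refine intervalIntegral.integral_eq_sub_of_hasDerivAt h9 ?_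
  refine ContinuousOn.intervalIntegrable ?_
  rw [uIcc_of_le zero_le_one]
  exact (sliceL (E := E) (F := F) (p := p + 1)).continuous.comp_continuousOn
    (hcont.clm_apply continuousOn_const)

end Pool.Agent.Lib.MP_4a593f_gt.BH
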