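import Mathlib

/-!
# Closed Riemannian manifolds: differential forms, de Rham Betti numbers, curvature

The definitions used in the statements. `M` is a smooth manifold modelled on `ℝⁿ`
(`IsManifold 𝓘(ℝ, E n) ∞ M`), without boundary.
-/

open scoped Manifold ContDiff Bundle Topology

noncomputable section

universe u

namespace BH

/-- The model space `ℝⁿ`. -/
abbrev E (n : ℕ) := EuclideanSpace ℝ (Fin n)

/-- Alternating `p`-linear forms on `ℝⁿ`. -/
abbrev Alt (n p : ℕ) := (E n) [⋀^Fin p]→L[ℝ] ℝ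

/-- The standard basis of `ℝⁿ`. -/
def bv {n : ℕ} (i : Fin n) : E n := EuclideanSpace.single i (1 : ℝ)

/-! ### Differential forms -/

section Forms

variable (n : ℕ) (M : Type u) [TopologicalSpace M] [ChartedSpace (E n) M]

/-- A field of alternating `p`-forms on the tangent spaces of `M` (no regularity). -/
abbrev Form (p : ℕ) := (x : M) → (TangentSpace 𝓘(ℝ, E n) x) [⋀^Fin p]→L[ℝ] ℝ

/-- the pointwise addition of forms (helps instance search) -/
instance instFormGroup (p : ℕ) : AddCommGroup (Form n M p) := Pi.addCommGroup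

variable {n M}

/-- The form `α` in the chart `e`: its pullback under `e⁻¹`. -/
def loc {p : ℕ} (e : OpenPartialHomeomorph M (E n)) (α : Form n M p) : E n → Alt n p :=
  fun y => (α (e.symm y)).compContinuousLinearMap
    (mfderiv 𝓘(ℝ, E n) 𝓘(ℝ, E n) e.symm y)

/-- Smooth forms: smooth in every chart of the atlas. -/
def Smooth {p : ℕ} (α : Form n M p) : Prop :=
  ∀ e ∈ atlas (E n) M, ContDiffOn ℝ ∞ (loc e α) e.target

/-- The exterior derivative, computed at `x` in the chart at `x`. -/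
def dM {p : ℕ} (α : Form n M p) : Form n M (p + 1) := fun x =>
  (extDeriv (loc (chartAt (E n) x) α) (chartAt (E n) x x)).compContinuousLinearMap
    (mfderiv 𝓘(ℝ, E n) 𝓘(ℝ, E n) (chartAt (E n) x) x)

theorem loc_add {p : ℕ} (e : OpenPartialHomeomorph M (E n)) (α β : Form n M p) :
    loc e (α + β) = loc e α + loc e β := by
  funext y
  ext v
  rfl

theorem loc_smul {p : ℕ} (e : OpenPartialHomeomorph M (E n)) (c : ℝ) (α : Form n M p) :
    loc e (c • α) = c • loc e α := by
  funext y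
  ext v
  rfl

theorem loc_zero {p : ℕ} (e : OpenPartialHomeomorph M (E n)) :
    loc e (0 : Form n M p) = 0 := by
  funext y
  ext v
  rfl

theorem smooth_zero {p : ℕ} : Smooth (0 : Form n M p) := fun e _ => by
  rw [loc_zero]
  exact contDiffOn_const

theorem Smooth.add {p : ℕ} {α β : Form n M p} (hα : Smooth α) (hβ : Smooth β) :
    Smooth (α + β) := fun e he => by
  rw [loc_add]
  exact (hα e he).add (hβ e he)

theorem Smooth.smul {p : ℕ} (c : ℝ) {α : Form n M p} (hα : Smooth α) :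
    Smooth (c • α) := fun e he => by
  rw [loc_smul]
  exact (hα e he).const_smul c

theorem Smooth.differentiableAt {p : ℕ} {α : Form n M p} (hα : Smooth α) (x : M) :
    DifferentiableAt ℝ (loc (chartAt (E n) x) α) (chartAt (E n) x x) :=
  ((hα _ (chart_mem_atlas _ x)).contDiffAt
    ((chartAt (E n) x).open_target.mem_nhds (mem_chart_target _ x))).differentiableAt (by simp)


theorem dM_add {p : ℕ} {α β : Form n M p} (hα : Smooth α) (hβ : Smooth β) :
    dM (α + β) = dM α + dM β := by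
  funext x
  unfold dM
  rw [loc_add, extDeriv_add (hα.differentiableAt x) (hβ.differentiableAt x)]
  ext v
  rfl

theorem dM_smul {p : ℕ} (c : ℝ) {α : Form n M p} : dM (c • α) = c • dM α := by
  funext x
  unfold dM
  rw [loc_smul, extDeriv_smul]
  ext v
  rfl

theorem dM_zero {p : ℕ} : dM (0 : Form n M p) = 0 := by
  have h := dM_smul (0 : ℝ) (α := (0 : Form n M p))
  rwa [zero_smul, zero_smul] at h

variable (n M)

/-- The smooth `p`-forms. -/
def smoothForms (p : ℕ) : Submodule ℝ (Form n M p) where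
  carrier := {α | Smooth α}
  zero_mem' := smooth_zero
  add_mem' := fun h1 h2 => Smooth.add h1 h2
  smul_mem' := fun c _ h => Smooth.smul c h

/-- The closed smooth `p`-forms. -/
def closedForms (p : ℕ) : Submodule ℝ (Form n M p) where
  carrier := {α | Smooth α ∧ dM α = 0}
  zero_mem' := ⟨smooth_zero, dM_zero⟩
  add_mem' := fun h1 h2 => ⟨h1.1.add h2.1, by rw [dM_add h1.1 h2.1, h1.2, h2.2, add_zero]⟩
  smul_mem' := fun c _ h => ⟨h.1.smul c, by rw [dM_smul, h.2, smul_zero]⟩

/-- The exact `p`-forms: the forms `dβ`, `β` a smooth `(p-1)`-form (`0` for `p = 0`). -/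
def exactForms : (p : ℕ) → Submodule ℝ (Form n M p)
  | 0 => ⊥
  | p + 1 =>
    { carrier := {α | ∃ β : Form n M p, Smooth β ∧ dM β = α}
      zero_mem' := ⟨0, smooth_zero, dM_zero⟩
      add_mem' := fun ⟨β, h1, h2⟩ ⟨γ, h3, h4⟩ =>
        ⟨β + γ, h1.add h3, by rw [dM_add h1 h3, h2, h4]⟩
      smul_mem' := fun c _ ⟨β, h1, h2⟩ => ⟨c • β, h1.smul c, by rw [dM_smul, h2]⟩ }

/-- The `p`-th de Rham cohomology: closed forms modulo exact forms. -/
abbrev deRham (p : ℕ) :=
  closedForms n M p ⧸ (exactForms n M p).comap (closedForms n M p).subtype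

/-- The `p`-th real Betti number. -/
def betti (p : ℕ) : ℕ := Module.finrank ℝ (deRham n M p)

/-- The Euler characteristic. -/
def euler : ℤ := ∑ p ∈ Finset.range (n + 1), (-1) ^ p * (betti n M p : ℤ)

end Forms

/-! ### Curvature of a metric in coordinates -/

section Curv

variable {n : ℕ}

/-- Partial derivative. -/
def pd (i : Fin n) (u : E n → ℝ) (y : E n) : ℝ := fderiv ℝ u y (bv i)

/-- The matrix of the metric with components `G i j` at `y`. -/
def gmat (G : Fin n → Fin n → E n → ℝ) (y : E n) : Matrix (Fin n) (Fin n) ℝ :=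
  Matrix.of fun i j => G i j y

/-- Christoffel symbols `Γ^k_ij`. -/
def chr (G : Fin n → Fin n → E n → ℝ) (k i j : Fin n) (y : E n) : ℝ :=
  (1 / 2) * ∑ l, (gmat G y)⁻¹ k l * (pd i (G j l) y + pd j (G i l) y - pd l (G i j) y)

/-- The curvature tensor `R_ijkl = ⟨R(∂_i,∂_j)∂_l, ∂_k⟩`; the sectional curvature of the plane
spanned by orthonormal `v, w` is `R_ijkl vⁱ wʲ vᵏ wˡ`. -/
def riem (G : Fin n → Fin n → E n → ℝ) (i j k l : Fin n) (y : E n) : ℝ :=
  ∑ m, G k m y * (pd i (chr G m j l) y - pd j (chr G m i l) y +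
    ∑ a, (chr G m i a y * chr G a j l y - chr G m j a y * chr G a i l y))

end Curv

/-! ### Riemannian manifolds -/

section Riem

variable {n : ℕ} {M : Type u} [TopologicalSpace M] [ChartedSpace (E n) M]
  [IsManifold 𝓘(ℝ, E n) ∞ M]

variable (n M)

/-- Smooth Riemannian metrics on `M`. -/
abbrev Metric := Bundle.ContMDiffRiemannianMetric 𝓘(ℝ, E n) ∞ (E n)
  (fun x : M => TangentSpace 𝓘(ℝ, E n) x)

variable {n M}

/-- The components of the metric in the chart `e`. -/
def gloc (e : OpenPartialHomeomorph M (E n)) (g : Metric n M) (i j : Fin n) (y : E n) : ℝ :=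
  g.inner (e.symm y) (mfderiv 𝓘(ℝ, E n) 𝓘(ℝ, E n) e.symm y (bv i))
    (mfderiv 𝓘(ℝ, E n) 𝓘(ℝ, E n) e.symm y (bv j))

/-- At every point `x`, every sectional curvature `K(x,P)` satisfies `a x ≤ K(x,P) ≤ b x`
(in coordinates, in every chart of the atlas:
`a (|v|²|w|² - ⟨v,w⟩²) ≤ R_ijkl vⁱ wʲ vᵏ wˡ ≤ b (|v|²|w|² - ⟨v,w⟩²)`). -/
def SecBetween (g : Metric n M) (a b : M → ℝ) : Prop :=
  ∀ e ∈ atlas (E n) M, ∀ y ∈ e.target, ∀ v w : Fin n → ℝ,
    a (e.symm y) * ((∑ i, ∑ j, gloc e g i j y * v i * v j) *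
        (∑ i, ∑ j, gloc e g i j y * w i * w j) - (∑ i, ∑ j, gloc e g i j y * v i * w j) ^ 2) ≤
      ∑ i, ∑ j, ∑ k, ∑ l, riem (gloc e g) i j k l y * v i * w j * v k * w l ∧
    ∑ i, ∑ j, ∑ k, ∑ l, riem (gloc e g) i j k l y * v i * w j * v k * w l ≤
      b (e.symm y) * ((∑ i, ∑ j, gloc e g i j y * v i * v j) *
        (∑ i, ∑ j, gloc e g i j y * w i * w j) - (∑ i, ∑ j, gloc e g i j y * v i * w j) ^ 2)

/-- Positive sectional curvature. -/
def SecPos (g : Metric n M) : Prop :=
  ∀ e ∈ atlas (E n) M, ∀ y ∈ e.target, ∀ v w : Fin n → ℝ,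
    0 < (∑ i, ∑ j, gloc e g i j y * v i * v j) * (∑ i, ∑ j, gloc e g i j y * w i * w j) -
      (∑ i, ∑ j, gloc e g i j y * v i * w j) ^ 2 →
    0 < ∑ i, ∑ j, ∑ k, ∑ l, riem (gloc e g) i j k l y * v i * w j * v k * w l

/-- The curvature operator is `k`-positive at every point: `∑ R(ω_s, ω_s) > 0` for all
orthonormal bivectors `ω_1, ..., ω_k`, i.e. the sum of the `k` smallest eigenvalues of the
curvature operator is positive. -/
def CurvKPos (g : Metric n M) (k : ℕ) : Prop :=
  ∀ e ∈ atlas (E n) M, ∀ y ∈ e.target, ∀ w : Fin k → Fin n → Fin n → ℝ,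
    (∀ s i j, w s j i = -w s i j) →
    (∀ s t, (1 / 2) * ∑ i, ∑ j, ∑ a, ∑ c,
      gloc e g i a y * gloc e g j c y * w s i j * w t a c = if s = t then 1 else 0) →
    0 < ∑ s, (1 / 4) * ∑ i, ∑ j, ∑ a, ∑ c, riem (gloc e g) i j a c y * w s i j * w s a c

end Riem

end BH
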