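import Pool.Agent.Lib.MP_4a593f_gt.BH.Gl.DelC

/-!
The codifferential `del` (see `Gl/Del.lean`, `Gl/DelC.lean`): names used in part (P).
-/

open scoped Manifold ContDiff Bundle Topology Matrix

noncomputable section

universe u

namespace BH

variable {n p : ℕ} {M : Type u} [TopologicalSpace M] [ChartedSpace (E n) M]
  [IsManifold 𝓘(ℝ, E n) ∞ M] [CompactSpace M] [T2Space M]

theorem inner_dO_del (S : Sys n M) (p : ℕ) (a : Om S p) (f : Om S (p + 1)) :
    inner ℝ (dO S p a) f = inner ℝ a (del S p f) := inner_dO S p a f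

omit [T2Space M] in
theorem dO_dO (S : Sys n M) (p : ℕ) (a : Om S p) : dO S (p + 1) (dO S p a) = 0 :=
  Om.ext (dM_dM a.smooth)

end BH
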