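import Pool.Agent.Lib.MP_4a593f_gt.BH.LWzA

/-!
Row LWzB: the integrated Bochner formula and the local Bochner inequality.
-/

open scoped Manifold ContDiff Topology Matrix
open MeasureTheory

noncomputable section

namespace BH

variable {n p : ℕ} {U : Set (E n)} {G : Fin n → Fin n → E n → ℝ}

/-! ### Bilinear algebra -/

/-- `ipG` as a bilinear map -/
private def ipB (g : Matrix (Fin n) (Fin n) ℝ) : Alt n p →ₗ[ℝ] Alt n p →ₗ[ℝ] ℝ :=
  LinearMap.mk₂ ℝ (ipG g) (ipG_add_left g) (ipG_smul_left g) (ipG_add_right g)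
    (ipG_smul_right g)

private theorem ipB_apply (g : Matrix (Fin n) (Fin n) ℝ) (a c : Alt n p) :
    ipB g a c = ipG g a c := rfl

private theorem ipG_sum_left {ι : Type*} (s : Finset ι) (g : Matrix (Fin n) (Fin n) ℝ)
    (a : ι → Alt n p) (c : Alt n p) : ipG g (∑ i ∈ s, a i) c = ∑ i ∈ s, ipG g (a i) c := by
  rw [← ipB_apply, map_sum, LinearMap.sum_apply]
  rfl

private theorem ipG_sum_right {ι : Type*} (s : Finset ι) (g : Matrix (Fin n) (Fin n) ℝ)
    (a : Alt n p) (c : ι → Alt n p) : ipG g a (∑ i ∈ s, c i) = ∑ i ∈ s, ipG g a (c i) := by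
  rw [← ipB_apply, map_sum]
  rfl

private theorem ipG_zero_left (g : Matrix (Fin n) (Fin n) ℝ) (c : Alt n p) :
    ipG g 0 c = 0 := by
  rw [← ipB_apply, map_zero, LinearMap.zero_apply]

private theorem ipG_zero_right (g : Matrix (Fin n) (Fin n) ℝ) (a : Alt n p) :
    ipG g a 0 = 0 := by
  rw [← ipB_apply, map_zero]

private theorem symm_gmat (hG : IsMet U G) {y : E n} (hy : y ∈ U) :
    (gmat G y)ᵀ = gmat G y := by
  ext i j
  exact hG.symm j i y hy

private theorem symm_ginv (hG : IsMet U G) {y : E n} (hy : y ∈ U) (i j : Fin n) :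
    (gmat G y)⁻¹ i j = (gmat G y)⁻¹ j i := by
  have h : ((gmat G y)⁻¹)ᵀ = (gmat G y)⁻¹ := by
    rw [Matrix.transpose_nonsing_inv, symm_gmat hG hy]
  exact congrFun (congrFun h j) i

/-- positivity of `g^jk ⟨a_j, a_k⟩` -/
private theorem tens_nonneg {g : Matrix (Fin n) (Fin n) ℝ} (hg : g.PosDef)
    (a : Fin n → Alt n p) : 0 ≤ ∑ j, ∑ k, g⁻¹ j k * ipG g (a j) (a k) := by
  obtain ⟨u, hu⟩ := exists_frame hg
  have h1 : u * (uᵀ * g) = 1 := mul_eq_one_comm.1 hu
  have h2 : g⁻¹ = u * uᵀ := Matrix.inv_eq_left_inv (by rw [Matrix.mul_assoc]; exact h1)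
  have e : ∀ c, ipG g (∑ j, u j c • a j) (∑ k, u k c • a k) =
      ∑ j, ∑ k, u j c * u k c * ipG g (a j) (a k) := by
    intro c
    rw [ipG_sum_left]
    refine Finset.sum_congr rfl fun j _ => ?_
    rw [ipG_smul_left, ipG_sum_right, Finset.mul_sum]
    refine Finset.sum_congr rfl fun k _ => ?_
    rw [ipG_smul_right]
    ring
  have h3 : ∑ j, ∑ k, g⁻¹ j k * ipG g (a j) (a k) =
      ∑ c, ipG g (∑ j, u j c • a j) (∑ k, u k c • a k) := by
    calc ∑ j, ∑ k, g⁻¹ j k * ipG g (a j) (a k)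
        = ∑ j, ∑ k, ∑ c, u j c * u k c * ipG g (a j) (a k) := by
          refine Finset.sum_congr rfl fun j _ => Finset.sum_congr rfl fun k _ => ?_
          rw [h2, Matrix.mul_apply, Finset.sum_mul]
          rfl
      _ = ∑ c, ∑ j, ∑ k, u j c * u k c * ipG g (a j) (a k) :=
          (Finset.sum_congr rfl fun j _ => Finset.sum_comm).trans Finset.sum_comm
      _ = _ := Finset.sum_congr rfl fun c _ => (e c).symm
  rw [h3]
  exact Finset.sum_nonneg fun c _ => ipG_self_nonneg hg _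

theorem nn_nonneg (hG : IsMet U G) (f : E n → Alt n p) {y : E n} (hy : y ∈ U) :
    0 ≤ nn G f f y :=
  tens_nonneg (hG.pos y hy) fun j => nab G j f y

/-! ### Functions as 0-forms -/

/-- the 0-form `1` -/
private def one0 (n : ℕ) : Alt n 0 := ContinuousAlternatingMap.constOfIsEmpty ℝ (E n) (Fin 0) 1

private theorem c0_eq (u : E n → ℝ) : c0 u = fun y => u y • one0 n := by
  funext y
  ext v
  simp [c0, one0]

private theorem ipG_one0 (g : Matrix (Fin n) (Fin n) ℝ) : ipG g (one0 n) (one0 n) = 1 := by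
  unfold ipG ip0
  simp [arr, pb, one0]

theorem c0_smooth {χ : E n → ℝ} (hχ : ContDiffOn ℝ ∞ χ U) : ContDiffOn ℝ ∞ (c0 χ) U := by
  rw [c0_eq]
  exact hχ.smul contDiffOn_const

private theorem nab_c0 (hU : IsOpen U) {χ : E n → ℝ} (hχ : ContDiffOn ℝ ∞ χ U) {y : E n}
    (hy : y ∈ U) (k : Fin n) : nab G k (c0 χ) y = pd k χ y • one0 n := by
  have hd : DifferentiableAt ℝ χ y :=
    (hχ.contDiffAt (hU.mem_nhds hy)).differentiableAt (by simp)
  have h1 := (hd.hasFDerivAt.smul_const (one0 n)).fderiv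
  unfold nab pdF pd
  rw [c0_eq, h1]
  simp [act]

private theorem iou_eps0 (g : Matrix (Fin n) (Fin n) ℝ) (k j : Fin n) (b : Alt n 0) :
    iou g k (eps j b) = g⁻¹ k j • b := by
  unfold iou
  rw [LinearMap.sum_apply]
  simp only [LinearMap.smul_apply, iot_eps0]
  simp

/-- `⟨dχ,dφ⟩ = g^jk ∂_jχ ∂_kφ` -/
theorem ipG_dc0 (hU : IsOpen U) (hG : IsMet U G) {χ φ : E n → ℝ} (hχ : ContDiffOn ℝ ∞ χ U)
    (hφ : ContDiffOn ℝ ∞ φ U) {y : E n} (hy : y ∈ U) :
    ipG (gmat G y) (extDeriv (c0 χ) y) (extDeriv (c0 φ) y) =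
      ∑ j, ∑ k, (gmat G y)⁻¹ j k * (pd j χ y * pd k φ y) := by
  rw [ext_nab hU hG (c0_smooth hχ) hy, ext_nab hU hG (c0_smooth hφ) hy, ipG_sum_left]
  refine Finset.sum_congr rfl fun j _ => ?_
  rw [ipG_sum_right]
  refine Finset.sum_congr rfl fun k _ => ?_
  rw [nab_c0 hU hχ hy, nab_c0 hU hφ hy, ipG_eps (symm_gmat hG hy), iou_eps0, ipG_smul_left,
    ipG_smul_right, ipG_smul_right, ipG_one0]
  ring

theorem nn_smul (hU : IsOpen U) (hG : IsMet U G) {χ : E n → ℝ} (hχ : ContDiffOn ℝ ∞ χ U)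
    {f : E n → Alt n p} (hf : ContDiffOn ℝ ∞ f U) {y : E n} (hy : y ∈ U) :
    nn G f (fun z => χ z • f z) y = χ y * nn G f f y +
      (1 / 2) * ipG (gmat G y) (extDeriv (c0 χ) y)
        (extDeriv (c0 fun z => ipG (gmat G z) (f z) (f z)) y) := by
  rw [ipG_dc0 hU hG hχ (smooth_ipG hG hf hf) hy]
  have e1 : ∀ j k, (gmat G y)⁻¹ j k * ipG (gmat G y) (nab G j f y)
      (nab G k (fun z => χ z • f z) y) =
      χ y * ((gmat G y)⁻¹ j k * ipG (gmat G y) (nab G j f y) (nab G k f y)) +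
        (gmat G y)⁻¹ j k * (pd k χ y * ipG (gmat G y) (nab G j f y) (f y)) := by
    intro j k
    rw [nab_smul hU k hχ hf hy, ipG_add_right, ipG_smul_right, ipG_smul_right]
    ring
  have e2 : ∀ k, pd k (fun z => ipG (gmat G z) (f z) (f z)) y =
      2 * ipG (gmat G y) (nab G k f y) (f y) := by
    intro k
    rw [pd_ipG hU hG k hf hf hy, ipG_comm (symm_gmat hG hy) (f y)]
    ring
  unfold nn
  simp only [e1, e2, Finset.sum_add_distrib, ← Finset.mul_sum]
  congr 1
  rw [Finset.sum_comm, Finset.mul_sum]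
  refine Finset.sum_congr rfl fun j _ => ?_
  rw [Finset.mul_sum]
  refine Finset.sum_congr rfl fun k _ => ?_
  rw [symm_ginv hG hy k j]
  ring

/-! ### Vanishing and integrability -/

private theorem intOn {u : E n → ℝ} (hU : IsOpen U) (hu : ContinuousOn u U) {K : Set (E n)}
    (hK : IsCompact K) (hKU : K ⊆ U) (h0 : ∀ y ∈ U, y ∉ K → u y = 0) :
    IntegrableOn u U := by
  have h1 : IntegrableOn u K := (hu.mono hKU).integrableOn_compact hK
  exact h1.of_forall_sdiff_eq_zero hU.measurableSet fun y hy => h0 y hy.1 hy.2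

private theorem zero_near (hU : IsOpen U) {K : Set (E n)} (hK : IsCompact K)
    {h : E n → Alt n p} (h0 : ∀ y ∈ U, y ∉ K → h y = 0) {y : E n} (hy : y ∈ U) (hyK : y ∉ K) :
    h =ᶠ[𝓝 y] 0 := by
  have h1 : U \ K ∈ 𝓝 y := (hU.sdiff hK.isClosed).mem_nhds ⟨hy, hyK⟩
  filter_upwards [h1] with z hz
  exact h0 z hz.1 hz.2

private theorem nab_zero {h : E n → Alt n p} {y : E n} (H : h =ᶠ[𝓝 y] 0) (k : Fin n) :
    nab G k h y = 0 := by
  unfold nab pdF
  rw [H.fderiv_eq, H.eq_of_nhds]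
  simp

private theorem nn_zero {f h : E n → Alt n p} {y : E n} (H : h =ᶠ[𝓝 y] 0) :
    nn G f h y = 0 := by
  unfold nn
  simp [nab_zero H, ipG_zero_right]

private theorem ext_zero (hU : IsOpen U) (hG : IsMet U G) {h : E n → Alt n p}
    (hh : ContDiffOn ℝ ∞ h U) {y : E n} (hy : y ∈ U) (H : h =ᶠ[𝓝 y] 0) : extDeriv h y = 0 := by
  rw [ext_nab hU hG hh hy]
  simp [nab_zero H]

private theorem codiff_zero (hU : IsOpen U) (hG : IsMet U G) {h : E n → Alt n (p + 1)}
    (hh : ContDiffOn ℝ ∞ h U) {y : E n} (hy : y ∈ U) (H : h =ᶠ[𝓝 y] 0) : codiff G h y = 0 := by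
  rw [codiff_nab hU hG hh hy]
  simp [nab_zero H]

private theorem nn_cont (hU : IsOpen U) (hG : IsMet U G) {f h : E n → Alt n p}
    (hf : ContDiffOn ℝ ∞ f U) (hh : ContDiffOn ℝ ∞ h U) : ContinuousOn (nn G f h) U := by
  unfold nn
  refine continuousOn_finsetSum _ fun j _ => continuousOn_finsetSum _ fun k _ => ?_
  exact (hG.inv_smooth j k).continuousOn.mul
    (smooth_ipG hG (nab_smooth hU hG j hf) (nab_smooth hU hG k hh)).continuousOn

private theorem rough_smooth (hU : IsOpen U) (hG : IsMet U G) {f : E n → Alt n p}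
    (hf : ContDiffOn ℝ ∞ f U) : ContDiffOn ℝ ∞ (rough G f) U := by
  unfold rough
  refine ContDiffOn.neg (ContDiffOn.sum fun j _ => ContDiffOn.sum fun k _ => ?_)
  refine (hG.inv_smooth j k).smul
    ((nab_smooth hU hG j (nab_smooth hU hG k hf)).sub (ContDiffOn.sum fun l _ => ?_))
  exact (chr_smooth hU hG l j k).smul (nab_smooth hU hG l hf)

private theorem wz_smooth (hU : IsOpen U) (hG : IsMet U G) {f : E n → Alt n (p + 1)}
    (hf : ContDiffOn ℝ ∞ f U) : ContDiffOn ℝ ∞ (fun y => wz G y (f y)) U := by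
  have h1 : ContDiffOn ℝ ∞ (fun y => extDeriv (codiff G f) y + codiff G (extDeriv f) y -
      rough G f y) U :=
    ((contDiffOn_extDeriv hU (codiff_smooth hU hG hf)).add
      (codiff_smooth hU hG (contDiffOn_extDeriv hU hf))).sub (rough_smooth hU hG hf)
  refine h1.congr fun y hy => ?_
  rw [weitz hU hG hf hy]
  abel

/-! ### The integrated formula -/

/-- the integrated formula -/
theorem bochner_int (hU : IsOpen U) (hG : IsMet U G) {f h : E n → Alt n (p + 1)}
    (hf : ContDiffOn ℝ ∞ f U) (hh : ContDiffOn ℝ ∞ h U)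
    {K : Set (E n)} (hK : IsCompact K) (hKU : K ⊆ U) (h0 : ∀ y ∈ U, y ∉ K → h y = 0) :
    ∫ y in U, (ipG (gmat G y) (extDeriv f y) (extDeriv h y) +
        ipG (gmat G y) (codiff G f y) (codiff G h y)) * vol G y =
      ∫ y in U, (nn G f h y + ipG (gmat G y) (wz G y (f y)) (h y)) * vol G y := by
  have sdf := contDiffOn_extDeriv hU hf
  have sdh := contDiffOn_extDeriv hU hh
  have scf := codiff_smooth hU hG hf
  have sch := codiff_smooth hU hG hh
  have scd := codiff_smooth hU hG sdf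
  have sdc := contDiffOn_extDeriv hU scf
  have sr := rough_smooth hU hG hf
  have sw := wz_smooth hU hG hf
  have sv := hG.vol_smooth.continuousOn
  have Z : ∀ y ∈ U, y ∉ K → h =ᶠ[𝓝 y] 0 := fun y hy hyK => zero_near hU hK h0 hy hyK
  have i1 : IntegrableOn (fun y => ipG (gmat G y) (extDeriv f y) (extDeriv h y) * vol G y) U :=
    intOn hU ((smooth_ipG hG sdf sdh).continuousOn.mul sv) hK hKU fun y hy hyK => by
      rw [ext_zero hU hG hh hy (Z y hy hyK), ipG_zero_right, zero_mul]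
  have i2 : IntegrableOn (fun y => ipG (gmat G y) (codiff G f y) (codiff G h y) * vol G y) U :=
    intOn hU ((smooth_ipG hG scf sch).continuousOn.mul sv) hK hKU fun y hy hyK => by
      rw [codiff_zero hU hG hh hy (Z y hy hyK), ipG_zero_right, zero_mul]
  have i3 : IntegrableOn (fun y => ipG (gmat G y) (codiff G (extDeriv f) y) (h y) * vol G y) U :=
    intOn hU ((smooth_ipG hG scd hh).continuousOn.mul sv) hK hKU fun y hy hyK => by
      rw [h0 y hy hyK, ipG_zero_right, zero_mul]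
  have i4 : IntegrableOn (fun y => ipG (gmat G y) (extDeriv (codiff G f) y) (h y) * vol G y) U :=
    intOn hU ((smooth_ipG hG sdc hh).continuousOn.mul sv) hK hKU fun y hy hyK => by
      rw [h0 y hy hyK, ipG_zero_right, zero_mul]
  have i5 : IntegrableOn (fun y => nn G f h y * vol G y) U :=
    intOn hU ((nn_cont hU hG hf hh).mul sv) hK hKU fun y hy hyK => by
      rw [nn_zero (Z y hy hyK), zero_mul]
  have i6 : IntegrableOn (fun y => ipG (gmat G y) (wz G y (f y)) (h y) * vol G y) U :=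
    intOn hU ((smooth_ipG hG sw hh).continuousOn.mul sv) hK hKU fun y hy hyK => by
      rw [h0 y hy hyK, ipG_zero_right, zero_mul]
  have i7 : IntegrableOn (fun y => ipG (gmat G y) (rough G f y) (h y) * vol G y) U :=
    intOn hU ((smooth_ipG hG sr hh).continuousOn.mul sv) hK hKU fun y hy hyK => by
      rw [h0 y hy hyK, ipG_zero_right, zero_mul]
  have a1 : ∫ y in U, ipG (gmat G y) (extDeriv f y) (extDeriv h y) * vol G y =
      ∫ y in U, ipG (gmat G y) (codiff G (extDeriv f) y) (h y) * vol G y := by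
    have := codiff_adj hU hG hh sdf hK hKU fun y hy hyK => Or.inl (h0 y hy hyK)
    refine (setIntegral_congr_fun hU.measurableSet fun y hy => ?_).trans
      (this.trans (setIntegral_congr_fun hU.measurableSet fun y hy => ?_))
    · rw [ipG_comm (symm_gmat hG hy)]
    · rw [ipG_comm (symm_gmat hG hy)]
  have a2 : ∫ y in U, ipG (gmat G y) (codiff G f y) (codiff G h y) * vol G y =
      ∫ y in U, ipG (gmat G y) (extDeriv (codiff G f) y) (h y) * vol G y :=
    (codiff_adj hU hG scf hh hK hKU fun y hy hyK => Or.inr (h0 y hy hyK)).symm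
  have a3 := rough_adj hU hG hf hh hK hKU h0
  simp only [add_mul]
  rw [integral_add i1 i2, integral_add i5 i6, a1, a2, ← a3, ← integral_add i3 i4,
    ← integral_add i7 i6]
  refine setIntegral_congr_fun hU.measurableSet fun y hy => ?_
  rw [← add_mul, ← add_mul, ← ipG_add_left, ← ipG_add_left, ← weitz hU hG hf hy,
    add_comm (codiff G (extDeriv f) y)]

/-- THE LOCAL BOCHNER INEQUALITY -/
theorem locB (hU : IsOpen U) (hG : IsMet U G) {f : E n → Alt n (p + 1)}
    (hf : ContDiffOn ℝ ∞ f U) {χ : E n → ℝ} (hχ : ContDiffOn ℝ ∞ χ U) (hχ0 : ∀ y, 0 ≤ χ y)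
    {K : Set (E n)} (hK : IsCompact K) (hKU : K ⊆ U) (h0 : ∀ y ∈ U, y ∉ K → χ y = 0) :
    ∫ y in U, ((1 / 2) * ipG (gmat G y) (extDeriv (c0 χ) y)
          (extDeriv (c0 fun z => ipG (gmat G z) (f z) (f z)) y) +
        χ y * ipG (gmat G y) (wz G y (f y)) (f y)) * vol G y ≤
      ∫ y in U, (ipG (gmat G y) (extDeriv f y) (extDeriv (fun z => χ z • f z) y) +
        ipG (gmat G y) (codiff G f y) (codiff G (fun z => χ z • f z) y)) * vol G y := by
  have sh : ContDiffOn ℝ ∞ (fun z => χ z • f z) U := hχ.smul hf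
  have z0 : ∀ y ∈ U, y ∉ K → χ y • f y = 0 := fun y hy hyK => by rw [h0 y hy hyK, zero_smul]
  rw [bochner_int hU hG hf sh hK hKU z0]
  have sv := hG.vol_smooth.continuousOn
  have sw := wz_smooth hU hG hf
  have i1 : IntegrableOn (fun y => (nn G f (fun z => χ z • f z) y +
      ipG (gmat G y) (wz G y (f y)) (χ y • f y)) * vol G y) U :=
    intOn hU (((nn_cont hU hG hf sh).add (smooth_ipG hG sw sh).continuousOn).mul sv) hK hKU
      fun y hy hyK => by
        rw [nn_zero (zero_near hU hK z0 hy hyK), z0 y hy hyK, ipG_zero_right, zero_add, zero_mul]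
  have i2 : IntegrableOn (fun y => χ y * nn G f f y * vol G y) U :=
    intOn hU ((hχ.continuousOn.mul (nn_cont hU hG hf hf)).mul sv) hK hKU
      fun y hy hyK => by rw [h0 y hy hyK, zero_mul, zero_mul]
  have i3 := i1.sub i2
  have e : ∫ y in U, ((1 / 2) * ipG (gmat G y) (extDeriv (c0 χ) y)
          (extDeriv (c0 fun z => ipG (gmat G z) (f z) (f z)) y) +
        χ y * ipG (gmat G y) (wz G y (f y)) (f y)) * vol G y =
      ∫ y in U, ((nn G f (fun z => χ z • f z) y +
        ipG (gmat G y) (wz G y (f y)) (χ y • f y)) * vol G y - χ y * nn G f f y * vol G y) := by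
    refine setIntegral_congr_fun hU.measurableSet fun y hy => ?_
    rw [nn_smul hU hG hχ hf hy, ipG_smul_right]
    ring
  rw [e]
  refine setIntegral_mono_on i3 i1 hU.measurableSet fun y hy => ?_
  have := mul_nonneg (mul_nonneg (hχ0 y) (nn_nonneg hG f hy)) (hG.vol_pos hy).le
  linarith

end BH
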