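import Pool.Agent.Lib.MP_4a593f_gt.BH.LWzA
import Pool.Agent.Lib.MP_4a593f_gt.BH.LWzB

/-!
Row LWz: the Weitzenböck formula on an open set of `ℝⁿ` and the local Bochner inequality; the
proofs are in LWzA (definitions, `weitz`, `rough_adj`) and LWzB (`nn_nonneg`, `nn_smul`,
`bochner_int`, `locB`).
-/
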