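import Pool.Agent.Lib.MP_4a593f_gt.BH.IntB

/-!
Row IntC: the pre-Hilbert space of smooth `p`-forms.
-/

open scoped Manifold ContDiff Bundle Topology Matrix
open MeasureTheory

noncomputable section

universe u

namespace BH

variable {n p : ℕ} {M : Type u} [TopologicalSpace M] [ChartedSpace (E n) M]
  [IsManifold 𝓘(ℝ, E n) ∞ M]

variable (n M)

/-- a metric and a finite atlas with partition of unity -/
structure Sys where
  g : Metric n M
  C : Cover n M

variable {n M}

/-- the smooth `p`-forms, as a pre-Hilbert space -/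
def Om (_S : Sys n M) (p : ℕ) : Type u := smoothForms n M p

instance (S : Sys n M) (p : ℕ) : AddCommGroup (Om S p) :=
  inferInstanceAs (AddCommGroup (smoothForms n M p))

instance (S : Sys n M) (p : ℕ) : Module ℝ (Om S p) :=
  inferInstanceAs (Module ℝ (smoothForms n M p))

/-- the underlying form -/
def Om.f {S : Sys n M} {p : ℕ} (a : Om S p) : Form n M p := (show smoothForms n M p from a).1

theorem Om.smooth {S : Sys n M} {p : ℕ} (a : Om S p) : Smooth a.f :=
  (show smoothForms n M p from a).2

/-- constructor -/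
def Om.of (S : Sys n M) {p : ℕ} (α : Form n M p) (h : Smooth α) : Om S p :=
  (⟨α, h⟩ : smoothForms n M p)

@[simp] theorem Om.f_of (S : Sys n M) {p : ℕ} (α : Form n M p) (h : Smooth α) :
    (Om.of S α h).f = α := rfl

@[simp] theorem Om.f_add {S : Sys n M} {p : ℕ} (a b : Om S p) : (a + b).f = a.f + b.f := rfl

@[simp] theorem Om.f_smul {S : Sys n M} {p : ℕ} (c : ℝ) (a : Om S p) : (c • a).f = c • a.f := rfl

@[simp] theorem Om.f_zero {S : Sys n M} {p : ℕ} : (0 : Om S p).f = 0 := rfl

theorem Om.ext {S : Sys n M} {p : ℕ} {a b : Om S p} (h : a.f = b.f) : a = b :=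
  Subtype.ext h

/-- the inner product of `L²` -/
def Om.ipr {S : Sys n M} {p : ℕ} (a b : Om S p) : ℝ := IntM S.C S.g (ipM S.g a.f b.f)

variable [CompactSpace M]

theorem Om.ipr_comm {S : Sys n M} {p : ℕ} (a b : Om S p) : a.ipr b = b.ipr a := by
  unfold Om.ipr
  congr 1
  funext x
  exact ipM_comm S.g a.f b.f x

theorem Om.ipr_add_left {S : Sys n M} {p : ℕ} (a b c : Om S p) :
    (a + b).ipr c = a.ipr c + b.ipr c := by
  have h : ipM S.g (a + b).f c.f = fun x => ipM S.g a.f c.f x + ipM S.g b.f c.f x := by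
    funext x
    rw [Om.f_add]
    exact ipM_add_left S.g a.f b.f c.f x
  unfold Om.ipr
  rw [h]
  exact IntM_add S.C S.g (smF_ipM S.g a.smooth c.smooth).continuous
    (smF_ipM S.g b.smooth c.smooth).continuous

theorem Om.ipr_smul_left {S : Sys n M} {p : ℕ} (t : ℝ) (a c : Om S p) :
    (t • a).ipr c = t * a.ipr c := by
  have h : ipM S.g (t • a).f c.f = fun x => t * ipM S.g a.f c.f x := by
    funext x
    rw [Om.f_smul]
    exact ipM_smul_left S.g t a.f c.f x
  unfold Om.ipr
  rw [h]
  exact IntM_smul S.C S.g t _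

theorem Om.ipr_nonneg {S : Sys n M} {p : ℕ} (a : Om S p) : 0 ≤ a.ipr a :=
  IntM_nonneg S.C S.g (ipM_nonneg S.g a.f)

theorem Om.ipr_definite {S : Sys n M} {p : ℕ} (a : Om S p) (h : a.ipr a = 0) : a = 0 :=
  Om.ext (ipM_eq_zero S.g (IntM_eq_zero S.C S.g (smF_ipM S.g a.smooth a.smooth).continuous
    (ipM_nonneg S.g a.f) h))

/-- the pre-Hilbert structure -/
@[instance_reducible] def Om.core (S : Sys n M) (p : ℕ) : InnerProductSpace.Core ℝ (Om S p) where
  inner a b := a.ipr b
  conj_inner_symm a b := by simpa using Om.ipr_comm b a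
  re_inner_nonneg a := by simpa using Om.ipr_nonneg a
  add_left a b c := Om.ipr_add_left a b c
  smul_left a b t := by simpa using Om.ipr_smul_left t a b
  definite a h := Om.ipr_definite a h

instance (S : Sys n M) (p : ℕ) : NormedAddCommGroup (Om S p) :=
  @InnerProductSpace.Core.toNormedAddCommGroup ℝ (Om S p) _ _ _ (Om.core S p)

instance (S : Sys n M) (p : ℕ) : InnerProductSpace ℝ (Om S p) :=
  InnerProductSpace.ofCore (Om.core S p).toCore

theorem Om.inner_def {S : Sys n M} {p : ℕ} (a b : Om S p) :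
    inner ℝ a b = IntM S.C S.g (ipM S.g a.f b.f) := rfl

/-- the exterior derivative -/
def dO (S : Sys n M) (p : ℕ) : Om S p →ₗ[ℝ] Om S (p + 1) where
  toFun a := Om.of S (dM a.f) a.smooth.dM
  map_add' a b := Om.ext (dM_add a.smooth b.smooth)
  map_smul' c _ := Om.ext (dM_smul c)

omit [CompactSpace M] in
theorem dO_f (S : Sys n M) (p : ℕ) (a : Om S p) : (dO S p a).f = dM a.f := rfl

/-- multiplication by a smooth function -/
def mulO (S : Sys n M) (p : ℕ) (a : M → ℝ) (ha : SmF n a) : Om S p →ₗ[ℝ] Om S p where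
  toFun α := Om.of S (fs a α.f) (Smooth.fs ha α.smooth)
  map_add' α β := Om.ext (by
    funext x
    ext v
    change a x * (α.f x v + β.f x v) = a x * α.f x v + a x * β.f x v
    ring)
  map_smul' c α := Om.ext (by
    funext x
    ext v
    change a x * (c * α.f x v) = c * (a x * α.f x v)
    ring)

omit [CompactSpace M] in
/-- the pointwise inner product vanishes where one factor does -/
theorem ipM_zero_right (g : Metric n M) (α β : Form n M p) {x : M} (h : β x = 0) :
    ipM g α β x = 0 := by
  have h1 : ∀ z, z = x → β z = 0 := by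
    rintro z rfl
    exact h
  have h2 : loc (chartAt (E n) x) β (chartAt (E n) x x) = 0 := by
    unfold loc
    rw [h1 _ ((chartAt (E n) x).left_inv (mem_chart_source (E n) x))]
    ext v
    rfl
  unfold ipM
  rw [h2]
  have h3 := ipG_smul_right (gmat (gloc (chartAt (E n) x) g) (chartAt (E n) x x)) (0 : ℝ)
    (loc (chartAt (E n) x) α (chartAt (E n) x x)) (0 : Alt n p)
  rwa [zero_smul, zero_mul] at h3

/-- the inner product with a form supported in a chart -/
theorem inner_chart {S : Sys n M} {p : ℕ} (a b : Om S p) {e : OpenPartialHomeomorph M (E n)}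
    (he : e ∈ atlas (E n) M) {K : Set (E n)} (hK : IsCompact K) (hKt : K ⊆ e.target)
    (hb : ∀ x, b.f x ≠ 0 → x ∈ e.symm '' K) [T2Space M] :
    inner ℝ a b = ∫ y in e.target,
      ipG (gmat (gloc e S.g) y) (loc e a.f y) (loc e b.f y) * vol (gloc e S.g) y := by
  have hc : IsCompact (e.symm '' K) :=
    hK.image_of_continuousOn (e.continuousOn_symm.mono hKt)
  have hsub : e.symm '' K ⊆ e.source := by
    rintro x ⟨y, hy, rfl⟩
    exact e.map_target (hKt hy)
  have hts : tsupport (ipM S.g a.f b.f) ⊆ e.source := by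
    refine Set.Subset.trans (closure_minimal ?_ hc.isClosed) hsub
    intro x hx
    refine hb x fun h0 => hx ?_
    exact ipM_zero_right S.g a.f b.f h0
  rw [Om.inner_def, IntM_chart S.C S.g he (smF_ipM S.g a.smooth b.smooth).continuous hts]
  unfold intE
  refine setIntegral_congr_fun e.open_target.measurableSet fun y hy => ?_
  rw [ipM_chart S.g he a.f b.f hy]

end BH
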