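import Pool.Agent.Lib.MP_4a593f_gt.BH.Del
import Pool.Agent.Lib.MP_4a593f_gt.BH.Gl.Est

/-!
The Bochner estimate on `M` is `BH.estimate` in `Gl/Est.lean`.
-/
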