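import Pool.Agent.Lib.MP_4a593f_gt.BH.Fun
import Pool.Agent.Lib.MP_4a593f_gt.BH.AltSm

/-!
Rows Mk: forms with compact support in a chart.
-/

open scoped Manifold ContDiff Bundle Topology

noncomputable section

universe u

set_option linter.unusedSectionVars false

namespace BH

variable {n p : ℕ} {M : Type u} [TopologicalSpace M] [ChartedSpace (E n) M]

open Classical in
/-- the form with the expression `f` in the chart `e`, extended by zero -/
def mk (e : OpenPartialHomeomorph M (E n)) (f : E n → Alt n p) : Form n M p := fun x =>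
  if x ∈ e.source then
    (f (e x)).compContinuousLinearMap (mfderiv 𝓘(ℝ, E n) 𝓘(ℝ, E n) e x)
  else 0

theorem mk_on {e : OpenPartialHomeomorph M (E n)} {f : E n → Alt n p} {x : M}
    (hx : x ∈ e.source) :
    mk e f x = (f (e x)).compContinuousLinearMap (mfderiv 𝓘(ℝ, E n) 𝓘(ℝ, E n) e x) := by
  unfold mk
  rw [if_pos hx]

theorem mk_off {e : OpenPartialHomeomorph M (E n)} {f : E n → Alt n p} {x : M}
    (hx : x ∉ e.source) : mk e f x = 0 := by
  unfold mk
  rw [if_neg hx]

theorem mk_add (e : OpenPartialHomeomorph M (E n)) (f h : E n → Alt n p) :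
    mk e (fun y => f y + h y) = mk e f + mk e h := by
  funext x
  by_cases hx : x ∈ e.source
  · change mk e (fun y => f y + h y) x = mk e f x + mk e h x
    rw [mk_on hx, mk_on hx, mk_on hx]
    ext v
    rfl
  · change mk e (fun y => f y + h y) x = mk e f x + mk e h x
    rw [mk_off hx, mk_off hx, mk_off hx]
    ext v
    exact (add_zero (0 : ℝ)).symm

theorem mk_smul (e : OpenPartialHomeomorph M (E n)) (c : ℝ) (f : E n → Alt n p) :
    mk e (fun y => c • f y) = c • mk e f := by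
  funext x
  by_cases hx : x ∈ e.source
  · change mk e (fun y => c • f y) x = c • mk e f x
    rw [mk_on hx, mk_on hx]
    ext v
    rfl
  · change mk e (fun y => c • f y) x = c • mk e f x
    rw [mk_off hx, mk_off hx]
    ext v
    exact (mul_zero c).symm

theorem mk_congr {e : OpenPartialHomeomorph M (E n)} {f h : E n → Alt n p}
    (H : ∀ y ∈ e.target, f y = h y) : mk e f = mk e h := by
  funext x
  by_cases hx : x ∈ e.source
  · rw [mk_on hx, mk_on hx, H _ (e.map_source hx)]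
  · rw [mk_off hx, mk_off hx]

theorem fs_mk (e : OpenPartialHomeomorph M (E n)) (a : M → ℝ) (f : E n → Alt n p) :
    fs a (mk e f) = mk e (fun y => a (e.symm y) • f y) := by
  funext x
  by_cases hx : x ∈ e.source
  · change a x • mk e f x = _
    rw [mk_on hx, mk_on hx, e.left_inv hx]
    ext v
    rfl
  · change a x • mk e f x = _
    rw [mk_off hx, mk_off hx]
    ext v
    exact mul_zero (a x)

variable [IsManifold 𝓘(ℝ, E n) ∞ M]

theorem md_atlas {e : OpenPartialHomeomorph M (E n)} (he : e ∈ atlas (E n) M) :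
    e.MDifferentiable 𝓘(ℝ, E n) 𝓘(ℝ, E n) := by
  have : IsManifold 𝓘(ℝ, E n) 1 M := IsManifold.of_le (n := ∞) (by exact_mod_cast le_top)
  exact mdifferentiable_of_mem_atlas he

theorem mfderiv_comp_symm {e : OpenPartialHomeomorph M (E n)} (he : e ∈ atlas (E n) M)
    {y : E n} (hy : y ∈ e.target) (v : E n) :
    (mfderiv 𝓘(ℝ, E n) 𝓘(ℝ, E n) e (e.symm y)
      (mfderiv 𝓘(ℝ, E n) 𝓘(ℝ, E n) e.symm y v) : E n) = v := by
  have h := (md_atlas he).comp_symm_deriv hy
  exact congrArg (fun L : TangentSpace 𝓘(ℝ, E n) y →L[ℝ] TangentSpace 𝓘(ℝ, E n) y => L v) h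

theorem mfderiv_symm_comp {e : OpenPartialHomeomorph M (E n)} (he : e ∈ atlas (E n) M)
    {x : M} (hx : x ∈ e.source) (v : TangentSpace 𝓘(ℝ, E n) x) :
    (mfderiv 𝓘(ℝ, E n) 𝓘(ℝ, E n) e.symm (e x)
      (mfderiv 𝓘(ℝ, E n) 𝓘(ℝ, E n) e x v) : E n) = v := by
  have h := (md_atlas he).symm_comp_deriv hx
  exact congrArg (fun L : TangentSpace 𝓘(ℝ, E n) x →L[ℝ] TangentSpace 𝓘(ℝ, E n) x => L v) h

theorem loc_mk {e : OpenPartialHomeomorph M (E n)} (he : e ∈ atlas (E n) M)
    (f : E n → Alt n p) {y : E n} (hy : y ∈ e.target) : loc e (mk e f) y = f y := by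
  unfold loc
  rw [mk_on (e.map_target hy)]
  ext v
  change f (e (e.symm y)) (fun i => mfderiv 𝓘(ℝ, E n) 𝓘(ℝ, E n) e (e.symm y)
      (mfderiv 𝓘(ℝ, E n) 𝓘(ℝ, E n) e.symm y (v i))) = f y v
  rw [e.right_inv hy]
  congr 1
  funext i
  exact mfderiv_comp_symm he hy (v i)

/-- a form which vanishes outside the domain of `e` -/
theorem mk_loc {e : OpenPartialHomeomorph M (E n)} (he : e ∈ atlas (E n) M) {α : Form n M p}
    (h : ∀ x, x ∉ e.source → α x = 0) : mk e (loc e α) = α := by
  funext x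
  by_cases hx : x ∈ e.source
  · rw [mk_on hx]
    ext v
    have h1 : ∀ x', x' = x → (α x' : Alt n p) = (α x : Alt n p) := by
      rintro _ rfl
      rfl
    change (α (e.symm (e x)) : Alt n p) (fun i => (mfderiv 𝓘(ℝ, E n) 𝓘(ℝ, E n) e.symm (e x)
      (mfderiv 𝓘(ℝ, E n) 𝓘(ℝ, E n) e x (v i)) : E n)) = (α x : Alt n p) v
    rw [h1 _ (e.left_inv hx)]
    congr 1
    funext i
    exact mfderiv_symm_comp he hx (v i)
  · rw [mk_off hx, h x hx]

theorem mk_zero_near [T2Space M] {e e' : OpenPartialHomeomorph M (E n)}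
    {f : E n → Alt n p} {K : Set (E n)} (hK : IsCompact K) (hKt : K ⊆ e.target)
    (h0 : ∀ y ∈ e.target, y ∉ K → f y = 0) {y : E n} (hy : y ∈ e'.target)
    (hys : e'.symm y ∉ e.source) : ∀ᶠ z in 𝓝 y, loc e' (mk e f) z = 0 := by
  have hc : IsCompact (e.symm '' K) := hK.image_of_continuousOn (e.continuousOn_symm.mono hKt)
  have h1 : e'.symm y ∈ (e.symm '' K)ᶜ := by
    rintro ⟨z, hz, hzy⟩
    exact hys (hzy ▸ e.map_target (hKt hz))
  have h2 : ∀ᶠ z in 𝓝 y, e'.symm z ∈ (e.symm '' K)ᶜ :=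
    (e'.continuousAt_symm hy).eventually_mem (hc.isClosed.isOpen_compl.mem_nhds h1)
  filter_upwards [h2] with z hz
  have h3 : mk e f (e'.symm z) = 0 := by
    by_cases hs : e'.symm z ∈ e.source
    · rw [mk_on hs, h0 _ (e.map_source hs) fun hk => hz ⟨_, hk, e.left_inv hs⟩]
      ext v
      rfl
    · exact mk_off hs
  unfold loc
  rw [h3]
  ext v
  rfl

theorem smooth_mk [T2Space M] {e : OpenPartialHomeomorph M (E n)} (he : e ∈ atlas (E n) M)
    {f : E n → Alt n p} {K : Set (E n)} (hK : IsCompact K) (hKt : K ⊆ e.target)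
    (hf : ContDiffOn ℝ ∞ f e.target) (h0 : ∀ y ∈ e.target, y ∉ K → f y = 0) :
    Smooth (mk e f) := by
  intro e' he' y hy
  by_cases hys : e'.symm y ∈ e.source
  · have hyo : y ∈ ov e' e := ⟨hy, hys⟩
    have hon : (ov e' e) ∈ 𝓝 y := (ov_open e' e).mem_nhds hyo
    have ht : ContDiffAt ℝ ∞ (tr e' e) y := (tr_smooth he' he).contDiffAt hon
    have hft : ContDiffAt ℝ ∞ f (tr e' e y) :=
      hf.contDiffAt (e.open_target.mem_nhds (tr_mem hyo).1)
    have h1 : ContDiffAt ℝ ∞
        (fun z => (f (tr e' e z)).compContinuousLinearMap (fderiv ℝ (tr e' e) z)) y := by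
      have h2 : ContDiffAt ℝ ∞ (fderiv ℝ (tr e' e)) y := ht.fderiv_right (by simp)
      have h3 : ContDiffAt ℝ ∞ (fun z => f (tr e' e z)) y := hft.comp y ht
      exact contDiffAt_pbk h3 h2
    refine (h1.congr_of_eventuallyEq ?_).contDiffWithinAt
    filter_upwards [hon] with z hz
    rw [loc_tr he' he (mk e f) hz, loc_mk he f (tr_mem hz).1]
  · have h1 := mk_zero_near hK hKt h0 hy hys
    exact (contDiffAt_const (c := (0 : Alt n p))).congr_of_eventuallyEq h1 |>.contDiffWithinAt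

theorem dM_mk [T2Space M] {e : OpenPartialHomeomorph M (E n)} (he : e ∈ atlas (E n) M)
    {f : E n → Alt n p} {K : Set (E n)} (hK : IsCompact K) (hKt : K ⊆ e.target)
    (hf : ContDiffOn ℝ ∞ f e.target) (h0 : ∀ y ∈ e.target, y ∉ K → f y = 0) :
    dM (mk e f) = mk e (extDeriv f) := by
  have hs := smooth_mk he hK hKt hf h0
  refine form_ext fun e' he' y hy => ?_
  by_cases hys : e'.symm y ∈ e.source
  · have hyo : y ∈ ov e' e := ⟨hy, hys⟩
    have hz := (tr_mem hyo).1
    rw [loc_tr he' he _ hyo, loc_tr he' he _ hyo, loc_mk he _ hz, loc_dM hs he hz]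
    congr 1
    refine Filter.EventuallyEq.extDeriv_eq ?_
    filter_upwards [e.open_target.mem_nhds hz] with z hz'
    exact loc_mk he f hz'
  · have h1 := mk_zero_near hK hKt h0 hy hys
    rw [loc_dM hs he' hy]
    have h2 : loc e' (mk e f) =ᶠ[𝓝 y] fun _ => 0 := h1
    rw [h2.extDeriv_eq]
    have h3 : mk e (extDeriv f) (e'.symm y) = 0 := mk_off hys
    unfold loc
    rw [h3]
    ext v
    simp [extDeriv, ContinuousAlternatingMap.alternatizeUncurryFin_apply]

end BH
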