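import Pool.Agent.Lib.MP_4a593f_gt.BH.Ip
import Pool.Agent.Lib.MP_4a593f_gt.BH.Mk

/-!
Rows Met: the metric in charts, the pointwise inner product of forms on `M`.
-/

open scoped Manifold ContDiff Bundle Topology Matrix

noncomputable section

universe u

namespace BH

variable {n p : ℕ} {M : Type u} [TopologicalSpace M] [ChartedSpace (E n) M]
  [IsManifold 𝓘(ℝ, E n) ∞ M]

theorem met_symm_contMDiffOn {e : OpenPartialHomeomorph M (E n)} (he : e ∈ atlas (E n) M) :
    ContMDiffOn 𝓘(ℝ, E n) 𝓘(ℝ, E n) ∞ e.symm e.target :=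
  contMDiffOn_symm_of_mem_maximalAtlas (IsManifold.subset_maximalAtlas he)

/-- the coordinate vector fields are smooth -/
theorem coord_smooth {e : OpenPartialHomeomorph M (E n)} (he : e ∈ atlas (E n) M) (v : E n) :
    ContMDiffOn 𝓘(ℝ, E n) (𝓘(ℝ, E n).prod 𝓘(ℝ, E n)) ∞
      (fun y => (Bundle.TotalSpace.mk' (E n) (e.symm y)
        (mfderiv 𝓘(ℝ, E n) 𝓘(ℝ, E n) e.symm y v) :
          Bundle.TotalSpace (E n) (fun x : M => TangentSpace 𝓘(ℝ, E n) x))) e.target := by
  have : IsManifold 𝓘(ℝ, E n) 1 M := IsManifold.of_le (n := ∞) (by norm_num)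
  have h2 := (met_symm_contMDiffOn he).contMDiffOn_tangentMapWithin (m := ∞) (by norm_num)
    e.open_target.uniqueMDiffOn
  have h3 : ContMDiffOn 𝓘(ℝ, E n) (𝓘(ℝ, E n).prod 𝓘(ℝ, E n)) ∞
      (fun y : E n => (Bundle.TotalSpace.mk' (E n) y v :
        Bundle.TotalSpace (E n) (fun x : E n => TangentSpace 𝓘(ℝ, E n) x))) e.target :=
    (contMDiffOn_vectorSpace_iff_contDiffOn (V := fun _ => v)).2 contDiffOn_const
  have h4 := h2.comp h3 (fun y hy => hy)
  refine h4.congr fun y hy => ?_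
  simp only [Function.comp_apply, tangentMapWithin]
  rw [mfderivWithin_of_isOpen e.open_target hy]

theorem gloc_smooth (g : Metric n M) {e : OpenPartialHomeomorph M (E n)}
    (he : e ∈ atlas (E n) M) (i j : Fin n) : ContDiffOn ℝ ∞ (gloc e g i j) e.target := by
  have h1 : ContMDiffOn 𝓘(ℝ, E n) (𝓘(ℝ, E n).prod 𝓘(ℝ, E n →L[ℝ] E n →L[ℝ] ℝ)) ∞
      (fun y => Bundle.TotalSpace.mk' (E n →L[ℝ] E n →L[ℝ] ℝ)
        (E := fun x : M => (TangentSpace 𝓘(ℝ, E n) x →L[ℝ] TangentSpace 𝓘(ℝ, E n) x →L[ℝ]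
          Bundle.Trivial M ℝ x)) (e.symm y) (g.inner (e.symm y)))
      e.target := g.contMDiff.comp_contMDiffOn (met_symm_contMDiffOn he)
  have h2 := ContMDiffOn.clm_bundle_apply₂ (F₁ := E n) (F₂ := E n) (F₃ := ℝ)
    (E₃ := Bundle.Trivial M ℝ) h1 (coord_smooth he (bv i)) (coord_smooth he (bv j))
  intro y hy
  have h3 := h2 y hy
  simp only [Bundle.contMDiffWithinAt_totalSpace] at h3
  exact contMDiffWithinAt_iff_contDiffWithinAt.1 h3.2


/-- `v = ∑ v_i e_i` -/
theorem met_sum_bv (v : E n) : ∑ i, v i • bv i = v := by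
  ext j
  simp [bv, Finset.sum_apply, Pi.single_apply]

theorem met_bilin_expand {F : Type*} [AddCommGroup F] [Module ℝ F] [TopologicalSpace F]
    [IsTopologicalAddGroup F] [ContinuousConstSMul ℝ F]
    (D : E n →L[ℝ] F) (b : F →L[ℝ] F →L[ℝ] ℝ) (v w : E n) :
    b (D v) (D w) = ∑ i, ∑ j, v i * (b (D (bv i)) (D (bv j)) * w j) := by
  conv_lhs => rw [← met_sum_bv v, ← met_sum_bv w]
  simp only [map_sum, map_smul, sum_apply, smul_apply, smul_eq_mul]
  rw [Finset.sum_comm]
  refine Finset.sum_congr rfl fun i _ => ?_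
  rw [Finset.mul_sum]
  exact Finset.sum_congr rfl fun j _ => by ring

theorem gloc_bilin (g : Metric n M) (e : OpenPartialHomeomorph M (E n)) (y v w : E n) :
    (g.inner (e.symm y) (mfderiv 𝓘(ℝ, E n) 𝓘(ℝ, E n) e.symm y v)
      (mfderiv 𝓘(ℝ, E n) 𝓘(ℝ, E n) e.symm y w) : ℝ) =
      ∑ i, ∑ j, v i * (gloc e g i j y * w j) :=
  met_bilin_expand (mfderiv 𝓘(ℝ, E n) 𝓘(ℝ, E n) e.symm y) (g.inner (e.symm y)) v w

theorem gmat_posDef (g : Metric n M) {e : OpenPartialHomeomorph M (E n)}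
    (he : e ∈ atlas (E n) M) {y : E n} (hy : y ∈ e.target) : (gmat (gloc e g) y).PosDef := by
  have : IsManifold 𝓘(ℝ, E n) 1 M := IsManifold.of_le (n := ∞) (by norm_num)
  refine Matrix.PosDef.of_dotProduct_mulVec_pos ?_ fun x hx => ?_
  · ext i j
    simp only [gmat, Matrix.conjTranspose_apply, Matrix.of_apply, star_trivial, gloc]
    exact g.symm _ _ _
  · have hinj := (mdifferentiable_of_mem_atlas (I := 𝓘(ℝ, E n)) he).symm.mfderiv_injective
      (x := y) hy
    have hx' : (WithLp.toLp 2 x : E n) ≠ 0 := by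
      intro h
      apply hx
      simpa using h
    have hne : mfderiv 𝓘(ℝ, E n) 𝓘(ℝ, E n) e.symm y (WithLp.toLp 2 x : E n) ≠ 0 := by
      intro h
      apply hx'
      exact hinj (h.trans (map_zero _).symm)
    have hpos := g.pos _ _ hne
    rw [gloc_bilin] at hpos
    simpa [gmat, dotProduct, Matrix.mulVec, Finset.mul_sum] using hpos

theorem isMet_gloc (g : Metric n M) {e : OpenPartialHomeomorph M (E n)}
    (he : e ∈ atlas (E n) M) : IsMet e.target (gloc e g) where
  smooth := gloc_smooth g he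
  symm := fun _ _ _ _ => g.symm _ _ _
  pos := fun _ hy => gmat_posDef g he hy

theorem gloc_tr (g : Metric n M) {e e' : OpenPartialHomeomorph M (E n)}
    (he : e ∈ atlas (E n) M) (he' : e' ∈ atlas (E n) M) {y : E n} (hy : y ∈ ov e e') :
    gmat (gloc e g) y = (mt (fderiv ℝ (tr e e') y))ᵀ * gmat (gloc e' g) (tr e e' y) *
      mt (fderiv ℝ (tr e e') y) := by
  ext i j
  have key : ∀ (x x' : M) (hx : x' = x) (a c : TangentSpace 𝓘(ℝ, E n) x)
      (a' c' : TangentSpace 𝓘(ℝ, E n) x'), (a : E n) = (a' : E n) → (c : E n) = (c' : E n) →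
      g.inner x a c = g.inner x' a' c' := by
    intro x x' hx a c a' c' h1 h2
    subst hx
    exact congrArg₂ (fun u v => g.inner x' u v) h1 h2
  have h1 : gloc e g i j y = g.inner (e'.symm (tr e e' y))
      (mfderiv 𝓘(ℝ, E n) 𝓘(ℝ, E n) e'.symm (tr e e' y) (fderiv ℝ (tr e e') y (bv i)))
      (mfderiv 𝓘(ℝ, E n) 𝓘(ℝ, E n) e'.symm (tr e e' y) (fderiv ℝ (tr e e') y (bv j))) :=
    key _ _ (symm_tr hy) _ _ _ _ (mfderiv_symm_tr he he' hy _) (mfderiv_symm_tr he he' hy _)
  rw [gloc_bilin] at h1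
  simp only [gmat, Matrix.of_apply]
  rw [h1]
  simp only [Matrix.mul_apply, Matrix.transpose_apply, mt, Matrix.of_apply, Finset.sum_mul]
  rw [Finset.sum_comm]
  refine Finset.sum_congr rfl fun a _ => Finset.sum_congr rfl fun c _ => ?_
  ring

/-- the pointwise inner product of forms -/
def ipM (g : Metric n M) (α β : Form n M p) (x : M) : ℝ :=
  ipG (gmat (gloc (chartAt (E n) x) g) (chartAt (E n) x x))
    (loc (chartAt (E n) x) α (chartAt (E n) x x)) (loc (chartAt (E n) x) β (chartAt (E n) x x))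

omit [IsManifold 𝓘(ℝ, E n) ∞ M] in
theorem met_mt_comp (A B : E n →L[ℝ] E n) : mt (A.comp B) = mt A * mt B := by
  ext i j
  rw [Matrix.mul_apply]
  change A (B (bv j)) i = _
  conv_lhs => rw [← ep_mt A]
  rw [ep_apply]
  rfl

theorem met_mt_id : mt (ContinuousLinearMap.id ℝ (E n)) = 1 := by
  ext i j
  simp [mt, bv, Matrix.one_apply]

theorem isUnit_det_tr {e e' : OpenPartialHomeomorph M (E n)}
    (he : e ∈ atlas (E n) M) (he' : e' ∈ atlas (E n) M) {y : E n} (hy : y ∈ ov e e') :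
    IsUnit (mt (fderiv ℝ (tr e e') y)).det := by
  refine Matrix.isUnit_det_of_left_inverse (B := mt (fderiv ℝ (tr e' e) (tr e e' y))) ?_
  rw [← met_mt_comp, ← met_mt_id]
  congr 1
  ext1 v
  exact fderiv_tr_comp he he' hy v

theorem ipM_chart (g : Metric n M) {e : OpenPartialHomeomorph M (E n)}
    (he : e ∈ atlas (E n) M) (α β : Form n M p) {y : E n} (hy : y ∈ e.target) :
    ipM g α β (e.symm y) = ipG (gmat (gloc e g) y) (loc e α y) (loc e β y) := by
  have he' := chart_mem_atlas (E n) (e.symm y)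
  have hy' : y ∈ ov e (chartAt (E n) (e.symm y)) := ⟨hy, mem_chart_source _ _⟩
  have h1 : ∀ γ : Form n M p, loc e γ y = pb (mt (fderiv ℝ (tr e (chartAt (E n) (e.symm y))) y))
      (loc (chartAt (E n) (e.symm y)) γ (tr e (chartAt (E n) (e.symm y)) y)) := by
    intro γ
    rw [loc_tr he he' γ hy', pb, ep_mt]
  rw [h1 α, h1 β, ipG_pb (isUnit_det_tr he he' hy') (gloc_tr g he he' hy')]
  rfl

theorem smF_ipM (g : Metric n M) {α β : Form n M p} (hα : Smooth α) (hβ : Smooth β) :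
    SmF n (ipM g α β) := fun e he =>
  (smooth_ipG (isMet_gloc g he) (hα e he) (hβ e he)).congr fun _ hy => ipM_chart g he α β hy

theorem ipM_add_left (g : Metric n M) (α β γ : Form n M p) (x : M) :
    ipM g (α + β) γ x = ipM g α γ x + ipM g β γ x := by
  unfold ipM
  rw [loc_add, Pi.add_apply, ipG_add_left]

theorem ipM_smul_left (g : Metric n M) (c : ℝ) (α β : Form n M p) (x : M) :
    ipM g (c • α) β x = c * ipM g α β x := by
  unfold ipM
  rw [loc_smul, Pi.smul_apply, ipG_smul_left]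

theorem ipM_fs_left (g : Metric n M) (a : M → ℝ) (α β : Form n M p) (x : M) :
    ipM g (fs a α) β x = a x * ipM g α β x := by
  unfold ipM
  rw [loc_fs, ipG_smul_left, (chartAt (E n) x).left_inv (mem_chart_source _ _)]

theorem ipM_comm (g : Metric n M) (α β : Form n M p) (x : M) : ipM g α β x = ipM g β α x := by
  unfold ipM
  refine ipG_comm ?_ _ _
  ext i j
  exact g.symm _ _ _

theorem ipM_nonneg (g : Metric n M) (α : Form n M p) (x : M) : 0 ≤ ipM g α α x :=
  ipG_self_nonneg (gmat_posDef g (chart_mem_atlas _ _) (mem_chart_target _ _)) _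

theorem ipM_eq_zero (g : Metric n M) {α : Form n M p} (h : ∀ x, ipM g α α x = 0) : α = 0 := by
  refine form_ext fun e he y hy => ?_
  rw [loc_zero]
  by_contra hne
  have h1 := ipG_self_pos (gmat_posDef g he hy) (a := loc e α y) hne
  rw [← ipM_chart g he α α hy, h] at h1
  exact lt_irrefl _ h1

end BH
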