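import Pool.Agent.Lib.MP_4a593f_gt.BH.Chg

/-!
Row H0: `H⁰` of a compact manifold is finite dimensional and nonzero; the Euler characteristic
is positive if the odd Betti numbers vanish.
-/

open scoped Manifold ContDiff Bundle Topology

noncomputable section

universe u

namespace BH

variable {n p : ℕ} {M : Type u} [TopologicalSpace M] [ChartedSpace (E n) M]

/-- the value of a `0`-form -/
def v0 (α : Form n M 0) (x : M) : ℝ := α x 0

theorem loc_v0 (e : OpenPartialHomeomorph M (E n)) (α : Form n M 0) (y : E n) (v : Fin 0 → E n) :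
    loc e α y v = v0 α (e.symm y) := by
  unfold loc v0
  rw [ContinuousAlternatingMap.compContinuousLinearMap_apply]
  congr 1
  exact Subsingleton.elim _ _

theorem v0_inj {α β : Form n M 0} (h : ∀ x, v0 α x = v0 β x) : α = β := by
  funext x
  ext v
  rw [Subsingleton.elim v 0]
  exact h x

/-- the constant `0`-form -/
def cst (c : ℝ) : Form n M 0 := fun x =>
  ContinuousAlternatingMap.constOfIsEmpty ℝ (TangentSpace 𝓘(ℝ, E n) x) (Fin 0) c

theorem v0_cst (c : ℝ) (x : M) : v0 (cst (n := n) c) x = c := rfl

theorem loc_cst (e : OpenPartialHomeomorph M (E n)) (c : ℝ) :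
    loc e (cst (n := n) (M := M) c) =
      fun _ => ContinuousAlternatingMap.constOfIsEmpty ℝ (E n) (Fin 0) c := by
  funext y
  ext v
  rw [loc_v0, v0_cst]
  rfl

theorem cst_mem (c : ℝ) : cst c ∈ closedForms n M 0 := by
  refine ⟨fun e _ => ?_, ?_⟩
  · rw [loc_cst]
    exact contDiffOn_const
  · funext x
    unfold dM
    rw [loc_cst]
    have : extDeriv (fun _ : E n => ContinuousAlternatingMap.constOfIsEmpty ℝ (E n) (Fin 0) c)
        (chartAt (E n) x x) = 0 := by
      ext v
      rw [extDeriv_apply (differentiableAt_const _)]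
      simp
    rw [this]
    rfl

variable [IsManifold 𝓘(ℝ, E n) ∞ M]

theorem fderiv_v0 {α : Form n M 0} (hα : α ∈ closedForms n M 0)
    {e : OpenPartialHomeomorph M (E n)} (he : e ∈ atlas (E n) M) {y : E n} (hy : y ∈ e.target) :
    fderiv ℝ (fun z => v0 α (e.symm z)) y = 0 := by
  have hd : DifferentiableAt ℝ (loc e α) y :=
    ((hα.1 e he).contDiffAt (e.open_target.mem_nhds hy)).differentiableAt (by simp)
  have h0 : extDeriv (loc e α) y = 0 := by
    rw [← loc_dM hα.1 he hy, hα.2, loc_zero]
    rfl
  ext v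
  have h5 : ∀ w : Fin 0 → E n, (fun z => loc e α z w) = fun z => v0 α (e.symm z) := by
    intro w
    funext z
    exact loc_v0 e α z w
  have h4 : extDeriv (loc e α) y (fun _ => v) = 0 := by rw [h0]; rfl
  rw [extDeriv_apply hd] at h4
  simp only [h5] at h4
  rw [Fin.sum_univ_succ, Fin.sum_univ_zero, add_zero] at h4
  simpa using h4

theorem diff_v0 {α : Form n M 0} (hα : α ∈ closedForms n M 0)
    {e : OpenPartialHomeomorph M (E n)} (he : e ∈ atlas (E n) M) :
    DifferentiableOn ℝ (fun z => v0 α (e.symm z)) e.target := by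
  intro y hy
  have hd : DifferentiableAt ℝ (loc e α) y :=
    ((hα.1 e he).contDiffAt (e.open_target.mem_nhds hy)).differentiableAt (by simp)
  have h5 : (fun z => loc e α z (0 : Fin 0 → E n)) = fun z => v0 α (e.symm z) := by
    funext z
    exact loc_v0 e α z _
  rw [← h5]
  exact (hd.continuousAlternatingMap_apply_const (0 : Fin 0 → E n)).differentiableWithinAt

/-- every point has a neighbourhood on which all closed `0`-forms are constant -/
theorem exists_nhd (x : M) : ∃ U ∈ 𝓝 x, ∀ α ∈ closedForms n M 0, ∀ z ∈ U, v0 α z = v0 α x := by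
  set e := chartAt (E n) x with he
  have hx : x ∈ e.source := mem_chart_source _ x
  obtain ⟨r, hr, hb⟩ := Metric.isOpen_iff.1 e.open_target (e x) (e.map_source hx)
  refine ⟨e.source ∩ e ⁻¹' Metric.ball (e x) r, ?_, ?_⟩
  · exact (e.isOpen_inter_preimage Metric.isOpen_ball).mem_nhds
      ⟨hx, Metric.mem_ball_self hr⟩
  · rintro α hα z ⟨hz1, hz2⟩
    have h1 := (convex_ball (e x) r).is_const_of_fderivWithin_eq_zero (𝕜 := ℝ)
      (f := fun w => v0 α (e.symm w)) ((diff_v0 hα (chart_mem_atlas _ x)).mono hb) (by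
        intro w hw
        rw [fderivWithin_of_isOpen Metric.isOpen_ball hw]
        exact fderiv_v0 hα (chart_mem_atlas _ x) (hb hw)) hz2 (Metric.mem_ball_self hr)
    rwa [e.left_inv hz1, e.left_inv hx] at h1

variable (n M) in
theorem finite_closed [CompactSpace M] : Module.Finite ℝ (closedForms n M 0) := by
  choose U hU hc using fun x : M => exists_nhd (n := n) x
  obtain ⟨t, ht⟩ := CompactSpace.elim_nhds_subcover U hU
  let φ : closedForms n M 0 →ₗ[ℝ] (t → ℝ) :=
    { toFun := fun α i => v0 α.1 i.1
      map_add' := fun α β => rfl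
      map_smul' := fun c α => rfl }
  apply Module.Finite.of_injective φ
  intro α β h
  apply Subtype.ext
  apply v0_inj
  intro x
  have hx : x ∈ ⋃ y ∈ t, U y := by rw [ht]; trivial
  simp only [Set.mem_iUnion] at hx
  obtain ⟨y, hy, hxy⟩ := hx
  rw [hc y α.1 α.2 x hxy, hc y β.1 β.2 x hxy]
  exact congrFun h ⟨y, hy⟩

variable (n M) in
/-- the zeroth Betti number of a compact nonempty manifold is positive -/
theorem betti_zero_pos [CompactSpace M] [Nonempty M] : 0 < betti n M 0 := by
  haveI := finite_closed n M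
  unfold betti
  haveI : Nontrivial (deRham n M 0) := by
    refine ⟨⟨Submodule.Quotient.mk ⟨cst 1, cst_mem 1⟩, 0, ?_⟩⟩
    intro h
    rw [Submodule.Quotient.mk_eq_zero] at h
    have h1 : cst (n := n) (M := M) 1 ∈ exactForms n M 0 := h
    have h2 : cst (n := n) (M := M) 1 = 0 := by
      simpa [exactForms] using h1
    obtain ⟨x⟩ := ‹Nonempty M›
    have h3 : v0 (cst (n := n) (M := M) 1) x = v0 (0 : Form n M 0) x := by rw [h2]
    rw [v0_cst] at h3
    have h4 : v0 (0 : Form n M 0) x = 0 := rfl
    rw [h4] at h3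
    exact one_ne_zero h3
  exact Module.finrank_pos

variable (n M) in
/-- if all odd Betti numbers vanish, the Euler characteristic is positive -/
theorem euler_pos_of_odd [CompactSpace M] [Nonempty M]
    (h : ∀ p, p ≤ n → Odd p → betti n M p = 0) : 0 < euler n M := by
  unfold euler
  have h1 : ∀ p ∈ Finset.range (n + 1), 0 ≤ (-1 : ℤ) ^ p * (betti n M p : ℤ) := by
    intro p hp
    rcases Nat.even_or_odd p with he | ho
    · rw [he.neg_one_pow, one_mul]
      exact Int.natCast_nonneg _
    · rw [h p (Nat.lt_succ_iff.1 (Finset.mem_range.1 hp)) ho]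
      simp
  have h2 := Finset.single_le_sum h1 (Finset.mem_range.2 (Nat.succ_pos n))
  have h3 : (0 : ℤ) < betti n M 0 := by exact_mod_cast betti_zero_pos n M
  rw [pow_zero, one_mul] at h2
  exact lt_of_lt_of_le h3 h2

variable (n M) in
/-- if all Betti numbers in the degrees `0 < p < n` vanish and `n` is even, the Euler
characteristic is positive -/
theorem euler_pos_of_mid [CompactSpace M] [Nonempty M] (hn : Even n)
    (h : ∀ p, 0 < p → p < n → betti n M p = 0) : 0 < euler n M := by
  apply euler_pos_of_odd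
  intro p hp ho
  apply h p ho.pos
  apply lt_of_le_of_ne hp
  rintro rfl
  exact (Nat.not_even_iff_odd.2 ho) hn

/-- if every smooth closed `(p+1)`-form is exact then `b_(p+1) = 0` -/
theorem betti_eq_zero {p : ℕ} (h : ∀ α : Form n M (p + 1), Smooth α → dM α = 0 →
    ∃ β : Form n M p, Smooth β ∧ dM β = α) : betti n M (p + 1) = 0 := by
  unfold betti
  haveI : Subsingleton (deRham n M (p + 1)) := by
    rw [Submodule.Quotient.subsingleton_iff, eq_top_iff]
    rintro ⟨α, h1, h2⟩ -
    exact h α h1 h2
  exact Module.finrank_zero_of_subsingleton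

end BH
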