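import Mathlib.Analysis.InnerProductSpace.Completion
import Mathlib.Analysis.Normed.Module.Completion

/-!
Abstract Hilbert space lemma, second part (LEMMA H', project BH): a weak primitive is a strong one.
-/

namespace Pool.Agent.Lib.MP_4a593f_gt.BH

open Filter Topology UniformSpace

variable {Em E : Type*} [SeminormedAddCommGroup Em] [InnerProductSpace ℝ Em]
  [SeminormedAddCommGroup E] [InnerProductSpace ℝ E]

/-- For a fixed regularising operator: `S (d a_j) → S w`. -/
theorem lim_fixed_strong (d : Em →ₗ[ℝ] E) (δ : E →ₗ[ℝ] Em)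
    (hadj : ∀ a f, inner ℝ (d a) f = inner ℝ a (δ f)) (S : E →ₗ[ℝ] E) (Sm : Em →ₗ[ℝ] Em)
    (T : E → E) (hT : ∀ f g, inner ℝ (S f) g = inner ℝ f (T g)) {C B : ℝ}
    (hK : ∀ a, ‖d (Sm a) - S (d a)‖ ≤ C * ‖a‖) (hB : ∀ a, ‖d (Sm a)‖ ≤ B * ‖a‖)
    (w : E) (u : Completion Em)
    (hu : ∀ f : E, inner ℝ u ((δ f : Em) : Completion Em) = inner ℝ w f)
    (a : ℕ → Em) (ha : Tendsto (fun j => (a j : Completion Em)) atTop (𝓝 u)) :
    Tendsto (fun j => ‖S (d (a j)) - S w‖) atTop (𝓝 0) := by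
  have hbd : ∀ b, ‖S (d b)‖ ≤ (|B| + |C| + 1) * ‖b‖ := by
    intro b
    have e : S (d b) = d (Sm b) - (d (Sm b) - S (d b)) := by abel
    rw [e]
    refine (norm_sub_le _ _).trans ?_
    have h1 := hK b
    have h2 := hB b
    have h3 := norm_nonneg b
    nlinarith [le_abs_self B, le_abs_self C, mul_le_mul_of_nonneg_right (le_abs_self B) h3,
      mul_le_mul_of_nonneg_right (le_abs_self C) h3]
  have hcau : CauchySeq (fun j => ((S (d (a j)) : E) : Completion E)) := by
    have h1 : CauchySeq (fun j => (a j : Completion Em)) := ha.cauchySeq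
    rw [Metric.cauchySeq_iff'] at h1 ⊢
    intro ε hε
    obtain ⟨N, hN⟩ := h1 (ε / (|B| + |C| + 1)) (by positivity)
    refine ⟨N, fun n hn => ?_⟩
    have h2 := hN n hn
    rw [dist_eq_norm, ← Completion.coe_sub, Completion.norm_coe] at h2 ⊢
    rw [← map_sub, ← map_sub]
    calc ‖S (d (a n - a N))‖ ≤ (|B| + |C| + 1) * ‖a n - a N‖ := hbd _
      _ < (|B| + |C| + 1) * (ε / (|B| + |C| + 1)) := by
          refine mul_lt_mul_of_pos_left h2 (by positivity)
      _ = ε := by field_simp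
  obtain ⟨v, hv⟩ := cauchySeq_tendsto_of_complete hcau
  have hv' : v = ((S w : E) : Completion E) := by
    refine ext_inner_right ℝ fun b => ?_
    refine Completion.induction_on b (isClosed_eq ?_ ?_) fun b => ?_
    · exact continuous_const.inner continuous_id
    · exact continuous_const.inner continuous_id
    · have h1 : Tendsto (fun j => inner ℝ ((S (d (a j)) : E) : Completion E)
          (b : Completion E)) atTop (𝓝 (inner ℝ v (b : Completion E))) :=
        hv.inner tendsto_const_nhds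
      have h2 : Tendsto (fun j => inner ℝ (a j : Completion Em)
          ((δ (T b) : Em) : Completion Em)) atTop
          (𝓝 (inner ℝ u ((δ (T b) : Em) : Completion Em))) := ha.inner tendsto_const_nhds
      have h3 : ∀ j, inner ℝ ((S (d (a j)) : E) : Completion E) (b : Completion E) =
          inner ℝ (a j : Completion Em) ((δ (T b) : Em) : Completion Em) := by
        intro j
        rw [Completion.inner_coe, Completion.inner_coe, hT, hadj]
      have h4 := tendsto_nhds_unique h1 (by simpa only [h3] using h2)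
      rw [h4, hu, Completion.inner_coe, hT]
  rw [hv', tendsto_iff_norm_sub_tendsto_zero] at hv
  refine hv.congr fun j => ?_
  rw [← Completion.coe_sub, Completion.norm_coe]

/-- LEMMA H': a weak primitive `u` of `w` is a limit of smooth forms `v` with `d v` close to
`w`. -/
theorem strong_primitive (d : Em →ₗ[ℝ] E) (δ : E →ₗ[ℝ] Em)
    (hadj : ∀ a f, inner ℝ (d a) f = inner ℝ a (δ f)) {C : ℝ} (hC : 0 ≤ C)
    (S : ℕ → E →ₗ[ℝ] E) (Sm : ℕ → Em →ₗ[ℝ] Em) (T : ℕ → E → E)
    (hS0 : ∀ f, Tendsto (fun k => ‖S k f - f‖) atTop (𝓝 0))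
    (hSm : ∀ k a, ‖Sm k a‖ ≤ C * ‖a‖)
    (hSm0 : ∀ a, Tendsto (fun k => ‖Sm k a - a‖) atTop (𝓝 0))
    (hT : ∀ k f g, inner ℝ (S k f) g = inner ℝ f (T k g))
    (hK : ∀ k a, ‖d (Sm k a) - S k (d a)‖ ≤ C * ‖a‖)
    (hK0 : ∀ a, Tendsto (fun k => ‖d (Sm k a) - S k (d a)‖) atTop (𝓝 0))
    (hB : ∀ k, ∃ B : ℝ, ∀ a, ‖d (Sm k a)‖ ≤ B * ‖a‖)
    (w : E) (u : Completion Em)
    (hu : ∀ f : E, inner ℝ u ((δ f : Em) : Completion Em) = inner ℝ w f)
    (ε : ℝ) (hε : 0 < ε) :
    ∃ v : Em, ‖(v : Completion Em) - u‖ < ε ∧ ‖d v - w‖ < ε := by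
  obtain ⟨a, ha⟩ : ∃ a : ℕ → Em, Tendsto (fun j => (a j : Completion Em)) atTop (𝓝 u) := by
    have h1 : u ∈ closure (Set.range ((↑) : Em → Completion Em)) :=
      Completion.denseRange_coe u
    obtain ⟨x, hx, hx'⟩ := mem_closure_iff_seq_limit.1 h1
    choose a ha using hx
    refine ⟨a, ?_⟩
    have : (fun j => (a j : Completion Em)) = x := funext ha
    rw [this]
    exact hx'
  set ρ : ℝ := ε / (2 * C + 4) with hρ
  have hρ0 : 0 < ρ := by positivity
  have hρε : (2 * C + 4) * ρ = ε := by rw [hρ]; field_simp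
  have hz1 : ∀ᶠ j in atTop, ‖(a j : Completion Em) - u‖ < ρ :=
    (tendsto_iff_norm_sub_tendsto_zero.1 ha).eventually (gt_mem_nhds hρ0)
  obtain ⟨m, hm⟩ := hz1.exists
  obtain ⟨k, hk1, hk2, hk3⟩ : ∃ k, ‖Sm k (a m) - a m‖ < ρ ∧
      ‖d (Sm k (a m)) - S k (d (a m))‖ < ρ ∧ ‖S k w - w‖ < ρ := by
    have e1 := (hSm0 (a m)).eventually (gt_mem_nhds hρ0)
    have e2 := (hK0 (a m)).eventually (gt_mem_nhds hρ0)
    have e3 := (hS0 w).eventually (gt_mem_nhds hρ0)
    exact (e1.and (e2.and e3)).exists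
  obtain ⟨B, hBk⟩ := hB k
  have hlim := lim_fixed_strong d δ hadj (S k) (Sm k) (T k) (hT k) (hK k) hBk w u hu a ha
  have hz2 : ∀ᶠ j in atTop, ‖S k (d (a j)) - S k w‖ < ρ := hlim.eventually (gt_mem_nhds hρ0)
  obtain ⟨j, hj1, hj2⟩ := (hz1.and hz2).exists
  have hjm : ‖a j - a m‖ ≤ 2 * ρ := by
    have : ‖((a j : Completion Em) - u) - ((a m : Completion Em) - u)‖ ≤ ρ + ρ :=
      (norm_sub_le _ _).trans (add_le_add hj1.le hm.le)
    rw [sub_sub_sub_cancel_right, ← Completion.coe_sub, Completion.norm_coe] at this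
    linarith
  refine ⟨Sm k (a j), ?_, ?_⟩
  · have e1 : ((Sm k (a j) : Em) : Completion Em) - u =
        ((Sm k (a j - a m) + (Sm k (a m) - a m) : Em) : Completion Em) +
          ((a m : Completion Em) - u) := by
      rw [map_sub, ← sub_eq_zero]
      push_cast
      abel
    rw [e1]
    refine (norm_add_le _ _).trans_lt ?_
    rw [Completion.norm_coe]
    have h1 := (hSm k (a j - a m)).trans (mul_le_mul_of_nonneg_left hjm hC)
    have h2 := norm_add_le (Sm k (a j - a m)) (Sm k (a m) - a m)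
    linarith
  · have e1 : d (Sm k (a j)) - w = (d (Sm k (a j - a m)) - S k (d (a j - a m))) +
        (d (Sm k (a m)) - S k (d (a m))) + (S k (d (a j)) - S k w) + (S k w - w) := by
      simp only [map_sub]
      abel
    rw [e1]
    have h1 := (hK k (a j - a m)).trans (mul_le_mul_of_nonneg_left hjm hC)
    have h2 := norm_add_le ((d (Sm k (a j - a m)) - S k (d (a j - a m))) +
        (d (Sm k (a m)) - S k (d (a m))) + (S k (d (a j)) - S k w)) (S k w - w)
    have h3 := norm_add_le ((d (Sm k (a j - a m)) - S k (d (a j - a m))) +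
        (d (Sm k (a m)) - S k (d (a m)))) (S k (d (a j)) - S k w)
    have h4 := norm_add_le (d (Sm k (a j - a m)) - S k (d (a j - a m)))
        (d (Sm k (a m)) - S k (d (a m)))
    linarith

/-- The same in terms of the closure of the graph of `d`. -/
theorem strong_primitive_closure (d : Em →ₗ[ℝ] E) (w : E) (u : Completion Em)
    (h : ∀ ε : ℝ, 0 < ε → ∃ v : Em, ‖(v : Completion Em) - u‖ < ε ∧ ‖d v - w‖ < ε) :
    (u, (w : Completion E)) ∈
      closure (Set.range fun v : Em => ((v : Completion Em), ((d v : E) : Completion E))) := by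
  rw [Metric.mem_closure_iff]
  intro ε hε
  obtain ⟨v, h1, h2⟩ := h ε hε
  refine ⟨_, ⟨v, rfl⟩, ?_⟩
  rw [dist_comm, Prod.dist_eq, max_lt_iff, dist_eq_norm, dist_eq_norm, ← Completion.coe_sub,
    Completion.norm_coe]
  exact ⟨h1, h2⟩

end Pool.Agent.Lib.MP_4a593f_gt.BH
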