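import Pool.Agent.Lib.MP_4a593f_gt.BH.Hilb
import Pool.Agent.Lib.MP_4a593f_gt.BH.Hilb2

/-!
Row Hor: the abstract functional analysis (Hörmander, Friedrichs), see the blueprint.
`V0, V1, V2` are pre-Hilbert spaces (smooth forms of degree `p, p+1, p+2`).
-/

open Filter Topology UniformSpace

noncomputable section

namespace BH

section aux

variable {V0 V1 V2 : Type*} [NormedAddCommGroup V0] [InnerProductSpace ℝ V0]
    [NormedAddCommGroup V1] [InnerProductSpace ℝ V1] [NormedAddCommGroup V2]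
    [InnerProductSpace ℝ V2]

theorem hor_ev {V : Type*} [NormedAddCommGroup V] {t : ℕ → V} {a : V} {ρ : ℝ} (hρ : 0 < ρ)
    (h : Tendsto t atTop (𝓝 a)) : ∀ᶠ k in atTop, ‖t k - a‖ < ρ :=
  (tendsto_iff_norm_sub_tendsto_zero.1 h).eventually (gt_mem_nhds hρ)

/-- the adjoint of a bounded operator is bounded -/
theorem hor_adj_bd (P J : V1 →ₗ[ℝ] V1) {C : ℝ} (hP : ∀ f, ‖P f‖ ≤ C * ‖f‖)
    (hJ : ∀ f h, inner ℝ (J f) h = inner ℝ f (P h)) (f : V1) : ‖J f‖ ≤ |C| * ‖f‖ := by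
  have h1 : ‖J f‖ * ‖J f‖ ≤ (|C| * ‖f‖) * ‖J f‖ := by
    rw [← real_inner_self_eq_norm_mul_norm, hJ]
    refine (real_inner_le_norm _ _).trans ?_
    have h2 : ‖P (J f)‖ ≤ |C| * ‖J f‖ :=
      (hP _).trans (mul_le_mul_of_nonneg_right (le_abs_self C) (norm_nonneg _))
    refine (mul_le_mul_of_nonneg_left h2 (norm_nonneg _)).trans (le_of_eq (by ring))
  rcases eq_or_lt_of_le (norm_nonneg (J f)) with h0 | h0
  · rw [← h0]; positivity
  · exact le_of_mul_le_mul_right h1 h0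

/-- a vector of the completion with `|⟨v, b⟩| ≤ A ‖b‖` for all `b` of the dense subspace -/
theorem hor_norm_le {A : ℝ} (hA : 0 ≤ A) (v : Completion V0)
    (h : ∀ b : V0, |inner ℝ v (b : Completion V0)| ≤ A * ‖b‖) : ‖v‖ ≤ A := by
  have h1 : ∀ b : Completion V0, |inner ℝ v b| ≤ A * ‖b‖ := by
    intro b
    refine Completion.induction_on b (isClosed_le ?_ ?_) fun b => ?_
    · exact (continuous_const.inner continuous_id).abs
    · exact continuous_const.mul continuous_norm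
    · rw [Completion.norm_coe]; exact h b
  have h2 := h1 v
  rw [real_inner_self_eq_norm_mul_norm, abs_of_nonneg (mul_nonneg (norm_nonneg _) (norm_nonneg _))]
    at h2
  rcases eq_or_lt_of_le (norm_nonneg v) with h0 | h0
  · rw [← h0]; exact hA
  · exact le_of_mul_le_mul_right h2 h0

/-- fixed `k`: the norms of `δ J z_j` are eventually at most `A + ρ` -/
theorem hor_fixed (δ : V1 →ₗ[ℝ] V0) (J : V1 →ₗ[ℝ] V1) {B : ℝ} (hB : ∀ f, ‖δ (J f)‖ ≤ B * ‖f‖)
    (z : ℕ → V1) (f1 : Completion V1) (hz : Tendsto (fun j => (z j : Completion V1)) atTop (𝓝 f1))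
    (φ : V0 → ℝ) (hφ : ∀ b, Tendsto (fun j => inner ℝ (δ (J (z j))) b) atTop (𝓝 (φ b)))
    {A : ℝ} (hA : 0 ≤ A) (hφA : ∀ b, |φ b| ≤ A * ‖b‖) {ρ : ℝ} (hρ : 0 < ρ) :
    ∀ᶠ j in atTop, ‖δ (J (z j))‖ < A + ρ := by
  have hcau : CauchySeq (fun j => ((δ (J (z j)) : V0) : Completion V0)) := by
    have h1 : CauchySeq (fun j => (z j : Completion V1)) := hz.cauchySeq
    rw [Metric.cauchySeq_iff'] at h1 ⊢
    intro ε hε
    obtain ⟨N, hN⟩ := h1 (ε / (|B| + 1)) (by positivity)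
    refine ⟨N, fun n hn => ?_⟩
    have h2 := hN n hn
    rw [dist_eq_norm, ← Completion.coe_sub, Completion.norm_coe] at h2 ⊢
    rw [← map_sub, ← map_sub]
    calc ‖δ (J (z n - z N))‖ ≤ B * ‖z n - z N‖ := hB _
      _ ≤ (|B| + 1) * ‖z n - z N‖ := by
          refine mul_le_mul_of_nonneg_right ?_ (norm_nonneg _)
          linarith [le_abs_self B]
      _ < (|B| + 1) * (ε / (|B| + 1)) := by
          refine mul_lt_mul_of_pos_left h2 (by positivity)
      _ = ε := by field_simp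
  obtain ⟨v, hv⟩ := cauchySeq_tendsto_of_complete hcau
  have hvA : ‖v‖ ≤ A := by
    refine hor_norm_le hA v fun b => ?_
    have h1 : Tendsto (fun j => inner ℝ ((δ (J (z j)) : V0) : Completion V0)
        (b : Completion V0)) atTop (𝓝 (inner ℝ v (b : Completion V0))) :=
      hv.inner tendsto_const_nhds
    have h2 := hφ b
    simp only [Completion.inner_coe] at h1
    rw [tendsto_nhds_unique h1 h2]
    exact hφA b
  have h5 : Tendsto (fun j => ‖((δ (J (z j)) : V0) : Completion V0)‖) atTop (𝓝 ‖v‖) := hv.norm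
  simp only [Completion.norm_coe] at h5
  exact h5.eventually (gt_mem_nhds (by linarith))

end aux

variable {V0 V1 V2 : Type*} [NormedAddCommGroup V0] [InnerProductSpace ℝ V0]
    [NormedAddCommGroup V1] [InnerProductSpace ℝ V1] [NormedAddCommGroup V2]
    [InnerProductSpace ℝ V2]

/-- the a priori bound -/
theorem hor_bound
    (d0 : V0 →ₗ[ℝ] V1) (d1 : V1 →ₗ[ℝ] V2) (δ : V1 →ₗ[ℝ] V0)
    (hadj : ∀ a f, inner ℝ (d0 a) f = inner ℝ a (δ f)) (hdd : ∀ a, d1 (d0 a) = 0)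
    {c : ℝ} (hc : 0 < c) (hest : ∀ f, c * ‖f‖ ^ 2 ≤ ‖d1 f‖ ^ 2 + ‖δ f‖ ^ 2)
    (P0 J0 : ℕ → V0 →ₗ[ℝ] V0) (P1 J1 : ℕ → V1 →ₗ[ℝ] V1)
    (W0 : ℕ → V0 →ₗ[ℝ] V1) (W1 : ℕ → V1 →ₗ[ℝ] V2) {C : ℝ} (hC : 0 ≤ C)
    (hP1 : ∀ k f, ‖P1 k f‖ ≤ C * ‖f‖)
    (hJ0 : ∀ k a b, inner ℝ (J0 k a) b = inner ℝ a (P0 k b))
    (hJ1 : ∀ k f h, inner ℝ (J1 k f) h = inner ℝ f (P1 k h))
    (hJ0l : ∀ a, Tendsto (fun k => J0 k a) atTop (𝓝 a))
    (hJ1l : ∀ f, Tendsto (fun k => J1 k f) atTop (𝓝 f))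
    (hW0 : ∀ k a, d0 (P0 k a) = P1 k (d0 a) + W0 k a)
    (hW0b : ∀ k a, ‖W0 k a‖ ≤ C * ‖a‖)
    (hW1 : ∀ k z, d1 z = 0 → d1 (P1 k z) = W1 k z)
    (hW1b : ∀ k f, ‖W1 k f‖ ≤ C * ‖f‖) (hW1l : ∀ f, Tendsto (fun k => W1 k f) atTop (𝓝 0))
    (hDb : ∀ k f, ‖d1 (J1 k f - P1 k f)‖ ≤ C * ‖f‖)
    (hDl : ∀ f, Tendsto (fun k => d1 (J1 k f - P1 k f)) atTop (𝓝 0))
    (hδb : ∀ k, ∃ B : ℝ, ∀ f, ‖δ (J1 k f)‖ ≤ B * ‖f‖)
    (hδl : ∀ f, Tendsto (fun k => δ (J1 k f)) atTop (𝓝 (δ f)))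
    (w : V1) (hw : d1 w = 0) (f : V1) :
    |inner ℝ w f| ≤ (‖w‖ * (1 / Real.sqrt c)) * ‖δ f‖ := by
  set Zs : Submodule ℝ (Completion V1) :=
    ((LinearMap.ker d1).map (Completion.toComplL : V1 →L[ℝ] Completion V1).toLinearMap).topologicalClosure
    with hZs
  have : CompleteSpace Zs := (Submodule.isClosed_topologicalClosure _).completeSpace_coe
  have hmem : ∀ e : V1, d1 e = 0 → (e : Completion V1) ∈ Zs := by
    intro e he
    exact Submodule.le_topologicalClosure _ ⟨e, he, rfl⟩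
  set f1 : Completion V1 := Zs.starProjection (f : Completion V1) with hf1
  have horth : ∀ e : V1, d1 e = 0 →
      inner ℝ f1 (e : Completion V1) = inner ℝ (f : Completion V1) (e : Completion V1) := by
    intro e he
    have := Submodule.starProjection_inner_eq_zero (K := Zs) (f : Completion V1)
      (e : Completion V1) (hmem e he)
    rw [inner_sub_left] at this
    rw [hf1]
    linarith
  have hf1Z : f1 ∈ Zs := Submodule.starProjection_apply_mem _ _
  have hseq : ∃ z : ℕ → V1, (∀ j, d1 (z j) = 0) ∧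
      Tendsto (fun j => (z j : Completion V1)) atTop (𝓝 f1) := by
    have h1 : f1 ∈ closure (((LinearMap.ker d1).map
        (Completion.toComplL : V1 →L[ℝ] Completion V1).toLinearMap :
          Submodule ℝ (Completion V1)) : Set (Completion V1)) := by
      rw [hZs] at hf1Z
      exact hf1Z
    obtain ⟨x, hx, hx'⟩ := mem_closure_iff_seq_limit.1 h1
    choose z hz hz' using fun j => (Submodule.mem_map.1 (hx j))
    refine ⟨z, fun j => LinearMap.mem_ker.1 (hz j), ?_⟩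
    have : (fun j => (z j : Completion V1)) = x := funext fun j => hz' j
    rw [this]
    exact hx'
  obtain ⟨z, hz, hzt⟩ := hseq
  have hsc : 0 < Real.sqrt c := Real.sqrt_pos.2 hc
  have hb' : ∀ e : V1, Real.sqrt c * ‖e‖ ≤ ‖d1 e‖ + ‖δ e‖ := by
    intro e
    have h0 : 0 ≤ ‖d1 e‖ + ‖δ e‖ := by positivity
    refine (abs_le_of_sq_le_sq' (?_ : _ ≤ (‖d1 e‖ + ‖δ e‖) ^ 2) h0).2
    have h1 := hest e
    have h2 : (Real.sqrt c * ‖e‖) ^ 2 = c * ‖e‖ ^ 2 := by
      rw [mul_pow, Real.sq_sqrt hc.le]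
    rw [h2]
    nlinarith [norm_nonneg (d1 e), norm_nonneg (δ e)]
  have hJb : ∀ k e, ‖J1 k e‖ ≤ C * ‖e‖ := fun k e => by
    have := hor_adj_bd (P1 k) (J1 k) (hP1 k) (hJ1 k) e
    rwa [abs_of_nonneg hC] at this
  have hmain : Real.sqrt c * ‖f1‖ ≤ ‖δ f‖ := by
    refine le_of_forall_pos_le_add fun η hη => ?_
    obtain ⟨a, ha⟩ : ∃ a, a = Real.sqrt c * (4 + 2 * C) + (7 + 5 * C) := ⟨_, rfl⟩
    have hapos : 0 < a := by rw [ha]; positivity
    obtain ⟨ρ, hρ⟩ : ∃ ρ, ρ = η / a := ⟨_, rfl⟩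
    have hρpos : 0 < ρ := by rw [hρ]; positivity
    have hz1 : ∀ᶠ j in atTop, ‖(z j : Completion V1) - f1‖ < ρ := hor_ev hρpos hzt
    obtain ⟨m, hm⟩ := hz1.exists
    obtain ⟨k, ⟨hk1, hk2, hk3⟩, hk4, hk5, hk6⟩ : ∃ k, (‖J1 k (z m) - z m‖ < ρ ∧
        ‖d1 (J1 k (z m) - P1 k (z m)) - 0‖ < ρ ∧ ‖W1 k (z m) - 0‖ < ρ) ∧
        ‖J0 k (δ (z m)) - δ (z m)‖ < ρ ∧ ‖δ (J1 k (z m)) - δ (z m)‖ < ρ ∧
        ‖J0 k (δ f) - δ f‖ < ρ := by
      have e1 := hor_ev hρpos (hJ1l (z m))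
      have e2 := hor_ev hρpos (hDl (z m))
      have e3 := hor_ev hρpos (hW1l (z m))
      have e4 := hor_ev hρpos (hJ0l (δ (z m)))
      have e5 := hor_ev hρpos (hδl (z m))
      have e6 := hor_ev hρpos (hJ0l (δ f))
      exact ((e1.and (e2.and e3)).and (e4.and (e5.and e6))).exists
    rw [sub_zero] at hk2 hk3
    obtain ⟨B, hBk⟩ := hδb k
    -- the weak limit of `δ J z_j`
    have hφ : ∀ b, Tendsto (fun j => inner ℝ (δ (J1 k (z j))) b) atTop
        (𝓝 (inner ℝ (J0 k (δ f)) b - inner ℝ f1 ((W0 k b : V1) : Completion V1))) := by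
      intro b
      have h1 : Tendsto (fun j => inner ℝ (z j : Completion V1)
          ((P1 k (d0 b) : V1) : Completion V1)) atTop
          (𝓝 (inner ℝ f1 ((P1 k (d0 b) : V1) : Completion V1))) := hzt.inner tendsto_const_nhds
      have h2 : ∀ j, inner ℝ (z j : Completion V1) ((P1 k (d0 b) : V1) : Completion V1) =
          inner ℝ (δ (J1 k (z j))) b := by
        intro j
        rw [Completion.inner_coe, ← hJ1, real_inner_comm, hadj, real_inner_comm]
      have h3 : inner ℝ f1 ((P1 k (d0 b) : V1) : Completion V1) =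
          inner ℝ (J0 k (δ f)) b - inner ℝ f1 ((W0 k b : V1) : Completion V1) := by
        have h4 : P1 k (d0 b) = d0 (P0 k b) - W0 k b := by rw [hW0]; abel
        rw [h4, Completion.coe_sub, inner_sub_right, horth _ (hdd _), Completion.inner_coe]
        congr 1
        rw [real_inner_comm, hadj, real_inner_comm, ← hJ0]
      rw [h3] at h1
      exact h1.congr h2
    have hφA : ∀ b, |inner ℝ (J0 k (δ f)) b - inner ℝ f1 ((W0 k b : V1) : Completion V1)| ≤
        (‖δ f‖ + (3 + C) * ρ) * ‖b‖ := by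
      intro b
      have h1 : |inner ℝ (J0 k (δ f)) b| ≤ (‖δ f‖ + ρ) * ‖b‖ := by
        refine (abs_real_inner_le_norm _ _).trans (mul_le_mul_of_nonneg_right ?_ (norm_nonneg _))
        have h2 := norm_add_le (J0 k (δ f) - δ f) (δ f)
        rw [sub_add_cancel] at h2
        linarith
      have h3 : |inner ℝ ((z m : Completion V1) - f1) ((W0 k b : V1) : Completion V1)| ≤
          ρ * (C * ‖b‖) := by
        refine (abs_real_inner_le_norm _ _).trans ?_
        rw [Completion.norm_coe]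
        exact mul_le_mul hm.le (hW0b k b) (norm_nonneg _) hρpos.le
      have h4 : |inner ℝ (z m : Completion V1) ((W0 k b : V1) : Completion V1)| ≤
          (2 * ρ) * ‖b‖ := by
        have h5 : W0 k b = d0 (P0 k b) - P1 k (d0 b) := by rw [hW0]; abel
        have h6 : inner ℝ (z m : Completion V1) ((W0 k b : V1) : Completion V1) =
            inner ℝ ((J0 k (δ (z m)) - δ (z m)) - (δ (J1 k (z m)) - δ (z m))) b := by
          rw [Completion.inner_coe, h5, inner_sub_right, sub_sub_sub_cancel_right, inner_sub_left]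
          congr 1
          · rw [real_inner_comm, hadj, real_inner_comm, ← hJ0]
          · rw [← hJ1, real_inner_comm, hadj, real_inner_comm]
        rw [h6]
        refine (abs_real_inner_le_norm _ _).trans (mul_le_mul_of_nonneg_right ?_ (norm_nonneg _))
        refine (norm_sub_le _ _).trans ?_
        linarith
      have h7 : inner ℝ f1 ((W0 k b : V1) : Completion V1) =
          inner ℝ (z m : Completion V1) ((W0 k b : V1) : Completion V1) -
          inner ℝ ((z m : Completion V1) - f1) ((W0 k b : V1) : Completion V1) := by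
        rw [inner_sub_left]; ring
      rw [h7]
      have h8 := norm_nonneg b
      calc |inner ℝ (J0 k (δ f)) b - (inner ℝ (z m : Completion V1) ((W0 k b : V1) : Completion V1) -
            inner ℝ ((z m : Completion V1) - f1) ((W0 k b : V1) : Completion V1))|
          ≤ |inner ℝ (J0 k (δ f)) b| +
            |inner ℝ (z m : Completion V1) ((W0 k b : V1) : Completion V1) -
            inner ℝ ((z m : Completion V1) - f1) ((W0 k b : V1) : Completion V1)| := abs_sub _ _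
        _ ≤ |inner ℝ (J0 k (δ f)) b| +
            (|inner ℝ (z m : Completion V1) ((W0 k b : V1) : Completion V1)| +
            |inner ℝ ((z m : Completion V1) - f1) ((W0 k b : V1) : Completion V1)|) := by
              gcongr
              exact abs_sub _ _
        _ ≤ (‖δ f‖ + ρ) * ‖b‖ + ((2 * ρ) * ‖b‖ + ρ * (C * ‖b‖)) := by gcongr
        _ = (‖δ f‖ + (3 + C) * ρ) * ‖b‖ := by ring
    have hz2 := hor_fixed δ (J1 k) hBk z f1 hzt _ hφ (A := ‖δ f‖ + (3 + C) * ρ)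
      (by positivity) hφA hρpos
    obtain ⟨j, hj1, hj2⟩ := (hz1.and hz2).exists
    have hjm : ‖z j - z m‖ ≤ 2 * ρ := by
      have : ‖((z j : Completion V1) - f1) - ((z m : Completion V1) - f1)‖ ≤ ρ + ρ :=
        (norm_sub_le _ _).trans (add_le_add hj1.le hm.le)
      rw [sub_sub_sub_cancel_right, ← Completion.coe_sub, Completion.norm_coe] at this
      linarith
    have k1 : ‖z j‖ ≤ ‖J1 k (z j)‖ + (3 + 2 * C) * ρ := by
      have e1 : z j = J1 k (z j) - J1 k (z j - z m) + (z j - z m) - (J1 k (z m) - z m) := by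
        rw [map_sub]; abel
      calc ‖z j‖ = ‖J1 k (z j) - J1 k (z j - z m) + (z j - z m) - (J1 k (z m) - z m)‖ := by
            rw [← e1]
        _ ≤ ‖J1 k (z j)‖ + ‖J1 k (z j - z m)‖ + ‖z j - z m‖ + ‖J1 k (z m) - z m‖ := by
            refine (norm_sub_le _ _).trans (add_le_add ?_ le_rfl)
            refine (norm_add_le _ _).trans (add_le_add ?_ le_rfl)
            exact norm_sub_le _ _
        _ ≤ ‖J1 k (z j)‖ + C * (2 * ρ) + 2 * ρ + ρ := by
            gcongr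
            exact (hJb k _).trans (mul_le_mul_of_nonneg_left hjm hC)
        _ = ‖J1 k (z j)‖ + (3 + 2 * C) * ρ := by ring
    have k2 : ‖d1 (J1 k (z j))‖ ≤ (2 + 4 * C) * ρ := by
      have e0 : d1 (J1 k (z j)) = (d1 (J1 k (z j - z m) - P1 k (z j - z m)) +
          d1 (J1 k (z m) - P1 k (z m))) + (W1 k (z j - z m) + W1 k (z m)) := by
        have h2 : d1 (P1 k (z j)) = W1 k (z j) := hW1 k _ (hz j)
        have h3 : W1 k (z j) = W1 k (z j - z m) + W1 k (z m) := by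
          rw [← map_add, sub_add_cancel]
        rw [← h3, ← h2]
        simp only [map_sub]
        abel
      rw [e0]
      have h4 := (hDb k (z j - z m)).trans (mul_le_mul_of_nonneg_left hjm hC)
      have h5 := (hW1b k (z j - z m)).trans (mul_le_mul_of_nonneg_left hjm hC)
      have h6 := norm_add_le (d1 (J1 k (z j - z m) - P1 k (z j - z m)))
        (d1 (J1 k (z m) - P1 k (z m)))
      have h7 := norm_add_le (W1 k (z j - z m)) (W1 k (z m))
      refine (norm_add_le _ _).trans ?_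
      linarith
    have k4 : ‖f1‖ ≤ ‖z j‖ + ρ := by
      have : ‖f1‖ ≤ ‖(z j : Completion V1)‖ + ‖(z j : Completion V1) - f1‖ := by
        have e0 : f1 = (z j : Completion V1) - ((z j : Completion V1) - f1) := by abel
        calc ‖f1‖ = ‖(z j : Completion V1) - ((z j : Completion V1) - f1)‖ := by rw [← e0]
          _ ≤ _ := norm_sub_le _ _
      rw [Completion.norm_coe] at this
      linarith
    have k5 := hb' (J1 k (z j))
    have k7 : Real.sqrt c * ‖f1‖ ≤ Real.sqrt c * (‖J1 k (z j)‖ + (4 + 2 * C) * ρ) := by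
      refine mul_le_mul_of_nonneg_left ?_ hsc.le
      nlinarith
    have k8 : a * ρ = η := by rw [hρ]; field_simp
    have k9 : Real.sqrt c * (4 + 2 * C) * ρ + (7 + 5 * C) * ρ = η := by rw [← k8, ha]; ring
    nlinarith
  have hfin : inner ℝ w f = inner ℝ (w : Completion V1) f1 := by
    have := horth w hw
    rw [← Completion.inner_coe w f, real_inner_comm f1, this, real_inner_comm]
  rw [hfin]
  refine (abs_real_inner_le_norm _ _).trans ?_
  rw [Completion.norm_coe, mul_assoc]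
  refine mul_le_mul_of_nonneg_left ?_ (norm_nonneg _)
  rw [div_mul_eq_mul_div, le_div_iff₀ hsc]
  linarith

theorem hor {V0 V1 V2 : Type*} [NormedAddCommGroup V0] [InnerProductSpace ℝ V0]
    [NormedAddCommGroup V1] [InnerProductSpace ℝ V1] [NormedAddCommGroup V2]
    [InnerProductSpace ℝ V2]
    (d0 : V0 →ₗ[ℝ] V1) (d1 : V1 →ₗ[ℝ] V2) (δ : V1 →ₗ[ℝ] V0)
    (hadj : ∀ a f, inner ℝ (d0 a) f = inner ℝ a (δ f)) (hdd : ∀ a, d1 (d0 a) = 0)
    {c : ℝ} (hc : 0 < c) (hest : ∀ f, c * ‖f‖ ^ 2 ≤ ‖d1 f‖ ^ 2 + ‖δ f‖ ^ 2)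
    (P0 J0 : ℕ → V0 →ₗ[ℝ] V0) (P1 J1 : ℕ → V1 →ₗ[ℝ] V1)
    (W0 : ℕ → V0 →ₗ[ℝ] V1) (W1 : ℕ → V1 →ₗ[ℝ] V2) {C : ℝ}
    (hP0 : ∀ k a, ‖P0 k a‖ ≤ C * ‖a‖) (hP1 : ∀ k f, ‖P1 k f‖ ≤ C * ‖f‖)
    (hP0l : ∀ a, Tendsto (fun k => P0 k a) atTop (𝓝 a))
    (hP1l : ∀ f, Tendsto (fun k => P1 k f) atTop (𝓝 f))
    (hJ0 : ∀ k a b, inner ℝ (J0 k a) b = inner ℝ a (P0 k b))
    (hJ1 : ∀ k f h, inner ℝ (J1 k f) h = inner ℝ f (P1 k h))
    (hJ0l : ∀ a, Tendsto (fun k => J0 k a) atTop (𝓝 a))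
    (hJ1l : ∀ f, Tendsto (fun k => J1 k f) atTop (𝓝 f))
    (hW0 : ∀ k a, d0 (P0 k a) = P1 k (d0 a) + W0 k a)
    (hW0b : ∀ k a, ‖W0 k a‖ ≤ C * ‖a‖) (hW0l : ∀ a, Tendsto (fun k => W0 k a) atTop (𝓝 0))
    (hW1 : ∀ k z, d1 z = 0 → d1 (P1 k z) = W1 k z)
    (hW1b : ∀ k f, ‖W1 k f‖ ≤ C * ‖f‖) (hW1l : ∀ f, Tendsto (fun k => W1 k f) atTop (𝓝 0))
    (hDb : ∀ k f, ‖d1 (J1 k f - P1 k f)‖ ≤ C * ‖f‖)
    (hDl : ∀ f, Tendsto (fun k => d1 (J1 k f - P1 k f)) atTop (𝓝 0))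
    (hδb : ∀ k, ∃ B : ℝ, ∀ f, ‖δ (J1 k f)‖ ≤ B * ‖f‖)
    (hδl : ∀ f, Tendsto (fun k => δ (J1 k f)) atTop (𝓝 (δ f)))
    (hdb : ∀ k, ∃ B : ℝ, ∀ a, ‖d0 (P0 k a)‖ ≤ B * ‖a‖)
    (w : V1) (hw : d1 w = 0) :
    ∃ a : ℕ → V0, CauchySeq a ∧ Tendsto (fun j => d0 (a j)) atTop (𝓝 w) := by
  have hCC : C ≤ |C| := le_abs_self C
  have up : ∀ {t s : ℝ}, 0 ≤ s → t ≤ C * s → t ≤ |C| * s := fun hs h =>
    h.trans (mul_le_mul_of_nonneg_right hCC hs)
  obtain ⟨u, hu⟩ := Pool.Agent.Lib.MP_4a593f_gt.BH.riesz_of_bound δ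
    (innerₛₗ ℝ w : V1 →ₗ[ℝ] ℝ) (B := ‖w‖ * (1 / Real.sqrt c)) (fun f => by
      simpa using hor_bound d0 d1 δ hadj hdd hc hest P0 J0 P1 J1 W0 W1 (abs_nonneg C)
        (fun k f => up (norm_nonneg _) (hP1 k f)) hJ0 hJ1 hJ0l hJ1l hW0
        (fun k f => up (norm_nonneg _) (hW0b k f)) hW1
        (fun k f => up (norm_nonneg _) (hW1b k f)) hW1l
        (fun k f => up (norm_nonneg _) (hDb k f)) hDl hδb hδl w hw f)
  have hu' : ∀ f : V1, inner ℝ u ((δ f : V0) : Completion V0) = inner ℝ w f :=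
    fun f => by simpa using hu f
  have hcom : ∀ k a, d0 (P0 k a) - P1 k (d0 a) = W0 k a := fun k a => by rw [hW0]; abel
  have hs := Pool.Agent.Lib.MP_4a593f_gt.BH.strong_primitive d0 δ hadj (abs_nonneg C) P1 P0
    (fun k => J1 k) (fun f => tendsto_iff_norm_sub_tendsto_zero.1 (hP1l f))
    (fun k a => up (norm_nonneg _) (hP0 k a))
    (fun a => tendsto_iff_norm_sub_tendsto_zero.1 (hP0l a))
    (fun k f g => by rw [real_inner_comm, ← hJ1, real_inner_comm])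
    (fun k a => by rw [hcom]; exact up (norm_nonneg _) (hW0b k a))
    (fun a => by
      have h := (hW0l a).norm
      rw [norm_zero] at h
      refine h.congr fun k => ?_
      rw [hcom])
    hdb w u hu'
  have hpos : ∀ k : ℕ, (0 : ℝ) < 1 / ((k : ℝ) + 1) := fun k => by positivity
  choose g h1 h2 using fun k : ℕ => hs _ (hpos k)
  refine ⟨g, ?_, ?_⟩
  · have h3 : Tendsto (fun k => ((g k : V0) : Completion V0)) atTop (𝓝 u) := by
      rw [tendsto_iff_norm_sub_tendsto_zero]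
      exact squeeze_zero (fun _ => norm_nonneg _) (fun k => (h1 k).le)
        tendsto_one_div_add_atTop_nhds_zero_nat
    have h4 := h3.cauchySeq
    rw [Metric.cauchySeq_iff'] at h4 ⊢
    intro ε hε
    obtain ⟨N, hN⟩ := h4 ε hε
    refine ⟨N, fun k hk => ?_⟩
    have h5 := hN k hk
    rwa [dist_eq_norm, ← Completion.coe_sub, Completion.norm_coe, ← dist_eq_norm] at h5
  · rw [tendsto_iff_norm_sub_tendsto_zero]
    exact squeeze_zero (fun _ => norm_nonneg _) (fun k => (h2 k).le)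
      tendsto_one_div_add_atTop_nhds_zero_nat

end BH
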