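import Pool.Agent.Lib.MP_4a593f_gt.BH.PEst
import Pool.Agent.Lib.MP_4a593f_gt.BH.Est
import Pool.Agent.Lib.MP_4a593f_gt.BH.Hor

/-!
Row PSum: sum over the charts; closed forms are limits of exact forms with converging
primitives.
-/

open scoped Manifold ContDiff Bundle Topology Matrix
open MeasureTheory Filter

noncomputable section

universe u

namespace BH

section aux

variable {V W : Type*} [NormedAddCommGroup V] [NormedAddCommGroup W] {ι : Type*} [Fintype ι]

/-- a finite sum of uniformly bounded families is uniformly bounded -/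
theorem psum_bdd (T : ι → ℕ → V → W)
    (h : ∀ i, ∃ C : ℝ, 0 < C ∧ ∀ k a, ‖T i k a‖ ≤ C * ‖a‖) :
    ∃ C : ℝ, 0 ≤ C ∧ ∀ k a, ‖∑ i, T i k a‖ ≤ C * ‖a‖ := by
  choose C hC h using h
  refine ⟨∑ i, C i, Finset.sum_nonneg fun i _ => (hC i).le, fun k a => ?_⟩
  rw [Finset.sum_mul]
  exact (norm_sum_le _ _).trans (Finset.sum_le_sum fun i _ => h i k a)

/-- the same for a fixed index -/
theorem psum_bdd1 (T : ι → V → W)
    (h : ∀ i, ∃ C : ℝ, 0 < C ∧ ∀ a, ‖T i a‖ ≤ C * ‖a‖) :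
    ∃ C : ℝ, ∀ a, ‖∑ i, T i a‖ ≤ C * ‖a‖ := by
  choose C hC h using h
  refine ⟨∑ i, C i, fun a => ?_⟩
  rw [Finset.sum_mul]
  exact (norm_sum_le _ _).trans (Finset.sum_le_sum fun i _ => h i a)

end aux

variable {n p : ℕ} {M : Type u} [TopologicalSpace M] [ChartedSpace (E n) M]
  [IsManifold 𝓘(ℝ, E n) ∞ M] [CompactSpace M] [T2Space M]

omit [CompactSpace M] [T2Space M] in
/-- sums of `MO` over pieces whose cut-offs are the partition of unity -/
theorem psum_MO (S : Sys n M) (Q : Fin S.C.N → Piece n M) (hQ : ∀ i, (Q i).χ = S.C.χ i)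
    (p : ℕ) (a : Om S p) : ∑ i, (Q i).MO S p a = a := by
  have h : ∀ i, (Q i).MO S p a = mulO S p (S.C.χ i) (S.C.smooth i) a := by
    intro i
    refine Om.ext ?_
    change fs (Q i).χ a.f = fs (S.C.χ i) a.f
    rw [hQ i]
  rw [Finset.sum_congr rfl fun i _ => h i]
  exact sum_mulO S a

/-- (H) and (P) together: apply `hor` to `P_k = ∑ PO`, `J_k = ∑ JO`, `W_k = ∑ WO` -/
theorem strong_prim (S : Sys n M) (p : ℕ) {c : ℝ} (hc : 0 < c)
    (hest : ∀ f : Om S (p + 1), c * ‖f‖ ^ 2 ≤ ‖dO S (p + 1) f‖ ^ 2 + ‖del S p f‖ ^ 2)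
    (w : Om S (p + 1)) (hw : dO S (p + 1) w = 0) :
    ∃ a : ℕ → Om S p, CauchySeq a ∧ Tendsto (fun j => dO S p (a j)) atTop (𝓝 w) := by
  choose Q hQe hQ using fun i => exists_piece (S.C.mem i) (S.C.smooth i) (S.C.supp i)
  have hM : ∀ (q : ℕ) (a : Om S q), ∑ i, (Q i).MO S q a = a := psum_MO S Q hQ
  -- limits of the sums
  have hPl : ∀ (q : ℕ) (a : Om S q),
      Tendsto (fun k => ∑ i, (Q i).PO S q k a) atTop (𝓝 a) := by
    intro q a
    have h := tendsto_finsetSum Finset.univ fun i _ => (Q i).PO_lim S q a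
    rwa [hM q a] at h
  have hJl : ∀ (q : ℕ) (a : Om S q),
      Tendsto (fun k => ∑ i, (Q i).JO S q k a) atTop (𝓝 a) := by
    intro q a
    have h := tendsto_finsetSum Finset.univ fun i _ => (Q i).JO_lim S q a
    rwa [hM q a] at h
  have hWl : ∀ (q : ℕ) (a : Om S q),
      Tendsto (fun k => ∑ i, (Q i).WO S q k a) atTop (𝓝 0) := by
    intro q a
    have h := tendsto_finsetSum Finset.univ fun i _ => (Q i).WO_lim S q a
    have h1 : ∑ i, (dO S q ((Q i).MO S q a) - (Q i).MO S (q + 1) (dO S q a)) = 0 := by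
      rw [Finset.sum_sub_distrib, ← map_sum, hM q a, hM (q + 1) (dO S q a), sub_self]
    rwa [h1] at h
  have hδl : ∀ (q : ℕ) (a : Om S (q + 1)),
      Tendsto (fun k => ∑ i, del S q ((Q i).JO S (q + 1) k a)) atTop (𝓝 (del S q a)) := by
    intro q a
    have h := tendsto_finsetSum Finset.univ fun i _ => (Q i).del_JO_lim S q a
    rwa [← map_sum, hM (q + 1) a] at h
  have hDl : ∀ (q : ℕ) (a : Om S q),
      Tendsto (fun k => ∑ i, dO S q ((Q i).JO S q k a - (Q i).PO S q k a)) atTop (𝓝 0) := by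
    intro q a
    have h := tendsto_finsetSum Finset.univ fun i _ => (Q i).D_lim S q a
    rwa [Finset.sum_const_zero] at h
  -- bounds
  have hPb : ∀ q : ℕ, ∃ C : ℝ, 0 ≤ C ∧ ∀ k (a : Om S q),
      ‖∑ i, (Q i).PO S q k a‖ ≤ C * ‖a‖ := fun q =>
    psum_bdd (fun i k a => (Q i).PO S q k a) fun i => (Q i).PO_bdd S q
  have hWb : ∀ q : ℕ, ∃ C : ℝ, 0 ≤ C ∧ ∀ k (a : Om S q),
      ‖∑ i, (Q i).WO S q k a‖ ≤ C * ‖a‖ := fun q =>
    psum_bdd (fun i k a => (Q i).WO S q k a) fun i => (Q i).WO_bdd S q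
  have hDb : ∀ q : ℕ, ∃ C : ℝ, 0 ≤ C ∧ ∀ k (a : Om S q),
      ‖∑ i, dO S q ((Q i).JO S q k a - (Q i).PO S q k a)‖ ≤ C * ‖a‖ := fun q =>
    psum_bdd (fun i k a => dO S q ((Q i).JO S q k a - (Q i).PO S q k a))
      fun i => (Q i).D_bdd S q
  obtain ⟨C1, c1, h1⟩ := hPb p
  obtain ⟨C2, c2, h2⟩ := hPb (p + 1)
  obtain ⟨C3, c3, h3⟩ := hWb p
  obtain ⟨C4, c4, h4⟩ := hWb (p + 1)
  obtain ⟨C5, c5, h5⟩ := hDb (p + 1)
  have hle : ∀ {A B x y : ℝ}, x ≤ A * y → A ≤ B → 0 ≤ y → x ≤ B * y :=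
    fun hx hAB hy => hx.trans (mul_le_mul_of_nonneg_right hAB hy)
  refine hor (C := C1 + C2 + C3 + C4 + C5) (dO S p) (dO S (p + 1)) (del S p)
    (inner_dO_del S p) (dO_dO S p) hc hest
    (fun k => ∑ i, (Q i).PO S p k) (fun k => ∑ i, (Q i).JO S p k)
    (fun k => ∑ i, (Q i).PO S (p + 1) k) (fun k => ∑ i, (Q i).JO S (p + 1) k)
    (fun k => ∑ i, (Q i).WO S p k) (fun k => ∑ i, (Q i).WO S (p + 1) k)
    ?_ ?_ ?_ ?_ ?_ ?_ ?_ ?_ ?_ ?_ ?_ ?_ ?_ ?_ ?_ ?_ ?_ ?_ ?_ w hw
  · intro k a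
    rw [LinearMap.sum_apply]
    exact hle (h1 k a) (by linarith) (norm_nonneg a)
  · intro k a
    rw [LinearMap.sum_apply]
    exact hle (h2 k a) (by linarith) (norm_nonneg a)
  · intro a
    simp only [LinearMap.sum_apply]
    exact hPl p a
  · intro a
    simp only [LinearMap.sum_apply]
    exact hPl (p + 1) a
  · intro k a b
    rw [LinearMap.sum_apply, LinearMap.sum_apply, sum_inner, inner_sum]
    exact Finset.sum_congr rfl fun i _ => (Q i).JO_adj S p k a b
  · intro k a b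
    rw [LinearMap.sum_apply, LinearMap.sum_apply, sum_inner, inner_sum]
    exact Finset.sum_congr rfl fun i _ => (Q i).JO_adj S (p + 1) k a b
  · intro a
    simp only [LinearMap.sum_apply]
    exact hJl p a
  · intro a
    simp only [LinearMap.sum_apply]
    exact hJl (p + 1) a
  · intro k a
    rw [LinearMap.sum_apply, LinearMap.sum_apply, LinearMap.sum_apply, map_sum,
      ← Finset.sum_add_distrib]
    exact Finset.sum_congr rfl fun i _ => (Q i).dO_PO S p k a
  · intro k a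
    rw [LinearMap.sum_apply]
    exact hle (h3 k a) (by linarith) (norm_nonneg a)
  · intro a
    simp only [LinearMap.sum_apply]
    exact hWl p a
  · intro k z hz
    rw [LinearMap.sum_apply, LinearMap.sum_apply, map_sum]
    refine Finset.sum_congr rfl fun i _ => ?_
    rw [(Q i).dO_PO S (p + 1) k z, hz, map_zero, zero_add]
  · intro k a
    rw [LinearMap.sum_apply]
    exact hle (h4 k a) (by linarith) (norm_nonneg a)
  · intro a
    simp only [LinearMap.sum_apply]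
    exact hWl (p + 1) a
  · intro k a
    rw [LinearMap.sum_apply, LinearMap.sum_apply, ← Finset.sum_sub_distrib, map_sum]
    exact hle (h5 k a) (by linarith) (norm_nonneg a)
  · intro a
    simp only [LinearMap.sum_apply, ← Finset.sum_sub_distrib, map_sum]
    exact hDl (p + 1) a
  · intro k
    obtain ⟨B, hB⟩ := psum_bdd1 (fun i (a : Om S (p + 1)) => del S p ((Q i).JO S (p + 1) k a))
      fun i => (Q i).del_JO_bdd S p k
    refine ⟨B, fun a => ?_⟩
    rw [LinearMap.sum_apply, map_sum]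
    exact hB a
  · intro a
    simp only [LinearMap.sum_apply, map_sum]
    exact hδl p a
  · intro k
    obtain ⟨B, hB⟩ := psum_bdd1 (fun i (a : Om S p) => dO S p ((Q i).PO S p k a))
      fun i => (Q i).dO_PO_bdd S p k
    refine ⟨B, fun a => ?_⟩
    rw [LinearMap.sum_apply, map_sum]
    exact hB a

end BH
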