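import Mathlib

/-!
# BH, part (4): the homotopy kernel of a mollifier (helper99)

`ρ` is continuous, supported in a ball. `kr ρ z = ∫_0^1 t^(-n-1) ρ (z / t) dt • z`: an integrable
vector field, supported in the same ball, with divergence `ρ ⁻ - δ₀`: for every `C¹` map `v`,
`∫ Dv (x + z) (kr ρ z) dz = ∫ ρ y • v (x + y) dy - (∫ ρ) • v x`.
-/

set_option autoImplicit false
set_option linter.unusedSectionVars false

namespace Pool.Agent.Lib.MP_4a593f_gt.BH

open MeasureTheory Set Filter Topology Module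

variable {E : Type*} [NormedAddCommGroup E] [InnerProductSpace ℝ E] [FiniteDimensional ℝ E]
  [MeasurableSpace E] [BorelSpace E]
  {F : Type*} [NormedAddCommGroup F] [NormedSpace ℝ F]

/-- The integrand. -/
noncomputable def krc (ρ : E → ℝ) (t : ℝ) (z : E) : ℝ := (t ^ (finrank ℝ E + 1))⁻¹ * ρ (t⁻¹ • z)

/-- The kernel. -/
noncomputable def kr (ρ : E → ℝ) (z : E) : E := (∫ t in Ioc (0 : ℝ) 1, krc ρ t z) • z

theorem krc_supp {ρ : E → ℝ} {ε : ℝ} (hs : ∀ z, ε ≤ ‖z‖ → ρ z = 0) {t : ℝ} (ht : t ∈ Ioc (0 : ℝ) 1)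
    {z : E} (hz : ε ≤ ‖z‖) : krc ρ t z = 0 := by
  have h1 : ε ≤ ‖t⁻¹ • z‖ := by
    rw [norm_smul, norm_inv, Real.norm_eq_abs, abs_of_pos ht.1]
    have h2 : 1 ≤ t⁻¹ := (one_le_inv₀ ht.1).2 ht.2
    nlinarith [norm_nonneg z]
  rw [krc, hs _ h1, mul_zero]

theorem kr_supp {ρ : E → ℝ} {ε : ℝ} (hs : ∀ z, ε ≤ ‖z‖ → ρ z = 0) {z : E} (hz : ε ≤ ‖z‖) :
    kr ρ z = 0 := by
  have h1 : ∫ t in Ioc (0 : ℝ) 1, krc ρ t z = 0 := by
    rw [setIntegral_congr_fun measurableSet_Ioc (g := fun _ => 0) fun t ht => krc_supp hs ht hz]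
    simp
  rw [kr, h1, zero_smul]

/-- Rescaling. -/
theorem scale (ρ : E → ℝ) (G : E → E →L[ℝ] F) {t : ℝ} (ht : t ∈ Ioc (0 : ℝ) 1) :
    ∫ z, krc ρ t z • G z z = ∫ y, ρ y • G (t • y) y := by
  have h1 := Measure.integral_comp_smul (volume : Measure E)
    (fun z => krc ρ t z • G z z) t
  have ht0 : t ≠ 0 := ht.1.ne'
  have h2 : (fun y : E => krc ρ t (t • y) • G (t • y) (t • y)) =
      fun y => (t ^ finrank ℝ E)⁻¹ • (ρ y • G (t • y) y) := by
    funext y
    rw [krc, inv_smul_smul₀ ht0, map_smul, smul_smul, smul_smul, pow_succ, mul_inv]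
    congr 1
    field_simp
  rw [h2, integral_smul, abs_of_pos (inv_pos.2 (pow_pos ht.1 _))] at h1
  exact (smul_right_injective F (inv_ne_zero (pow_ne_zero _ ht0)) h1).symm

theorem scale_int {ρ : E → ℝ} (hρ : Continuous ρ) (hc : HasCompactSupport ρ) {G : E → E →L[ℝ] F}
    (hG : Continuous G) {t : ℝ} (ht : t ∈ Ioc (0 : ℝ) 1) :
    Integrable fun z => krc ρ t z • G z z := by
  have ht0 : t ≠ 0 := ht.1.ne'
  have h1 : Integrable fun y : E => ρ y • G (t • y) y := by
    refine Continuous.integrable_of_hasCompactSupport ?_ ?_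
    · exact hρ.smul ((hG.comp (continuous_const_smul t)).clm_apply continuous_id)
    · exact hc.smul_right
  have h2 := (h1.smul (t ^ finrank ℝ E)⁻¹).comp_smul (R := t⁻¹) (inv_ne_zero ht0)
  refine h2.congr (ae_of_all _ fun z => ?_)
  simp only [Pi.smul_apply, smul_inv_smul₀ ht0, krc, map_smul]
  rw [smul_smul, smul_smul, pow_succ, mul_inv]
  congr 1
  ring

theorem krc_meas {ρ : E → ℝ} (hρ : Continuous ρ) {G : E → E →L[ℝ] F} (hG : Continuous G) :
    AEStronglyMeasurable (fun p : ℝ × E => krc ρ p.1 p.2 • G p.2 p.2)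
      ((volume.restrict (Ioc (0 : ℝ) 1)).prod volume) := by
  have h1 : (volume.restrict (Ioc (0 : ℝ) 1)).prod (volume : Measure E) =
      (volume.prod volume).restrict (Ioc (0 : ℝ) 1 ×ˢ univ) := by
    rw [← Measure.prod_restrict, Measure.restrict_univ]
  rw [h1]
  refine ContinuousOn.aestronglyMeasurable ?_ (measurableSet_Ioc.prod MeasurableSet.univ)
  have h2 : ContinuousOn (fun p : ℝ × E => krc ρ p.1 p.2) (Ioc (0 : ℝ) 1 ×ˢ univ) := by
    intro p hp
    have hp0 : p.1 ≠ 0 := hp.1.1.ne'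
    refine ContinuousAt.continuousWithinAt ?_
    have h3 : ContinuousAt (fun p : ℝ × E => p.1⁻¹) p := continuousAt_fst.inv₀ hp0
    exact ((continuousAt_fst.pow _).inv₀ (pow_ne_zero _ hp0)).mul
      (hρ.continuousAt.comp (h3.smul continuousAt_snd))
  exact h2.smul (((hG.comp continuous_snd).clm_apply continuous_snd).continuousOn)

theorem krc_int {ρ : E → ℝ} (hρ : Continuous ρ) (hc : HasCompactSupport ρ) {G : E → E →L[ℝ] F}
    (hG : Continuous G) : Integrable (fun p : ℝ × E => krc ρ p.1 p.2 • G p.2 p.2)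
      ((volume.restrict (Ioc (0 : ℝ) 1)).prod volume) := by
  rw [integrable_prod_iff (krc_meas hρ hG)]
  constructor
  · rw [ae_restrict_iff' measurableSet_Ioc]
    exact ae_of_all _ fun t ht => scale_int hρ hc hG ht
  · -- the norms
    have h1 : ∀ t ∈ Ioc (0 : ℝ) 1, ∫ z, ‖krc ρ t z • G z z‖ = ∫ y, ‖ρ y • G (t • y) y‖ := by
      intro t ht
      have ht0 : t ≠ 0 := ht.1.ne'
      have h1 := Measure.integral_comp_smul (volume : Measure E)
        (fun z => ‖krc ρ t z • G z z‖) t
      have h2 : (fun y : E => ‖krc ρ t (t • y) • G (t • y) (t • y)‖) =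
          fun y => (t ^ finrank ℝ E)⁻¹ • ‖ρ y • G (t • y) y‖ := by
        funext y
        have h3 : krc ρ t (t • y) • G (t • y) (t • y) =
            (t ^ finrank ℝ E)⁻¹ • (ρ y • G (t • y) y) := by
          rw [krc, inv_smul_smul₀ ht0, map_smul, smul_smul, smul_smul, pow_succ, mul_inv]
          congr 1
          field_simp
        rw [h3, norm_smul, Real.norm_of_nonneg (inv_nonneg.2 (pow_nonneg ht.1.le _)), smul_eq_mul]
      rw [h2, integral_smul, abs_of_pos (inv_pos.2 (pow_pos ht.1 _))] at h1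
      exact (smul_right_injective ℝ (inv_ne_zero (pow_ne_zero _ ht0)) h1).symm
    -- a bound
    obtain ⟨R, hR0, hR⟩ : ∃ R : ℝ, 0 ≤ R ∧ ∀ y, ρ y ≠ 0 → ‖y‖ ≤ R := by
      obtain ⟨R, hR⟩ := hc.isCompact.isBounded.exists_norm_le
      exact ⟨max R 0, le_max_right _ _, fun y hy =>
        (hR y (subset_tsupport _ hy)).trans (le_max_left _ _)⟩
    obtain ⟨M, hM⟩ := (isCompact_closedBall (0 : E) R).exists_bound_of_continuousOn
      hG.continuousOn
    have hMn : 0 ≤ M := (norm_nonneg _).trans (hM 0 (Metric.mem_closedBall_self hR0))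
    have hint : Integrable fun y : E => ‖ρ y‖ * (M * R) :=
      ((hρ.integrable_of_hasCompactSupport hc).norm).mul_const _
    refine Integrable.mono' (g := fun _ => ∫ y : E, ‖ρ y‖ * (M * R)) ?_ ?_ ?_
    · exact integrable_const _
    · exact (krc_meas hρ hG).norm.integral_prod_right'
    · rw [ae_restrict_iff' measurableSet_Ioc]
      refine ae_of_all _ fun t ht => ?_
      rw [h1 t ht, Real.norm_of_nonneg (integral_nonneg fun _ => norm_nonneg _)]
      refine integral_mono_of_nonneg (ae_of_all _ fun _ => norm_nonneg _) hint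
        (ae_of_all _ fun y => ?_)
      show ‖ρ y • G (t • y) y‖ ≤ ‖ρ y‖ * (M * R)
      rw [norm_smul]
      by_cases hy : ρ y = 0
      · rw [hy, norm_zero, zero_mul, zero_mul]
      · have hyR := hR y hy
        have h4 : t • y ∈ Metric.closedBall (0 : E) R := by
          rw [mem_closedBall_zero_iff, norm_smul, Real.norm_of_nonneg ht.1.le]
          nlinarith [norm_nonneg y, ht.2]
        have h5 := ((G (t • y)).le_opNorm y).trans
          (mul_le_mul (hM _ h4) hyR (norm_nonneg _) hMn)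
        exact mul_le_mul_of_nonneg_left h5 (norm_nonneg _)

/-- The kernel is integrable. -/
theorem kr_integrable {ρ : E → ℝ} (hρ : Continuous ρ) (hc : HasCompactSupport ρ) :
    Integrable (kr ρ) := by
  have h1 := (krc_int hρ hc (G := fun _ : E => ContinuousLinearMap.id ℝ E)
    continuous_const).integral_prod_right
  refine h1.congr (ae_of_all _ fun z => ?_)
  show ∫ t in Ioc (0 : ℝ) 1, krc ρ t z • z = kr ρ z
  rw [integral_smul_const, kr]

/-- **The Fubini formula** for the kernel. -/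
theorem kr_fubini [CompleteSpace F] {ρ : E → ℝ} (hρ : Continuous ρ) (hc : HasCompactSupport ρ)
    {G : E → E →L[ℝ] F} (hG : Continuous G) :
    ∫ z, G z (kr ρ z) = ∫ t in Ioc (0 : ℝ) 1, ∫ y, ρ y • G (t • y) y := by
  have h1 : ∫ z, G z (kr ρ z) = ∫ z, ∫ t in Ioc (0 : ℝ) 1, krc ρ t z • G z z := by
    refine integral_congr_ae (ae_of_all _ fun z => ?_)
    show G z (kr ρ z) = ∫ t in Ioc (0 : ℝ) 1, krc ρ t z • G z z
    rw [integral_smul_const, kr, map_smul]
  have h2 := integral_integral_swap (μ := volume.restrict (Ioc (0 : ℝ) 1)) (ν := (volume : Measure E))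
    (f := fun t z => krc ρ t z • G z z) (krc_int hρ hc hG)
  rw [h1, ← h2]
  exact setIntegral_congr_fun measurableSet_Ioc fun t ht => scale ρ G ht

/-- **The divergence of the kernel.** -/
theorem kr_div [CompleteSpace F] {ρ : E → ℝ} (hρ : Continuous ρ) (hc : HasCompactSupport ρ)
    {v : E → F} (hv : ContDiff ℝ 1 v) (x : E) :
    ∫ z, fderiv ℝ v (x + z) (kr ρ z) = (∫ y, ρ y • v (x + y)) - (∫ y, ρ y) • v x := by
  have hdv : Continuous (fderiv ℝ v) := hv.continuous_fderiv one_ne_zero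
  have hG : Continuous fun z => fderiv ℝ v (x + z) := hdv.comp (continuous_const.add continuous_id)
  rw [kr_fubini hρ hc hG]
  have hi : Integrable (fun p : ℝ × E => ρ p.2 • fderiv ℝ v (x + p.1 • p.2) p.2)
      ((volume.restrict (Ioc (0 : ℝ) 1)).prod volume) := by
    have hcont : Continuous fun p : ℝ × E => ρ p.2 • fderiv ℝ v (x + p.1 • p.2) p.2 :=
      (hρ.comp continuous_snd).smul ((hdv.comp (continuous_const.add
        (continuous_fst.smul continuous_snd))).clm_apply continuous_snd)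
    have h1 : (volume.restrict (Ioc (0 : ℝ) 1)).prod (volume : Measure E) =
        (volume.prod volume).restrict (Ioc (0 : ℝ) 1 ×ˢ univ) := by
      rw [← Measure.prod_restrict, Measure.restrict_univ]
    rw [h1]
    have h2 : IntegrableOn (fun p : ℝ × E => ρ p.2 • fderiv ℝ v (x + p.1 • p.2) p.2)
        (Icc (0 : ℝ) 1 ×ˢ tsupport ρ) (volume.prod volume) :=
      hcont.continuousOn.integrableOn_compact (isCompact_Icc.prod hc.isCompact)
    refine IntegrableOn.of_forall_sdiff_eq_zero (s := Icc (0 : ℝ) 1 ×ˢ tsupport ρ) ?_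
      (measurableSet_Ioc.prod MeasurableSet.univ) ?_
    · exact h2
    · rintro ⟨t, y⟩ ⟨⟨ht, -⟩, hn⟩
      have h3 : y ∉ tsupport ρ := fun h => hn ⟨⟨ht.1.le, ht.2⟩, h⟩
      show ρ y • _ = 0
      rw [image_eq_zero_of_notMem_tsupport h3, zero_smul]
  rw [integral_integral_swap hi]
  have h1 : ∀ y : E, ∫ t in Ioc (0 : ℝ) 1, ρ y • fderiv ℝ v (x + t • y) y =
      ρ y • v (x + y) - ρ y • v x := by
    intro y
    have hd : ∀ t : ℝ, HasDerivAt (fun t : ℝ => v (x + t • y)) (fderiv ℝ v (x + t • y) y) t := by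
      intro t
      have h2 : HasDerivAt (fun t : ℝ => x + t • y) y t := by
        simpa using ((hasDerivAt_id t).smul_const y).const_add x
      exact ((hv.differentiable one_ne_zero _).hasFDerivAt).comp_hasDerivAt t h2
    have h3 : ∫ t in (0 : ℝ)..1, fderiv ℝ v (x + t • y) y = v (x + (1 : ℝ) • y) - v (x + (0 : ℝ) • y) :=
      intervalIntegral.integral_eq_sub_of_hasDerivAt (fun t _ => hd t)
        (((hdv.comp (continuous_const.add (continuous_id.smul continuous_const))).clm_apply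
          continuous_const).intervalIntegrable _ _)
    rw [integral_smul, ← intervalIntegral.integral_of_le zero_le_one, h3, one_smul, zero_smul,
      add_zero, smul_sub]
  simp_rw [h1]
  rw [integral_sub, integral_smul_const]
  · refine Continuous.integrable_of_hasCompactSupport ?_ hc.smul_right
    exact hρ.smul (hv.continuous.comp (continuous_const.add continuous_id))
  · exact (hρ.integrable_of_hasCompactSupport hc).smul_const _

end Pool.Agent.Lib.MP_4a593f_gt.BH
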