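import Pool.Agent.Lib.MP_4a593f_gt.BH.Chg

/-!
Rows Fun: smooth functions on `M`, products `a · α`, cut-offs, finite atlases with a partition
of unity.
-/

open scoped Manifold ContDiff Bundle Topology

noncomputable section

universe u

namespace BH

variable {n p : ℕ} {M : Type u} [TopologicalSpace M] [ChartedSpace (E n) M]

variable (n) in
/-- smooth functions on `M` -/
def SmF (a : M → ℝ) : Prop := ∀ e ∈ atlas (E n) M, ContDiffOn ℝ ∞ (fun y => a (e.symm y)) e.target

/-- the form `a · α` -/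
def fs (a : M → ℝ) (α : Form n M p) : Form n M p := fun x => a x • α x

theorem loc_fs (e : OpenPartialHomeomorph M (E n)) (a : M → ℝ) (α : Form n M p) (y : E n) :
    loc e (fs a α) y = a (e.symm y) • loc e α y := by
  ext v
  rfl

theorem Smooth.fs {a : M → ℝ} (ha : SmF n a) {α : Form n M p} (hα : Smooth α) :
    Smooth (fs a α) := fun e he =>
  ((ha e he).smul (hα e he)).congr fun y _ => loc_fs e a α y

theorem SmF.continuous {a : M → ℝ} (ha : SmF n a) : Continuous a := by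
  rw [continuous_iff_continuousAt]
  intro x
  have h1 : ContinuousAt (fun y => a ((chartAt (E n) x).symm y)) (chartAt (E n) x x) :=
    (ha _ (chart_mem_atlas (E n) x)).continuousOn.continuousAt
      ((chartAt (E n) x).open_target.mem_nhds (mem_chart_target (E n) x))
  have h2 : ContinuousAt (chartAt (E n) x) x :=
    (chartAt (E n) x).continuousAt (mem_chart_source (E n) x)
  have h3 : ContinuousAt ((fun y => a ((chartAt (E n) x).symm y)) ∘ chartAt (E n) x) x :=
    ContinuousAt.comp h1 h2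
  refine h3.congr ?_
  filter_upwards [(chartAt (E n) x).open_source.mem_nhds (mem_chart_source (E n) x)] with z hz
  change a ((chartAt (E n) x).symm (chartAt (E n) x z)) = a z
  rw [(chartAt (E n) x).left_inv hz]

theorem smF_const (c : ℝ) : SmF n (fun _ : M => c) := fun _ _ => contDiffOn_const

theorem SmF.add {a b : M → ℝ} (ha : SmF n a) (hb : SmF n b) : SmF n (fun x => a x + b x) :=
  fun e he => (ha e he).add (hb e he)

theorem SmF.mul {a b : M → ℝ} (ha : SmF n a) (hb : SmF n b) : SmF n (fun x => a x * b x) :=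
  fun e he => (ha e he).mul (hb e he)

theorem SmF.sum {ι : Type*} (s : Finset ι) {a : ι → M → ℝ} (ha : ∀ i ∈ s, SmF n (a i)) :
    SmF n (fun x => ∑ i ∈ s, a i x) := fun e he =>
  ContDiffOn.sum fun i hi => ha i hi e he

theorem smF_of_contMDiff [IsManifold 𝓘(ℝ, E n) ∞ M] {a : M → ℝ}
    (ha : ContMDiff 𝓘(ℝ, E n) 𝓘(ℝ) ∞ a) : SmF n a := by
  intro e he
  have h2 : ContMDiffOn 𝓘(ℝ, E n) 𝓘(ℝ, E n) ∞ e.symm e.target :=
    contMDiffOn_symm_of_mem_maximalAtlas (IsManifold.subset_maximalAtlas he)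
  have h3 : ContMDiffOn 𝓘(ℝ, E n) 𝓘(ℝ) ∞ (a ∘ e.symm) e.target := ha.comp_contMDiffOn h2
  exact contMDiffOn_iff_contDiffOn.mp h3

/-- cut-off functions on `M` -/
theorem exists_cut [IsManifold 𝓘(ℝ, E n) ∞ M] [CompactSpace M] [T2Space M] {K O : Set M}
    (hK : IsCompact K) (hO : IsOpen O) (hKO : K ⊆ O) :
    ∃ a : M → ℝ, SmF n a ∧ (∀ x, 0 ≤ a x ∧ a x ≤ 1) ∧ tsupport a ⊆ O ∧
      ∃ V, IsOpen V ∧ K ⊆ V ∧ ∀ x ∈ V, a x = 1 := by
  obtain ⟨f, h0, h1, hf⟩ := exists_contMDiffMap_zero_one_nhds_of_isClosed 𝓘(ℝ, E n)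
    (n := (⊤ : ℕ∞)) hO.isClosed_compl hK.isClosed
    (Set.disjoint_left.2 fun x hx hxK => hx (hKO hxK))
  refine ⟨f, smF_of_contMDiff f.contMDiff, fun x => hf x, ?_, ?_⟩
  · intro x hx
    by_contra hxO
    have h2 := (Filter.Eventually.filter_mono (nhds_le_nhdsSet (s := Oᶜ) hxO) h0)
    exact notMem_tsupport_iff_eventuallyEq.2 h2 hx
  · obtain ⟨V, hV, hKV, h⟩ := eventually_nhdsSet_iff_exists.1 h1
    exact ⟨V, hV, hKV, h⟩

/-- cut-off functions on `ℝⁿ` -/
theorem exists_cutE {K O : Set (E n)} (hK : IsCompact K) (hO : IsOpen O) (hKO : K ⊆ O) :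
    ∃ a : E n → ℝ, ContDiff ℝ ∞ a ∧ HasCompactSupport a ∧ (∀ x, 0 ≤ a x ∧ a x ≤ 1) ∧
      tsupport a ⊆ O ∧ ∃ V, IsOpen V ∧ K ⊆ V ∧ ∀ x ∈ V, a x = 1 := by
  obtain ⟨R, hR⟩ := hK.isBounded.subset_ball 0
  have hO' : IsOpen (O ∩ Metric.ball (0 : E n) R) := hO.inter Metric.isOpen_ball
  obtain ⟨f, h0, h1, hf⟩ := exists_contMDiffMap_zero_one_nhds_of_isClosed 𝓘(ℝ, E n)
    (n := (⊤ : ℕ∞)) hO'.isClosed_compl hK.isClosed
    (Set.disjoint_left.2 fun x hx hxK => hx ⟨hKO hxK, hR hxK⟩)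
  have hsup : tsupport f ⊆ O ∩ Metric.ball (0 : E n) R := by
    intro x hx
    by_contra hxO
    have h2 := (Filter.Eventually.filter_mono
      (nhds_le_nhdsSet (s := (O ∩ Metric.ball (0 : E n) R)ᶜ) hxO) h0)
    exact notMem_tsupport_iff_eventuallyEq.2 h2 hx
  refine ⟨f, contMDiff_iff_contDiff.1 f.contMDiff, ?_, fun x => hf x, fun x hx => (hsup hx).1, ?_⟩
  · exact HasCompactSupport.of_support_subset_isCompact (isCompact_closedBall (0 : E n) R)
      fun x hx => Metric.ball_subset_closedBall (hsup (subset_tsupport _ hx)).2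
  · obtain ⟨V, hV, hKV, h⟩ := eventually_nhdsSet_iff_exists.1 h1
    exact ⟨V, hV, hKV, h⟩

open Classical in
/-- the function `f` of the chart `e`, extended by zero -/
def mkF (e : OpenPartialHomeomorph M (E n)) (f : E n → ℝ) : M → ℝ := fun x =>
  if x ∈ e.source then f (e x) else 0

theorem mkF_symm (e : OpenPartialHomeomorph M (E n)) (f : E n → ℝ) {y : E n}
    (hy : y ∈ e.target) : mkF e f (e.symm y) = f y := by
  rw [mkF, if_pos (e.map_target hy), e.right_inv hy]

omit [ChartedSpace (E n) M] in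
theorem mkF_eq_zero {e : OpenPartialHomeomorph M (E n)} {f : E n → ℝ} {K : Set (E n)}
    (h0 : ∀ y ∈ e.target, y ∉ K → f y = 0) {x : M} (hx : x ∉ e.symm '' K) : mkF e f x = 0 := by
  rw [mkF]
  split_ifs with h
  · refine h0 _ (e.map_source h) fun hK => hx ⟨e x, hK, e.left_inv h⟩
  · rfl

omit [ChartedSpace (E n) M] in
theorem isClosed_symm_image [T2Space M] {e : OpenPartialHomeomorph M (E n)}
    {K : Set (E n)} (hK : IsCompact K) (hKt : K ⊆ e.target) : IsClosed (e.symm '' K) :=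
  (hK.image_of_continuousOn (e.continuousOn_symm.mono hKt)).isClosed

theorem smF_mkF [IsManifold 𝓘(ℝ, E n) ∞ M] [T2Space M] {e : OpenPartialHomeomorph M (E n)}
    (he : e ∈ atlas (E n) M) {f : E n → ℝ} {K : Set (E n)} (hK : IsCompact K)
    (hKt : K ⊆ e.target) (hf : ContDiffOn ℝ ∞ f e.target)
    (h0 : ∀ y ∈ e.target, y ∉ K → f y = 0) : SmF n (mkF e f) := by
  intro e' he' y hy
  apply ContDiffAt.contDiffWithinAt
  by_cases hs : e'.symm y ∈ e.source
  · have hov : y ∈ ov e' e := ⟨hy, hs⟩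
    have h1 : ContDiffAt ℝ ∞ f (tr e' e y) :=
      hf.contDiffAt (e.open_target.mem_nhds (tr_mem hov).1)
    have h2 : ContDiffAt ℝ ∞ (f ∘ tr e' e) y := h1.comp y (tr_contDiffAt he' he hov)
    refine h2.congr_of_eventuallyEq ?_
    filter_upwards [(ov_open e' e).mem_nhds hov] with z hz
    have hz2 : e'.symm z ∈ e.source := hz.2
    rw [mkF, if_pos hz2]
    rfl
  · have hc := isClosed_symm_image (M := M) hK hKt
    have h1 : e'.symm y ∉ e.symm '' K := by
      rintro ⟨z, hz, hzy⟩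
      apply hs
      rw [← hzy]
      exact e.map_target (hKt hz)
    have h2 : ∀ᶠ z in 𝓝 y, e'.symm z ∉ e.symm '' K :=
      (e'.continuousAt_symm hy).eventually (hc.isOpen_compl.mem_nhds h1)
    have h3 : (fun z => mkF e f (e'.symm z)) =ᶠ[𝓝 y] fun _ => (0 : ℝ) := by
      filter_upwards [h2] with z hz
      exact mkF_eq_zero h0 hz
    exact contDiffAt_const.congr_of_eventuallyEq h3

theorem tsupport_mkF [T2Space M] {e : OpenPartialHomeomorph M (E n)} {f : E n → ℝ}
    {K : Set (E n)} (hK : IsCompact K) (hKt : K ⊆ e.target)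
    (h0 : ∀ y ∈ e.target, y ∉ K → f y = 0) : tsupport (mkF e f) ⊆ e.symm '' K := by
  refine closure_minimal (fun x hx => ?_) (isClosed_symm_image hK hKt)
  by_contra hcon
  exact hx (mkF_eq_zero h0 hcon)

/-- the 0-form of a function -/
def f0 (a : M → ℝ) : Form n M 0 := fun x =>
  ContinuousAlternatingMap.constOfIsEmpty ℝ (TangentSpace 𝓘(ℝ, E n) x) (Fin 0) (a x)

theorem smooth_f0 {a : M → ℝ} (ha : SmF n a) : Smooth (f0 (n := n) a) := by
  intro e he
  have h1 : ContDiffOn ℝ ∞ (fun y => a (e.symm y) •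
      (ContinuousAlternatingMap.constOfIsEmpty ℝ (E n) (Fin 0) (1 : ℝ) : Alt n 0)) e.target :=
    (ha e he).smul contDiffOn_const
  refine h1.congr fun y _ => ?_
  ext v
  change a (e.symm y) = a (e.symm y) • (1 : ℝ)
  rw [smul_eq_mul, mul_one]

end BH
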