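import Pool.Agent.Lib.MP_4a593f_gt.BH.LDivA

/-!
Row LDiv: the codifferential on an open set of `ℝⁿ`.
-/

open scoped Manifold ContDiff Topology Matrix
open MeasureTheory

noncomputable section

namespace BH

variable {n p : ℕ}

/-- the flat divergence -/
def div0 (q : E n → Alt n (p + 1)) (y : E n) : Alt n p := ∑ k, iot k (pdF k q y)

/-- the codifferential: `raise (δ f) vol = - div0 (vol raise f)` -/
def codiff (G : Fin n → Fin n → E n → ℝ) (f : E n → Alt n (p + 1)) (y : E n) : Alt n p :=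
  -(vol G y)⁻¹ • pb (gmat G y) (div0 (fun z => vol G z • pb (gmat G z)⁻¹ (f z)) y)

variable {U : Set (E n)} {G : Fin n → Fin n → E n → ℝ}

theorem smooth_div0 (hU : IsOpen U) {q : E n → Alt n (p + 1)} (hq : ContDiffOn ℝ ∞ q U) :
    ContDiffOn ℝ ∞ (div0 q) U :=
  ContDiffOn.sum fun k _ => smooth_lin (iot k) (smooth_pdF hU k hq)

theorem smooth_raise (hG : IsMet U G) {f : E n → Alt n p} (hf : ContDiffOn ℝ ∞ f U) :
    ContDiffOn ℝ ∞ (fun z => vol G z • pb (gmat G z)⁻¹ (f z)) U :=
  hG.vol_smooth.smul (smooth_pb (A := fun z => (gmat G z)⁻¹) hG.inv_smooth hf)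

theorem codiff_smooth (hU : IsOpen U) (hG : IsMet U G) {f : E n → Alt n (p + 1)}
    (hf : ContDiffOn ℝ ∞ f U) : ContDiffOn ℝ ∞ (codiff G f) U := by
  have h1 : ContDiffOn ℝ ∞ (fun y => -(vol G y)⁻¹) U :=
    (ContDiffOn.inv hG.vol_smooth fun y hy => (hG.vol_pos hy).ne').neg
  exact h1.smul (smooth_pb (A := gmat G) hG.smooth (smooth_div0 hU (smooth_raise hG hf)))

theorem div0_congr (hU : IsOpen U) {f h : E n → Alt n (p + 1)} (H : ∀ y ∈ U, f y = h y)
    {y : E n} (hy : y ∈ U) : div0 f y = div0 h y := by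
  have h1 : f =ᶠ[𝓝 y] h := by
    filter_upwards [hU.mem_nhds hy] with z hz
    exact H z hz
  unfold div0 pdF
  rw [h1.fderiv_eq]

theorem codiff_congr (hU : IsOpen U) {f h : E n → Alt n (p + 1)} (H : ∀ y ∈ U, f y = h y)
    {y : E n} (hy : y ∈ U) : codiff G f y = codiff G h y := by
  unfold codiff
  rw [div0_congr hU (f := fun z => vol G z • pb (gmat G z)⁻¹ (f z))
    (h := fun z => vol G z • pb (gmat G z)⁻¹ (h z)) (fun z hz => by rw [H z hz]) hy]

/-- integration by parts, flat form -/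
theorem ip0_ext (hU : IsOpen U) {a : E n → Alt n p} {q : E n → Alt n (p + 1)}
    (ha : ContDiffOn ℝ ∞ a U) (hq : ContDiffOn ℝ ∞ q U)
    {K : Set (E n)} (hK : IsCompact K) (hKU : K ⊆ U)
    (h0 : ∀ y ∈ U, y ∉ K → a y = 0 ∨ q y = 0) :
    ∫ y in U, ip0 (extDeriv a y) (q y) = -∫ y in U, ip0 (a y) (div0 q y) := by
  have hda : ∀ y ∈ U, DifferentiableAt ℝ a y := fun y hy =>
    (ha.contDiffAt (hU.mem_nhds hy)).differentiableAt (by simp)
  have hdq : ∀ y ∈ U, DifferentiableAt ℝ q y := fun y hy =>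
    (hq.contDiffAt (hU.mem_nhds hy)).differentiableAt (by simp)
  have hz1 : ∀ c : Alt n (p + 1), ip0 (0 : Alt n (p + 1)) c = 0 := fun c => by
    have := ip0_smul_left 0 (0 : Alt n (p + 1)) c
    simpa using this
  have hz2 : ∀ c : Alt n p, ip0 (0 : Alt n p) c = 0 := fun c => by
    have := ip0_smul_left 0 (0 : Alt n p) c
    simpa using this
  have hW : IsOpen (U \ K) := hU.sdiff hK.isClosed
  have hsum : ∀ y ∈ U, ip0 (extDeriv a y) (q y) + ip0 (a y) (div0 q y) =
      ∑ k, pd k (fun z => ip0 (a z) (iot k (q z))) y := fun y hy =>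
    (pd_ip0_iot (hda y hy) (hdq y hy)).symm
  have hku : ∀ k, ContDiffOn ℝ ∞ (fun z => ip0 (a z) (iot k (q z))) U := fun k =>
    smooth_ip0 ha (smooth_lin (iot k) hq)
  have hk0 : ∀ k, ∀ y ∈ U, y ∉ K → ip0 (a y) (iot k (q y)) = 0 := by
    intro k y hy hyK
    rcases h0 y hy hyK with h | h
    · rw [h, hz2]
    · rw [h, map_zero, ip0_comm, hz2]
  have hpk0 : ∀ k, ∀ y ∈ U, y ∉ K → pd k (fun z => ip0 (a z) (iot k (q z))) y = 0 := by
    intro k y hy hyK
    have h1 : (fun z => ip0 (a z) (iot k (q z))) =ᶠ[𝓝 y] fun _ => (0 : ℝ) := by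
      filter_upwards [hW.mem_nhds ⟨hy, hyK⟩] with z hz
      exact hk0 k z hz.1 hz.2
    unfold pd
    rw [h1.fderiv_eq, fderiv_fun_const]
    rfl
  have hA0 : ∀ y ∈ U, y ∉ K → ip0 (extDeriv a y) (q y) = 0 := by
    intro y hy hyK
    by_cases hq0 : q y = 0
    · rw [hq0, ip0_comm, hz1]
    · have h1 : ∀ᶠ z in 𝓝 y, q z ≠ 0 := (hdq y hy).continuousAt.eventually_ne hq0
      have h2 : a =ᶠ[𝓝 y] fun _ => (0 : Alt n p) := by
        filter_upwards [h1, hW.mem_nhds ⟨hy, hyK⟩] with z hz1 hz2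
        exact (h0 z hz2.1 hz2.2).resolve_right hz1
      rw [ext_flat]
      have h3 : ∀ k, pdF k a y = 0 := by
        intro k
        unfold pdF
        rw [h2.fderiv_eq, fderiv_fun_const]
        rfl
      simp only [h3, map_zero, Finset.sum_const_zero, hz1]
  have hAc : ContinuousOn (fun y => ip0 (extDeriv a y) (q y)) U := by
    have h1 : ContDiffOn ℝ ∞ (extDeriv a) U := by
      have h2 : extDeriv a = fun y => ∑ k, eps k (pdF k a y) := by
        funext y
        exact ext_flat a y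
      rw [h2]
      exact ContDiffOn.sum fun k _ => smooth_lin (eps k) (smooth_pdF hU k ha)
    exact (smooth_ip0 h1 hq).continuousOn
  have hBc : ContinuousOn (fun y => ip0 (a y) (div0 q y)) U :=
    (smooth_ip0 ha (smooth_div0 hU hq)).continuousOn
  have hB0 : ∀ y ∈ U, y ∉ K → ip0 (a y) (div0 q y) = 0 := by
    intro y hy hyK
    have h1 := hsum y hy
    rw [hA0 y hy hyK, zero_add] at h1
    rw [h1]
    exact Finset.sum_eq_zero fun k _ => hpk0 k y hy hyK
  have hAi := integrableOn_cpt hU hK hKU hAc hA0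
  have hBi := integrableOn_cpt hU hK hKU hBc hB0
  have hadd : (∫ y in U, ip0 (extDeriv a y) (q y)) + ∫ y in U, ip0 (a y) (div0 q y) = 0 := by
    rw [← integral_add hAi hBi, setIntegral_congr_fun hU.measurableSet hsum,
      integral_finsetSum _ fun k _ => integrableOn_cpt hU hK hKU
        (smooth_pd hU k (hku k)).continuousOn (hpk0 k)]
    exact Finset.sum_eq_zero fun k _ => int_pd hU k (hku k) hK hKU (hk0 k)
  exact eq_neg_of_add_eq_zero_left hadd

theorem gmat_symm (hG : IsMet U G) {y : E n} (hy : y ∈ U) : (gmat G y)ᵀ = gmat G y := by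
  ext i j
  exact hG.symm j i y hy

theorem gmat_inv_symm (hG : IsMet U G) {y : E n} (hy : y ∈ U) :
    ((gmat G y)⁻¹)ᵀ = (gmat G y)⁻¹ := by
  rw [Matrix.transpose_nonsing_inv, gmat_symm hG hy]

theorem gmat_inv_mul (hG : IsMet U G) {y : E n} (hy : y ∈ U) :
    (gmat G y)⁻¹ * gmat G y = 1 :=
  Matrix.nonsing_inv_mul _ (isUnit_iff_ne_zero.2 (hG.pos y hy).det_pos.ne')

theorem gmat_mul_inv (hG : IsMet U G) {y : E n} (hy : y ∈ U) :
    gmat G y * (gmat G y)⁻¹ = 1 :=
  Matrix.mul_nonsing_inv _ (isUnit_iff_ne_zero.2 (hG.pos y hy).det_pos.ne')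

/-- `δ` is the formal adjoint of `d` -/
theorem codiff_adj (hU : IsOpen U) (hG : IsMet U G) {a : E n → Alt n p}
    {f : E n → Alt n (p + 1)} (ha : ContDiffOn ℝ ∞ a U) (hf : ContDiffOn ℝ ∞ f U)
    {K : Set (E n)} (hK : IsCompact K) (hKU : K ⊆ U)
    (h0 : ∀ y ∈ U, y ∉ K → a y = 0 ∨ f y = 0) :
    ∫ y in U, ipG (gmat G y) (extDeriv a y) (f y) * vol G y =
      ∫ y in U, ipG (gmat G y) (a y) (codiff G f y) * vol G y := by
  have h1 : ∀ y ∈ U, ipG (gmat G y) (extDeriv a y) (f y) * vol G y =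
      ip0 (extDeriv a y) (vol G y • pb (gmat G y)⁻¹ (f y)) := by
    intro y hy
    unfold ipG
    rw [ip0_smul_right, ip0_pb, gmat_inv_symm hG hy, mul_comm]
  have h2 : ∀ y ∈ U, ipG (gmat G y) (a y) (codiff G f y) * vol G y =
      -ip0 (a y) (div0 (fun z => vol G z • pb (gmat G z)⁻¹ (f z)) y) := by
    intro y hy
    unfold ipG codiff
    rw [ip0_smul_right, ip0_pb, gmat_inv_symm hG hy, pb_pb, gmat_mul_inv hG hy, pb_one]
    have hv := (hG.vol_pos hy).ne'
    field_simp
  rw [setIntegral_congr_fun hU.measurableSet h1, setIntegral_congr_fun hU.measurableSet h2,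
    ip0_ext hU ha (smooth_raise hG hf) hK hKU, integral_neg]
  intro y hy hyK
  rcases h0 y hy hyK with h | h
  · exact Or.inl h
  · right
    rw [h, pb_zero, smul_zero]

/-- uniqueness of the adjoint -/
theorem adj_unique (hU : IsOpen U) (hG : IsMet U G) {f h : E n → Alt n p}
    (hf : ContDiffOn ℝ ∞ f U) (hh : ContDiffOn ℝ ∞ h U)
    (H : ∀ a : E n → Alt n p, ContDiff ℝ ∞ a → HasCompactSupport a → tsupport a ⊆ U →
      ∫ y in U, ipG (gmat G y) (a y) (f y) * vol G y =
        ∫ y in U, ipG (gmat G y) (a y) (h y) * vol G y) :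
    ∀ y ∈ U, f y = h y := by
  intro y0 hy0
  by_contra hne
  set c : Alt n p := f y0 - h y0 with hc
  have hc0 : c ≠ 0 := sub_ne_zero.2 hne
  have hw : ContDiffOn ℝ ∞ (fun y => f y - h y) U := hf.sub hh
  have hF : ContinuousOn (fun y => ipG (gmat G y) c (f y - h y) * vol G y) U :=
    ((smooth_ipG hG contDiffOn_const hw).mul hG.vol_smooth).continuousOn
  have hpos : 0 < ipG (gmat G y0) c (f y0 - h y0) * vol G y0 :=
    mul_pos (ipG_self_pos (hG.pos y0 hy0) hc0) (hG.vol_pos hy0)
  have hev : ∀ᶠ y in 𝓝 y0, 0 < ipG (gmat G y) c (f y - h y) * vol G y :=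
    (hF.continuousAt (hU.mem_nhds hy0)).eventually_const_lt hpos
  obtain ⟨χ, hχ⟩ : ∃ χ : E n → ℝ, tsupport χ ⊆ U ∩ {y | 0 < ipG (gmat G y) c (f y - h y) * vol G y} ∧
      HasCompactSupport χ ∧ ContDiff ℝ ∞ χ ∧ Set.range χ ⊆ Set.Icc 0 1 ∧ χ y0 = 1 :=
    exists_contDiff_tsupport_subset (Filter.inter_mem (hU.mem_nhds hy0) hev)
  obtain ⟨hs, hcs, hsm, hr, h1⟩ := hχ
  have hχ0 : ∀ y, 0 ≤ χ y := fun y => (hr ⟨y, rfl⟩).1
  have hsU : tsupport χ ⊆ U := fun y hy => (hs hy).1
  have ht : tsupport (fun y => χ y • c) ⊆ tsupport χ :=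
    closure_mono (Function.support_smul_subset_left χ fun _ => c)
  have hH := H (fun y => χ y • c) (hsm.smul contDiff_const) (hcs.smul_right)
    (ht.trans hsU)
  have hint : ∀ w : E n → Alt n p, ContDiffOn ℝ ∞ w U →
      IntegrableOn (fun y => ipG (gmat G y) (χ y • c) (w y) * vol G y) U := by
    intro w hw
    refine integrableOn_cpt hU hcs hsU ?_ ?_
    · exact ((smooth_ipG hG (hsm.smul contDiff_const).contDiffOn hw).mul
        hG.vol_smooth).continuousOn
    · intro y _ hy
      rw [image_eq_zero_of_notMem_tsupport hy, ipG_smul_left, zero_mul, zero_mul]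
  have hsub : ∫ y in U, χ y * (ipG (gmat G y) c (f y - h y) * vol G y) = 0 := by
    have h2 : ∀ y ∈ U, χ y * (ipG (gmat G y) c (f y - h y) * vol G y) =
        ipG (gmat G y) (χ y • c) (f y) * vol G y - ipG (gmat G y) (χ y • c) (h y) * vol G y := by
      intro y _
      have h3 : f y - h y = f y + (-1 : ℝ) • h y := by rw [neg_one_smul ℝ (h y), sub_eq_add_neg]
      rw [h3, ipG_add_right, ipG_smul_right, ipG_smul_left, ipG_smul_left]
      ring
    rw [setIntegral_congr_fun hU.measurableSet h2, integral_sub (hint f hf) (hint h hh), hH,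
      sub_self]
  have hi2 : IntegrableOn (fun y => χ y * (ipG (gmat G y) c (f y - h y) * vol G y)) U :=
    integrableOn_cpt hU hcs hsU (hsm.continuous.continuousOn.mul hF) fun y _ hy => by
      rw [image_eq_zero_of_notMem_tsupport hy, zero_mul]
  have hnn : ∀ y ∈ U, 0 ≤ χ y * (ipG (gmat G y) c (f y - h y) * vol G y) := by
    intro y hy
    by_cases hyt : y ∈ tsupport χ
    · exact mul_nonneg (hχ0 y) (hs hyt).2.le
    · rw [image_eq_zero_of_notMem_tsupport hyt, zero_mul]
  have hlt : 0 < ∫ y in U, χ y * (ipG (gmat G y) c (f y - h y) * vol G y) := by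
    rw [setIntegral_pos_iff_support_of_nonneg_ae
      ((ae_restrict_iff' hU.measurableSet).2 (Filter.Eventually.of_forall hnn)) hi2]
    have ho : IsOpen {y | 0 < χ y} := isOpen_lt continuous_const hsm.continuous
    have hne' : ({y | 0 < χ y} : Set (E n)).Nonempty := ⟨y0, by simp [h1]⟩
    refine lt_of_lt_of_le (ho.measure_pos volume hne') (measure_mono fun y hy => ?_)
    have hyt : y ∈ tsupport χ := subset_tsupport _ (ne_of_gt hy)
    exact ⟨(mul_pos hy (hs hyt).2).ne', hsU hyt⟩
  exact hlt.ne' hsub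

/-- `δ = - ∑ ι^k ∇_k` (both are adjoints of `d`) -/
theorem codiff_nab (hU : IsOpen U) (hG : IsMet U G) {f : E n → Alt n (p + 1)}
    (hf : ContDiffOn ℝ ∞ f U) {y : E n} (hy : y ∈ U) :
    codiff G f y = -∑ k, iou (gmat G y) k (nab G k f y) := by
  have hiou : ∀ k, ∀ h : E n → Alt n (p + 1), ContDiffOn ℝ ∞ h U →
      ContDiffOn ℝ ∞ (fun z => iou (gmat G z) k (h z)) U := by
    intro k h hh
    have h1 : (fun z => iou (gmat G z) k (h z)) =
        fun z => ∑ j, (gmat G z)⁻¹ k j • iot j (h z) := by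
      funext z
      simp [iou]
    rw [h1]
    exact ContDiffOn.sum fun j _ => (hG.inv_smooth k j).smul (smooth_lin (iot j) hh)
  have hw : ContDiffOn ℝ ∞ (fun z => -∑ k, iou (gmat G z) k (nab G k f z)) U :=
    (ContDiffOn.sum fun k _ => hiou k _ (nab_smooth hU hG k hf)).neg
  refine adj_unique hU hG (codiff_smooth hU hG hf) hw ?_ y hy
  intro a ha hac hat
  rw [← codiff_adj hU hG ha.contDiffOn hf hac hat fun y _ hy =>
    Or.inl (image_eq_zero_of_notMem_tsupport hy)]
  have hu : ∀ k, ContDiffOn ℝ ∞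
      (fun z => ipG (gmat G z) (a z) (iou (gmat G z) k (f z)) * vol G z) U := fun k =>
    (smooth_ipG hG ha.contDiffOn (hiou k f hf)).mul hG.vol_smooth
  have hl0 : ∀ (z : E n) (c : Alt n p), ipG (gmat G z) 0 c = 0 := by
    intro z c
    have := ipG_smul_left (gmat G z) 0 (0 : Alt n p) c
    rwa [zero_smul, zero_mul] at this
  have hl1 : ∀ (z : E n) (c : Alt n (p + 1)), ipG (gmat G z) 0 c = 0 := by
    intro z c
    have := ipG_smul_left (gmat G z) 0 (0 : Alt n (p + 1)) c
    rwa [zero_smul, zero_mul] at this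
  have hu0 : ∀ k, ∀ z ∈ U, z ∉ tsupport a →
      ipG (gmat G z) (a z) (iou (gmat G z) k (f z)) * vol G z = 0 := by
    intro k z _ hz
    rw [image_eq_zero_of_notMem_tsupport hz, hl0, zero_mul]
  have hloc : ∀ z, z ∉ tsupport a → a =ᶠ[𝓝 z] fun _ => (0 : Alt n p) := by
    intro z hz
    filter_upwards [(isClosed_tsupport a).isOpen_compl.mem_nhds hz] with x hx
    exact image_eq_zero_of_notMem_tsupport hx
  have hpu0 : ∀ k, ∀ z ∈ U, z ∉ tsupport a →
      pd k (fun z => ipG (gmat G z) (a z) (iou (gmat G z) k (f z)) * vol G z) z = 0 := by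
    intro k z _ hz
    have h1 : (fun z => ipG (gmat G z) (a z) (iou (gmat G z) k (f z)) * vol G z) =ᶠ[𝓝 z]
        fun _ => (0 : ℝ) := by
      filter_upwards [hloc z hz] with x hx
      rw [hx, hl0, zero_mul]
    unfold pd
    rw [h1.fderiv_eq, fderiv_fun_const]
    rfl
  -- sums in the second argument
  have hsr : ∀ (q : ℕ) (g : Matrix (Fin n) (Fin n) ℝ) (b : Alt n q) (c : Fin n → Alt n q)
      (s : Finset (Fin n)), ipG g b (∑ k ∈ s, c k) = ∑ k ∈ s, ipG g b (c k) := by
    intro q g b c s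
    classical
    induction s using Finset.induction_on with
    | empty =>
      have := ipG_smul_right g 0 b (0 : Alt n q)
      simpa using this
    | insert i s hi ih => rw [Finset.sum_insert hi, Finset.sum_insert hi, ipG_add_right, ih]
  have hsl : ∀ (q : ℕ) (g : Matrix (Fin n) (Fin n) ℝ) (b : Alt n q) (c : Fin n → Alt n q)
      (s : Finset (Fin n)), ipG g (∑ k ∈ s, c k) b = ∑ k ∈ s, ipG g (c k) b := by
    intro q g b c s
    classical
    induction s using Finset.induction_on with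
    | empty =>
      have := ipG_smul_left g 0 (0 : Alt n q) b
      simpa using this
    | insert i s hi ih => rw [Finset.sum_insert hi, Finset.sum_insert hi, ipG_add_left, ih]
  have hneg : ∀ (g : Matrix (Fin n) (Fin n) ℝ) (b c : Alt n p), ipG g b (-c) = -ipG g b c := by
    intro g b c
    have := ipG_smul_right g (-1) b c
    rwa [neg_one_smul ℝ c, neg_one_mul] at this
  have hmain : ∀ z ∈ U, ipG (gmat G z) (extDeriv a z) (f z) * vol G z -
      ipG (gmat G z) (a z) (-∑ k, iou (gmat G z) k (nab G k f z)) * vol G z =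
      ∑ k, pd k (fun z => ipG (gmat G z) (a z) (iou (gmat G z) k (f z)) * vol G z) z := by
    intro z hz
    have hgs := gmat_symm hG hz
    have h1 : ∀ k, pd k (fun z => ipG (gmat G z) (a z) (iou (gmat G z) k (f z)) * vol G z) z =
        (ipG (gmat G z) (nab G k a z) (iou (gmat G z) k (f z)) +
          ipG (gmat G z) (a z) (nab G k (fun z => iou (gmat G z) k (f z)) z)) * vol G z +
        ipG (gmat G z) (a z) (iou (gmat G z) k (f z)) * (vol G z * ∑ l, chr G l k l z) := by
      intro k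
      have hd1 : DifferentiableAt ℝ
          (fun z => ipG (gmat G z) (a z) (iou (gmat G z) k (f z))) z :=
        ((smooth_ipG hG ha.contDiffOn (hiou k f hf)).contDiffAt
          (hU.mem_nhds hz)).differentiableAt (by simp)
      have hd2 : DifferentiableAt ℝ (vol G) z :=
        (hG.vol_smooth.contDiffAt (hU.mem_nhds hz)).differentiableAt (by simp)
      rw [← pd_ipG hU hG k ha.contDiffOn (hiou k f hf) hz, ← pd_vol hU hG k hz]
      unfold pd
      rw [fderiv_fun_mul hd1 hd2]
      simp only [ContinuousLinearMap.add_apply, ContinuousLinearMap.smul_apply, smul_eq_mul]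
      ring
    simp only [h1, nab_iou hU hG _ _ hf hz]
    have h2 : ∀ k, ipG (gmat G z) (a z)
        (iou (gmat G z) k (nab G k f z) - ∑ l, chr G k k l z • iou (gmat G z) l (f z)) =
        ipG (gmat G z) (a z) (iou (gmat G z) k (nab G k f z)) -
          ∑ l, chr G k k l z * ipG (gmat G z) (a z) (iou (gmat G z) l (f z)) := by
      intro k
      rw [sub_eq_add_neg, ipG_add_right, hneg, hsr, ← sub_eq_add_neg]
      simp only [ipG_smul_right]
    simp only [h2]
    rw [hneg, hsr, ext_nab hU hG ha.contDiffOn hz, hsl]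
    simp only [ipG_eps hgs]
    have h3 : ∑ k, ipG (gmat G z) (a z) (iou (gmat G z) k (f z)) * (vol G z * ∑ l, chr G l k l z) =
        (∑ k, ∑ l, chr G k k l z * ipG (gmat G z) (a z) (iou (gmat G z) l (f z))) * vol G z := by
      rw [Finset.sum_comm, Finset.sum_mul]
      refine Finset.sum_congr rfl fun k _ => ?_
      rw [Finset.mul_sum, Finset.mul_sum, Finset.sum_mul]
      refine Finset.sum_congr rfl fun l _ => ?_
      rw [chr_symm hU hG l k l hz]
      ring
    rw [Finset.sum_add_distrib, h3, ← Finset.sum_mul, Finset.sum_add_distrib,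
      Finset.sum_sub_distrib]
    ring
  have hda : ContDiffOn ℝ ∞ (extDeriv a) U := by
    have h2 : extDeriv a = fun y => ∑ k, eps k (pdF k a y) := by
      funext y
      exact ext_flat a y
    rw [h2]
    exact ContDiffOn.sum fun k _ => smooth_lin (eps k) (smooth_pdF hU k ha.contDiffOn)
  have hA : IntegrableOn (fun z => ipG (gmat G z) (extDeriv a z) (f z) * vol G z) U := by
    refine integrableOn_cpt hU hac hat
      ((smooth_ipG hG hda hf).mul hG.vol_smooth).continuousOn ?_
    intro z _ hz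
    have h3 : ∀ k, pdF k a z = 0 := by
      intro k
      unfold pdF
      rw [(hloc z hz).fderiv_eq, fderiv_fun_const]
      rfl
    rw [ext_flat]
    simp only [h3, map_zero, Finset.sum_const_zero, hl1, zero_mul]
  have hB : IntegrableOn (fun z => ipG (gmat G z) (a z)
      (-∑ k, iou (gmat G z) k (nab G k f z)) * vol G z) U := by
    refine integrableOn_cpt hU hac hat
      ((smooth_ipG hG ha.contDiffOn hw).mul hG.vol_smooth).continuousOn ?_
    intro z _ hz
    rw [image_eq_zero_of_notMem_tsupport hz, hl0, zero_mul]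
  rw [← sub_eq_zero, ← integral_sub hA hB, setIntegral_congr_fun hU.measurableSet hmain,
    integral_finsetSum _ fun k _ => integrableOn_cpt hU hac hat
      (smooth_pd hU k (hu k)).continuousOn (hpu0 k)]
  exact Finset.sum_eq_zero fun k _ => int_pd hU k (hu k) hac hat (hu0 k)

end BH
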