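import Mathlib.Analysis.InnerProductSpace.Completion
import Mathlib.Analysis.InnerProductSpace.Projection.Basic
import Mathlib.Analysis.InnerProductSpace.Dual
import Mathlib.Analysis.Normed.Module.HahnBanach
import Mathlib.Analysis.Normed.Module.Completion

/-!
The abstract Hilbert space lemma of project BH (Bochner - Hodge): an a priori inequality for
smooth forms and a family of regularising operators with bounded commutators give weak
primitives. Only smooth forms (vectors of the incomplete spaces `Em`, `E`, `Ep`) are used.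
-/

namespace Pool.Agent.Lib.MP_4a593f_gt.BH

open Filter Topology UniformSpace

section riesz

variable {Em E : Type*} [SeminormedAddCommGroup Em] [InnerProductSpace ℝ Em]
  [SeminormedAddCommGroup E] [InnerProductSpace ℝ E]

/-- Riesz: a functional bounded by `B ‖δ f‖` is represented by a vector of the completion. -/
theorem riesz_of_bound (δ : E →ₗ[ℝ] Em) (φ : E →ₗ[ℝ] ℝ) {B : ℝ}
    (hB : ∀ f, |φ f| ≤ B * ‖δ f‖) :
    ∃ u : Completion Em, ∀ f : E, inner ℝ u ((δ f : Em) : Completion Em) = φ f := by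
  let L : E →ₗ[ℝ] Completion Em := (Completion.toComplL : Em →L[ℝ] Completion Em).toLinearMap ∘ₗ δ
  have hL : ∀ f, L f = ((δ f : Em) : Completion Em) := fun f => rfl
  have hn : ∀ f, ‖L f‖ = ‖δ f‖ := fun f => by rw [hL]; exact Completion.norm_coe _
  have hker : LinearMap.ker L ≤ LinearMap.ker φ := by
    intro f hf
    have h0 : ‖δ f‖ = 0 := by rw [← hn, LinearMap.mem_ker.1 hf, norm_zero]
    have := hB f
    rw [h0, mul_zero] at this
    exact LinearMap.mem_ker.2 (abs_nonpos_iff.1 this)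
  let ψ : LinearMap.range L →ₗ[ℝ] ℝ :=
    (LinearMap.ker L).liftQ φ hker ∘ₗ (L.quotKerEquivRange.symm : LinearMap.range L →ₗ[ℝ] _)
  have hψ : ∀ f, ψ ⟨L f, LinearMap.mem_range_self L f⟩ = φ f := by
    intro f
    have h1 : L.quotKerEquivRange.symm ⟨L f, LinearMap.mem_range_self L f⟩ =
        (LinearMap.ker L).mkQ f := by
      rw [LinearEquiv.symm_apply_eq]
      rfl
    simp only [ψ, LinearMap.comp_apply, LinearEquiv.coe_coe, h1, Submodule.mkQ_apply,
      Submodule.liftQ_apply]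
  let ψc : LinearMap.range L →L[ℝ] ℝ := ψ.mkContinuous B (by
    rintro ⟨_, f, rfl⟩
    rw [hψ f, Real.norm_eq_abs]
    refine (hB f).trans (le_of_eq ?_)
    rw [← hn f]
    rfl)
  obtain ⟨g, hg, -⟩ := exists_extension_norm_eq (LinearMap.range L) ψc
  refine ⟨(InnerProductSpace.toDual ℝ (Completion Em)).symm g, fun f => ?_⟩
  rw [InnerProductSpace.toDual_symm_apply, ← hL f]
  have := hg ⟨L f, LinearMap.mem_range_self L f⟩
  rw [this]
  exact hψ f

end riesz

variable {Em E Ep : Type*} [SeminormedAddCommGroup Em] [InnerProductSpace ℝ Em]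
  [SeminormedAddCommGroup E] [InnerProductSpace ℝ E]
  [SeminormedAddCommGroup Ep] [InnerProductSpace ℝ Ep]

/-- Passage to the limit `j → ∞` for a fixed regularising operator. -/
theorem lim_fixed (d : Em →ₗ[ℝ] E) (δ : E →ₗ[ℝ] Em)
    (hadj : ∀ a f, inner ℝ (d a) f = inner ℝ a (δ f)) (Sm : Em →ₗ[ℝ] Em) (T : Em → Em)
    (hT : ∀ a b, inner ℝ (Sm a) b = inner ℝ a (T b))
    {B : ℝ} (hB : ∀ f, ‖Sm (δ f)‖ ≤ B * ‖f‖) (f : E) (f1 : Completion E)
    (hf1 : ∀ b : Em, inner ℝ f1 ((d b : E) : Completion E) = inner ℝ f (d b))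
    (z : ℕ → E) (hz : Tendsto (fun j => (z j : Completion E)) atTop (𝓝 f1)) :
    Tendsto (fun j => ‖Sm (δ (z j))‖) atTop (𝓝 ‖Sm (δ f)‖) := by
  have hcau : CauchySeq (fun j => ((Sm (δ (z j)) : Em) : Completion Em)) := by
    have h1 : CauchySeq (fun j => (z j : Completion E)) := hz.cauchySeq
    rw [Metric.cauchySeq_iff'] at h1 ⊢
    intro ε hε
    obtain ⟨N, hN⟩ := h1 (ε / (|B| + 1)) (by positivity)
    refine ⟨N, fun n hn => ?_⟩
    have h2 := hN n hn
    rw [dist_eq_norm, ← Completion.coe_sub, Completion.norm_coe] at h2 ⊢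
    rw [← map_sub, ← map_sub]
    calc ‖Sm (δ (z n - z N))‖ ≤ B * ‖z n - z N‖ := hB _
      _ ≤ (|B| + 1) * ‖z n - z N‖ := by
          refine mul_le_mul_of_nonneg_right ?_ (norm_nonneg _)
          linarith [le_abs_self B]
      _ < (|B| + 1) * (ε / (|B| + 1)) := by
          refine mul_lt_mul_of_pos_left h2 (by positivity)
      _ = ε := by field_simp
  obtain ⟨v, hv⟩ := cauchySeq_tendsto_of_complete hcau
  have hv' : v = ((Sm (δ f) : Em) : Completion Em) := by
    refine ext_inner_right ℝ fun b => ?_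
    refine Completion.induction_on b (isClosed_eq ?_ ?_) fun b => ?_
    · exact continuous_const.inner continuous_id
    · exact continuous_const.inner continuous_id
    · have h1 : Tendsto (fun j => inner ℝ ((Sm (δ (z j)) : Em) : Completion Em)
          (b : Completion Em)) atTop (𝓝 (inner ℝ v (b : Completion Em))) :=
        hv.inner tendsto_const_nhds
      have h2 : Tendsto (fun j => inner ℝ (z j : Completion E) ((d (T b) : E) : Completion E))
          atTop (𝓝 (inner ℝ f1 ((d (T b) : E) : Completion E))) :=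
        hz.inner tendsto_const_nhds
      have h3 : ∀ j, inner ℝ ((Sm (δ (z j)) : Em) : Completion Em) (b : Completion Em) =
          inner ℝ (z j : Completion E) ((d (T b) : E) : Completion E) := by
        intro j
        rw [Completion.inner_coe, Completion.inner_coe, hT, real_inner_comm (T b), ← hadj,
          real_inner_comm]
      have h4 := tendsto_nhds_unique h1 (by simpa only [h3] using h2)
      rw [h4, hf1, Completion.inner_coe, hT]
      calc inner ℝ f (d (T b)) = inner ℝ (d (T b)) f := real_inner_comm _ _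
        _ = inner ℝ (T b) (δ f) := hadj _ _
        _ = inner ℝ (δ f) (T b) := real_inner_comm _ _
  have h5 : Tendsto (fun j => ‖((Sm (δ (z j)) : Em) : Completion Em)‖) atTop (𝓝 ‖v‖) := hv.norm
  rw [hv'] at h5
  simpa only [Completion.norm_coe] using h5

/-- The a priori bound. -/
theorem bound_of_friedrichs (d : Em →ₗ[ℝ] E) (d' : E →ₗ[ℝ] Ep) (δ : E →ₗ[ℝ] Em)
    (hadj : ∀ a f, inner ℝ (d a) f = inner ℝ a (δ f)) (hdd : ∀ a, d' (d a) = 0)
    {c C : ℝ} (hc : 0 < c) (hC : 0 ≤ C) (hb : ∀ f, c * ‖f‖ ^ 2 ≤ ‖d' f‖ ^ 2 + ‖δ f‖ ^ 2)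
    (S : ℕ → E →ₗ[ℝ] E) (Sm : ℕ → Em →ₗ[ℝ] Em) (Sp : ℕ → Ep →ₗ[ℝ] Ep) (T : ℕ → Em → Em)
    (hS : ∀ k f, ‖S k f‖ ≤ C * ‖f‖)
    (hS0 : ∀ f, Tendsto (fun k => ‖S k f - f‖) atTop (𝓝 0))
    (hSm : ∀ k a, ‖Sm k a‖ ≤ C * ‖a‖) (hT : ∀ k a b, inner ℝ (Sm k a) b = inner ℝ a (T k b))
    (hK : ∀ k f, ‖d' (S k f) - Sp k (d' f)‖ ≤ C * ‖f‖)
    (hK0 : ∀ f, Tendsto (fun k => ‖d' (S k f) - Sp k (d' f)‖) atTop (𝓝 0))
    (hL : ∀ k f, ‖δ (S k f) - Sm k (δ f)‖ ≤ C * ‖f‖)
    (hL0 : ∀ f, Tendsto (fun k => ‖δ (S k f) - Sm k (δ f)‖) atTop (𝓝 0))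
    (hB : ∀ k, ∃ B : ℝ, ∀ f, ‖Sm k (δ f)‖ ≤ B * ‖f‖)
    (w : E) (hw : d' w = 0) (f : E) :
    |inner ℝ w f| ≤ (‖w‖ * (C / Real.sqrt c)) * ‖δ f‖ := by
  set Zs : Submodule ℝ (Completion E) :=
    ((LinearMap.ker d').map (Completion.toComplL : E →L[ℝ] Completion E).toLinearMap).topologicalClosure
    with hZs
  have : CompleteSpace Zs := (Submodule.isClosed_topologicalClosure _).completeSpace_coe
  have hmem : ∀ e : E, d' e = 0 → (e : Completion E) ∈ Zs := by
    intro e he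
    exact Submodule.le_topologicalClosure _ ⟨e, he, rfl⟩
  set f1 : Completion E := Zs.starProjection (f : Completion E) with hf1
  have horth : ∀ e : E, d' e = 0 →
      inner ℝ f1 (e : Completion E) = inner ℝ (f : Completion E) (e : Completion E) := by
    intro e he
    have := Submodule.starProjection_inner_eq_zero (K := Zs) (f : Completion E)
      (e : Completion E) (hmem e he)
    rw [inner_sub_left] at this
    rw [hf1]
    linarith
  have hf1Z : f1 ∈ Zs := Submodule.starProjection_apply_mem _ _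
  -- a sequence of closed forms converging to `f1`
  have hseq : ∃ z : ℕ → E, (∀ j, d' (z j) = 0) ∧
      Tendsto (fun j => (z j : Completion E)) atTop (𝓝 f1) := by
    have h1 : f1 ∈ closure (((LinearMap.ker d').map
        (Completion.toComplL : E →L[ℝ] Completion E).toLinearMap :
          Submodule ℝ (Completion E)) : Set (Completion E)) := by
      rw [hZs] at hf1Z
      exact hf1Z
    obtain ⟨x, hx, hx'⟩ := mem_closure_iff_seq_limit.1 h1
    choose z hz hz' using fun j => (Submodule.mem_map.1 (hx j))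
    refine ⟨z, fun j => LinearMap.mem_ker.1 (hz j), ?_⟩
    have : (fun j => (z j : Completion E)) = x := funext fun j => hz' j
    rw [this]
    exact hx'
  obtain ⟨z, hz, hzt⟩ := hseq
  have hsc : 0 < Real.sqrt c := Real.sqrt_pos.2 hc
  have hb' : ∀ e : E, Real.sqrt c * ‖e‖ ≤ ‖d' e‖ + ‖δ e‖ := by
    intro e
    have h0 : 0 ≤ ‖d' e‖ + ‖δ e‖ := by positivity
    refine (abs_le_of_sq_le_sq' (?_ : _ ≤ (‖d' e‖ + ‖δ e‖) ^ 2) h0).2
    have h1 := hb e
    have h2 : (Real.sqrt c * ‖e‖) ^ 2 = c * ‖e‖ ^ 2 := by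
      rw [mul_pow, Real.sq_sqrt hc.le]
    rw [h2]
    nlinarith [norm_nonneg (d' e), norm_nonneg (δ e)]
  have hmain : Real.sqrt c * ‖f1‖ ≤ C * ‖δ f‖ := by
    refine le_of_forall_pos_le_add fun η hη => ?_
    set a : ℝ := Real.sqrt c * (4 + 2 * C) + (3 + 4 * C) with ha
    have hapos : 0 < a := by positivity
    set ρ : ℝ := η / a with hρ
    have hρpos : 0 < ρ := by positivity
    -- closeness of `z j` to `f1`
    have hz1 : ∀ᶠ j in atTop, ‖(z j : Completion E) - f1‖ < ρ := by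
      have := (tendsto_iff_norm_sub_tendsto_zero.1 hzt).eventually (gt_mem_nhds hρpos)
      exact this
    obtain ⟨m, hm⟩ := hz1.exists
    obtain ⟨k, hk1, hk2, hk3⟩ : ∃ k, ‖S k (z m) - z m‖ < ρ ∧
        ‖d' (S k (z m)) - Sp k (d' (z m))‖ < ρ ∧ ‖δ (S k (z m)) - Sm k (δ (z m))‖ < ρ := by
      have e1 := (hS0 (z m)).eventually (gt_mem_nhds hρpos)
      have e2 := (hK0 (z m)).eventually (gt_mem_nhds hρpos)
      have e3 := (hL0 (z m)).eventually (gt_mem_nhds hρpos)
      exact (e1.and (e2.and e3)).exists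
    obtain ⟨B, hBk⟩ := hB k
    have hlim := lim_fixed d δ hadj (Sm k) (T k) (hT k) hBk f f1
      (fun b => by rw [horth (d b) (hdd b), Completion.inner_coe]) z hzt
    have hz2 : ∀ᶠ j in atTop, ‖Sm k (δ (z j))‖ < ‖Sm k (δ f)‖ + ρ :=
      hlim.eventually (gt_mem_nhds (by linarith))
    obtain ⟨j, hj1, hj2⟩ := (hz1.and hz2).exists
    have hjm : ‖z j - z m‖ ≤ 2 * ρ := by
      have : ‖((z j : Completion E) - f1) - ((z m : Completion E) - f1)‖ ≤ ρ + ρ :=
        (norm_sub_le _ _).trans (add_le_add hj1.le hm.le)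
      rw [sub_sub_sub_cancel_right, ← Completion.coe_sub, Completion.norm_coe] at this
      linarith
    have k1 : ‖z j‖ ≤ ‖S k (z j)‖ + (3 + 2 * C) * ρ := by
      have e1 : z j = S k (z j) - S k (z j - z m) + (z j - z m) - (S k (z m) - z m) := by
        rw [map_sub]; abel
      calc ‖z j‖ = ‖S k (z j) - S k (z j - z m) + (z j - z m) - (S k (z m) - z m)‖ := by
            rw [← e1]
        _ ≤ ‖S k (z j)‖ + ‖S k (z j - z m)‖ + ‖z j - z m‖ + ‖S k (z m) - z m‖ := by
            refine (norm_sub_le _ _).trans (add_le_add ?_ le_rfl)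
            refine (norm_add_le _ _).trans (add_le_add ?_ le_rfl)
            exact norm_sub_le _ _
        _ ≤ ‖S k (z j)‖ + C * (2 * ρ) + 2 * ρ + ρ := by
            gcongr
            exact (hS k _).trans (mul_le_mul_of_nonneg_left hjm hC)
        _ = ‖S k (z j)‖ + (3 + 2 * C) * ρ := by ring
    have k2 : ‖d' (S k (z j))‖ ≤ (1 + 2 * C) * ρ := by
      have e0 : d' (S k (z j)) = (d' (S k (z j - z m)) - Sp k (d' (z j - z m))) +
          (d' (S k (z m)) - Sp k (d' (z m))) := by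
        have h1 : Sp k (d' (z j - z m)) = 0 := by rw [map_sub, hz, hz, sub_zero, map_zero]
        have h2 : Sp k (d' (z m)) = 0 := by rw [hz, map_zero]
        rw [h1, h2, map_sub, map_sub]; abel
      rw [e0]
      refine (norm_add_le _ _).trans ?_
      have := (hK k (z j - z m)).trans (mul_le_mul_of_nonneg_left hjm hC)
      linarith
    have k3 : ‖δ (S k (z j))‖ ≤ (1 + 2 * C) * ρ + (‖Sm k (δ f)‖ + ρ) := by
      have e0 : δ (S k (z j)) = ((δ (S k (z j - z m)) - Sm k (δ (z j - z m))) +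
          (δ (S k (z m)) - Sm k (δ (z m)))) + Sm k (δ (z j)) := by
        rw [map_sub, map_sub, map_sub, map_sub]; abel
      rw [e0]
      refine (norm_add_le _ _).trans (add_le_add ?_ hj2.le)
      refine (norm_add_le _ _).trans ?_
      have := (hL k (z j - z m)).trans (mul_le_mul_of_nonneg_left hjm hC)
      linarith
    have k4 : ‖f1‖ ≤ ‖z j‖ + ρ := by
      have : ‖f1‖ ≤ ‖(z j : Completion E)‖ + ‖(z j : Completion E) - f1‖ := by
        have e0 : f1 = (z j : Completion E) - ((z j : Completion E) - f1) := by abel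
        calc ‖f1‖ = ‖(z j : Completion E) - ((z j : Completion E) - f1)‖ := by rw [← e0]
          _ ≤ _ := norm_sub_le _ _
      rw [Completion.norm_coe] at this
      linarith
    have k5 := hb' (S k (z j))
    have k6 : ‖Sm k (δ f)‖ ≤ C * ‖δ f‖ := hSm k _
    have k7 : Real.sqrt c * ‖f1‖ ≤ Real.sqrt c * (‖S k (z j)‖ + (4 + 2 * C) * ρ) := by
      refine mul_le_mul_of_nonneg_left ?_ hsc.le
      nlinarith
    have k8 : a * ρ = η := by rw [hρ]; field_simp
    have k9 : Real.sqrt c * (4 + 2 * C) * ρ + (3 + 4 * C) * ρ = η := by rw [← k8, ha]; ring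
    nlinarith
  have hfin : inner ℝ w f = inner ℝ (w : Completion E) f1 := by
    have := horth w hw
    rw [← Completion.inner_coe w f, real_inner_comm f1, this, real_inner_comm]
  rw [hfin]
  refine (abs_real_inner_le_norm _ _).trans ?_
  rw [Completion.norm_coe, mul_assoc]
  refine mul_le_mul_of_nonneg_left ?_ (norm_nonneg _)
  rw [div_mul_eq_mul_div, le_div_iff₀ hsc]
  linarith

/-- LEMMA H: weak primitives. -/
theorem weak_primitive (d : Em →ₗ[ℝ] E) (d' : E →ₗ[ℝ] Ep) (δ : E →ₗ[ℝ] Em)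
    (hadj : ∀ a f, inner ℝ (d a) f = inner ℝ a (δ f)) (hdd : ∀ a, d' (d a) = 0)
    {c C : ℝ} (hc : 0 < c) (hC : 0 ≤ C) (hb : ∀ f, c * ‖f‖ ^ 2 ≤ ‖d' f‖ ^ 2 + ‖δ f‖ ^ 2)
    (S : ℕ → E →ₗ[ℝ] E) (Sm : ℕ → Em →ₗ[ℝ] Em) (Sp : ℕ → Ep →ₗ[ℝ] Ep) (T : ℕ → Em → Em)
    (hS : ∀ k f, ‖S k f‖ ≤ C * ‖f‖)
    (hS0 : ∀ f, Tendsto (fun k => ‖S k f - f‖) atTop (𝓝 0))
    (hSm : ∀ k a, ‖Sm k a‖ ≤ C * ‖a‖) (hT : ∀ k a b, inner ℝ (Sm k a) b = inner ℝ a (T k b))
    (hK : ∀ k f, ‖d' (S k f) - Sp k (d' f)‖ ≤ C * ‖f‖)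
    (hK0 : ∀ f, Tendsto (fun k => ‖d' (S k f) - Sp k (d' f)‖) atTop (𝓝 0))
    (hL : ∀ k f, ‖δ (S k f) - Sm k (δ f)‖ ≤ C * ‖f‖)
    (hL0 : ∀ f, Tendsto (fun k => ‖δ (S k f) - Sm k (δ f)‖) atTop (𝓝 0))
    (hB : ∀ k, ∃ B : ℝ, ∀ f, ‖Sm k (δ f)‖ ≤ B * ‖f‖)
    (w : E) (hw : d' w = 0) :
    ∃ u : Completion Em, ∀ f : E, inner ℝ u ((δ f : Em) : Completion Em) = inner ℝ w f := by
  obtain ⟨u, hu⟩ := riesz_of_bound δ (innerₛₗ ℝ w : E →ₗ[ℝ] ℝ)
    (B := ‖w‖ * (C / Real.sqrt c)) (fun f => by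
      simpa using bound_of_friedrichs d d' δ hadj hdd hc hC hb S Sm Sp T hS hS0 hSm hT hK hK0
        hL hL0 hB w hw f)
  exact ⟨u, fun f => by simpa using hu f⟩

end Pool.Agent.Lib.MP_4a593f_gt.BH
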