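import Pool.Agent.Lib.MP_4a593f_gt.BH.Hilb
import Pool.Agent.Lib.MP_4a593f_gt.BH.Hilb2

/-!
Abstract end of part (P), project BH: from estimates for the regularising operators `P k` and
their adjoints `J k` (in all degrees) to weak and strong primitives.
-/

namespace Pool.Agent.Lib.MP_4a593f_gt.BH

open Filter Topology UniformSpace

/-- The hypotheses on the regularising operators. -/
structure Reg (H : ℕ → Type*) [∀ q, NormedAddCommGroup (H q)] [∀ q, InnerProductSpace ℝ (H q)]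
    (d : ∀ q, H q →ₗ[ℝ] H (q + 1)) (δ : ∀ q, H (q + 1) →ₗ[ℝ] H q) where
  /-- the regularising operators -/
  P : ℕ → ∀ q, H q →ₗ[ℝ] H q
  /-- their adjoints -/
  J : ℕ → ∀ q, H q →ₗ[ℝ] H q
  adj : ∀ k q f g, inner ℝ (P k q f) g = inner ℝ f (J k q g)
  bd : ∀ q, ∃ C : ℝ, 0 ≤ C ∧ ∀ k f, ‖P k q f‖ ≤ C * ‖f‖
  bd_com : ∀ q, ∃ C : ℝ, 0 ≤ C ∧ ∀ k f, ‖d q (P k q f) - P k (q + 1) (d q f)‖ ≤ C * ‖f‖
  bd_d : ∀ q, ∃ C : ℝ, 0 ≤ C ∧ ∀ k f, ‖d q (P k q f - J k q f)‖ ≤ C * ‖f‖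
  bd_δ : ∀ q, ∃ C : ℝ, 0 ≤ C ∧ ∀ k f, ‖δ q (P k (q + 1) f - J k (q + 1) f)‖ ≤ C * ‖f‖
  lim : ∀ q f, Tendsto (fun k => ‖P k q f - f‖) atTop (𝓝 0)
  lim_d : ∀ q f, Tendsto (fun k => ‖d q (P k q f) - d q f‖) atTop (𝓝 0)
  lim_δ : ∀ q f, Tendsto (fun k => ‖δ q (P k (q + 1) f) - δ q f‖) atTop (𝓝 0)
  fix_P : ∀ k q, ∃ B : ℝ, ∀ f, ‖d q (P k q f)‖ ≤ B * ‖f‖
  fix_J : ∀ k q, ∃ B : ℝ, ∀ f, ‖d q (J k q f)‖ ≤ B * ‖f‖

variable {H : ℕ → Type*} [∀ q, NormedAddCommGroup (H q)] [∀ q, InnerProductSpace ℝ (H q)]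
  {d : ∀ q, H q →ₗ[ℝ] H (q + 1)} {δ : ∀ q, H (q + 1) →ₗ[ℝ] H q}

/-- The commutator with `δ` is bounded, by duality. -/
theorem Reg.bd_com_δ (R : Reg H d δ) (hadj : ∀ q a f, inner ℝ (d q a) f = inner ℝ a (δ q f))
    (q : ℕ) : ∃ C : ℝ, 0 ≤ C ∧ ∀ k f, ‖δ q (R.P k (q + 1) f) - R.P k q (δ q f)‖ ≤ C * ‖f‖ := by
  obtain ⟨C1, h10, h1⟩ := R.bd_δ q
  obtain ⟨C2, h20, h2⟩ := R.bd_d q
  obtain ⟨C3, h30, h3⟩ := R.bd_com q
  refine ⟨C1 + C2 + C3, by positivity, fun k f => ?_⟩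
  obtain ⟨x, hx⟩ : ∃ x, x = δ q (R.P k (q + 1) f) - R.P k q (δ q f) := ⟨_, rfl⟩
  rw [← hx]
  have hd : ∀ a f, inner ℝ (δ q f) a = inner ℝ f (d q a) := fun a f => by
    rw [real_inner_comm, ← hadj, real_inner_comm]
  have hJ : ∀ q f g, inner ℝ (R.J k q f) g = inner ℝ f (R.P k q g) := fun q f g => by
    rw [real_inner_comm, ← R.adj, real_inner_comm]
  -- `<x, x> = <δ (P - J) f, x> + <f, d (P - J) x> - <f, [d, P] x>`
  have key : inner ℝ x x = inner ℝ (δ q (R.P k (q + 1) f - R.J k (q + 1) f)) x +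
      inner ℝ f (d q (R.P k q x - R.J k q x)) -
      inner ℝ f (d q (R.P k q x) - R.P k (q + 1) (d q x)) := by
    have e1 : inner ℝ (δ q (R.J k (q + 1) f)) x = inner ℝ f (R.P k (q + 1) (d q x)) := by
      rw [hd, hJ]
    have e2 : inner ℝ (R.P k q (δ q f)) x = inner ℝ f (d q (R.J k q x)) := by
      rw [R.adj, hd]
    have e3 : inner ℝ x x = inner ℝ (δ q (R.P k (q + 1) f)) x -
        inner ℝ (R.P k q (δ q f)) x := by
      rw [← inner_sub_left, ← hx]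
    rw [e3, e2]
    simp only [map_sub, inner_sub_left, inner_sub_right]
    rw [e1]
    ring
  have hb1 : inner ℝ (δ q (R.P k (q + 1) f - R.J k (q + 1) f)) x ≤ C1 * ‖f‖ * ‖x‖ :=
    (real_inner_le_norm _ _).trans (mul_le_mul_of_nonneg_right (h1 k f) (norm_nonneg _))
  have hb2 : inner ℝ f (d q (R.P k q x - R.J k q x)) ≤ ‖f‖ * (C2 * ‖x‖) :=
    (real_inner_le_norm _ _).trans (mul_le_mul_of_nonneg_left (h2 k x) (norm_nonneg _))
  have hb3 : -inner ℝ f (d q (R.P k q x) - R.P k (q + 1) (d q x)) ≤ ‖f‖ * (C3 * ‖x‖) := by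
    rw [← inner_neg_right]
    refine (real_inner_le_norm _ _).trans (mul_le_mul_of_nonneg_left ?_ (norm_nonneg _))
    rw [norm_neg]
    exact h3 k x
  have hxx : ‖x‖ * ‖x‖ ≤ ((C1 + C2 + C3) * ‖f‖) * ‖x‖ := by
    rw [← real_inner_self_eq_norm_mul_norm, key]
    nlinarith
  rcases eq_or_lt_of_le (norm_nonneg x) with h0 | h0
  · rw [← h0]; positivity
  · exact le_of_mul_le_mul_right hxx h0

theorem Reg.lim_com (R : Reg H d δ) (q : ℕ) (f : H q) :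
    Tendsto (fun k => ‖d q (R.P k q f) - R.P k (q + 1) (d q f)‖) atTop (𝓝 0) := by
  have h := (R.lim_d q f).add (R.lim (q + 1) (d q f))
  rw [add_zero] at h
  refine squeeze_zero (fun k => norm_nonneg _) (fun k => ?_) h
  have e : d q (R.P k q f) - R.P k (q + 1) (d q f) =
      (d q (R.P k q f) - d q f) - (R.P k (q + 1) (d q f) - d q f) := by abel
  rw [e]
  exact norm_sub_le _ _

theorem Reg.lim_com_δ (R : Reg H d δ) (q : ℕ) (f : H (q + 1)) :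
    Tendsto (fun k => ‖δ q (R.P k (q + 1) f) - R.P k q (δ q f)‖) atTop (𝓝 0) := by
  have h := (R.lim_δ q f).add (R.lim q (δ q f))
  rw [add_zero] at h
  refine squeeze_zero (fun k => norm_nonneg _) (fun k => ?_) h
  have e : δ q (R.P k (q + 1) f) - R.P k q (δ q f) =
      (δ q (R.P k (q + 1) f) - δ q f) - (R.P k q (δ q f) - δ q f) := by abel
  rw [e]
  exact norm_sub_le _ _

theorem Reg.fix_Pδ (R : Reg H d δ) (hadj : ∀ q a f, inner ℝ (d q a) f = inner ℝ a (δ q f))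
    (k q : ℕ) : ∃ B : ℝ, ∀ f, ‖R.P k q (δ q f)‖ ≤ B * ‖f‖ := by
  obtain ⟨B, hB⟩ := R.fix_J k q
  refine ⟨|B|, fun f => ?_⟩
  obtain ⟨x, hx⟩ : ∃ x, x = R.P k q (δ q f) := ⟨_, rfl⟩
  rw [← hx]
  have h1 : inner ℝ x x = inner ℝ f (d q (R.J k q x)) := by
    have e1 : inner ℝ (R.P k q (δ q f)) x = inner ℝ f (d q (R.J k q x)) := by
      rw [R.adj, real_inner_comm, ← hadj, real_inner_comm]
    rw [← e1, ← hx]
  have hxx : ‖x‖ * ‖x‖ ≤ (|B| * ‖f‖) * ‖x‖ := by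
    rw [← real_inner_self_eq_norm_mul_norm, h1]
    refine (real_inner_le_norm _ _).trans ?_
    have h2 : ‖d q (R.J k q x)‖ ≤ |B| * ‖x‖ :=
      (hB x).trans (mul_le_mul_of_nonneg_right (le_abs_self B) (norm_nonneg _))
    refine (mul_le_mul_of_nonneg_left h2 (norm_nonneg _)).trans (le_of_eq (by ring))
  rcases eq_or_lt_of_le (norm_nonneg x) with h0 | h0
  · rw [← h0]; positivity
  · exact le_of_mul_le_mul_right hxx h0

/-- **Weak and strong primitives** of closed elements of degree `p + 1`, from the a priori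
estimate in degree `p + 1` and the regularising operators. -/
theorem reg_primitive (R : Reg H d δ) (hadj : ∀ q a f, inner ℝ (d q a) f = inner ℝ a (δ q f))
    (hdd : ∀ q a, d (q + 1) (d q a) = 0) (p : ℕ) {c : ℝ} (hc : 0 < c)
    (hb : ∀ f, c * ‖f‖ ^ 2 ≤ ‖d (p + 1) f‖ ^ 2 + ‖δ p f‖ ^ 2) (w : H (p + 1))
    (hw : d (p + 1) w = 0) :
    ∃ u : Completion (H p), (∀ f : H (p + 1),
        inner ℝ u ((δ p f : H p) : Completion (H p)) = inner ℝ w f) ∧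
      ∀ ε : ℝ, 0 < ε → ∃ v : H p, ‖(v : Completion (H p)) - u‖ < ε ∧ ‖d p v - w‖ < ε := by
  obtain ⟨A1, a10, a1⟩ := R.bd (p + 1)
  obtain ⟨A2, a20, a2⟩ := R.bd p
  obtain ⟨A3, a30, a3⟩ := R.bd_com (p + 1)
  obtain ⟨A4, a40, a4⟩ := R.bd_com_δ hadj p
  obtain ⟨A5, a50, a5⟩ := R.bd_com p
  have hJ : ∀ k q f g, inner ℝ (R.J k q f) g = inner ℝ f (R.P k q g) := fun k q f g => by
    rw [real_inner_comm, ← R.adj, real_inner_comm]
  obtain ⟨C, hC⟩ : ∃ C, C = A1 + A2 + A3 + A4 + A5 := ⟨_, rfl⟩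
  have hC0 : 0 ≤ C := by rw [hC]; positivity
  have up : ∀ {A : ℝ} (_ : A ≤ C) {t s : ℝ} (_ : 0 ≤ s), t ≤ A * s → t ≤ C * s :=
    fun hA _ _ hs h => h.trans (mul_le_mul_of_nonneg_right hA hs)
  have c1 : A1 ≤ C := by rw [hC]; linarith
  have c2 : A2 ≤ C := by rw [hC]; linarith
  have c3 : A3 ≤ C := by rw [hC]; linarith
  have c4 : A4 ≤ C := by rw [hC]; linarith
  have c5 : A5 ≤ C := by rw [hC]; linarith
  obtain ⟨u, hu⟩ := weak_primitive (d p) (d (p + 1)) (δ p) (hadj p) (hdd p) hc hC0 hb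
    (fun k => R.P k (p + 1)) (fun k => R.P k p) (fun k => R.P k (p + 2)) (fun k => R.J k p)
    (fun k f => up c1 (norm_nonneg _) (a1 k f)) (fun f => R.lim (p + 1) f)
    (fun k f => up c2 (norm_nonneg _) (a2 k f)) (fun k f g => R.adj k p f g)
    (fun k f => up c3 (norm_nonneg _) (a3 k f)) (fun f => R.lim_com (p + 1) f)
    (fun k f => up c4 (norm_nonneg _) (a4 k f)) (fun f => R.lim_com_δ p f)
    (fun k => R.fix_Pδ hadj k p) w hw
  refine ⟨u, hu, fun ε hε => ?_⟩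
  exact strong_primitive (d p) (δ p) (hadj p) hC0 (fun k => R.P k (p + 1)) (fun k => R.P k p)
    (fun k => R.J k (p + 1)) (fun f => R.lim (p + 1) f)
    (fun k f => up c2 (norm_nonneg _) (a2 k f)) (fun f => R.lim p f)
    (fun k f g => R.adj k (p + 1) f g) (fun k f => up c5 (norm_nonneg _) (a5 k f))
    (fun f => R.lim_com p f) (fun k => R.fix_P k p) w u hu ε hε

end Pool.Agent.Lib.MP_4a593f_gt.BH
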