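import Pool.Agent.Lib.MP_4a593f_gt.BH.Met

/-!
Row IntA: integration in a chart, change of variables.
-/

open scoped Manifold ContDiff Bundle Topology Matrix
open MeasureTheory

noncomputable section

universe u

namespace BH

variable {n p : ℕ} {M : Type u} [TopologicalSpace M] [ChartedSpace (E n) M]

/-- the determinant of the matrix of a linear map -/
theorem det_mt (A : E n →L[ℝ] E n) : (mt A).det = A.det := by
  have h : mt A = LinearMap.toMatrix (EuclideanSpace.basisFun (Fin n) ℝ).toBasis
      (EuclideanSpace.basisFun (Fin n) ℝ).toBasis (A : E n →ₗ[ℝ] E n) := by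
    ext i j
    rw [LinearMap.toMatrix_apply]
    simp [mt, bv]
  rw [h, LinearMap.det_toMatrix]

theorem image_tr {e e' : OpenPartialHomeomorph M (E n)} : tr e e' '' ov e e' = ov e' e := by
  ext z
  constructor
  · rintro ⟨y, hy, rfl⟩
    exact tr_mem hy
  · intro hz
    exact ⟨tr e' e z, tr_mem hz, tr_tr hz⟩

variable [IsManifold 𝓘(ℝ, E n) ∞ M]

/-- the volume density in two charts -/
theorem vol_tr (g : Metric n M) {e e' : OpenPartialHomeomorph M (E n)}
    (he : e ∈ atlas (E n) M) (he' : e' ∈ atlas (E n) M) {y : E n} (hy : y ∈ ov e e') :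
    vol (gloc e g) y = |(fderiv ℝ (tr e e') y).det| * vol (gloc e' g) (tr e e' y) := by
  unfold vol
  rw [gloc_tr g he he' hy, Matrix.det_mul, Matrix.det_mul, Matrix.det_transpose, det_mt]
  rw [show (fderiv ℝ (tr e e') y).det * (gmat (gloc e' g) (tr e e' y)).det *
    (fderiv ℝ (tr e e') y).det = (fderiv ℝ (tr e e') y).det ^ 2 *
      (gmat (gloc e' g) (tr e e' y)).det by ring, Real.sqrt_mul (sq_nonneg _), Real.sqrt_sq_eq_abs]

/-- integral of a function in a chart -/
def intE (g : Metric n M) (e : OpenPartialHomeomorph M (E n)) (u : M → ℝ) : ℝ :=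
  ∫ y in e.target, u (e.symm y) * vol (gloc e g) y

/-- the integral may be restricted to the domain of a second chart -/
theorem intE_ov (g : Metric n M) (e e' : OpenPartialHomeomorph M (E n))
    {u : M → ℝ} (h : ∀ x, u x ≠ 0 → x ∈ e'.source) :
    intE g e u = ∫ y in ov e e', u (e.symm y) * vol (gloc e g) y := by
  unfold intE
  refine setIntegral_eq_of_subset_of_forall_sdiff_eq_zero e.open_target.measurableSet
    Set.inter_subset_left fun y hy => ?_
  have h0 : u (e.symm y) = 0 := by
    by_contra hne
    exact hy.2 ⟨hy.1, h _ hne⟩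
  rw [h0, zero_mul]

/-- change of variables -/
theorem intE_tr (g : Metric n M) {e e' : OpenPartialHomeomorph M (E n)}
    (he : e ∈ atlas (E n) M) (he' : e' ∈ atlas (E n) M) {u : M → ℝ}
    (h : ∀ x, u x ≠ 0 → x ∈ e.source ∧ x ∈ e'.source) : intE g e u = intE g e' u := by
  rw [intE_ov g e e' fun x hx => (h x hx).2, intE_ov g e' e fun x hx => (h x hx).1,
    ← image_tr (e := e) (e' := e'),
    integral_image_eq_integral_abs_det_fderiv_smul volume (ov_open e e').measurableSet
      (f' := fderiv ℝ (tr e e')) ?_ ?_]
  · refine setIntegral_congr_fun (ov_open e e').measurableSet fun y hy => ?_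
    show u (e.symm y) * vol (gloc e g) y = _ • (u (e'.symm (tr e e' y)) * _)
    rw [symm_tr hy, vol_tr g he he' hy, smul_eq_mul]
    ring
  · intro y hy
    exact ((((tr_smooth he he').contDiffAt ((ov_open e e').mem_nhds hy)).differentiableAt
      (by simp)).hasFDerivAt).hasFDerivWithinAt
  · intro y hy z hz hyz
    have h1 := congrArg (tr e' e) hyz
    rwa [tr_tr hy, tr_tr hz] at h1

theorem integrable_chart [CompactSpace M] (g : Metric n M) {e : OpenPartialHomeomorph M (E n)}
    (he : e ∈ atlas (E n) M) {u : M → ℝ} (hu : Continuous u) (hs : tsupport u ⊆ e.source) :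
    IntegrableOn (fun y => u (e.symm y) * vol (gloc e g) y) e.target := by
  have hK : IsCompact (e '' tsupport u) :=
    (isClosed_tsupport u).isCompact.image_of_continuousOn (e.continuousOn.mono hs)
  have hKt : e '' tsupport u ⊆ e.target := by
    rintro _ ⟨x, hx, rfl⟩
    exact e.map_source (hs hx)
  have hc : ContinuousOn (fun y => u (e.symm y) * vol (gloc e g) y) e.target :=
    (hu.comp_continuousOn e.continuousOn_symm).mul (isMet_gloc g he).vol_smooth.continuousOn
  refine ((hc.mono hKt).integrableOn_compact hK).of_forall_sdiff_eq_zero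
    e.open_target.measurableSet fun y hy => ?_
  have h0 : u (e.symm y) = 0 := by
    by_contra hne
    exact hy.2 ⟨e.symm y, subset_tsupport u hne, e.right_inv hy.1⟩
  rw [h0, zero_mul]

end BH
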