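import Pool.Agent.Lib.MP_4a593f_gt.BH.IntA
import Pool.Agent.Lib.MP_4a593f_gt.BH.Cov

/-!
Row IntB: integration on `M`.
-/

open scoped Manifold ContDiff Bundle Topology Matrix
open MeasureTheory

noncomputable section

universe u

namespace BH

variable {n p : ℕ} {M : Type u} [TopologicalSpace M] [ChartedSpace (E n) M]

/-- a product with a partition function is continuous, with support in the chart -/
theorem Cover.mul_continuous (C : Cover n M) (i : Fin C.N) {u : M → ℝ} (hu : Continuous u) :
    Continuous (fun x => C.χ i x * u x) :=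
  (C.smooth i).continuous.mul hu

theorem Cover.mul_tsupport (C : Cover n M) (i : Fin C.N) (u : M → ℝ) :
    tsupport (fun x => C.χ i x * u x) ⊆ (C.ch i).source :=
  (tsupport_mul_subset_left (f := C.χ i) (g := u)).trans (C.supp i)

variable [IsManifold 𝓘(ℝ, E n) ∞ M]

/-- the integral of a function on `M` -/
def IntM (C : Cover n M) (g : Metric n M) (u : M → ℝ) : ℝ :=
  ∑ i, intE g (C.ch i) (fun x => C.χ i x * u x)

theorem IntM_chart [CompactSpace M] (C : Cover n M) (g : Metric n M)
    {e : OpenPartialHomeomorph M (E n)} (he : e ∈ atlas (E n) M) {u : M → ℝ}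
    (hu : Continuous u) (hs : tsupport u ⊆ e.source) : IntM C g u = intE g e u := by
  have h1 : ∀ i, intE g (C.ch i) (fun x => C.χ i x * u x) =
      intE g e (fun x => C.χ i x * u x) := by
    intro i
    refine intE_tr g (C.mem i) he fun x hx => ⟨?_, ?_⟩
    · exact C.mul_tsupport i u (subset_tsupport _ hx)
    · exact hs (subset_tsupport _ (right_ne_zero_of_mul hx))
  unfold IntM
  simp only [h1]
  unfold intE
  rw [← integral_finsetSum]
  · refine setIntegral_congr_fun e.open_target.measurableSet fun y _ => ?_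
    show ∑ i, C.χ i (e.symm y) * u (e.symm y) * vol (gloc e g) y = _
    rw [← Finset.sum_mul, ← Finset.sum_mul, C.sum, one_mul]
  · intro i _
    exact integrable_chart g he (C.mul_continuous i hu)
      ((tsupport_mul_subset_right (f := C.χ i) (g := u)).trans hs)

theorem IntM_add [CompactSpace M] (C : Cover n M) (g : Metric n M) {u v : M → ℝ}
    (hu : Continuous u) (hv : Continuous v) :
    IntM C g (fun x => u x + v x) = IntM C g u + IntM C g v := by
  unfold IntM
  rw [← Finset.sum_add_distrib]
  refine Finset.sum_congr rfl fun i _ => ?_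
  unfold intE
  rw [← integral_add
    (integrable_chart g (C.mem i) (C.mul_continuous i hu) (C.mul_tsupport i u))
    (integrable_chart g (C.mem i) (C.mul_continuous i hv) (C.mul_tsupport i v))]
  refine integral_congr_ae (Filter.Eventually.of_forall fun y => ?_)
  show C.χ i _ * (u _ + v _) * _ = C.χ i _ * u _ * _ + C.χ i _ * v _ * _
  ring

theorem IntM_smul (C : Cover n M) (g : Metric n M) (c : ℝ) (u : M → ℝ) :
    IntM C g (fun x => c * u x) = c * IntM C g u := by
  unfold IntM
  rw [Finset.mul_sum]
  refine Finset.sum_congr rfl fun i _ => ?_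
  unfold intE
  rw [← integral_const_mul]
  refine integral_congr_ae (Filter.Eventually.of_forall fun y => ?_)
  show C.χ i _ * (c * u _) * _ = c * (C.χ i _ * u _ * _)
  ring

theorem intE_nonneg (g : Metric n M) (e : OpenPartialHomeomorph M (E n)) {u : M → ℝ}
    (h : ∀ x, 0 ≤ u x) : 0 ≤ intE g e u :=
  integral_nonneg fun _ => mul_nonneg (h _) (Real.sqrt_nonneg _)

theorem IntM_nonneg (C : Cover n M) (g : Metric n M) {u : M → ℝ} (h : ∀ x, 0 ≤ u x) :
    0 ≤ IntM C g u :=
  Finset.sum_nonneg fun i _ => intE_nonneg g (C.ch i) fun x => mul_nonneg (C.nonneg i x) (h x)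

theorem IntM_eq_zero [CompactSpace M] (C : Cover n M) (g : Metric n M) {u : M → ℝ}
    (hu : Continuous u) (h : ∀ x, 0 ≤ u x) (h0 : IntM C g u = 0) : ∀ x, u x = 0 := by
  intro x
  have h1 : ∀ i, intE g (C.ch i) (fun x => C.χ i x * u x) = 0 := fun i =>
    (Finset.sum_eq_zero_iff_of_nonneg fun i _ => intE_nonneg g (C.ch i)
      fun x => mul_nonneg (C.nonneg i x) (h x)).1 h0 i (Finset.mem_univ i)
  obtain ⟨i, hi⟩ : ∃ i, C.χ i x ≠ 0 := by
    by_contra hcon
    push Not at hcon
    have := C.sum x
    rw [Finset.sum_eq_zero fun i _ => hcon i] at this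
    exact zero_ne_one this
  have hx : x ∈ (C.ch i).source := C.supp i (subset_tsupport _ hi)
  have hc : ContinuousOn (fun y => C.χ i ((C.ch i).symm y) * u ((C.ch i).symm y) *
      vol (gloc (C.ch i) g) y) (C.ch i).target :=
    ((C.mul_continuous i hu).comp_continuousOn (C.ch i).continuousOn_symm).mul
      (isMet_gloc g (C.mem i)).vol_smooth.continuousOn
  have h2 := (setIntegral_eq_zero_iff_of_nonneg_ae
    (Filter.Eventually.of_forall fun y => mul_nonneg (mul_nonneg (C.nonneg i _) (h _))
      (Real.sqrt_nonneg _))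
    (integrable_chart g (C.mem i) (C.mul_continuous i hu) (C.mul_tsupport i u))).1 (h1 i)
  have h3 := Measure.eqOn_open_of_ae_eq h2 (C.ch i).open_target hc continuousOn_const
    ((C.ch i).map_source hx)
  have h4 := (isMet_gloc g (C.mem i)).vol_pos ((C.ch i).map_source hx)
  simp only [(C.ch i).left_inv hx, Pi.zero_apply] at h3
  rcases mul_eq_zero.1 h3 with h5 | h5
  · rcases mul_eq_zero.1 h5 with h6 | h6
    · exact absurd h6 hi
    · exact h6
  · exact absurd h5 h4.ne'

end BH
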