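import Pool.Agent.Lib.MP_4a593f_gt.BH.IpB

/-!
Row IpC: metrics on open sets of `ℝⁿ`: smoothness of `g⁻¹`, of the volume density and of `ipG`.
-/

open scoped Manifold ContDiff Topology Matrix

noncomputable section

namespace BH

variable {n p : ℕ}

/-! ### Components of forms -/

variable (n p) in
/-- the components as a linear map -/
def arrL : Alt n p →ₗ[ℝ] ((Fin p → Fin n) → ℝ) where
  toFun := arr
  map_add' := arr_add
  map_smul' := arr_smul

theorem arrL_inj : Function.Injective (arrL n p) := fun _ _ h => arr_inj h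

instance instFiniteAlt : FiniteDimensional ℝ (Alt n p) := Module.Finite.of_injective _ arrL_inj

theorem arr_cont (I : Fin p → Fin n) : Continuous fun a : Alt n p => arr a I :=
  (continuous_apply I).comp (arrL n p).continuous_of_finiteDimensional

/-- a form-valued function is smooth iff its components are -/
theorem contDiffOn_arr {F : Type*} [NormedAddCommGroup F] [NormedSpace ℝ F] {m : WithTop ℕ∞}
    {U : Set F} {f : F → Alt n p} :
    ContDiffOn ℝ m f U ↔ ∀ I, ContDiffOn ℝ m (fun y => arr (f y) I) U := by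
  constructor
  · intro hf I
    have h : ContDiffOn ℝ m (fun y => (arrL n p).toContinuousLinearMap (f y)) U :=
      (arrL n p).toContinuousLinearMap.contDiff.comp_contDiffOn hf
    exact contDiffOn_pi.1 h I
  · intro h
    obtain ⟨L, hL⟩ := (arrL n p).exists_leftInverse_of_injective
      (LinearMap.ker_eq_bot.2 arrL_inj)
    have h1 : ContDiffOn ℝ m (fun y => L.toContinuousLinearMap (arr (f y))) U :=
      L.toContinuousLinearMap.contDiff.comp_contDiffOn (contDiffOn_pi.2 h)
    refine h1.congr fun y _ => ?_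
    exact (LinearMap.congr_fun hL (f y)).symm

/-! ### Metrics -/

/-- a metric on an open set of `ℝⁿ` -/
structure IsMet (U : Set (E n)) (G : Fin n → Fin n → E n → ℝ) : Prop where
  smooth : ∀ i j, ContDiffOn ℝ ∞ (G i j) U
  symm : ∀ i j, ∀ y ∈ U, G i j y = G j i y
  pos : ∀ y ∈ U, (gmat G y).PosDef

theorem contDiffOn_det {F : Type*} [NormedAddCommGroup F] [NormedSpace ℝ F] {m : WithTop ℕ∞}
    {U : Set F} {A : F → Matrix (Fin n) (Fin n) ℝ}
    (hA : ∀ i j, ContDiffOn ℝ m (fun y => A y i j) U) :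
    ContDiffOn ℝ m (fun y => (A y).det) U := by
  simp only [Matrix.det_apply]
  refine ContDiffOn.sum fun σ _ => ?_
  exact (contDiffOn_prod fun i _ => hA _ _).const_smul _

theorem contDiffOn_inv {F : Type*} [NormedAddCommGroup F] [NormedSpace ℝ F] {m : WithTop ℕ∞}
    {U : Set F} {A : F → Matrix (Fin n) (Fin n) ℝ}
    (hA : ∀ i j, ContDiffOn ℝ m (fun y => A y i j) U) (h0 : ∀ y ∈ U, (A y).det ≠ 0)
    (i j : Fin n) : ContDiffOn ℝ m (fun y => (A y)⁻¹ i j) U := by
  have h1 : ∀ y, (A y)⁻¹ i j =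
      ((A y).det)⁻¹ * ((A y).updateRow j (Pi.single i 1)).det := by
    intro y
    rw [Matrix.inv_def, Matrix.smul_apply, Matrix.adjugate_apply, Ring.inverse_eq_inv',
      smul_eq_mul]
  simp only [h1]
  refine (ContDiffOn.inv (contDiffOn_det hA) h0).mul (contDiffOn_det fun k l => ?_)
  rcases eq_or_ne k j with rfl | hk
  · simp only [Matrix.updateRow_self]
    exact contDiffOn_const
  · simp only [Matrix.updateRow_ne hk]
    exact hA k l

theorem IsMet.inv_smooth {U : Set (E n)} {G : Fin n → Fin n → E n → ℝ} (hG : IsMet U G)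
    (i j : Fin n) : ContDiffOn ℝ ∞ (fun y => (gmat G y)⁻¹ i j) U :=
  contDiffOn_inv (A := gmat G) hG.smooth (fun y hy => (hG.pos y hy).det_pos.ne') i j

/-- the volume density -/
def vol (G : Fin n → Fin n → E n → ℝ) (y : E n) : ℝ := Real.sqrt (gmat G y).det

theorem IsMet.vol_pos {U : Set (E n)} {G : Fin n → Fin n → E n → ℝ} (hG : IsMet U G) {y : E n}
    (hy : y ∈ U) : 0 < vol G y :=
  Real.sqrt_pos.2 (hG.pos y hy).det_pos

theorem IsMet.vol_smooth {U : Set (E n)} {G : Fin n → Fin n → E n → ℝ} (hG : IsMet U G) :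
    ContDiffOn ℝ ∞ (vol G) U :=
  ContDiffOn.sqrt (contDiffOn_det (A := gmat G) hG.smooth)
    fun y hy => (hG.pos y hy).det_pos.ne'

theorem smooth_pb {U : Set (E n)} {A : E n → Matrix (Fin n) (Fin n) ℝ}
    (hA : ∀ i j, ContDiffOn ℝ ∞ (fun y => A y i j) U) {f : E n → Alt n p}
    (hf : ContDiffOn ℝ ∞ f U) : ContDiffOn ℝ ∞ (fun y => pb (A y) (f y)) U := by
  rw [contDiffOn_arr] at hf ⊢
  intro I
  simp only [arr_pb]
  refine ContDiffOn.sum fun J _ => ?_
  exact (contDiffOn_prod fun s _ => hA _ _).mul (hf J)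

theorem smooth_ip0 {U : Set (E n)} {f h : E n → Alt n p}
    (hf : ContDiffOn ℝ ∞ f U) (hh : ContDiffOn ℝ ∞ h U) :
    ContDiffOn ℝ ∞ (fun y => ip0 (f y) (h y)) U := by
  rw [contDiffOn_arr] at hf hh
  unfold ip0
  exact contDiffOn_const.mul (ContDiffOn.sum fun I _ => (hf I).mul (hh I))

theorem smooth_ipG {U : Set (E n)} {G : Fin n → Fin n → E n → ℝ} (hG : IsMet U G)
    {f h : E n → Alt n p} (hf : ContDiffOn ℝ ∞ f U) (hh : ContDiffOn ℝ ∞ h U) :
    ContDiffOn ℝ ∞ (fun y => ipG (gmat G y) (f y) (h y)) U :=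
  smooth_ip0 (smooth_pb (A := fun y => (gmat G y)⁻¹) hG.inv_smooth hf) hh

theorem ipG_cont {U : Set (E n)} {G : Fin n → Fin n → E n → ℝ} (hG : IsMet U G) :
    ContinuousOn (fun z : E n × Alt n p => ipG (gmat G z.1) z.2 z.2 * vol G z.1)
      (U ×ˢ Set.univ) := by
  have hm : Set.MapsTo (Prod.fst : E n × Alt n p → E n) (U ×ˢ Set.univ) U := fun z hz => hz.1
  refine ContinuousOn.mul ?_ (hG.vol_smooth.continuousOn.comp continuous_fst.continuousOn hm)
  unfold ipG ip0
  refine continuousOn_const.mul (continuousOn_finsetSum _ fun I _ => ?_)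
  refine ContinuousOn.mul ?_ ((arr_cont I).comp continuous_snd).continuousOn
  simp only [arr_pb]
  refine continuousOn_finsetSum _ fun J _ => ?_
  refine ContinuousOn.mul (continuousOn_finsetProd _ fun s _ => ?_)
    ((arr_cont J).comp continuous_snd).continuousOn
  exact (hG.inv_smooth (J s) (I s)).continuousOn.comp continuous_fst.continuousOn hm

/-- comparison with the norm of `Alt n p` on compact sets -/
theorem ipG_bdd {U : Set (E n)} {G : Fin n → Fin n → E n → ℝ} (hG : IsMet U G)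
    {K : Set (E n)} (hK : IsCompact K) (hKU : K ⊆ U) :
    ∃ C : ℝ, 0 < C ∧ ∀ y ∈ K, ∀ a : Alt n p,
      ‖a‖ ^ 2 ≤ C * (ipG (gmat G y) a a * vol G y) ∧
      ipG (gmat G y) a a * vol G y ≤ C * ‖a‖ ^ 2 := by
  haveI : ProperSpace (Alt n p) := FiniteDimensional.proper ℝ (Alt n p)
  set S : Set (E n × Alt n p) := K ×ˢ Metric.sphere (0 : Alt n p) 1 with hS
  have hSc : IsCompact S := hK.prod (isCompact_sphere _ _)
  have hSU : S ⊆ U ×ˢ Set.univ := fun z hz => ⟨hKU hz.1, trivial⟩
  have hc := (ipG_cont (p := p) hG).mono hSU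
  have hpos : ∀ z ∈ S, 0 < ipG (gmat G z.1) z.2 z.2 * vol G z.1 := by
    rintro ⟨y, a⟩ ⟨hy, ha⟩
    have ha0 : a ≠ 0 := by
      rintro rfl
      simp at ha
    exact mul_pos (ipG_self_pos (hG.pos y (hKU hy)) ha0) (hG.vol_pos (hKU hy))
  obtain ⟨C1, h1⟩ := hSc.exists_bound_of_continuousOn hc
  obtain ⟨C2, h2⟩ := hSc.exists_bound_of_continuousOn (hc.inv₀ fun z hz => (hpos z hz).ne')
  refine ⟨max 1 (max C1 C2), by positivity, fun y hy a => ?_⟩
  rcases eq_or_ne a 0 with rfl | ha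
  · have h0 : ipG (gmat G y) (0 : Alt n p) 0 = 0 := by
      have := ipG_smul_left (gmat G y) 0 (0 : Alt n p) 0
      rwa [zero_smul, zero_mul] at this
    rw [h0]
    simp
  · have hn : 0 < ‖a‖ := norm_pos_iff.2 ha
    set u : Alt n p := ‖a‖⁻¹ • a with hu
    have hau : a = ‖a‖ • u := by
      rw [hu, smul_smul, mul_inv_cancel₀ hn.ne', one_smul]
    have hmem : (y, u) ∈ S := by
      refine ⟨hy, ?_⟩
      rw [mem_sphere_zero_iff_norm, hu, norm_smul, norm_inv, norm_norm, inv_mul_cancel₀ hn.ne']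
    have hval : ipG (gmat G y) a a * vol G y =
        ‖a‖ ^ 2 * (ipG (gmat G y) u u * vol G y) := by
      conv_lhs => rw [hau]
      rw [ipG_smul_left, ipG_smul_right]
      ring
    have hp := hpos _ hmem
    have hb1 := h1 _ hmem
    have hb2 := h2 _ hmem
    simp only [Real.norm_eq_abs, Pi.inv_apply] at hb1 hb2 hp
    rw [abs_of_pos hp] at hb1
    rw [abs_of_pos (inv_pos.2 hp)] at hb2
    set P := ipG (gmat G y) u u * vol G y with hP
    have hM1 : C1 ≤ max 1 (max C1 C2) := (le_max_left _ _).trans (le_max_right _ _)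
    have hM2 : C2 ≤ max 1 (max C1 C2) := (le_max_right _ _).trans (le_max_right _ _)
    rw [hval]
    constructor
    · have h3 : 1 ≤ max 1 (max C1 C2) * P := by
        have h4 : P⁻¹ * P = 1 := inv_mul_cancel₀ hp.ne'
        have h5 : P⁻¹ * P ≤ max 1 (max C1 C2) * P :=
          mul_le_mul_of_nonneg_right (hb2.trans hM2) hp.le
        rwa [h4] at h5
      calc ‖a‖ ^ 2 = ‖a‖ ^ 2 * 1 := (mul_one _).symm
        _ ≤ ‖a‖ ^ 2 * (max 1 (max C1 C2) * P) :=
          mul_le_mul_of_nonneg_left h3 (by positivity)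
        _ = max 1 (max C1 C2) * (‖a‖ ^ 2 * P) := by ring
    · calc ‖a‖ ^ 2 * P ≤ ‖a‖ ^ 2 * max 1 (max C1 C2) :=
          mul_le_mul_of_nonneg_left (hb1.trans hM1) (by positivity)
        _ = max 1 (max C1 C2) * ‖a‖ ^ 2 := by ring

end BH
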