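import Pool.Agent.Lib.MP_4a593f_gt.BH.Chg

/-!
Row IpA: matrices and alternating forms, the standard inner product of alternating forms.
-/

open scoped Manifold ContDiff Topology Matrix

noncomputable section

namespace BH

variable {n p : ℕ}

/-- the linear map of a matrix -/
def ep (A : Matrix (Fin n) (Fin n) ℝ) : E n →L[ℝ] E n :=
  Matrix.toEuclideanCLM (n := Fin n) (𝕜 := ℝ) A

/-- the matrix of a linear map -/
def mt (A : E n →L[ℝ] E n) : Matrix (Fin n) (Fin n) ℝ := Matrix.of fun i j => A (bv j) i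

theorem bv_apply (i j : Fin n) : bv i j = if j = i then (1 : ℝ) else 0 := by
  simp [bv, Pi.single_apply]

/-- expansion of a vector in the standard basis -/
theorem vec_expand (v : E n) : v = ∑ i, v i • bv i := by
  ext j
  simp [bv_apply]

theorem ep_apply (A : Matrix (Fin n) (Fin n) ℝ) (v : E n) (i : Fin n) :
    ep A v i = ∑ j, A i j * v j := rfl

theorem ep_bv_apply (A : Matrix (Fin n) (Fin n) ℝ) (i j : Fin n) : ep A (bv j) i = A i j := by
  simp [ep_apply, bv_apply]

theorem ep_bv (A : Matrix (Fin n) (Fin n) ℝ) (j : Fin n) : ep A (bv j) = ∑ i, A i j • bv i := by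
  rw [vec_expand (ep A (bv j))]
  exact Finset.sum_congr rfl fun i _ => by rw [ep_bv_apply]

theorem ep_mt (A : E n →L[ℝ] E n) : ep (mt A) = A := by
  ext v i
  conv_rhs => rw [vec_expand v, map_sum]
  rw [ep_apply]
  simp [mt, mul_comm]

theorem mt_ep (A : Matrix (Fin n) (Fin n) ℝ) : mt (ep A) = A := by
  ext i j
  exact ep_bv_apply A i j

theorem ep_mul (A B : Matrix (Fin n) (Fin n) ℝ) : ep (A * B) = (ep A).comp (ep B) := by
  unfold ep
  rw [map_mul]
  rfl

theorem ep_one : ep (1 : Matrix (Fin n) (Fin n) ℝ) = ContinuousLinearMap.id ℝ (E n) := by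
  unfold ep
  rw [map_one]
  rfl

/-- pullback of a form by a matrix -/
def pb (A : Matrix (Fin n) (Fin n) ℝ) (a : Alt n p) : Alt n p := a.compContinuousLinearMap (ep A)

theorem pb_apply (A : Matrix (Fin n) (Fin n) ℝ) (a : Alt n p) (v : Fin p → E n) :
    pb A a v = a fun s => ep A (v s) := rfl

theorem pb_pb (A B : Matrix (Fin n) (Fin n) ℝ) (a : Alt n p) : pb A (pb B a) = pb (B * A) a := by
  ext v
  simp only [pb_apply, ep_mul]
  rfl

theorem pb_one (a : Alt n p) : pb 1 a = a := by
  ext v
  rw [pb_apply, ep_one]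
  rfl

theorem pb_add (A : Matrix (Fin n) (Fin n) ℝ) (a c : Alt n p) : pb A (a + c) = pb A a + pb A c :=
  rfl

theorem pb_smul (A : Matrix (Fin n) (Fin n) ℝ) (t : ℝ) (a : Alt n p) :
    pb A (t • a) = t • pb A a := rfl

theorem pb_zero (A : Matrix (Fin n) (Fin n) ℝ) : pb A (0 : Alt n p) = 0 := rfl

/-- components -/
def arr (a : Alt n p) : (Fin p → Fin n) → ℝ := fun I => a fun s => bv (I s)

/-- expansion of `a (v_1, ..., v_p)` in components -/
theorem alt_expand (a : Alt n p) (v : Fin p → E n) :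
    a v = ∑ I : Fin p → Fin n, (∏ s, v s (I s)) * arr a I := by
  have h1 : v = fun s => ∑ i, v s i • bv i := by
    funext s
    exact vec_expand (v s)
  have h2 : a (fun s => ∑ i, v s i • bv i) =
      a.toContinuousMultilinearMap.toMultilinearMap (fun s => ∑ i, v s i • bv i) := rfl
  conv_lhs => rw [h1]
  rw [h2, MultilinearMap.map_sum]
  refine Finset.sum_congr rfl fun I _ => ?_
  rw [MultilinearMap.map_smul_univ]
  rfl

theorem arr_inj {a c : Alt n p} (h : arr a = arr c) : a = c := by
  ext v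
  rw [alt_expand, alt_expand, h]

theorem arr_add (a c : Alt n p) : arr (a + c) = arr a + arr c := rfl

theorem arr_smul (t : ℝ) (a : Alt n p) : arr (t • a) = t • arr a := rfl

theorem arr_zero : arr (0 : Alt n p) = 0 := rfl

theorem arr_pb (A : Matrix (Fin n) (Fin n) ℝ) (a : Alt n p) (I : Fin p → Fin n) :
    arr (pb A a) I = ∑ J : Fin p → Fin n, (∏ s, A (J s) (I s)) * arr a J := by
  unfold arr
  rw [pb_apply, alt_expand]
  refine Finset.sum_congr rfl fun J _ => ?_
  simp only [ep_bv_apply]
  rfl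

/-- the standard inner product of `p`-forms -/
def ip0 (a c : Alt n p) : ℝ := ((p.factorial : ℝ))⁻¹ * ∑ I : Fin p → Fin n, arr a I * arr c I

theorem ip0_add_left (a b c : Alt n p) : ip0 (a + b) c = ip0 a c + ip0 b c := by
  unfold ip0
  rw [arr_add, ← mul_add, ← Finset.sum_add_distrib]
  congr 1
  exact Finset.sum_congr rfl fun I _ => by rw [Pi.add_apply, add_mul]

theorem ip0_smul_left (t : ℝ) (a c : Alt n p) : ip0 (t • a) c = t * ip0 a c := by
  unfold ip0
  rw [arr_smul, Finset.mul_sum, Finset.mul_sum, Finset.mul_sum]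
  exact Finset.sum_congr rfl fun I _ => by rw [Pi.smul_apply, smul_eq_mul]; ring

theorem ip0_comm (a c : Alt n p) : ip0 a c = ip0 c a := by
  unfold ip0
  congr 1
  exact Finset.sum_congr rfl fun I _ => mul_comm _ _

theorem ip0_self_nonneg (a : Alt n p) : 0 ≤ ip0 a a := by
  unfold ip0
  exact mul_nonneg (by positivity) (Finset.sum_nonneg fun I _ => mul_self_nonneg _)

theorem ip0_self_pos {a : Alt n p} (ha : a ≠ 0) : 0 < ip0 a a := by
  unfold ip0
  have h : ∃ I, arr a I ≠ 0 := by
    by_contra hc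
    push_neg at hc
    apply ha
    apply arr_inj
    funext I
    rw [hc I]
    rfl
  obtain ⟨I, hI⟩ := h
  refine mul_pos (by positivity) ?_
  exact lt_of_lt_of_le (mul_self_pos.2 hI) (Finset.single_le_sum
    (f := fun I => arr a I * arr a I) (fun J _ => mul_self_nonneg _) (Finset.mem_univ I))

theorem ip0_pb (A : Matrix (Fin n) (Fin n) ℝ) (a c : Alt n p) :
    ip0 (pb A a) c = ip0 a (pb Aᵀ c) := by
  unfold ip0
  congr 1
  simp only [arr_pb, Finset.sum_mul, Finset.mul_sum]
  rw [Finset.sum_comm]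
  refine Finset.sum_congr rfl fun J _ => Finset.sum_congr rfl fun I _ => ?_
  simp only [Matrix.transpose_apply]
  ring

end BH
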