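import Pool.Agent.Lib.MP_4a593f_gt.BH.IpA

/-!
Row IpB: the inner product `ipG g` of alternating forms for a metric with matrix `g`.
-/

open scoped Manifold ContDiff Topology Matrix

noncomputable section

namespace BH

variable {n p : ℕ}

theorem ip0_add_right (a b c : Alt n p) : ip0 a (b + c) = ip0 a b + ip0 a c := by
  rw [ip0_comm, ip0_add_left, ip0_comm b a, ip0_comm c a]

theorem ip0_smul_right (t : ℝ) (a c : Alt n p) : ip0 a (t • c) = t * ip0 a c := by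
  rw [ip0_comm, ip0_smul_left, ip0_comm c a]

/-- the inner product of `p`-forms for the metric with matrix `g` -/
def ipG (g : Matrix (Fin n) (Fin n) ℝ) (a c : Alt n p) : ℝ := ip0 (pb g⁻¹ a) c

theorem ipG_add_left (g : Matrix (Fin n) (Fin n) ℝ) (a b c : Alt n p) :
    ipG g (a + b) c = ipG g a c + ipG g b c := by
  unfold ipG
  rw [pb_add, ip0_add_left]

theorem ipG_add_right (g : Matrix (Fin n) (Fin n) ℝ) (a b c : Alt n p) :
    ipG g a (b + c) = ipG g a b + ipG g a c := by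
  unfold ipG
  rw [ip0_add_right]

theorem ipG_smul_left (g : Matrix (Fin n) (Fin n) ℝ) (t : ℝ) (a c : Alt n p) :
    ipG g (t • a) c = t * ipG g a c := by
  unfold ipG
  rw [pb_smul, ip0_smul_left]

theorem ipG_smul_right (g : Matrix (Fin n) (Fin n) ℝ) (t : ℝ) (a c : Alt n p) :
    ipG g a (t • c) = t * ipG g a c := by
  unfold ipG
  rw [ip0_smul_right]

theorem ipG_comm {g : Matrix (Fin n) (Fin n) ℝ} (hg : gᵀ = g) (a c : Alt n p) :
    ipG g a c = ipG g c a := by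
  unfold ipG
  rw [ip0_pb, Matrix.transpose_nonsing_inv, hg, ip0_comm]

/-- in a `g`-orthonormal basis (the columns of `u`) -/
theorem ipG_frame {g u : Matrix (Fin n) (Fin n) ℝ} (hu : uᵀ * g * u = 1) (a c : Alt n p) :
    ipG g a c = ip0 (pb u a) (pb u c) := by
  have h1 : u * (uᵀ * g) = 1 := mul_eq_one_comm.1 hu
  have h2 : g⁻¹ = u * uᵀ := Matrix.inv_eq_left_inv (by rw [Matrix.mul_assoc]; exact h1)
  have h3 : ip0 (pb u a) (pb uᵀᵀ c) = ip0 (pb uᵀ (pb u a)) c := (ip0_pb uᵀ (pb u a) c).symm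
  rw [Matrix.transpose_transpose] at h3
  unfold ipG
  rw [h3, pb_pb, h2]

theorem exists_frame {g : Matrix (Fin n) (Fin n) ℝ} (hg : g.PosDef) :
    ∃ u : Matrix (Fin n) (Fin n) ℝ, uᵀ * g * u = 1 := by
  obtain ⟨B, hB'⟩ : ∃ B : Matrix (Fin n) (Fin n) ℝ, g = Bᵀ * B := by
    open scoped MatrixOrder in
    obtain ⟨B, hB⟩ := CStarAlgebra.nonneg_iff_eq_star_mul_self.mp hg.posSemidef.nonneg
    refine ⟨B, hB.trans ?_⟩
    rw [Matrix.star_eq_conjTranspose, Matrix.conjTranspose_eq_transpose_of_trivial]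
  have hdet : IsUnit B.det := by
    have h1 : g.det ≠ 0 := hg.det_pos.ne'
    rw [hB', Matrix.det_mul, Matrix.det_transpose] at h1
    exact isUnit_iff_ne_zero.2 fun h => h1 (by rw [h, mul_zero])
  refine ⟨B⁻¹, ?_⟩
  have h2 : B * B⁻¹ = 1 := Matrix.mul_nonsing_inv B hdet
  calc (B⁻¹)ᵀ * g * B⁻¹ = (B * B⁻¹)ᵀ * (B * B⁻¹) := by
        rw [hB', Matrix.transpose_mul, Matrix.mul_assoc, Matrix.mul_assoc, Matrix.mul_assoc]
    _ = 1 := by rw [h2, Matrix.transpose_one, Matrix.mul_one]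

theorem ipG_self_pos {g : Matrix (Fin n) (Fin n) ℝ} (hg : g.PosDef) {a : Alt n p} (ha : a ≠ 0) :
    0 < ipG g a a := by
  obtain ⟨u, hu⟩ := exists_frame hg
  rw [ipG_frame hu]
  apply ip0_self_pos
  intro h0
  apply ha
  have h1 : u * (uᵀ * g) = 1 := mul_eq_one_comm.1 hu
  have h2 : pb (uᵀ * g) (pb u a) = a := by rw [pb_pb, h1, pb_one]
  rw [← h2, h0]
  ext v
  rfl

theorem ipG_self_nonneg {g : Matrix (Fin n) (Fin n) ℝ} (hg : g.PosDef) (a : Alt n p) :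
    0 ≤ ipG g a a := by
  obtain ⟨u, hu⟩ := exists_frame hg
  rw [ipG_frame hu]
  exact ip0_self_nonneg _

/-- change of basis -/
theorem ipG_pb {g g' J : Matrix (Fin n) (Fin n) ℝ} (hJ : IsUnit J.det) (h : g = Jᵀ * g' * J)
    (a c : Alt n p) : ipG g (pb J a) (pb J c) = ipG g' a c := by
  have hJt : IsUnit Jᵀ.det := by rwa [Matrix.det_transpose]
  have h1 : J * g⁻¹ * Jᵀ = g'⁻¹ := by
    rw [h, Matrix.mul_inv_rev, Matrix.mul_inv_rev]
    calc J * (J⁻¹ * (g'⁻¹ * (Jᵀ)⁻¹)) * Jᵀ = (J * J⁻¹) * g'⁻¹ * ((Jᵀ)⁻¹ * Jᵀ) := by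
          simp only [Matrix.mul_assoc]
      _ = g'⁻¹ := by
          rw [Matrix.mul_nonsing_inv J hJ, Matrix.nonsing_inv_mul Jᵀ hJt, Matrix.one_mul,
            Matrix.mul_one]
  have h3 : ip0 (pb g⁻¹ (pb J a)) (pb Jᵀᵀ c) = ip0 (pb Jᵀ (pb g⁻¹ (pb J a))) c :=
    (ip0_pb Jᵀ (pb g⁻¹ (pb J a)) c).symm
  rw [Matrix.transpose_transpose] at h3
  unfold ipG
  rw [h3, pb_pb, pb_pb, ← Matrix.mul_assoc, h1]

end BH
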