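import Pool.Agent.Lib.MP_4a593f_gt.BH.LNab

/-!
Row LDiv, auxiliary file: derivatives of forms in flat space, integrals of functions with compact
support in an open set.
-/

open scoped Manifold ContDiff Topology Matrix
open MeasureTheory

noncomputable section

namespace BH

variable {n p : ℕ}

/-! ### Derivatives -/

variable (p) in
/-- one component as a continuous linear functional -/
def arrI (I : Fin p → Fin n) : Alt n p →L[ℝ] ℝ :=
  ((LinearMap.proj I : ((Fin p → Fin n) → ℝ) →ₗ[ℝ] ℝ) ∘ₗ arrL n p).toContinuousLinearMap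

theorem arrI_apply (I : Fin p → Fin n) (a : Alt n p) : arrI p I a = arr a I := rfl

/-- linear maps commute with partial derivatives -/
theorem pdF_lin {q : ℕ} (L : Alt n p →ₗ[ℝ] Alt n q) (k : Fin n) {f : E n → Alt n p} {y : E n}
    (hf : DifferentiableAt ℝ f y) : pdF k (fun z => L (f z)) y = L (pdF k f y) := by
  have h := (L.toContinuousLinearMap.hasFDerivAt (x := f y)).comp y hf.hasFDerivAt
  unfold pdF
  have h2 : fderiv ℝ (fun z => L (f z)) y =
      (L.toContinuousLinearMap).comp (fderiv ℝ f y) := h.fderiv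
  rw [h2]
  rfl

theorem smooth_lin {q : ℕ} (L : Alt n p →ₗ[ℝ] Alt n q) {U : Set (E n)} {f : E n → Alt n p}
    (hf : ContDiffOn ℝ ∞ f U) : ContDiffOn ℝ ∞ (fun z => L (f z)) U :=
  L.toContinuousLinearMap.contDiff.comp_contDiffOn hf

theorem smooth_pdF {U : Set (E n)} (hU : IsOpen U) (k : Fin n) {f : E n → Alt n p}
    (hf : ContDiffOn ℝ ∞ f U) : ContDiffOn ℝ ∞ (pdF k f) U := by
  have h1 : ContDiffOn ℝ ∞ (fderiv ℝ f) U := hf.fderiv_of_isOpen hU (by simp)
  exact h1.clm_apply contDiffOn_const

theorem smooth_pd {U : Set (E n)} (hU : IsOpen U) (k : Fin n) {u : E n → ℝ}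
    (hu : ContDiffOn ℝ ∞ u U) : ContDiffOn ℝ ∞ (pd k u) U := by
  have h1 : ContDiffOn ℝ ∞ (fderiv ℝ u) U := hu.fderiv_of_isOpen hU (by simp)
  exact h1.clm_apply contDiffOn_const

/-- product rule for the standard inner product -/
theorem pd_ip0 (k : Fin n) {a c : E n → Alt n p} {y : E n} (ha : DifferentiableAt ℝ a y)
    (hc : DifferentiableAt ℝ c y) :
    pd k (fun z => ip0 (a z) (c z)) y = ip0 (pdF k a y) (c y) + ip0 (a y) (pdF k c y) := by
  have h1 : ∀ (f : E n → Alt n p), DifferentiableAt ℝ f y → ∀ I : Fin p → Fin n,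
      HasFDerivAt (fun z => arr (f z) I) ((arrI p I).comp (fderiv ℝ f y)) y :=
    fun f hf I => (arrI p I).hasFDerivAt.comp y hf.hasFDerivAt
  have h2 : HasFDerivAt (fun z => ip0 (a z) (c z))
      (((p.factorial : ℝ))⁻¹ • ∑ I : Fin p → Fin n,
        (arr (a y) I • (arrI p I).comp (fderiv ℝ c y) +
          arr (c y) I • (arrI p I).comp (fderiv ℝ a y))) y := by
    unfold ip0
    exact (HasFDerivAt.fun_sum fun I _ => (h1 a ha I).mul (h1 c hc I)).const_mul _
  unfold pd
  rw [h2.fderiv]
  simp only [ContinuousLinearMap.smul_apply, ContinuousLinearMap.sum_apply,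
    ContinuousLinearMap.add_apply, ContinuousLinearMap.comp_apply, arrI_apply, smul_eq_mul]
  unfold ip0 pdF
  rw [← mul_add, ← Finset.sum_add_distrib]
  congr 1
  exact Finset.sum_congr rfl fun I _ => by ring

/-- `d = ∑ ε^k ∂_k` -/
theorem ext_flat (f : E n → Alt n p) (y : E n) : extDeriv f y = ∑ k, eps k (pdF k f y) := by
  have h1 : fderiv ℝ f y = ∑ k, (EuclideanSpace.proj k : E n →L[ℝ] ℝ).smulRight (pdF k f y) := by
    ext v : 1
    conv_lhs => rw [vec_expand v, map_sum]
    rw [ContinuousLinearMap.sum_apply]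
    refine Finset.sum_congr rfl fun k _ => ?_
    rw [map_smul]
    rfl
  unfold extDeriv
  rw [h1, ← ContinuousAlternatingMap.alternatizeUncurryFinCLM_apply, map_sum]
  rfl

/-- the divergence of the contraction -/
theorem pd_ip0_iot {a : E n → Alt n p} {q : E n → Alt n (p + 1)} {y : E n}
    (ha : DifferentiableAt ℝ a y) (hq : DifferentiableAt ℝ q y) :
    ∑ k, pd k (fun z => ip0 (a z) (iot k (q z))) y =
      ip0 (extDeriv a y) (q y) + ip0 (a y) (∑ k, iot k (pdF k q y)) := by
  have h1 : ∀ k, pd k (fun z => ip0 (a z) (iot k (q z))) y =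
      ip0 (eps k (pdF k a y)) (q y) + ip0 (a y) (iot k (pdF k q y)) := by
    intro k
    have hd : DifferentiableAt ℝ (fun z => iot k (q z)) y :=
      (iot k).toContinuousLinearMap.differentiableAt.comp y hq
    rw [pd_ip0 k ha hd, pdF_lin (iot k) k hq, ip0_eps]
  simp only [h1, Finset.sum_add_distrib]
  rw [ext_flat]
  congr 1
  · have h2 : ∀ s : Finset (Fin n), ip0 (∑ k ∈ s, eps k (pdF k a y)) (q y) =
        ∑ k ∈ s, ip0 (eps k (pdF k a y)) (q y) := by
      intro s
      classical
      induction s using Finset.induction_on with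
      | empty =>
        have := ip0_smul_left 0 (0 : Alt n (p + 1)) (q y)
        simpa using this
      | insert i s hi ih => rw [Finset.sum_insert hi, Finset.sum_insert hi, ip0_add_left, ih]
    exact (h2 _).symm
  · have h2 : ∀ s : Finset (Fin n), ip0 (a y) (∑ k ∈ s, iot k (pdF k q y)) =
        ∑ k ∈ s, ip0 (a y) (iot k (pdF k q y)) := by
      intro s
      classical
      induction s using Finset.induction_on with
      | empty =>
        have := ip0_smul_right 0 (a y) (0 : Alt n p)
        simpa using this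
      | insert i s hi ih => rw [Finset.sum_insert hi, Finset.sum_insert hi, ip0_add_right, ih]
    exact (h2 _).symm

/-! ### Functions with compact support in an open set -/

/-- a function continuous on `U` which vanishes outside a compact subset is integrable -/
theorem integrableOn_cpt {F : Type*} [NormedAddCommGroup F] {U K : Set (E n)} (hU : IsOpen U)
    (hK : IsCompact K) (hKU : K ⊆ U) {u : E n → F} (hu : ContinuousOn u U)
    (h0 : ∀ y ∈ U, y ∉ K → u y = 0) : IntegrableOn u U :=
  IntegrableOn.of_forall_diff_eq_zero ((hu.mono hKU).integrableOn_compact hK)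
    hU.measurableSet fun y hy => h0 y hy.1 hy.2

/-- divergence theorem: a smooth function with compact support in `U` -/
theorem int_pd {U : Set (E n)} (hU : IsOpen U) (k : Fin n) {u : E n → ℝ} (hu : ContDiffOn ℝ ∞ u U)
    {K : Set (E n)} (hK : IsCompact K) (hKU : K ⊆ U) (h0 : ∀ y ∈ U, y ∉ K → u y = 0) :
    ∫ y in U, pd k u y = 0 := by
  classical
  set w : E n → ℝ := U.indicator u with hw
  have hoff : ∀ y, y ∉ K → w y = 0 := by
    intro y hy
    by_cases hyU : y ∈ U
    · rw [hw, Set.indicator_of_mem hyU, h0 y hyU hy]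
    · rw [hw, Set.indicator_of_notMem hyU]
  have hwc : ContDiff ℝ ∞ w := by
    rw [contDiff_iff_contDiffAt]
    intro y
    by_cases hyK : y ∈ K
    · have h1 : ContDiffAt ℝ ∞ u y := hu.contDiffAt (hU.mem_nhds (hKU hyK))
      refine h1.congr_of_eventuallyEq ?_
      filter_upwards [hU.mem_nhds (hKU hyK)] with z hz
      rw [hw, Set.indicator_of_mem hz]
    · have h1 : ContDiffAt ℝ ∞ (fun _ : E n => (0 : ℝ)) y := contDiffAt_const
      refine h1.congr_of_eventuallyEq ?_
      filter_upwards [hK.isClosed.isOpen_compl.mem_nhds hyK] with z hz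
      exact hoff z hz
  have hsupp : HasCompactSupport w := HasCompactSupport.intro hK hoff
  have hd0 : ∀ y, y ∉ K → fderiv ℝ w y = 0 := by
    intro y hy
    have h1 : w =ᶠ[𝓝 y] fun _ => (0 : ℝ) := by
      filter_upwards [hK.isClosed.isOpen_compl.mem_nhds hy] with z hz
      exact hoff z hz
    rw [h1.fderiv_eq, fderiv_fun_const]
    rfl
  have hI : ∫ y, fderiv ℝ w y (bv k) = 0 := by
    have h1 := integral_mul_fderiv_eq_neg_fderiv_mul_of_integrable (μ := (volume : Measure (E n)))
      (f := fun _ : E n => (1 : ℝ)) (g := w) (v := bv k) ?_ ?_ ?_ ?_ ?_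
    · simpa using h1
    · simp
    · simp only [one_mul]
      have hc : Continuous fun y => fderiv ℝ w y (bv k) :=
        (hwc.continuous_fderiv (by simp)).clm_apply continuous_const
      exact hc.integrable_of_hasCompactSupport
        (HasCompactSupport.intro hK fun y hy => by rw [hd0 y hy]; rfl)
    · simp only [one_mul]
      exact hwc.continuous.integrable_of_hasCompactSupport hsupp
    · intro x _
      exact differentiableAt_const _
    · intro x _
      exact (hwc.differentiable (by simp)) x
  have h2 : ∫ y in U, pd k u y = ∫ y in U, fderiv ℝ w y (bv k) := by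
    refine setIntegral_congr_fun hU.measurableSet fun y hy => ?_
    have h3 : u =ᶠ[𝓝 y] w := by
      filter_upwards [hU.mem_nhds hy] with z hz
      rw [hw, Set.indicator_of_mem hz]
    simp only [pd]
    rw [h3.fderiv_eq]
  rw [h2, setIntegral_eq_integral_of_forall_compl_eq_zero, hI]
  intro y hy
  rw [hd0 y fun h => hy (hKU h)]
  rfl

end BH
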