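import Pool.Agent.Lib.MP_4a593f_gt.BH.LNabB

/-!
Row LNab: the covariant derivative of forms on an open set of `ℝⁿ`, second half.
-/

open scoped Manifold ContDiff Topology Matrix

noncomputable section

namespace BH

variable {n p : ℕ} {U : Set (E n)} {G : Fin n → Fin n → E n → ℝ}

/-- product rule for functions -/
theorem nab_smul (hU : IsOpen U) (k : Fin n) {χ : E n → ℝ} (hχ : ContDiffOn ℝ ∞ χ U)
    {f : E n → Alt n p} (hf : ContDiffOn ℝ ∞ f U) {y : E n} (hy : y ∈ U) :
    nab G k (fun z => χ z • f z) y = χ y • nab G k f y + pd k χ y • f y := by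
  unfold nab
  rw [lnb_pdF_smul k (lnb_smul_at hU hχ hy) (lnb_smul_at hU hf hy), map_smul, smul_add]
  abel

theorem lnb_pd_ip0 (k : Fin n) {q h : E n → Alt n p} {y : E n} (hq : DifferentiableAt ℝ q y)
    (hh : DifferentiableAt ℝ h y) :
    pd k (fun z => ip0 (q z) (h z)) y = ip0 (pdF k q y) (h y) + ip0 (q y) (pdF k h y) := by
  have h1 : ∀ I : Fin p → Fin n, HasFDerivAt (fun z => arr (q z) I * arr (h z) I)
      (arr (q y) I • fderiv ℝ (fun z => arr (h z) I) y +
        arr (h y) I • fderiv ℝ (fun z => arr (q z) I) y) y := fun I =>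
    (lnb_arr_diff hq I).hasFDerivAt.mul (lnb_arr_diff hh I).hasFDerivAt
  have h2 : HasFDerivAt (fun z => ip0 (q z) (h z)) _ y :=
    (HasFDerivAt.fun_sum (u := Finset.univ) fun I _ => h1 I).const_mul ((p.factorial : ℝ))⁻¹
  unfold pd
  rw [h2.fderiv]
  unfold ip0
  rw [← mul_add, ← Finset.sum_add_distrib]
  simp only [ContinuousLinearMap.smul_apply, ContinuousLinearMap.sum_apply,
    ContinuousLinearMap.add_apply, smul_eq_mul]
  congr 1
  refine Finset.sum_congr rfl fun I _ => ?_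
  rw [lnb_arr_pdF k hq, lnb_arr_pdF k hh]
  unfold pd
  ring

/-- `∂_k (pb g⁻¹ f) = pb g⁻¹ (∇_k f) + act(Γ_kᵀ)(pb g⁻¹ f)` -/
theorem lnb_raise (hU : IsOpen U) (hG : IsMet U G) (k : Fin n) {f : E n → Alt n p}
    (hf : ContDiffOn ℝ ∞ f U) {y : E n} (hy : y ∈ U) :
    pdF k (fun z => pb (gmat G z)⁻¹ (f z)) y =
      pb (gmat G y)⁻¹ (nab G k f y) + act (gam G k y)ᵀ (pb (gmat G y)⁻¹ (f y)) := by
  have hdet : IsUnit (gmat G y).det := isUnit_iff_ne_zero.2 (hG.pos y hy).det_pos.ne'
  have hgB : gmat G y * (gmat G y)⁻¹ = 1 := Matrix.mul_nonsing_inv _ hdet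
  have hBg : (gmat G y)⁻¹ * gmat G y = 1 := Matrix.nonsing_inv_mul _ hdet
  have hdB : IsUnit ((gmat G y)⁻¹).det := Matrix.isUnit_nonsing_inv_det _ hdet
  have hfy := lnb_smul_at hU hf hy
  have h1 : (fun z => pb (gmat G z)⁻¹ (f z)) =
      fun z => pb (gmat G y * (gmat G z)⁻¹) (pbL (gmat G y)⁻¹ (f z)) := by
    funext z
    change _ = pb _ (pb _ _)
    rw [pb_pb, ← Matrix.mul_assoc, hBg, Matrix.one_mul]
  have hB : ∀ i j, DifferentiableAt ℝ (fun z => (gmat G z)⁻¹ i j) y := fun i j =>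
    lnb_smul_at hU (hG.inv_smooth i j) hy
  have hC : ∀ l i, HasFDerivAt (fun z => (gmat G y * (gmat G z)⁻¹) l i)
      (∑ j, G l j y • fderiv ℝ (fun z => (gmat G z)⁻¹ j i) y) y := fun l i => by
    simp only [Matrix.mul_apply]
    exact HasFDerivAt.fun_sum fun j _ => (hB j i).hasFDerivAt.const_mul _
  have h2 := lnb_pdF_pb1 k (C := fun z => gmat G y * (gmat G z)⁻¹)
    (h := fun z => pbL (gmat G y)⁻¹ (f z)) (fun l i => (hC l i).differentiableAt) hgB
    (lnb_lin _ hfy).differentiableAt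
  have h3 : (Matrix.of fun l i => pd k (fun z => (gmat G y * (gmat G z)⁻¹) l i) y) =
      -(gmat G y * gam G k y * (gmat G y)⁻¹ + (gam G k y)ᵀ) := by
    have h4 : (Matrix.of fun l i => pd k (fun z => (gmat G y * (gmat G z)⁻¹) l i) y) =
        gmat G y * -(gam G k y * (gmat G y)⁻¹ + (gmat G y)⁻¹ * (gam G k y)ᵀ) := by
      ext l i
      rw [Matrix.of_apply, Matrix.mul_apply]
      have h5 : pd k (fun z => (gmat G y * (gmat G z)⁻¹) l i) y =
          ∑ j, G l j y * pd k (fun z => (gmat G z)⁻¹ j i) y := by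
        unfold pd
        rw [(hC l i).fderiv]
        simp
      rw [h5]
      refine Finset.sum_congr rfl fun j _ => ?_
      rw [pd_inv hU hG k j i hy]
      simp only [Matrix.neg_apply, Matrix.add_apply, Matrix.mul_apply, Matrix.transpose_apply,
        gam, Matrix.of_apply, Finset.sum_add_distrib]
      congr 3
      refine Finset.sum_congr rfl fun l _ => mul_comm _ _
    rw [h4, Matrix.mul_neg, Matrix.mul_add, ← Matrix.mul_assoc, ← Matrix.mul_assoc, hgB,
      Matrix.one_mul]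
  have hneg : ∀ (A : Matrix (Fin n) (Fin n) ℝ) (a : Alt n p), act (-A) a = -act A a :=
    fun A a => by
      have h6 := act_smul (-1 : ℝ) A a
      rwa [neg_one_smul ℝ A, neg_one_smul ℝ (act A a)] at h6
  rw [h1, h2.2, h3, hneg, sub_neg_eq_add, act_add, lnb_pdF_lin _ k hfy]
  change pb (gmat G y)⁻¹ (pdF k f y) + (act _ (pb (gmat G y)⁻¹ (f y)) +
    act _ (pb (gmat G y)⁻¹ (f y))) = _
  rw [act_pb _ _ hdB]
  have h7 : (gmat G y)⁻¹ * (gmat G y * gam G k y * (gmat G y)⁻¹) * ((gmat G y)⁻¹)⁻¹ =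
      gam G k y := by
    rw [Matrix.nonsing_inv_nonsing_inv _ hdet]
    calc (gmat G y)⁻¹ * (gmat G y * gam G k y * (gmat G y)⁻¹) * gmat G y =
        ((gmat G y)⁻¹ * gmat G y) * gam G k y * ((gmat G y)⁻¹ * gmat G y) := by
          simp only [Matrix.mul_assoc]
      _ = gam G k y := by rw [hBg, Matrix.one_mul, Matrix.mul_one]
  rw [h7, ← add_assoc, ← pb_add]
  rfl

/-- `∂_k ⟨f,h⟩ = ⟨∇_k f,h⟩ + ⟨f,∇_k h⟩` -/
theorem pd_ipG (hU : IsOpen U) (hG : IsMet U G) (k : Fin n) {f h : E n → Alt n p}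
    (hf : ContDiffOn ℝ ∞ f U) (hh : ContDiffOn ℝ ∞ h U) {y : E n} (hy : y ∈ U) :
    pd k (fun z => ipG (gmat G z) (f z) (h z)) y =
      ipG (gmat G y) (nab G k f y) (h y) + ipG (gmat G y) (f y) (nab G k h y) := by
  unfold ipG
  have h1 : DifferentiableAt ℝ (fun z => pb (gmat G z)⁻¹ (f z)) y :=
    lnb_smul_at hU (smooth_pb (A := fun z => (gmat G z)⁻¹) hG.inv_smooth hf) hy
  rw [lnb_pd_ip0 k h1 (lnb_smul_at hU hh hy), lnb_raise hU hG k hf hy, ip0_add_left, ip0_act,
    Matrix.transpose_transpose]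
  unfold nab
  rw [ip0_add_right]
  ring

/-- `d = ∑ ε^k ∇_k` (no torsion) -/
theorem ext_nab (hU : IsOpen U) (hG : IsMet U G) {f : E n → Alt n p}
    (hf : ContDiffOn ℝ ∞ f U) {y : E n} (hy : y ∈ U) :
    extDeriv f y = ∑ k, eps k (nab G k f y) := by
  unfold nab
  simp only [map_add, Finset.sum_add_distrib]
  rw [lnb_ext f y, left_eq_add]
  cases p with
  | zero => simp [act]
  | succ p =>
    have h1 : ∀ k, eps k (act (gam G k y) (f y)) =
        -∑ l, ∑ i, chr G l k i y • eps k (eps i (iot l (f y))) := fun k => by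
      simp only [act, LinearMap.neg_apply, LinearMap.sum_apply, LinearMap.smul_apply, map_neg,
        map_sum, map_smul, LinearMap.comp_apply, gam, Matrix.of_apply]
      rw [Finset.sum_comm]
    rw [Finset.sum_congr rfl fun k _ => h1 k, Finset.sum_neg_distrib, Finset.sum_comm,
      neg_eq_zero]
    refine Finset.sum_eq_zero fun l _ => ?_
    exact lnb_symm_eps (fun k i => chr G l k i y) (fun i j => chr_symm hU hG l i j hy) _

theorem lnb_pdF_smooth (hU : IsOpen U) (j : Fin n) {f : E n → Alt n p}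
    (hf : ContDiffOn ℝ ∞ f U) : ContDiffOn ℝ ∞ (pdF j f) U :=
  (hf.fderiv_of_isOpen hU (by simp)).clm_apply contDiffOn_const

theorem lnb_pdF_comm (hU : IsOpen U) (k j : Fin n) {f : E n → Alt n p}
    (hf : ContDiffOn ℝ ∞ f U) {y : E n} (hy : y ∈ U) :
    pdF k (pdF j f) y = pdF j (pdF k f) y := by
  have h1 : DifferentiableAt ℝ (fderiv ℝ f) y :=
    lnb_smul_at hU (hf.fderiv_of_isOpen hU (by simp)) hy
  have h2 : ∀ a c : Fin n, pdF a (pdF c f) y = fderiv ℝ (fderiv ℝ f) y (bv a) (bv c) :=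
    fun a c => by
      change fderiv ℝ (fun z => fderiv ℝ f z (bv c)) y (bv a) = _
      rw [fderiv_clm_apply h1 (differentiableAt_const _)]
      simp
  rw [h2, h2]
  have h4 : IsSymmSndFDerivAt ℝ f y :=
    (hf.contDiffAt (hU.mem_nhds hy)).isSymmSndFDerivAt (by
      simp only [minSmoothness_of_isRCLikeNormedField]
      exact WithTop.coe_le_coe.2 (le_top (a := (2 : ℕ∞))))
  exact h4 _ _

/-- Ricci identity -/
theorem nab_nab (hU : IsOpen U) (hG : IsMet U G) (k j : Fin n) {f : E n → Alt n p}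
    (hf : ContDiffOn ℝ ∞ f U) {y : E n} (hy : y ∈ U) :
    nab G k (nab G j f) y - nab G j (nab G k f) y = act (rmat G k j y) (f y) := by
  have hfy := lnb_smul_at hU hf hy
  have h1 : ∀ a c : Fin n, nab G a (nab G c f) y = pdF a (pdF c f) y +
      act (Matrix.of fun l i => pd a (chr G l c i) y) (f y) + act (gam G c y) (pdF a f y) +
      (act (gam G a y) (pdF c f y) + act (gam G a y) (act (gam G c y) (f y))) := fun a c => by
    have h2 := lnb_pdF_act a (A := gam G c) (f := f) (y := y)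
      (fun l i => lnb_smul_at hU (chr_smooth hU hG l c i) hy) hfy
    have h3 : pdF a (nab G c f) y = pdF a (pdF c f) y + pdF a (fun z => act (gam G c z) (f z)) y :=
      lnb_pdF_add a (lnb_smul_at hU (lnb_pdF_smooth hU c hf) hy) h2.1
    change pdF a (nab G c f) y + act (gam G a y) (nab G c f y) = _
    have h5 : (Matrix.of fun l i => pd a (fun z => gam G c z l i) y) =
        Matrix.of fun l i => pd a (chr G l c i) y := rfl
    rw [h3, h2.2, h5]
    unfold nab
    rw [map_add]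
    abel
  have h4 : rmat G k j y = (Matrix.of fun l i => pd k (chr G l j i) y) +
      (-1 : ℝ) • (Matrix.of fun l i => pd j (chr G l k i) y) +
      (gam G k y * gam G j y - gam G j y * gam G k y) := by
    ext l i
    simp only [rmat, gam, Matrix.of_apply, Matrix.add_apply, Matrix.sub_apply,
      Matrix.smul_apply, Matrix.mul_apply, Finset.sum_sub_distrib, smul_eq_mul]
    ring
  rw [h1, h1, h4, act_add, act_add, act_smul, ← act_act, lnb_pdF_comm hU k j hf hy,
    neg_one_smul ℝ (act (Matrix.of fun l i => pd j (chr G l k i) y) (f y))]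
  abel

/-- `∇_k ε^j = ε^j ∇_k - Γ^j_kl ε^l` -/
theorem nab_eps (hU : IsOpen U) (k j : Fin n) {f : E n → Alt n p}
    (hf : ContDiffOn ℝ ∞ f U) {y : E n} (hy : y ∈ U) :
    nab G k (fun z => eps j (f z)) y =
      eps j (nab G k f y) - ∑ l, chr G j k l y • eps l (f y) := by
  unfold nab
  rw [lnb_pdF_lin (eps j) k (lnb_smul_at hU hf hy), act_eps, map_add, add_sub_assoc]
  rfl

/-- `∇_k ι^j = ι^j ∇_k - Γ^j_kl ι^l` -/
theorem nab_iou (hU : IsOpen U) (hG : IsMet U G) (k j : Fin n) {f : E n → Alt n (p + 1)}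
    (hf : ContDiffOn ℝ ∞ f U) {y : E n} (hy : y ∈ U) :
    nab G k (fun z => iou (gmat G z) j (f z)) y =
      iou (gmat G y) j (nab G k f y) - ∑ l, chr G j k l y • iou (gmat G y) l (f y) := by
  have hfy := lnb_smul_at hU hf hy
  have hB : ∀ i j, DifferentiableAt ℝ (fun z => (gmat G z)⁻¹ i j) y := fun i j =>
    lnb_smul_at hU (hG.inv_smooth i j) hy
  have h1 : ∀ (z : E n) (i : Fin n) (a : Alt n (p + 1)),
      iou (gmat G z) i a = ∑ m, (gmat G z)⁻¹ i m • iot m a := fun z i a => by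
    simp [iou]
  have h2 : pdF k (fun z => iou (gmat G z) j (f z)) y =
      ∑ m, ((gmat G y)⁻¹ j m • iot m (pdF k f y) +
        pd k (fun z => (gmat G z)⁻¹ j m) y • iot m (f y)) := by
    simp only [h1]
    rw [lnb_pdF_sum k Finset.univ (f := fun m z => (gmat G z)⁻¹ j m • iot m (f z)) fun m _ =>
      (hB j m).smul (lnb_lin (iot m) hfy).differentiableAt]
    refine Finset.sum_congr rfl fun m _ => ?_
    rw [lnb_pdF_smul k (hB j m) (lnb_lin (iot m) hfy).differentiableAt,
      lnb_pdF_lin (iot m) k hfy]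
  have h3 : act (gam G k y) (iou (gmat G y) j (f y)) =
      iou (gmat G y) j (act (gam G k y) (f y)) +
        ∑ m, ∑ l, ((gmat G y)⁻¹ j m * chr G l k m y) • iot l (f y) := by
    rw [h1, h1, map_sum, ← Finset.sum_add_distrib]
    refine Finset.sum_congr rfl fun m _ => ?_
    rw [map_smul, act_iot, smul_add, Finset.smul_sum]
    congr 1
    refine Finset.sum_congr rfl fun l _ => ?_
    rw [smul_smul]
    rfl
  have h4 : ∑ m, pd k (fun z => (gmat G z)⁻¹ j m) y • iot m (f y) =
      -(∑ l, chr G j k l y • iou (gmat G y) l (f y)) -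
        ∑ m, ∑ l, ((gmat G y)⁻¹ j m * chr G l k m y) • iot l (f y) := by
    simp only [h1, pd_inv hU hG k j _ hy, Finset.smul_sum, smul_smul, Finset.sum_add_distrib,
      neg_add, add_smul, Finset.sum_smul, neg_smul, Finset.sum_neg_distrib]
    rw [sub_eq_add_neg]
    congr 1
    · rw [Finset.sum_comm]
    · rw [Finset.sum_comm]
      congr 1
      refine Finset.sum_congr rfl fun m _ => Finset.sum_congr rfl fun l _ => ?_
      rw [mul_comm]
  unfold nab
  rw [h2, Finset.sum_add_distrib, ← h1 y j (pdF k f y), h4, h3, map_add]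
  abel

end BH
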