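import Pool.Agent.Lib.MP_4a593f_gt.BH.LOpB

/-!
Row LNab, first half: Christoffel symbols, metric compatibility, Jacobi's formula.
-/

open scoped Manifold ContDiff Topology Matrix

noncomputable section

namespace BH

variable {n p : ℕ}

/-- the matrix `Γ_k` with entries `(l,i) ↦ Γ^l_ki` -/
def gam (G : Fin n → Fin n → E n → ℝ) (k : Fin n) (y : E n) : Matrix (Fin n) (Fin n) ℝ :=
  Matrix.of fun l i => chr G l k i y

/-- partial derivatives of a form -/
def pdF (k : Fin n) (f : E n → Alt n p) (y : E n) : Alt n p := fderiv ℝ f y (bv k)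

/-- covariant derivative -/
def nab (G : Fin n → Fin n → E n → ℝ) (k : Fin n) (f : E n → Alt n p) (y : E n) : Alt n p :=
  pdF k f y + act (gam G k y) (f y)

/-- the matrix of `R(∂_k,∂_j)` -/
def rmat (G : Fin n → Fin n → E n → ℝ) (k j : Fin n) (y : E n) : Matrix (Fin n) (Fin n) ℝ :=
  Matrix.of fun l i => pd k (chr G l j i) y - pd j (chr G l k i) y +
    ∑ a, (chr G l k a y * chr G a j i y - chr G l j a y * chr G a k i y)

theorem riem_eq (G : Fin n → Fin n → E n → ℝ) (i j k l : Fin n) (y : E n) :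
    riem G i j k l y = ∑ m, G k m y * rmat G i j y m l := rfl

/-! ### Partial derivatives -/

theorem naSmoothPd {U : Set (E n)} (hU : IsOpen U) {u : E n → ℝ} (hu : ContDiffOn ℝ ∞ u U)
    (k : Fin n) : ContDiffOn ℝ ∞ (pd k u) U := by
  have h := hu.fderiv_of_isOpen (m := ∞) hU (by simp)
  exact h.clm_apply contDiffOn_const

theorem naSmoothPdF {U : Set (E n)} (hU : IsOpen U) {f : E n → Alt n p}
    (hf : ContDiffOn ℝ ∞ f U) (k : Fin n) : ContDiffOn ℝ ∞ (pdF k f) U := by
  have h := hf.fderiv_of_isOpen (m := ∞) hU (by simp)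
  exact h.clm_apply contDiffOn_const

theorem naDiff {F : Type*} [NormedAddCommGroup F] [NormedSpace ℝ F] {U : Set (E n)}
    (hU : IsOpen U) {u : E n → F} (hu : ContDiffOn ℝ ∞ u U) {y : E n} (hy : y ∈ U) :
    DifferentiableAt ℝ u y :=
  (hu.contDiffAt (hU.mem_nhds hy)).differentiableAt (by simp)

theorem naPdCongr {U : Set (E n)} (hU : IsOpen U) {u v : E n → ℝ} (h : ∀ z ∈ U, u z = v z)
    (k : Fin n) {y : E n} (hy : y ∈ U) : pd k u y = pd k v y := by
  have h1 : u =ᶠ[𝓝 y] v := by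
    filter_upwards [hU.mem_nhds hy] with z hz using h z hz
  unfold pd
  rw [h1.fderiv_eq]

theorem naPdFCongr {U : Set (E n)} (hU : IsOpen U) {u v : E n → Alt n p}
    (h : ∀ z ∈ U, u z = v z) (k : Fin n) {y : E n} (hy : y ∈ U) : pdF k u y = pdF k v y := by
  have h1 : u =ᶠ[𝓝 y] v := by
    filter_upwards [hU.mem_nhds hy] with z hz using h z hz
  unfold pdF
  rw [h1.fderiv_eq]

theorem naPdMul {u v : E n → ℝ} {y : E n} (hu : DifferentiableAt ℝ u y)
    (hv : DifferentiableAt ℝ v y) (k : Fin n) :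
    pd k (fun z => u z * v z) y = pd k u y * v y + u y * pd k v y := by
  unfold pd
  rw [fderiv_fun_mul hu hv]
  simp only [ContinuousLinearMap.add_apply, ContinuousLinearMap.smul_apply, smul_eq_mul]
  ring

theorem naPdSum {ι : Type*} (s : Finset ι) {u : ι → E n → ℝ} {y : E n}
    (hu : ∀ i ∈ s, DifferentiableAt ℝ (u i) y) (k : Fin n) :
    pd k (fun z => ∑ i ∈ s, u i z) y = ∑ i ∈ s, pd k (u i) y := by
  unfold pd
  rw [fderiv_fun_sum hu, ContinuousLinearMap.sum_apply]

theorem naPdConst (c : ℝ) (k : Fin n) (y : E n) : pd k (fun _ => c) y = 0 := by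
  unfold pd
  simp

/-! ### Matrices -/

theorem IsMet.ggi {U : Set (E n)} {G : Fin n → Fin n → E n → ℝ} (hG : IsMet U G) {y : E n}
    (hy : y ∈ U) (i j : Fin n) :
    ∑ l, (gmat G y)⁻¹ i l * G l j y = if i = j then 1 else 0 := by
  have h : (gmat G y)⁻¹ * gmat G y = 1 :=
    Matrix.nonsing_inv_mul _ (isUnit_iff_ne_zero.2 (hG.pos y hy).det_pos.ne')
  have h2 := congrFun (congrFun h i) j
  rw [Matrix.mul_apply, Matrix.one_apply] at h2
  exact h2

theorem IsMet.igg {U : Set (E n)} {G : Fin n → Fin n → E n → ℝ} (hG : IsMet U G) {y : E n}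
    (hy : y ∈ U) (i j : Fin n) :
    ∑ l, G i l y * (gmat G y)⁻¹ l j = if i = j then 1 else 0 := by
  have h : gmat G y * (gmat G y)⁻¹ = 1 :=
    Matrix.mul_nonsing_inv _ (isUnit_iff_ne_zero.2 (hG.pos y hy).det_pos.ne')
  have h2 := congrFun (congrFun h i) j
  rw [Matrix.mul_apply, Matrix.one_apply] at h2
  exact h2

theorem IsMet.gsymm {U : Set (E n)} {G : Fin n → Fin n → E n → ℝ} (hG : IsMet U G) {y : E n}
    (hy : y ∈ U) : (gmat G y)ᵀ = gmat G y := by
  ext i j
  exact hG.symm j i y hy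

theorem IsMet.isymm {U : Set (E n)} {G : Fin n → Fin n → E n → ℝ} (hG : IsMet U G) {y : E n}
    (hy : y ∈ U) (i j : Fin n) : (gmat G y)⁻¹ i j = (gmat G y)⁻¹ j i := by
  have h : ((gmat G y)⁻¹)ᵀ = (gmat G y)⁻¹ := by
    rw [Matrix.transpose_nonsing_inv, hG.gsymm hy]
  exact (congrFun (congrFun h i) j).symm

/-- Jacobi's formula -/
theorem hasFDerivAt_det {F : Type*} [NormedAddCommGroup F] [NormedSpace ℝ F]
    {A : F → Matrix (Fin n) (Fin n) ℝ} {A' : Fin n → Fin n → F →L[ℝ] ℝ} {y : F}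
    (hA : ∀ i j, HasFDerivAt (fun z => A z i j) (A' i j) y) :
    HasFDerivAt (fun z => (A z).det) (∑ j, ∑ i, (A y).adjugate j i • A' i j) y := by
  have h1 : (fun z => (A z).det) = fun z => ∑ σ : Equiv.Perm (Fin n),
      ((Equiv.Perm.sign σ : ℤ) : ℝ) * ∏ i, A z (σ i) i := by
    funext z
    exact Matrix.det_apply' _
  rw [h1]
  have h2 : HasFDerivAt (fun z => ∑ σ : Equiv.Perm (Fin n),
      ((Equiv.Perm.sign σ : ℤ) : ℝ) * ∏ i, A z (σ i) i)
      (∑ σ : Equiv.Perm (Fin n), ((Equiv.Perm.sign σ : ℤ) : ℝ) •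
        ∑ j, (∏ i ∈ Finset.univ.erase j, A y (σ i) i) • A' (σ j) j) y := by
    refine HasFDerivAt.fun_sum fun σ _ => ?_
    exact (HasFDerivAt.finsetProd fun j _ => hA (σ j) j).const_mul _
  refine h2.congr_fderiv ?_
  ext v
  have h3 : ∀ j, ∑ i, (A y).adjugate j i * A' i j v =
      ∑ σ : Equiv.Perm (Fin n), ((Equiv.Perm.sign σ : ℤ) : ℝ) *
        ((∏ i ∈ Finset.univ.erase j, A y (σ i) i) * A' (σ j) j v) := by
    intro j
    have h4 : ∑ i, (A y).adjugate j i * A' i j v =
        ((A y).updateCol j fun i => A' i j v).det := by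
      rw [← Matrix.cramer_apply, Matrix.cramer_eq_adjugate_mulVec]
      rfl
    rw [h4, Matrix.det_apply']
    refine Finset.sum_congr rfl fun σ _ => ?_
    congr 1
    rw [← Finset.mul_prod_erase Finset.univ _ (Finset.mem_univ j), Matrix.updateCol_self,
      mul_comm]
    congr 1
    refine Finset.prod_congr rfl fun i hi => ?_
    rw [Matrix.updateCol_ne (Finset.ne_of_mem_erase hi)]
  simp only [ContinuousLinearMap.sum_apply, ContinuousLinearMap.smul_apply, smul_eq_mul, h3,
    Finset.mul_sum]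
  rw [Finset.sum_comm]

variable {U : Set (E n)} {G : Fin n → Fin n → E n → ℝ}

theorem naGsymm (hU : IsOpen U) (hG : IsMet U G) (k i j : Fin n) {y : E n} (hy : y ∈ U) :
    pd k (G i j) y = pd k (G j i) y := naPdCongr hU (hG.symm i j) k hy

theorem chr_symm (hU : IsOpen U) (hG : IsMet U G) (k i j : Fin n) {y : E n} (hy : y ∈ U) :
    chr G k i j y = chr G k j i y := by
  unfold chr
  congr 1
  refine Finset.sum_congr rfl fun l _ => ?_
  rw [naGsymm hU hG l i j hy]
  ring

theorem chr_smooth (hU : IsOpen U) (hG : IsMet U G) (k i j : Fin n) :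
    ContDiffOn ℝ ∞ (chr G k i j) U := by
  unfold chr
  refine contDiffOn_const.mul (ContDiffOn.sum fun l _ => ?_)
  exact (hG.inv_smooth k l).mul (((naSmoothPd hU (hG.smooth j l) i).add
    (naSmoothPd hU (hG.smooth i l) j)).sub (naSmoothPd hU (hG.smooth i j) l))

/-- the derivation action is smooth -/
theorem naSmoothAct {A : E n → Matrix (Fin n) (Fin n) ℝ}
    (hA : ∀ i j, ContDiffOn ℝ ∞ (fun y => A y i j) U) {f : E n → Alt n p}
    (hf : ContDiffOn ℝ ∞ f U) : ContDiffOn ℝ ∞ (fun y => act (A y) (f y)) U := by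
  rw [contDiffOn_arr] at hf ⊢
  intro I
  simp only [arr_act]
  exact (ContDiffOn.sum fun s _ => ContDiffOn.sum fun l _ => (hA l (I s)).mul (hf _)).neg

theorem nab_smooth (hU : IsOpen U) (hG : IsMet U G) (k : Fin n) {f : E n → Alt n p}
    (hf : ContDiffOn ℝ ∞ f U) : ContDiffOn ℝ ∞ (nab G k f) U :=
  (naSmoothPdF hU hf k).add (naSmoothAct (A := gam G k) (fun i j => chr_smooth hU hG i k j) hf)

/-- the Christoffel symbols of the first kind -/
theorem chr_low (hG : IsMet U G) (k i j : Fin n) {y : E n} (hy : y ∈ U) :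
    ∑ l, chr G l k i y * G l j y =
      (1 / 2) * (pd k (G i j) y + pd i (G k j) y - pd j (G k i) y) := by
  unfold chr
  have h1 : ∀ l, 1 / 2 * (∑ m, (gmat G y)⁻¹ l m *
      (pd k (G i m) y + pd i (G k m) y - pd m (G k i) y)) * G l j y =
      1 / 2 * ∑ m, (pd k (G i m) y + pd i (G k m) y - pd m (G k i) y) *
        ((gmat G y)⁻¹ m l * G l j y) := by
    intro l
    rw [mul_assoc, Finset.sum_mul]
    congr 1
    refine Finset.sum_congr rfl fun m _ => ?_
    rw [hG.isymm hy l m]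
    ring
  simp only [h1]
  rw [← Finset.mul_sum, Finset.sum_comm]
  congr 1
  simp only [← Finset.mul_sum, hG.ggi hy, mul_ite, mul_one, mul_zero, Finset.sum_ite_eq',
    Finset.mem_univ, if_true]

/-- `∇g = 0` -/
theorem pd_metric (hU : IsOpen U) (hG : IsMet U G) (k i j : Fin n) {y : E n} (hy : y ∈ U) :
    pd k (G i j) y = ∑ l, (chr G l k i y * G l j y + chr G l k j y * G i l y) := by
  have h1 : ∀ l, chr G l k j y * G i l y = chr G l k j y * G l i y := by
    intro l
    rw [hG.symm i l y hy]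
  simp only [h1, Finset.sum_add_distrib, chr_low hG _ _ _ hy]
  rw [naGsymm hU hG k j i hy]
  ring

theorem pd_inv (hU : IsOpen U) (hG : IsMet U G) (k i j : Fin n) {y : E n} (hy : y ∈ U) :
    pd k (fun z => (gmat G z)⁻¹ i j) y =
      -∑ l, (chr G i k l y * (gmat G y)⁻¹ l j + chr G j k l y * (gmat G y)⁻¹ i l) := by
  -- differentiate `∑_l g^il g_lm = δ`
  have h1 : ∀ m, ∑ l, pd k (fun z => (gmat G z)⁻¹ i l) y * G l m y =
      -∑ l, (gmat G y)⁻¹ i l * pd k (G l m) y := by
    intro m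
    have h2 : pd k (fun z => ∑ l, (gmat G z)⁻¹ i l * G l m z) y = 0 := by
      rw [naPdCongr hU (v := fun _ => if i = m then 1 else 0) (fun z hz => hG.ggi hz i m) k hy,
        naPdConst]
    rw [naPdSum _ (fun l _ => (naDiff hU (hG.inv_smooth i l) hy).fun_mul
      (naDiff hU (hG.smooth l m) hy))] at h2
    simp only [fun l => naPdMul (naDiff hU (hG.inv_smooth i l) hy)
      (naDiff hU (hG.smooth l m) hy) k, Finset.sum_add_distrib] at h2
    linarith
  -- multiply by `g^mj`
  have h3 : pd k (fun z => (gmat G z)⁻¹ i j) y =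
      ∑ m, (∑ l, pd k (fun z => (gmat G z)⁻¹ i l) y * G l m y) * (gmat G y)⁻¹ m j := by
    have h4 : ∀ m, (∑ l, pd k (fun z => (gmat G z)⁻¹ i l) y * G l m y) * (gmat G y)⁻¹ m j =
        ∑ l, pd k (fun z => (gmat G z)⁻¹ i l) y * (G l m y * (gmat G y)⁻¹ m j) := by
      intro m
      rw [Finset.sum_mul]
      exact Finset.sum_congr rfl fun l _ => by ring
    simp only [h4]
    rw [Finset.sum_comm]
    simp only [← Finset.mul_sum, hG.igg hy, mul_ite, mul_one, mul_zero, Finset.sum_ite_eq',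
      Finset.mem_univ, if_true]
  rw [h3]
  simp only [h1, pd_metric hU hG _ _ _ hy]
  -- now pure algebra
  have h5 : ∀ m, (-∑ l, (gmat G y)⁻¹ i l * ∑ a, (chr G a k l y * G a m y +
      chr G a k m y * G l a y)) * (gmat G y)⁻¹ m j =
      -(∑ l, ∑ a, (gmat G y)⁻¹ i l * chr G a k l y * (G a m y * (gmat G y)⁻¹ m j)) -
        ∑ a, (chr G a k m y * (gmat G y)⁻¹ m j) * ∑ l, (gmat G y)⁻¹ i l * G l a y := by
    intro m
    have h6 : ∀ l, (gmat G y)⁻¹ i l * ∑ a, (chr G a k l y * G a m y + chr G a k m y * G l a y) =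
        ∑ a, ((gmat G y)⁻¹ i l * chr G a k l y * G a m y) +
          ∑ a, chr G a k m y * ((gmat G y)⁻¹ i l * G l a y) := by
      intro l
      rw [Finset.mul_sum, ← Finset.sum_add_distrib]
      exact Finset.sum_congr rfl fun a _ => by ring
    rw [Finset.sum_congr rfl fun l _ => h6 l, Finset.sum_add_distrib]
    rw [Finset.sum_comm (f := fun l a => chr G a k m y * ((gmat G y)⁻¹ i l * G l a y))]
    rw [neg_mul, add_mul, neg_add, sub_eq_add_neg]
    congr 1
    · congr 1
      rw [Finset.sum_mul]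
      refine Finset.sum_congr rfl fun l _ => ?_
      rw [Finset.sum_mul]
      exact Finset.sum_congr rfl fun a _ => by ring
    · congr 1
      rw [Finset.sum_mul]
      refine Finset.sum_congr rfl fun a _ => ?_
      rw [← Finset.mul_sum]
      ring
  simp only [h5, Finset.sum_sub_distrib, Finset.sum_neg_distrib, hG.ggi hy, mul_ite, mul_one,
    mul_zero, Finset.sum_ite_eq, Finset.mem_univ, if_true]
  have h7 : ∑ m, ∑ l, ∑ a, (gmat G y)⁻¹ i l * chr G a k l y * (G a m y * (gmat G y)⁻¹ m j) =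
      ∑ l, (gmat G y)⁻¹ i l * chr G j k l y := by
    rw [Finset.sum_comm]
    refine Finset.sum_congr rfl fun l _ => ?_
    rw [Finset.sum_comm]
    simp only [← Finset.mul_sum, hG.igg hy, mul_ite, mul_one, mul_zero, Finset.sum_ite_eq',
      Finset.mem_univ, if_true]
  rw [h7, Finset.sum_add_distrib]
  have h8 : ∑ l, (gmat G y)⁻¹ i l * chr G j k l y = ∑ l, chr G j k l y * (gmat G y)⁻¹ i l :=
    Finset.sum_congr rfl fun l _ => mul_comm _ _
  rw [h8]
  ring

/-- Jacobi's formula -/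
theorem pd_vol (hU : IsOpen U) (hG : IsMet U G) (k : Fin n) {y : E n} (hy : y ∈ U) :
    pd k (vol G) y = vol G y * ∑ l, chr G l k l y := by
  have hd : 0 < (gmat G y).det := (hG.pos y hy).det_pos
  have h1 : HasFDerivAt (fun z => (gmat G z).det)
      (∑ j, ∑ i, (gmat G y).adjugate j i • fderiv ℝ (G i j) y) y :=
    hasFDerivAt_det (A := gmat G) fun i j => (naDiff hU (hG.smooth i j) hy).hasFDerivAt
  have h2 := h1.sqrt hd.ne'
  have h3 : (∑ j, ∑ i, (gmat G y).adjugate j i * pd k (G i j) y) =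
      (gmat G y).det * (2 * ∑ l, chr G l k l y) := by
    have h4 : ∀ j i, (gmat G y).adjugate j i = (gmat G y).det * (gmat G y)⁻¹ j i := by
      intro j i
      rw [Matrix.inv_def, Matrix.smul_apply, Ring.inverse_eq_inv', smul_eq_mul,
        mul_inv_cancel_left₀ hd.ne']
    simp only [h4, pd_metric hU hG _ _ _ hy]
    have h5 : ∀ j i, (gmat G y).det * (gmat G y)⁻¹ j i *
        ∑ l, (chr G l k i y * G l j y + chr G l k j y * G i l y) =
        (gmat G y).det * (∑ l, chr G l k i y * (G l j y * (gmat G y)⁻¹ j i) +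
          ∑ l, chr G l k j y * ((gmat G y)⁻¹ j i * G i l y)) := by
      intro j i
      rw [← Finset.sum_add_distrib, mul_assoc, Finset.mul_sum]
      congr 1
      exact Finset.sum_congr rfl fun l _ => by ring
    rw [Finset.sum_congr rfl fun j _ => Finset.sum_congr rfl fun i _ => h5 j i]
    simp only [← Finset.mul_sum]
    rw [Finset.sum_congr rfl fun j _ => Finset.sum_add_distrib, Finset.sum_add_distrib]
    congr 1
    rw [two_mul]
    congr 1
    · rw [Finset.sum_comm]
      refine Finset.sum_congr rfl fun i _ => ?_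
      rw [Finset.sum_comm]
      simp only [← Finset.mul_sum, hG.igg hy, mul_ite, mul_one, mul_zero, Finset.sum_ite_eq',
        Finset.mem_univ, if_true]
    · refine Finset.sum_congr rfl fun j _ => ?_
      rw [Finset.sum_comm]
      simp only [← Finset.mul_sum, hG.ggi hy, mul_ite, mul_one, mul_zero, Finset.sum_ite_eq,
        Finset.mem_univ, if_true]
  have h6 : pd k (vol G) y = (1 / (2 * Real.sqrt (gmat G y).det)) *
      ∑ j, ∑ i, (gmat G y).adjugate j i * pd k (G i j) y := by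
    unfold pd
    have h7 : fderiv ℝ (vol G) y = _ := h2.fderiv
    rw [h7]
    simp only [smul_apply, sum_apply, smul_eq_mul]
  rw [h6, h3]
  unfold vol
  have h8 : Real.sqrt (gmat G y).det ≠ 0 := (Real.sqrt_pos.2 hd).ne'
  have h9 : (gmat G y).det = Real.sqrt (gmat G y).det * Real.sqrt (gmat G y).det :=
    (Real.mul_self_sqrt hd.le).symm
  field_simp
  rw [sq, ← h9]

end BH
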