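import Pool.Agent.Lib.MP_4a593f_gt.BH.LNabA

/-!
Auxiliary lemmas for LNab: derivatives of `act`, of `pb`, the formula `d = ∑ ε^k ∂_k`.
-/

open scoped Manifold ContDiff Topology Matrix

noncomputable section

namespace BH

variable {n p q : ℕ}

theorem lnb_smul_at {U : Set (E n)} (hU : IsOpen U) {F : Type*} [NormedAddCommGroup F]
    [NormedSpace ℝ F] {f : E n → F} (hf : ContDiffOn ℝ ∞ f U) {y : E n} (hy : y ∈ U) :
    DifferentiableAt ℝ f y :=
  (hf.contDiffAt (hU.mem_nhds hy)).differentiableAt (by simp)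

theorem lnb_lin (L : Alt n p →ₗ[ℝ] Alt n q) {f : E n → Alt n p} {y : E n}
    (hf : DifferentiableAt ℝ f y) :
    HasFDerivAt (fun z => L (f z)) ((LinearMap.toContinuousLinearMap L).comp (fderiv ℝ f y)) y :=
  (LinearMap.toContinuousLinearMap L).hasFDerivAt.comp y hf.hasFDerivAt

theorem lnb_pdF_lin (L : Alt n p →ₗ[ℝ] Alt n q) (k : Fin n) {f : E n → Alt n p} {y : E n}
    (hf : DifferentiableAt ℝ f y) : pdF k (fun z => L (f z)) y = L (pdF k f y) := by
  unfold pdF
  rw [(lnb_lin L hf).fderiv]
  rfl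

theorem lnb_pdF_smul (k : Fin n) {c : E n → ℝ} {f : E n → Alt n p} {y : E n}
    (hc : DifferentiableAt ℝ c y) (hf : DifferentiableAt ℝ f y) :
    pdF k (fun z => c z • f z) y = c y • pdF k f y + pd k c y • f y := by
  have h : HasFDerivAt (fun z => c z • f z) _ y := hc.hasFDerivAt.smul hf.hasFDerivAt
  unfold pdF pd
  rw [h.fderiv]
  rfl

theorem lnb_pdF_add (k : Fin n) {f h : E n → Alt n p} {y : E n}
    (hf : DifferentiableAt ℝ f y) (hh : DifferentiableAt ℝ h y) :
    pdF k (fun z => f z + h z) y = pdF k f y + pdF k h y := by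
  have h : HasFDerivAt (fun z => f z + h z) _ y := hf.hasFDerivAt.add hh.hasFDerivAt
  unfold pdF
  rw [h.fderiv]
  rfl

theorem lnb_pdF_sum (k : Fin n) {ι : Type*} (s : Finset ι) {f : ι → E n → Alt n p} {y : E n}
    (hf : ∀ i ∈ s, DifferentiableAt ℝ (f i) y) :
    pdF k (fun z => ∑ i ∈ s, f i z) y = ∑ i ∈ s, pdF k (f i) y := by
  unfold pdF
  rw [(HasFDerivAt.fun_sum fun i hi => (hf i hi).hasFDerivAt).fderiv]
  simp

/-- derivative of the action of a matrix -/
theorem lnb_pdF_act (k : Fin n) {A : E n → Matrix (Fin n) (Fin n) ℝ} {f : E n → Alt n p}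
    {y : E n} (hA : ∀ l i, DifferentiableAt ℝ (fun z => A z l i) y)
    (hf : DifferentiableAt ℝ f y) :
    DifferentiableAt ℝ (fun z => act (A z) (f z)) y ∧ pdF k (fun z => act (A z) (f z)) y =
      act (Matrix.of fun l i => pd k (fun z => A z l i) y) (f y) + act (A y) (pdF k f y) := by
  cases p with
  | zero =>
    have h : (fun z => act (A z) (f z)) = fun _ => (0 : Alt n 0) := rfl
    rw [h]
    refine ⟨differentiableAt_const _, ?_⟩
    simp [pdF, act]
  | succ p =>
    have h1 : ∀ i l, HasFDerivAt (fun z => A z l i • eps i (iot l (f z)))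
        (A y l i • (LinearMap.toContinuousLinearMap (eps i ∘ₗ iot l)).comp (fderiv ℝ f y) +
          (fderiv ℝ (fun z => A z l i) y).smulRight (eps i (iot l (f y)))) y := fun i l =>
      (hA l i).hasFDerivAt.smul (lnb_lin (eps i ∘ₗ iot l) hf)
    have h2 : (fun z => act (A z) (f z)) =
        fun z => -∑ i, ∑ l, A z l i • eps i (iot l (f z)) := by
      funext z
      simp [act]
    have h3 := (HasFDerivAt.fun_sum (u := Finset.univ) fun i _ =>
      HasFDerivAt.fun_sum (u := Finset.univ) fun l _ => h1 i l).fun_neg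
    rw [h2]
    refine ⟨h3.differentiableAt, ?_⟩
    unfold pdF
    rw [h3.fderiv]
    simp only [act, ContinuousLinearMap.neg_apply, ContinuousLinearMap.sum_apply,
      ContinuousLinearMap.add_apply, ContinuousLinearMap.smul_apply,
      ContinuousLinearMap.smulRight_apply, LinearMap.neg_apply, LinearMap.sum_apply,
      LinearMap.smul_apply, Matrix.of_apply, Finset.sum_add_distrib]
    exact (congrArg Neg.neg (add_comm _ _)).trans (neg_add _ _)

theorem lnb_arr_pdF (k : Fin n) {f : E n → Alt n p} {y : E n} (hf : DifferentiableAt ℝ f y)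
    (I : Fin p → Fin n) : arr (pdF k f y) I = pd k (fun z => arr (f z) I) y := by
  have h : HasFDerivAt (fun z => arr (f z) I)
      ((ContinuousLinearMap.proj I).comp
        ((LinearMap.toContinuousLinearMap (arrL n p)).comp (fderiv ℝ f y))) y :=
    (ContinuousLinearMap.proj (R := ℝ) (φ := fun _ : Fin p → Fin n => ℝ) I).hasFDerivAt.comp y
      ((LinearMap.toContinuousLinearMap (arrL n p)).hasFDerivAt.comp y hf.hasFDerivAt)
  unfold pd
  rw [h.fderiv]
  rfl

theorem lnb_sum_update (I : Fin p → Fin n) (s : Fin p) (F : (Fin p → Fin n) → ℝ) :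
    ∑ J : Fin p → Fin n,
      (∏ t ∈ Finset.univ.erase s, if J t = I t then (1 : ℝ) else 0) * F J =
      ∑ l, F (Function.update I s l) := by
  classical
  have h1 : Function.Injective fun l => Function.update I s l := Function.update_injective I s
  have h2 : ∑ l, F (Function.update I s l) =
      ∑ J ∈ Finset.univ.map ⟨_, h1⟩, F J := by
    rw [Finset.sum_map]
    rfl
  rw [h2, ← Finset.sum_subset (Finset.subset_univ (Finset.univ.map ⟨_, h1⟩))]
  · refine Finset.sum_congr rfl fun J hJ => ?_
    obtain ⟨l, -, rfl⟩ := Finset.mem_map.1 hJ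
    rw [Finset.prod_eq_one fun t ht => ?_, one_mul]
    refine if_pos ?_
    change Function.update I s l t = I t
    rw [Function.update_of_ne (Finset.ne_of_mem_erase ht)]
  · intro J _ hJ
    have h3 : ∃ t ≠ s, J t ≠ I t := by
      by_contra hc
      push Not at hc
      refine hJ (Finset.mem_map.2 ⟨J s, Finset.mem_univ _, ?_⟩)
      change Function.update I s (J s) = J
      funext t
      rcases eq_or_ne t s with rfl | ht
      · rw [Function.update_self]
      · rw [Function.update_of_ne ht, hc t ht]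
    obtain ⟨t, ht, hJt⟩ := h3
    rw [Finset.prod_eq_zero (Finset.mem_erase.2 ⟨ht, Finset.mem_univ t⟩)
      (if_neg hJt), zero_mul]

theorem lnb_sum_one (I : Fin p → Fin n) (F : (Fin p → Fin n) → ℝ) :
    ∑ J : Fin p → Fin n, (∏ t, if J t = I t then (1 : ℝ) else 0) * F J = F I := by
  classical
  rw [Finset.sum_eq_single I]
  · simp
  · intro J _ hJ
    obtain ⟨t, ht⟩ := Function.ne_iff.1 hJ
    rw [Finset.prod_eq_zero (Finset.mem_univ t) (if_neg ht), zero_mul]
  · intro h
    exact absurd (Finset.mem_univ I) h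

theorem lnb_diff_arr {f : E n → Alt n p} {y : E n}
    (h : ∀ I, DifferentiableAt ℝ (fun z => arr (f z) I) y) : DifferentiableAt ℝ f y := by
  obtain ⟨L, hL⟩ := (arrL n p).exists_leftInverse_of_injective
    (LinearMap.ker_eq_bot.2 arrL_inj)
  have h1 : f = fun z => (LinearMap.toContinuousLinearMap L) (arr (f z)) := by
    funext z
    exact (LinearMap.congr_fun hL (f z)).symm
  rw [h1]
  exact (LinearMap.toContinuousLinearMap L).differentiableAt.comp y (differentiableAt_pi.2 h)

theorem lnb_arr_diff {f : E n → Alt n p} {y : E n} (hf : DifferentiableAt ℝ f y)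
    (I : Fin p → Fin n) : DifferentiableAt ℝ (fun z => arr (f z) I) y := by
  have h := (LinearMap.toContinuousLinearMap (arrL n p)).differentiableAt.comp y hf
  exact differentiableAt_pi.1 h I

/-- derivative of `pb` at the identity matrix -/
theorem lnb_pdF_pb1 (k : Fin n) {C : E n → Matrix (Fin n) (Fin n) ℝ} {h : E n → Alt n p}
    {y : E n} (hC : ∀ l i, DifferentiableAt ℝ (fun z => C z l i) y) (h1 : C y = 1)
    (hh : DifferentiableAt ℝ h y) :
    DifferentiableAt ℝ (fun z => pb (C z) (h z)) y ∧ pdF k (fun z => pb (C z) (h z)) y =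
      pdF k h y - act (Matrix.of fun l i => pd k (fun z => C z l i) y) (h y) := by
  classical
  have hJ : ∀ I J : Fin p → Fin n, HasFDerivAt
      (fun z => (∏ s, C z (J s) (I s)) * arr (h z) J)
      ((∏ s, C y (J s) (I s)) • fderiv ℝ (fun z => arr (h z) J) y +
        arr (h y) J • ∑ s, (∏ t ∈ Finset.univ.erase s, C y (J t) (I t)) •
          fderiv ℝ (fun z => C z (J s) (I s)) y) y := fun I J =>
    (HasFDerivAt.finsetProd fun s _ => (hC (J s) (I s)).hasFDerivAt).mul
      (lnb_arr_diff hh J).hasFDerivAt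
  have hI : ∀ I : Fin p → Fin n, HasFDerivAt (fun z => arr (pb (C z) (h z)) I)
      (∑ J, ((∏ s, C y (J s) (I s)) • fderiv ℝ (fun z => arr (h z) J) y +
        arr (h y) J • ∑ s, (∏ t ∈ Finset.univ.erase s, C y (J t) (I t)) •
          fderiv ℝ (fun z => C z (J s) (I s)) y)) y := fun I => by
    simp only [arr_pb]
    exact HasFDerivAt.fun_sum fun J _ => hJ I J
  have hd : DifferentiableAt ℝ (fun z => pb (C z) (h z)) y :=
    lnb_diff_arr fun I => (hI I).differentiableAt
  refine ⟨hd, ?_⟩
  apply arr_inj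
  funext I
  rw [lnb_arr_pdF k hd, sub_eq_add_neg, arr_add, Pi.add_apply, lnb_arr_pdF k hh]
  have hn : ∀ a : Alt n p, arr (-a) I = -arr a I := fun a => rfl
  rw [hn, arr_act, neg_neg]
  unfold pd
  rw [(hI I).fderiv]
  simp only [ContinuousLinearMap.sum_apply, ContinuousLinearMap.add_apply,
    ContinuousLinearMap.smul_apply, smul_eq_mul, Finset.sum_add_distrib, h1, Matrix.one_apply,
    Matrix.of_apply]
  congr 1
  · exact lnb_sum_one I fun J => fderiv ℝ (fun z => arr (h z) J) y (bv k)
  · simp only [Finset.mul_sum]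
    rw [Finset.sum_comm]
    refine Finset.sum_congr rfl fun s _ => ?_
    have h2 := lnb_sum_update I s fun J =>
      arr (h y) J * fderiv ℝ (fun z => C z (J s) (I s)) y (bv k)
    simp only [Function.update_self] at h2
    rw [Finset.sum_congr rfl fun J _ => ?_, h2]
    · refine Finset.sum_congr rfl fun l _ => ?_
      ring
    · ring

theorem lnb_iot_iot (j k : Fin n) (a : Alt n (p + 2)) : iot j (iot k a) = -iot k (iot j a) := by
  ext v
  change a (Matrix.vecCons (bv k) (Matrix.vecCons (bv j) v)) =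
    -a (Matrix.vecCons (bv j) (Matrix.vecCons (bv k) v))
  have h : a (Matrix.vecCons (bv j) (Matrix.vecCons (bv k) v) ∘ Equiv.swap 0 1) =
      -a (Matrix.vecCons (bv j) (Matrix.vecCons (bv k) v)) :=
    a.toAlternatingMap.map_swap (Matrix.vecCons (bv j) (Matrix.vecCons (bv k) v))
      (i := 0) (j := 1) (by simp)
  refine Eq.trans ?_ h
  congr 1
  funext i
  refine Fin.cases ?_ (fun i => Fin.cases ?_ (fun i => ?_) i) i
  · simp
  · simp
  · have h3 : Equiv.swap (0 : Fin (p + 2)) 1 i.succ.succ = i.succ.succ :=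
      Equiv.swap_apply_of_ne_of_ne (Fin.succ_ne_zero _) (by
        intro h4
        exact Fin.succ_ne_zero _ (Fin.succ_injective _ h4))
    simp [h3]

theorem lnb_eps_eps (j k : Fin n) (a : Alt n p) : eps j (eps k a) = -eps k (eps j a) := by
  have h1 : ip0 (eps j (eps k a) + eps k (eps j a)) (eps j (eps k a) + eps k (eps j a)) = 0 := by
    rw [ip0_add_left, ip0_eps, ip0_eps, ip0_eps, ip0_eps, lnb_iot_iot k j]
    have h2 : ∀ c d : Alt n p, ip0 c (-d) = -ip0 c d := fun c d => by
      have h5 := ip0_smul_right (-1 : ℝ) c d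
      rwa [neg_one_smul ℝ d, neg_one_mul] at h5
    rw [h2, neg_add_cancel]
  by_contra hne
  have h3 : eps j (eps k a) + eps k (eps j a) ≠ 0 := fun h => hne (eq_neg_of_add_eq_zero_left h)
  exact absurd h1 (ip0_self_pos h3).ne'

/-- `d = ∑ ε^k ∂_k` -/
theorem lnb_ext (f : E n → Alt n p) (y : E n) : extDeriv f y = ∑ k, eps k (pdF k f y) := by
  ext v
  rw [extDeriv]
  simp only [eps, ContinuousAlternatingMap.sum_apply, LinearMap.coe_mk, AddHom.coe_mk,
    ContinuousAlternatingMap.alternatizeUncurryFin_apply, pdF,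
    ContinuousLinearMap.smulRight_apply]
  rw [Finset.sum_comm]
  refine Finset.sum_congr rfl fun i _ => ?_
  rw [← Finset.smul_sum]
  congr 1
  conv_lhs => rw [vec_expand (v i), map_sum]
  simp [ContinuousAlternatingMap.sum_apply]

/-- a symmetric sum of `ε^k ε^i` vanishes -/
theorem lnb_symm_eps (c : Fin n → Fin n → ℝ) (hc : ∀ i j, c i j = c j i) (a : Alt n p) :
    ∑ k, ∑ i, c k i • eps k (eps i a) = 0 := by
  have h1 : ∑ k, ∑ i, c k i • eps k (eps i a) = -∑ k, ∑ i, c k i • eps k (eps i a) := by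
    conv_lhs => rw [Finset.sum_comm]
    rw [← Finset.sum_neg_distrib]
    refine Finset.sum_congr rfl fun k _ => ?_
    rw [← Finset.sum_neg_distrib]
    refine Finset.sum_congr rfl fun i _ => ?_
    rw [lnb_eps_eps i k, hc i k, smul_neg]
  have h2 : (2 : ℝ) • ∑ k, ∑ i, c k i • eps k (eps i a) = 0 := by
    rw [two_smul]
    nth_rw 1 [h1]
    exact neg_add_cancel _
  exact (smul_eq_zero.1 h2).resolve_left two_ne_zero

end BH
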