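import Pool.Agent.Lib.MP_4a593f_gt.BH.Ip

/-!
Row LOp: the operators `ε^k`, `ι_k` and the derivation action of matrices on alternating forms.
All identities can be proved on components (`arr`): `(ε^k a)_I = ∑_s (-1)^s [I_s = k] a_(I∖s)`,
`(ι_k a)_I = a_(k,I)`, `(A·a)_I = -∑_s ∑_l A_(l,I_s) a_(I[s→l])`.
-/

open scoped Manifold ContDiff Topology Matrix

noncomputable section

namespace BH

variable {n p : ℕ}

/-- `ε^k a = dx^k ∧ a` -/
def eps (k : Fin n) : Alt n p →ₗ[ℝ] Alt n (p + 1) where
  toFun a := .alternatizeUncurryFin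
    ((EuclideanSpace.proj k : E n →L[ℝ] ℝ).smulRight a)
  map_add' a c := by
    ext v
    simp [ContinuousAlternatingMap.alternatizeUncurryFin_apply, Finset.sum_add_distrib]
  map_smul' t a := by
    ext v
    simp [ContinuousAlternatingMap.alternatizeUncurryFin_apply, Finset.mul_sum, mul_left_comm]

/-- `ι_k a = a(∂_k, ...)` -/
def iot (k : Fin n) : Alt n (p + 1) →ₗ[ℝ] Alt n p where
  toFun a := a.curryLeft (bv k)
  map_add' a c := by
    ext v
    simp
  map_smul' t a := by
    ext v
    simp

/-- the derivation action of a matrix on forms, `(A·a)(v,..) = -∑ a(..,A v,..)` -/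
def act (A : Matrix (Fin n) (Fin n) ℝ) : {p : ℕ} → (Alt n p →ₗ[ℝ] Alt n p)
  | 0 => 0
  | _ + 1 => -∑ i, ∑ l, A l i • (eps i ∘ₗ iot l)

theorem arr_sum {ι : Type*} (s : Finset ι) (a : ι → Alt n p) (I : Fin p → Fin n) :
    arr (∑ i ∈ s, a i) I = ∑ i ∈ s, arr (a i) I := by
  classical
  induction s using Finset.induction_on with
  | empty => rfl
  | insert i s hi ih =>
    rw [Finset.sum_insert hi, Finset.sum_insert hi, ← ih]
    rfl

theorem arr_eps (k : Fin n) (a : Alt n p) (I : Fin (p + 1) → Fin n) :
    arr (eps k a) I =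
      ∑ s : Fin (p + 1), (-1 : ℝ) ^ (s : ℕ) * if I s = k then arr a (s.removeNth I) else 0 := by
  have h : arr (eps k a) I = ContinuousAlternatingMap.alternatizeUncurryFin
    ((EuclideanSpace.proj k : E n →L[ℝ] ℝ).smulRight a) fun s => bv (I s) := rfl
  rw [h, ContinuousAlternatingMap.alternatizeUncurryFin_apply]
  refine Finset.sum_congr rfl fun s _ => ?_
  have h1 : ((EuclideanSpace.proj k : E n →L[ℝ] ℝ).smulRight a) (bv (I s))
      (s.removeNth fun s => bv (I s)) = (bv (I s) : E n) k * arr a (s.removeNth I) := rfl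
  rw [h1, bv_apply]
  by_cases h2 : k = I s
  · rw [if_pos h2, if_pos h2.symm, one_mul]
    simp
  · rw [if_neg h2, if_neg (Ne.symm h2), zero_mul]
    simp

theorem arr_iot (k : Fin n) (a : Alt n (p + 1)) (I : Fin p → Fin n) :
    arr (iot k a) I = arr a (Fin.cons k I) := by
  have h : arr (iot k a) I = a (Matrix.vecCons (bv k) fun s => bv (I s)) := rfl
  rw [h]
  unfold arr
  congr 1
  funext s
  refine Fin.cases ?_ (fun s => ?_) s
  · rfl
  · rfl

/-- moving an index to the front -/
theorem arr_update (a : Alt n (p + 1)) (I : Fin (p + 1) → Fin n) (s : Fin (p + 1)) (l : Fin n) :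
    arr a (Function.update I s l) = (-1 : ℝ) ^ (s : ℕ) * arr a (Fin.cons l (s.removeNth I)) := by
  have h := AlternatingMap.map_insertNth a.toAlternatingMap s (bv l : E n)
    (s.removeNth fun t => bv (I t))
  have h1 : (fun t => (bv (Function.update I s l t) : E n)) =
      s.insertNth (bv l : E n) (s.removeNth fun t => bv (I t)) := by
    rw [Fin.insertNth_removeNth]
    funext t
    by_cases ht : t = s
    · subst ht
      rw [Function.update_self, Function.update_self]
    · rw [Function.update_of_ne ht, Function.update_of_ne ht]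
  have h2 : (fun t => (bv ((Fin.cons l (s.removeNth I) : Fin (p + 1) → Fin n) t) : E n)) =
      Matrix.vecCons (bv l) (s.removeNth fun t => bv (I t)) := by
    funext t
    refine Fin.cases ?_ (fun t => ?_) t
    · rfl
    · rfl
  unfold arr
  rw [h1, h2]
  simpa using h

theorem arr_act (A : Matrix (Fin n) (Fin n) ℝ) (a : Alt n p) (I : Fin p → Fin n) :
    arr (act A a) I = -∑ s, ∑ l, A l (I s) * arr a (Function.update I s l) := by
  cases p with
  | zero =>
    rw [Finset.univ_eq_empty, Finset.sum_empty, neg_zero]
    rfl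
  | succ p =>
    have h : act A a = -∑ i, ∑ l, A l i • eps i (iot l a) := by
      simp only [act, LinearMap.neg_apply, LinearMap.sum_apply, LinearMap.smul_apply,
        LinearMap.comp_apply]
    have h1 : arr (act A a) I = -arr (∑ i, ∑ l, A l i • eps i (iot l a)) I := by
      rw [h]
      rfl
    rw [h1, arr_sum]
    congr 1
    have h2 : ∀ i, arr (∑ l, A l i • eps i (iot l a)) I = ∑ s : Fin (p + 1),
        if I s = i then ∑ l, A l i * arr a (Function.update I s l) else 0 := by
      intro i
      rw [arr_sum]
      have h3 : ∀ l, arr (A l i • eps i (iot l a)) I = ∑ s : Fin (p + 1),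
          if I s = i then A l i * arr a (Function.update I s l) else 0 := by
        intro l
        rw [arr_smul, Pi.smul_apply, smul_eq_mul, arr_eps, Finset.mul_sum]
        refine Finset.sum_congr rfl fun s _ => ?_
        by_cases hs : I s = i
        · rw [if_pos hs, if_pos hs, arr_iot, arr_update]
        · rw [if_neg hs, if_neg hs, mul_zero, mul_zero]
      simp only [h3]
      rw [Finset.sum_comm]
      refine Finset.sum_congr rfl fun s _ => ?_
      by_cases hs : I s = i
      · simp only [if_pos hs]
      · simp only [if_neg hs, Finset.sum_const_zero]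
    simp only [h2]
    rw [Finset.sum_comm]
    refine Finset.sum_congr rfl fun s _ => ?_
    rw [Finset.sum_ite_eq, if_pos (Finset.mem_univ _)]

theorem act_expand (A : Matrix (Fin n) (Fin n) ℝ) (a : Alt n (p + 1)) :
    act A a = -∑ i, ∑ l, A l i • eps i (iot l a) := by
  simp only [act, LinearMap.neg_apply, LinearMap.sum_apply, LinearMap.smul_apply,
    LinearMap.comp_apply]

theorem iot_eps (j k : Fin n) (a : Alt n (p + 1)) :
    iot j (eps k a) = (if j = k then a else 0) - eps k (iot j a) := by
  apply arr_inj
  funext I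
  have h : arr ((if j = k then a else 0) - eps k (iot j a)) I =
      (if j = k then arr a I else 0) - arr (eps k (iot j a)) I := by
    by_cases hjk : j = k
    · rw [if_pos hjk, if_pos hjk]
      rfl
    · rw [if_neg hjk, if_neg hjk]
      rfl
  rw [h, arr_iot, arr_eps, arr_eps, Fin.sum_univ_succ]
  have h0 : (0 : Fin (p + 2)).removeNth (Fin.cons j I : Fin (p + 2) → Fin n) = I := by
    funext t
    rfl
  rw [h0, sub_eq_add_neg, ← Finset.sum_neg_distrib]
  congr 1
  · simp
  · refine Finset.sum_congr rfl fun s _ => ?_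
    rw [arr_iot]
    have h1 : (s.succ).removeNth (Fin.cons j I : Fin (p + 2) → Fin n) =
        Fin.cons j (s.removeNth I) := by
      funext t
      refine Fin.cases ?_ (fun t => ?_) t
      · rfl
      · simp [Fin.removeNth]
    rw [h1, Fin.cons_succ, Fin.val_succ, pow_succ]
    ring

theorem iot_eps0 (j k : Fin n) (a : Alt n 0) : iot j (eps k a) = if j = k then a else 0 := by
  apply arr_inj
  funext I
  rw [arr_iot, arr_eps, Fin.sum_univ_succ, Finset.univ_eq_empty, Finset.sum_empty, add_zero]
  have h0 : (0 : Fin 1).removeNth (Fin.cons j I : Fin 1 → Fin n) = I := by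
    funext t
    exact t.elim0
  rw [h0]
  by_cases hjk : j = k
  · rw [if_pos hjk]
    simp [hjk]
  · rw [if_neg hjk]
    simp [hjk, arr_zero]

theorem act_iot (A : Matrix (Fin n) (Fin n) ℝ) (j : Fin n) (a : Alt n (p + 1)) :
    act A (iot j a) = iot j (act A a) + ∑ l, A l j • iot l a := by
  apply arr_inj
  funext I
  rw [arr_add, Pi.add_apply, arr_sum, arr_iot, arr_act, arr_act, Fin.sum_univ_succ]
  have h1 : ∀ l, arr (A l j • iot l a) I = A l j * arr a (Fin.cons l I) := by
    intro l
    rw [arr_smul, Pi.smul_apply, smul_eq_mul, arr_iot]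
  have h2 : ∀ l, Function.update (Fin.cons j I : Fin (p + 1) → Fin n) 0 l = Fin.cons l I := by
    intro l
    exact Fin.update_cons_zero _ _ _
  have h3 : ∀ (s : Fin p) l, Function.update (Fin.cons j I : Fin (p + 1) → Fin n) s.succ l =
      Fin.cons j (Function.update I s l) := by
    intro s l
    exact (Fin.cons_update _ _ _ _).symm
  simp only [h1, h2, h3, Fin.cons_zero, Fin.cons_succ, arr_iot]
  ring

theorem act_eps (A : Matrix (Fin n) (Fin n) ℝ) (k : Fin n) (a : Alt n p) :
    act A (eps k a) = eps k (act A a) - ∑ l, A k l • eps l a := by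
  apply arr_inj
  funext I
  have h : arr (eps k (act A a) - ∑ l, A k l • eps l a) I =
      arr (eps k (act A a)) I - arr (∑ l, A k l • eps l a) I := rfl
  rw [h, arr_act, arr_eps, arr_sum]
  have h1 : ∀ l, arr (A k l • eps l a) I = ∑ s : Fin (p + 1), (-1 : ℝ) ^ (s : ℕ) *
      if I s = l then A k l * arr a (s.removeNth I) else 0 := by
    intro l
    rw [arr_smul, Pi.smul_apply, smul_eq_mul, arr_eps, Finset.mul_sum]
    refine Finset.sum_congr rfl fun s _ => ?_
    by_cases hs : I s = l
    · rw [if_pos hs, if_pos hs]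
      ring
    · rw [if_neg hs, if_neg hs]
      ring
  have h2 : ∑ l, arr (A k l • eps l a) I = ∑ s : Fin (p + 1), (-1 : ℝ) ^ (s : ℕ) *
      (A k (I s) * arr a (s.removeNth I)) := by
    simp only [h1]
    rw [Finset.sum_comm]
    refine Finset.sum_congr rfl fun s _ => ?_
    rw [← Finset.mul_sum, Finset.sum_ite_eq, if_pos (Finset.mem_univ _)]
  rw [h2]
  have h3 : ∀ s l, A l (I s) * arr (eps k a) (Function.update I s l) =
      ∑ t : Fin (p + 1), (-1 : ℝ) ^ (t : ℕ) * if Function.update I s l t = k then
        A l (I s) * arr a (t.removeNth (Function.update I s l)) else 0 := by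
    intro s l
    rw [arr_eps, Finset.mul_sum]
    refine Finset.sum_congr rfl fun t _ => ?_
    by_cases ht : Function.update I s l t = k
    · rw [if_pos ht, if_pos ht]
      ring
    · rw [if_neg ht, if_neg ht]
      ring
  simp only [h3]
  have h4 : ∀ t : Fin (p + 1), ∑ s, ∑ l, (-1 : ℝ) ^ (t : ℕ) * (if Function.update I s l t = k then
        A l (I s) * arr a (t.removeNth (Function.update I s l)) else 0) =
      (-1 : ℝ) ^ (t : ℕ) * (A k (I t) * arr a (t.removeNth I)) -
        (-1 : ℝ) ^ (t : ℕ) * (if I t = k then arr (act A a) (t.removeNth I) else 0) := by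
    intro t
    rw [Fin.sum_univ_succAbove _ t]
    have h5 : ∑ l, (-1 : ℝ) ^ (t : ℕ) * (if Function.update I t l t = k then
        A l (I t) * arr a (t.removeNth (Function.update I t l)) else 0) =
        (-1 : ℝ) ^ (t : ℕ) * (A k (I t) * arr a (t.removeNth I)) := by
      simp only [Function.update_self, Fin.removeNth_update]
      rw [← Finset.mul_sum, Finset.sum_ite_eq', if_pos (Finset.mem_univ _)]
    rw [h5, sub_eq_add_neg, ← mul_neg]
    congr 1
    have h6 : ∀ (s : Fin p) l, Function.update I (t.succAbove s) l t = I t := by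
      intro s l
      exact Function.update_of_ne (Fin.succAbove_ne t s).symm _ _
    have h7 : ∀ (s : Fin p) l, t.removeNth (Function.update I (t.succAbove s) l) =
        Function.update (t.removeNth I) s l := by
      intro s l
      exact Fin.removeNth_update_succAbove _ _ _ _
    simp only [h6, h7]
    rw [arr_act]
    by_cases ht : I t = k
    · simp only [if_pos ht, ← Finset.mul_sum]
      rw [neg_neg]
      rfl
    · simp only [if_neg ht, mul_zero, Finset.sum_const_zero, neg_zero]
  have h8 : ∑ s, ∑ l, ∑ t : Fin (p + 1), (-1 : ℝ) ^ (t : ℕ) * (if Function.update I s l t = k then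
        A l (I s) * arr a (t.removeNth (Function.update I s l)) else 0) =
      ∑ t : Fin (p + 1), ∑ s, ∑ l, (-1 : ℝ) ^ (t : ℕ) * (if Function.update I s l t = k then
        A l (I s) * arr a (t.removeNth (Function.update I s l)) else 0) := by
    have h9 : ∀ s, ∑ l, ∑ t : Fin (p + 1), (-1 : ℝ) ^ (t : ℕ) *
        (if Function.update I s l t = k then
          A l (I s) * arr a (t.removeNth (Function.update I s l)) else 0) =
        ∑ t : Fin (p + 1), ∑ l, (-1 : ℝ) ^ (t : ℕ) * (if Function.update I s l t = k then
          A l (I s) * arr a (t.removeNth (Function.update I s l)) else 0) := fun s =>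
      Finset.sum_comm
    simp only [h9]
    exact Finset.sum_comm
  rw [h8]
  simp only [h4]
  rw [Finset.sum_sub_distrib]
  ring

theorem act_act (A B : Matrix (Fin n) (Fin n) ℝ) (a : Alt n p) :
    act A (act B a) - act B (act A a) = act (A * B - B * A) a := by
  cases p with
  | zero =>
    show (0 : Alt n 0) - 0 = 0
    exact sub_zero 0
  | succ p =>
    rw [sub_eq_iff_eq_add]
    have h1 : ∀ i l, act A (eps i (iot l a)) = eps i (iot l (act A a)) +
        (∑ m, A m l • eps i (iot m a) - ∑ m, A i m • eps m (iot l a)) := by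
      intro i l
      rw [act_eps, act_iot, map_add, map_sum]
      simp only [map_smul]
      abel
    have h2 : act A (act B a) = act B (act A a) -
        ∑ i, ∑ l, B l i • (∑ m, A m l • eps i (iot m a) - ∑ m, A i m • eps m (iot l a)) := by
      rw [act_expand B a, map_neg, map_sum, act_expand B (act A a), ← sub_eq_zero]
      have h3 : ∀ i, act A (∑ l, B l i • eps i (iot l a)) = ∑ l, B l i • eps i (iot l (act A a)) +
          ∑ l, B l i • (∑ m, A m l • eps i (iot m a) - ∑ m, A i m • eps m (iot l a)) := by
        intro i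
        rw [map_sum, ← Finset.sum_add_distrib]
        refine Finset.sum_congr rfl fun l _ => ?_
        rw [map_smul, h1, smul_add]
      simp only [h3]
      rw [Finset.sum_add_distrib]
      abel
    have h4 : ∑ i, ∑ l, B l i • (∑ m, A m l • eps i (iot m a) - ∑ m, A i m • eps m (iot l a)) =
        ∑ i, ∑ m, (A * B - B * A) m i • eps i (iot m a) := by
      have h5 : ∑ i, ∑ l, ∑ m, (B l i * A m l) • eps i (iot m a) =
          ∑ i, ∑ m, (A * B) m i • eps i (iot m a) := by
        refine Finset.sum_congr rfl fun i _ => ?_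
        rw [Finset.sum_comm]
        refine Finset.sum_congr rfl fun m _ => ?_
        rw [Matrix.mul_apply, Finset.sum_smul]
        exact Finset.sum_congr rfl fun l _ => by rw [mul_comm]
      have h6 : ∑ i, ∑ l, ∑ m, (B l i * A i m) • eps m (iot l a) =
          ∑ m, ∑ l, (B * A) l m • eps m (iot l a) := by
        have h7 : ∀ i, ∑ l, ∑ m, (B l i * A i m) • eps m (iot l a) =
            ∑ m, ∑ l, (B l i * A i m) • eps m (iot l a) := fun i => Finset.sum_comm
        simp only [h7]
        rw [Finset.sum_comm]
        refine Finset.sum_congr rfl fun m _ => ?_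
        rw [Finset.sum_comm]
        refine Finset.sum_congr rfl fun l _ => ?_
        rw [Matrix.mul_apply, Finset.sum_smul]
      simp only [smul_sub, Finset.smul_sum, smul_smul, Matrix.sub_apply,
        Finset.sum_sub_distrib]
      rw [h5, h6, ← Finset.sum_sub_distrib]
      refine Finset.sum_congr rfl fun i _ => ?_
      rw [← Finset.sum_sub_distrib]
      exact Finset.sum_congr rfl fun m _ => (sub_smul _ _ _).symm
    rw [h2, h4, act_expand (A * B - B * A) a]
    abel

theorem act_add (A B : Matrix (Fin n) (Fin n) ℝ) (a : Alt n p) :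
    act (A + B) a = act A a + act B a := by
  apply arr_inj
  funext I
  rw [arr_add, Pi.add_apply, arr_act, arr_act, arr_act, ← neg_add, ← Finset.sum_add_distrib]
  congr 1
  refine Finset.sum_congr rfl fun s _ => ?_
  rw [← Finset.sum_add_distrib]
  exact Finset.sum_congr rfl fun l _ => by rw [Matrix.add_apply, add_mul]

theorem act_smul (t : ℝ) (A : Matrix (Fin n) (Fin n) ℝ) (a : Alt n p) :
    act (t • A) a = t • act A a := by
  apply arr_inj
  funext I
  rw [arr_smul, Pi.smul_apply, arr_act, arr_act, smul_eq_mul, mul_neg, Finset.mul_sum]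
  congr 1
  refine Finset.sum_congr rfl fun s _ => ?_
  rw [Finset.mul_sum]
  exact Finset.sum_congr rfl fun l _ => by rw [Matrix.smul_apply, smul_eq_mul, mul_assoc]

end BH
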