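import Pool.Agent.Lib.MP_4a593f_gt.BH.LOp

/-!
Row LOpB: `ε^k`, `ι_k`, `act` and pullbacks, inner products.
-/

open scoped Manifold ContDiff Topology Matrix

noncomputable section

namespace BH

variable {n p : ℕ}

theorem eps_apply (k : Fin n) (a : Alt n p) (v : Fin (p + 1) → E n) :
    eps k a v = ∑ s : Fin (p + 1), (-1 : ℝ) ^ (s : ℕ) * (v s k * a (s.removeNth v)) := by
  simp [eps, ContinuousAlternatingMap.alternatizeUncurryFin_apply]

theorem iot_apply (k : Fin n) (a : Alt n (p + 1)) (v : Fin p → E n) :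
    iot k a v = a (Fin.cons (bv k) v) := rfl

/-- the linear map `pb B` -/
def pbL (B : Matrix (Fin n) (Fin n) ℝ) : Alt n p →ₗ[ℝ] Alt n p where
  toFun := pb B
  map_add' := pb_add B
  map_smul' := pb_smul B

theorem pb_sum (B : Matrix (Fin n) (Fin n) ℝ) {ι : Type*} (S : Finset ι) (f : ι → Alt n p) :
    pb B (∑ i ∈ S, f i) = ∑ i ∈ S, pb B (f i) := map_sum (pbL B) f S

theorem pb_neg (B : Matrix (Fin n) (Fin n) ℝ) (a : Alt n p) : pb B (-a) = -pb B a :=
  map_neg (pbL B) a

theorem ip0_sum_left {ι : Type*} (S : Finset ι) (f : ι → Alt n p) (c : Alt n p) :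
    ip0 (∑ i ∈ S, f i) c = ∑ i ∈ S, ip0 (f i) c := by
  classical
  induction S using Finset.induction_on with
  | empty => simp [ip0, arr_zero]
  | insert i S hi ih => rw [Finset.sum_insert hi, Finset.sum_insert hi, ip0_add_left, ih]

theorem ip0_sum_right {ι : Type*} (S : Finset ι) (f : ι → Alt n p) (c : Alt n p) :
    ip0 c (∑ i ∈ S, f i) = ∑ i ∈ S, ip0 c (f i) := by
  rw [ip0_comm, ip0_sum_left]
  exact Finset.sum_congr rfl fun i _ => ip0_comm _ _

theorem ip0_neg_left (a c : Alt n p) : ip0 (-a) c = -ip0 a c := by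
  have h := ip0_smul_left (-1) a c
  rw [show (-1 : ℝ) • a = -a from neg_one_smul ℝ a, neg_one_mul] at h
  exact h

theorem ip0_neg_right (a c : Alt n p) : ip0 a (-c) = -ip0 a c := by
  rw [ip0_comm, ip0_neg_left, ip0_comm]

theorem pb_eps (B : Matrix (Fin n) (Fin n) ℝ) (k : Fin n) (a : Alt n p) :
    pb B (eps k a) = ∑ l, B k l • eps l (pb B a) := by
  ext v
  rw [pb_apply, eps_apply, ContinuousAlternatingMap.sum_apply]
  simp only [ContinuousAlternatingMap.smul_apply, eps_apply, smul_eq_mul, Finset.mul_sum]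
  rw [Finset.sum_comm]
  refine Finset.sum_congr rfl fun s _ => ?_
  rw [ep_apply, Finset.sum_mul, Finset.mul_sum]
  refine Finset.sum_congr rfl fun l _ => ?_
  rw [pb_apply]
  change _ * (_ * a (fun i => ep B (s.removeNth v i))) = _
  ring

theorem iot_pb (B : Matrix (Fin n) (Fin n) ℝ) (k : Fin n) (a : Alt n (p + 1)) :
    iot k (pb B a) = ∑ l, B l k • pb B (iot l a) := by
  ext v
  rw [iot_apply, pb_apply, ContinuousAlternatingMap.sum_apply]
  simp only [ContinuousAlternatingMap.smul_apply, smul_eq_mul]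
  have h1 : (fun s => ep B ((Fin.cons (bv k) v : Fin (p + 1) → E n) s)) =
      Fin.cons (∑ l, B l k • bv l) fun s => ep B (v s) := by
    funext s
    refine Fin.cases ?_ (fun i => ?_) s
    · rw [Fin.cons_zero, Fin.cons_zero, ep_bv]
    · rw [Fin.cons_succ, Fin.cons_succ]
  rw [h1]
  change a.curryLeft (∑ l, B l k • bv l) (fun s => ep B (v s)) = _
  rw [map_sum, ContinuousAlternatingMap.sum_apply]
  refine Finset.sum_congr rfl fun l _ => ?_
  rw [map_smul]
  rfl

theorem arr_insertNth (c : Alt n (p + 1)) (s : Fin (p + 1)) (i : Fin n) (J : Fin p → Fin n) :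
    arr c (s.insertNth i J) = (-1 : ℝ) ^ (s : ℕ) * arr c (Fin.cons i J) := by
  have h : c (s.insertNth (bv i) fun t => (bv (J t) : E n)) =
      (-1 : ℤ) ^ (s : ℕ) • c (Matrix.vecCons (bv i) fun t => (bv (J t) : E n)) :=
    c.map_insertNth s (bv i) fun t => bv (J t)
  rw [zsmul_eq_mul] at h
  push_cast at h
  have h1 : (fun t => (bv ((s.insertNth i J : Fin (p + 1) → Fin n) t) : E n)) =
      s.insertNth (bv i) fun t => (bv (J t) : E n) := by
    funext t
    refine Fin.succAboveCases s ?_ (fun j => ?_) t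
    · simp
    · simp
  have h2 : (fun t => (bv ((Fin.cons i J : Fin (p + 1) → Fin n) t) : E n)) =
      Matrix.vecCons (bv i) fun t => (bv (J t) : E n) := by
    funext t
    refine Fin.cases ?_ (fun j => ?_) t
    · simp
    · simp
  unfold arr
  rw [h1, h2, h]

theorem ip0_eps (k : Fin n) (a : Alt n p) (c : Alt n (p + 1)) :
    ip0 (eps k a) c = ip0 a (iot k c) := by
  unfold ip0
  have h1 : ∀ s : Fin (p + 1), ∑ I : Fin (p + 1) → Fin n,
      ((-1 : ℝ) ^ (s : ℕ) * if I s = k then arr a (s.removeNth I) else 0) * arr c I =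
      ∑ J : Fin p → Fin n, arr a J * arr (iot k c) J := by
    intro s
    rw [← (Fin.insertNthEquiv (fun _ => Fin n) s).sum_comp, Fintype.sum_prod_type]
    rw [Finset.sum_eq_single k]
    · refine Finset.sum_congr rfl fun J _ => ?_
      have e1 : (Fin.insertNthEquiv (fun _ => Fin n) s) (k, J) =
          (s.insertNth k J : Fin (p + 1) → Fin n) := rfl
      have e2 : s.removeNth (s.insertNth k J : Fin (p + 1) → Fin n) = J := by
        funext j
        simp [Fin.removeNth]
      rw [e1, Fin.insertNth_apply_same, if_pos rfl, e2, arr_insertNth, arr_iot]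
      have : (-1 : ℝ) ^ (s : ℕ) * (-1 : ℝ) ^ (s : ℕ) = 1 := by
        rw [← mul_pow]
        norm_num
      linear_combination (arr a J * arr c (Fin.cons k J)) * this
    · intro i _ hi
      refine Finset.sum_eq_zero fun J _ => ?_
      simp [hi]
    · intro h
      exact absurd (Finset.mem_univ k) h
  have h2 : ∑ I : Fin (p + 1) → Fin n, arr (eps k a) I * arr c I =
      (p + 1 : ℝ) * ∑ J : Fin p → Fin n, arr a J * arr (iot k c) J := by
    simp only [arr_eps, Finset.sum_mul]
    rw [Finset.sum_comm, Finset.sum_congr rfl fun s _ => h1 s, Finset.sum_const, Finset.card_univ,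
      Fintype.card_fin, nsmul_eq_mul]
    push_cast
    ring
  rw [h2, Nat.factorial_succ]
  push_cast
  have : (p + 1 : ℝ) ≠ 0 := by positivity
  have : (p.factorial : ℝ) ≠ 0 := by positivity
  field_simp

theorem iot_iot (i j : Fin n) (a : Alt n (p + 2)) : iot i (iot j a) = -iot j (iot i a) := by
  ext v
  rw [ContinuousAlternatingMap.neg_apply]
  change a (Matrix.vecCons (bv j) (Matrix.vecCons (bv i) v)) =
    -a (Matrix.vecCons (bv i) (Matrix.vecCons (bv j) v))
  have h := a.toAlternatingMap.map_swap (Matrix.vecCons (bv i) (Matrix.vecCons (bv j) v))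
    (i := 0) (j := 1) (by simp)
  have h1 : (Matrix.vecCons (bv i) (Matrix.vecCons (bv j) v)) ∘ (Equiv.swap (0 : Fin (p + 2)) 1) =
      Matrix.vecCons (bv j) (Matrix.vecCons (bv i) v) := by
    funext s
    refine Fin.cases ?_ (fun s => Fin.cases ?_ (fun s => ?_) s) s
    · simp
    · simp
    · have h2 : Equiv.swap (0 : Fin (p + 2)) 1 s.succ.succ = s.succ.succ :=
        Equiv.swap_apply_of_ne_of_ne (Fin.succ_ne_zero _) (by
          intro h
          exact Fin.succ_ne_zero s (Fin.succ_injective _ h))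
      rw [Function.comp_apply, h2]
      rfl
  rw [h1] at h
  exact h

theorem ip0_left_ext {a b : Alt n p} (h : ∀ c, ip0 a c = ip0 b c) : a = b := by
  by_contra hne
  have h1 : a + -b ≠ 0 := fun h0 => hne (by rw [← sub_eq_add_neg] at h0; exact sub_eq_zero.mp h0)
  have h2 := ip0_self_pos h1
  rw [ip0_add_left, ip0_neg_left, h] at h2
  simp at h2

theorem eps_eps (i k : Fin n) (a : Alt n p) : eps i (eps k a) = -eps k (eps i a) := by
  refine ip0_left_ext fun c => ?_
  rw [ip0_neg_left, ip0_eps, ip0_eps, ip0_eps, ip0_eps, iot_iot, ip0_neg_right]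

theorem act_zero (A : Matrix (Fin n) (Fin n) ℝ) (a : Alt n 0) : act A a = 0 := rfl

theorem act_succ (A : Matrix (Fin n) (Fin n) ℝ) (a : Alt n (p + 1)) :
    act A a = -∑ i, ∑ l, A l i • eps i (iot l a) := by
  simp [act]

/-- `A` and `B⁻¹AB` -/
theorem act_pb (A B : Matrix (Fin n) (Fin n) ℝ) (hB : IsUnit B.det) (a : Alt n p) :
    act A (pb B a) = pb B (act (B * A * B⁻¹) a) := by
  cases p with
  | zero => rw [act_zero, act_zero, pb_zero]
  | succ p =>
    rw [act_succ, act_succ, pb_neg, pb_sum]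
    congr 1
    have h1 : ∀ m i, ∑ l, A l i * B m l = (B * A) m i := fun m i => by
      rw [Matrix.mul_apply]
      exact Finset.sum_congr rfl fun l _ => mul_comm _ _
    have h2 : B * A * B⁻¹ * B = B * A := by
      rw [Matrix.mul_assoc, Matrix.nonsing_inv_mul _ hB, Matrix.mul_one]
    have h3 : ∀ l m, ∑ i, (B * A * B⁻¹) l i * B i m = (B * A) l m := fun l m => by
      conv_rhs => rw [← h2]
      rw [Matrix.mul_apply (M := B * A * B⁻¹)]
    have hL : ∑ i, ∑ l, A l i • eps i (iot l (pb B a)) =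
        ∑ i, ∑ m, (B * A) m i • eps i (pb B (iot m a)) := by
      refine Finset.sum_congr rfl fun i _ => ?_
      simp only [iot_pb, map_sum, map_smul, Finset.smul_sum, smul_smul]
      rw [Finset.sum_comm]
      refine Finset.sum_congr rfl fun m _ => ?_
      rw [← Finset.sum_smul, h1]
    have hR : ∑ i, pb B (∑ l, (B * A * B⁻¹) l i • eps i (iot l a)) =
        ∑ i, ∑ m, (B * A) m i • eps i (pb B (iot m a)) := by
      simp only [pb_sum, pb_smul, pb_eps, Finset.smul_sum, smul_smul]
      rw [Finset.sum_comm]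
      rw [Finset.sum_congr rfl fun l _ => Finset.sum_comm]
      rw [Finset.sum_comm]
      refine Finset.sum_congr rfl fun m _ => Finset.sum_congr rfl fun l _ => ?_
      rw [← Finset.sum_smul, h3]
    rw [hL, hR]

theorem ip0_act (A : Matrix (Fin n) (Fin n) ℝ) (a c : Alt n p) :
    ip0 (act A a) c = ip0 a (act Aᵀ c) := by
  cases p with
  | zero => rw [act_zero, act_zero, ip0_comm 0 c]; simp [ip0, arr_zero]
  | succ p =>
    rw [act_succ, act_succ, ip0_neg_left, ip0_neg_right, ip0_sum_left, ip0_sum_right]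
    congr 1
    simp only [ip0_sum_left, ip0_sum_right, ip0_smul_left, ip0_smul_right]
    rw [Finset.sum_comm]
    refine Finset.sum_congr rfl fun i _ => Finset.sum_congr rfl fun l _ => ?_
    rw [ip0_eps, ip0_comm a (eps i _), ip0_eps, ip0_comm, Matrix.transpose_apply]

/-- `ι^k = g^kj ι_j` -/
def iou (g : Matrix (Fin n) (Fin n) ℝ) (k : Fin n) : Alt n (p + 1) →ₗ[ℝ] Alt n p :=
  ∑ j, g⁻¹ k j • iot j

theorem iou_apply (g : Matrix (Fin n) (Fin n) ℝ) (k : Fin n) (a : Alt n (p + 1)) :
    iou g k a = ∑ j, g⁻¹ k j • iot j a := by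
  simp [iou]

theorem ipG_eps {g : Matrix (Fin n) (Fin n) ℝ} (hg : gᵀ = g) (k : Fin n) (a : Alt n p)
    (c : Alt n (p + 1)) : ipG g (eps k a) c = ipG g a (iou g k c) := by
  unfold ipG
  rw [pb_eps, ip0_sum_left, iou_apply, ip0_sum_right]
  refine Finset.sum_congr rfl fun l _ => ?_
  rw [ip0_smul_left, ip0_smul_right, ip0_eps]

end BH
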