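import Pool.Agent.Lib.MP_4a593f_gt.BH.LDiv

/-!
Row LWz, auxiliary lemmas: linearity and locality of `∇`, integrability, the functions of the
Weitzenböck formula.
-/

open scoped Manifold ContDiff Topology Matrix
open MeasureTheory

noncomputable section

namespace BH

variable {n p : ℕ} {U : Set (E n)} {G : Fin n → Fin n → E n → ℝ}

theorem lwz_integrableOn (hU : IsOpen U) {u : E n → ℝ} (hu : ContinuousOn u U)
    {K : Set (E n)} (hK : IsCompact K) (hKU : K ⊆ U) (h0 : ∀ y ∈ U, y ∉ K → u y = 0) :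
    IntegrableOn u U :=
  ((hu.mono hKU).integrableOn_compact hK).of_forall_sdiff_eq_zero hU.measurableSet
    fun y hy => h0 y hy.1 hy.2

theorem lwz_diff (hU : IsOpen U) {F : Type*} [NormedAddCommGroup F] [NormedSpace ℝ F]
    {f : E n → F} (hf : ContDiffOn ℝ ∞ f U) {y : E n} (hy : y ∈ U) :
    DifferentiableAt ℝ f y :=
  (hf.contDiffAt (hU.mem_nhds hy)).differentiableAt (by simp)

theorem lwz_nab_congr (hU : IsOpen U) (k : Fin n) {f h : E n → Alt n p}
    (H : ∀ z ∈ U, f z = h z) {y : E n} (hy : y ∈ U) : nab G k f y = nab G k h y := by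
  have h1 : f =ᶠ[𝓝 y] h := Filter.eventuallyEq_of_mem (hU.mem_nhds hy) H
  rw [nab, nab, pdF, pdF, h1.fderiv_eq, H y hy]

theorem lwz_nab_neg (k : Fin n) {f : E n → Alt n p} (y : E n) :
    nab G k (fun z => -f z) y = -nab G k f y := by
  rw [nab, nab, pdF, pdF, fderiv_fun_neg, map_neg, neg_add]
  rfl

theorem lwz_nab_sum (k : Fin n) {ι : Type*} (s : Finset ι) {f : ι → E n → Alt n p} {y : E n}
    (hf : ∀ j ∈ s, DifferentiableAt ℝ (f j) y) :
    nab G k (fun z => ∑ j ∈ s, f j z) y = ∑ j ∈ s, nab G k (f j) y := by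
  rw [nab, pdF, fderiv_fun_sum hf, map_sum, sum_apply, ← Finset.sum_add_distrib]
  rfl

theorem lwz_iou_eps (g : Matrix (Fin n) (Fin n) ℝ) (j k : Fin n) (a : Alt n (p + 1)) :
    iou g j (eps k a) = g⁻¹ j k • a - eps k (iou g j a) := by
  simp only [iou, LinearMap.sum_apply, LinearMap.smul_apply, iot_eps, smul_sub, map_sum, map_smul,
    Finset.sum_sub_distrib, smul_ite, smul_zero]
  simp

/-- a linear map applied to a smooth function -/
theorem lwz_lin {q : ℕ} (L : Alt n p →ₗ[ℝ] Alt n q) {f : E n → Alt n p}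
    (hf : ContDiffOn ℝ ∞ f U) : ContDiffOn ℝ ∞ (fun z => L (f z)) U :=
  (LinearMap.toContinuousLinearMap L).contDiff.comp_contDiffOn hf

theorem lwz_iou_smooth (hG : IsMet U G) (j : Fin n) {f : E n → Alt n (p + 1)}
    (hf : ContDiffOn ℝ ∞ f U) : ContDiffOn ℝ ∞ (fun z => iou (gmat G z) j (f z)) U := by
  simp only [iou, LinearMap.sum_apply, LinearMap.smul_apply]
  exact ContDiffOn.sum fun m _ => (hG.inv_smooth j m).smul (lwz_lin (iot m) hf)

theorem lwz_ext_smooth (hU : IsOpen U) (hG : IsMet U G) {f : E n → Alt n p}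
    (hf : ContDiffOn ℝ ∞ f U) : ContDiffOn ℝ ∞ (extDeriv f) U :=
  (ContDiffOn.sum fun k _ => lwz_lin (eps k) (nab_smooth hU hG k hf) :
    ContDiffOn ℝ ∞ (fun z => ∑ k, eps k (nab G k f z)) U).congr fun _ hz => ext_nab hU hG hf hz

theorem lwz_nab_codiff (hU : IsOpen U) (hG : IsMet U G) (k : Fin n) {f : E n → Alt n (p + 1)}
    (hf : ContDiffOn ℝ ∞ f U) {y : E n} (hy : y ∈ U) :
    nab G k (codiff G f) y = -∑ j, (iou (gmat G y) j (nab G k (nab G j f) y) -
      ∑ l, chr G j k l y • iou (gmat G y) l (nab G j f y)) := by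
  rw [lwz_nab_congr hU k (fun z hz => codiff_nab hU hG hf hz) hy, lwz_nab_neg,
    lwz_nab_sum k _ fun j _ => lwz_diff hU (lwz_iou_smooth hG j (nab_smooth hU hG j hf)) hy]
  congr 1
  exact Finset.sum_congr rfl fun j _ => nab_iou hU hG k j (nab_smooth hU hG j hf) hy

theorem lwz_nab_ext (hU : IsOpen U) (hG : IsMet U G) (j : Fin n) {f : E n → Alt n p}
    (hf : ContDiffOn ℝ ∞ f U) {y : E n} (hy : y ∈ U) :
    nab G j (extDeriv f) y = ∑ k, (eps k (nab G j (nab G k f) y) -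
      ∑ l, chr G k j l y • eps l (nab G k f y)) := by
  rw [lwz_nab_congr hU j (fun z hz => ext_nab hU hG hf hz) hy,
    lwz_nab_sum j _ fun k _ => lwz_diff hU (lwz_lin (eps k) (nab_smooth hU hG k hf)) hy]
  exact Finset.sum_congr rfl fun k _ => nab_eps hU j k (nab_smooth hU hG k hf) hy

/-- `ipG` as a linear map -/
def lwz_ipL (g : Matrix (Fin n) (Fin n) ℝ) (c : Alt n p) : Alt n p →ₗ[ℝ] ℝ where
  toFun a := ipG g a c
  map_add' a b := ipG_add_left g a b c
  map_smul' t a := ipG_smul_left g t a c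

/-- `ipG` as a linear map -/
def lwz_ipR (g : Matrix (Fin n) (Fin n) ℝ) (a : Alt n p) : Alt n p →ₗ[ℝ] ℝ where
  toFun c := ipG g a c
  map_add' b c := ipG_add_right g a b c
  map_smul' t c := ipG_smul_right g t a c

theorem lwz_ipG_sum_left (g : Matrix (Fin n) (Fin n) ℝ) {ι : Type*} (s : Finset ι)
    (a : ι → Alt n p) (c : Alt n p) : ipG g (∑ i ∈ s, a i) c = ∑ i ∈ s, ipG g (a i) c :=
  map_sum (lwz_ipL g c) a s

theorem lwz_ipG_sum_right (g : Matrix (Fin n) (Fin n) ℝ) {ι : Type*} (s : Finset ι)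
    (a : Alt n p) (c : ι → Alt n p) : ipG g a (∑ i ∈ s, c i) = ∑ i ∈ s, ipG g a (c i) :=
  map_sum (lwz_ipR g a) c s

theorem lwz_ipG_neg_left (g : Matrix (Fin n) (Fin n) ℝ) (a c : Alt n p) :
    ipG g (-a) c = -ipG g a c := map_neg (lwz_ipL g c) a

theorem lwz_ipG_sub_left (g : Matrix (Fin n) (Fin n) ℝ) (a b c : Alt n p) :
    ipG g (a - b) c = ipG g a c - ipG g b c := map_sub (lwz_ipL g c) a b

theorem lwz_ipG_zero_left (g : Matrix (Fin n) (Fin n) ℝ) (c : Alt n p) :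
    ipG g 0 c = 0 := map_zero (lwz_ipL g c)

theorem lwz_ipG_zero_right (g : Matrix (Fin n) (Fin n) ℝ) (a : Alt n p) :
    ipG g a 0 = 0 := map_zero (lwz_ipR g a)

theorem lwz_pd_mul (j : Fin n) {a b : E n → ℝ} {y : E n} (ha : DifferentiableAt ℝ a y)
    (hb : DifferentiableAt ℝ b y) :
    pd j (fun z => a z * b z) y = pd j a y * b y + a y * pd j b y := by
  rw [pd, fderiv_fun_mul ha hb]
  simp only [add_apply, smul_apply, smul_eq_mul, pd]
  ring

theorem lwz_pd_sum (j : Fin n) {ι : Type*} (s : Finset ι) {a : ι → E n → ℝ} {y : E n}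
    (ha : ∀ i ∈ s, DifferentiableAt ℝ (a i) y) :
    pd j (fun z => ∑ i ∈ s, a i z) y = ∑ i ∈ s, pd j (a i) y := by
  rw [pd, fderiv_fun_sum ha, sum_apply]
  rfl

/-- `Γ` cancels in the divergence -/
theorem lwz_gam_cancel (Γ : Fin n → Fin n → Fin n → ℝ) (hΓ : ∀ l i j, Γ l i j = Γ l j i)
    (h : Fin n → Fin n → ℝ) (u : Fin n → ℝ) :
    ∑ j, ∑ k, ((∑ l, Γ l j l) * (h j k * u k) -
      (∑ l, (Γ j j l * h l k + Γ k j l * h j l)) * u k) =
      -∑ j, ∑ k, h j k * ∑ l, Γ l j k * u l := by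
  have h1 : ∑ j, ∑ k, ∑ l, Γ l j l * (h j k * u k) =
      ∑ j, ∑ k, ∑ l, Γ j j l * h l k * u k := by
    rw [Finset.sum_comm]
    conv_rhs => rw [Finset.sum_comm]
    refine Finset.sum_congr rfl fun k _ => ?_
    rw [Finset.sum_comm]
    exact Finset.sum_congr rfl fun j _ => Finset.sum_congr rfl fun l _ => by
      rw [hΓ j l j]
      ring
  have h2 : ∑ j, ∑ k, ∑ l, Γ k j l * h j l * u k = ∑ j, ∑ k, h j k * ∑ l, Γ l j k * u l := by
    refine Finset.sum_congr rfl fun j _ => ?_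
    rw [Finset.sum_comm]
    refine Finset.sum_congr rfl fun k _ => ?_
    rw [Finset.mul_sum]
    exact Finset.sum_congr rfl fun l _ => by ring
  simp only [Finset.sum_sub_distrib, h1, Finset.sum_mul, add_mul, Finset.sum_add_distrib, h2]
  ring

theorem lwz_pd_off (hU : IsOpen U) (j : Fin n) {u : E n → ℝ} {K : Set (E n)}
    (hK : IsCompact K) (h0 : ∀ y ∈ U, y ∉ K → u y = 0) {y : E n} (hy : y ∈ U) (hyK : y ∉ K) :
    pd j u y = 0 := by
  have h1 : u =ᶠ[𝓝 y] fun _ => (0 : ℝ) :=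
    Filter.eventuallyEq_of_mem ((hU.sdiff hK.isClosed).mem_nhds ⟨hy, hyK⟩)
      fun z hz => h0 z hz.1 hz.2
  rw [pd, h1.fderiv_eq]
  simp

theorem lwz_nab_off (hU : IsOpen U) (j : Fin n) {f : E n → Alt n p} {K : Set (E n)}
    (hK : IsCompact K) (h0 : ∀ y ∈ U, y ∉ K → f y = 0) {y : E n} (hy : y ∈ U) (hyK : y ∉ K) :
    nab G j f y = 0 := by
  rw [lwz_nab_congr (hU.sdiff hK.isClosed) j (h := fun _ => 0)
    (fun z hz => h0 z hz.1 hz.2) ⟨hy, hyK⟩, nab, pdF]
  simp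

theorem lwz_pd_integrable (hU : IsOpen U) (j : Fin n) {u : E n → ℝ} (hu : ContDiffOn ℝ ∞ u U)
    {K : Set (E n)} (hK : IsCompact K) (hKU : K ⊆ U) (h0 : ∀ y ∈ U, y ∉ K → u y = 0) :
    IntegrableOn (pd j u) U := by
  refine lwz_integrableOn hU ?_ hK hKU fun y hy hyK => lwz_pd_off hU j hK h0 hy hyK
  exact (hu.continuousOn_fderiv_of_isOpen hU (by simp)).clm_apply continuousOn_const

end BH
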