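import Pool.Agent.Lib.MP_4a593f_gt.BH.LWz0
import Pool.Agent.Lib.MP_4a593f_gt.Big.K0

/-!
Row LWz, first half (helper62): the Weitzenböck formula on an open set of `ℝⁿ`, `∇*∇`.
-/

open scoped Manifold ContDiff Topology Matrix
open MeasureTheory

noncomputable section

namespace BH

variable {n p : ℕ}

/-- the function `u` as a 0-form -/
def c0 (u : E n → ℝ) : E n → Alt n 0 := fun y =>
  ContinuousAlternatingMap.constOfIsEmpty ℝ (E n) (Fin 0) (u y)

/-- `∇*∇ f = - g^jk (∇_j ∇_k f - Γ^l_jk ∇_l f)` -/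
def rough (G : Fin n → Fin n → E n → ℝ) (f : E n → Alt n p) (y : E n) : Alt n p :=
  -∑ j, ∑ k, (gmat G y)⁻¹ j k • (nab G j (nab G k f) y - ∑ l, chr G l j k y • nab G l f y)

/-- the curvature term `- ε^k ι^j R(∂_k,∂_j)` -/
def wz (G : Fin n → Fin n → E n → ℝ) (y : E n) (a : Alt n (p + 1)) : Alt n (p + 1) :=
  -∑ k, ∑ j, eps k (iou (gmat G y) j (act (rmat G k j y) a))

/-- `⟨∇f,∇h⟩ = g^jk ⟨∇_j f,∇_k h⟩` -/
def nn (G : Fin n → Fin n → E n → ℝ) (f h : E n → Alt n p) (y : E n) : ℝ :=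
  ∑ j, ∑ k, (gmat G y)⁻¹ j k * ipG (gmat G y) (nab G j f y) (nab G k h y)

variable {U : Set (E n)} {G : Fin n → Fin n → E n → ℝ}

/-- Weitzenböck formula -/
theorem weitz (hU : IsOpen U) (hG : IsMet U G) {f : E n → Alt n (p + 1)}
    (hf : ContDiffOn ℝ ∞ f U) {y : E n} (hy : y ∈ U) :
    extDeriv (codiff G f) y + codiff G (extDeriv f) y = rough G f y + wz G y (f y) := by
  have h1 : extDeriv (codiff G f) y =
      -∑ k, ∑ j, eps k (iou (gmat G y) j (nab G k (nab G j f) y)) +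
        ∑ k, ∑ j, ∑ l, chr G j k l y • eps k (iou (gmat G y) l (nab G j f y)) := by
    rw [ext_nab hU hG (codiff_smooth hU hG hf) hy]
    simp only [lwz_nab_codiff hU hG _ hf hy, map_neg, map_sum, map_sub, map_smul,
      Finset.sum_neg_distrib, Finset.sum_sub_distrib]
    abel
  have h2 : codiff G (extDeriv f) y =
      -∑ j, ∑ k, ((gmat G y)⁻¹ j k • nab G j (nab G k f) y) +
        ∑ j, ∑ k, eps k (iou (gmat G y) j (nab G j (nab G k f) y)) +
      ∑ j, ∑ k, ∑ l, chr G k j l y • ((gmat G y)⁻¹ j l • nab G k f y) -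
        ∑ j, ∑ k, ∑ l, chr G k j l y • eps l (iou (gmat G y) j (nab G k f y)) := by
    rw [codiff_nab hU hG (lwz_ext_smooth hU hG hf) hy]
    simp only [lwz_nab_ext hU hG _ hf hy, map_sum, map_sub, map_smul, lwz_iou_eps,
      Finset.sum_sub_distrib, smul_sub]
    abel
  have h3 : wz G y (f y) =
      -∑ k, ∑ j, eps k (iou (gmat G y) j (nab G k (nab G j f) y)) +
        ∑ k, ∑ j, eps k (iou (gmat G y) j (nab G j (nab G k f) y)) := by
    simp only [wz, ← nab_nab hU hG _ _ hf hy, map_sub, Finset.sum_sub_distrib]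
    abel
  have h4 : ∑ j, ∑ k, eps k (iou (gmat G y) j (nab G j (nab G k f) y)) =
      ∑ k, ∑ j, eps k (iou (gmat G y) j (nab G j (nab G k f) y)) := Finset.sum_comm
  have h5 : ∑ j, ∑ k, ∑ l, chr G k j l y • eps l (iou (gmat G y) j (nab G k f y)) =
      ∑ k, ∑ j, ∑ l, chr G j k l y • eps k (iou (gmat G y) l (nab G j f y)) := by
    rw [Finset.sum_comm]
    conv_rhs => rw [Finset.sum_comm]
    refine Finset.sum_congr rfl fun k _ => ?_
    rw [Finset.sum_comm]
    exact Finset.sum_congr rfl fun l _ => Finset.sum_congr rfl fun j _ => by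
      rw [chr_symm hU hG k j l hy]
  have h6 : rough G f y =
      -∑ j, ∑ k, ((gmat G y)⁻¹ j k • nab G j (nab G k f) y) +
        ∑ j, ∑ k, ∑ l, chr G k j l y • ((gmat G y)⁻¹ j l • nab G k f y) := by
    have h7 : ∑ j, ∑ k, ∑ l, chr G k j l y • ((gmat G y)⁻¹ j l • nab G k f y) =
        ∑ j, ∑ k, (gmat G y)⁻¹ j k • ∑ l, chr G l j k y • nab G l f y := by
      refine Finset.sum_congr rfl fun j _ => ?_
      rw [Finset.sum_comm]
      refine Finset.sum_congr rfl fun k _ => ?_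
      rw [Finset.smul_sum]
      exact Finset.sum_congr rfl fun l _ => smul_comm _ _ _
    rw [h7]
    simp only [rough, smul_sub, Finset.sum_sub_distrib]
    abel
  rw [h1, h2, h3, h4, h5, h6]
  abel


/-- Zero off `K` near every point of `U \ K`. -/
theorem lwz_off (hU : IsOpen U) {K : Set (E n)} (hK : IsCompact K) : IsOpen (U \ K) :=
  hU.sdiff hK.isClosed

theorem lwz_symm_inv (hG : IsMet U G) {y : E n} (hy : y ∈ U) (j k : Fin n) :
    (gmat G y)⁻¹ j k = (gmat G y)⁻¹ k j := by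
  have h1 : (gmat G y)ᵀ = gmat G y := by
    ext a c
    exact hG.symm _ _ _ hy
  have h2 : ((gmat G y)⁻¹)ᵀ = (gmat G y)⁻¹ := by rw [Matrix.transpose_nonsing_inv, h1]
  conv_lhs => rw [← h2]
  rfl

/-- the divergence of `g^jk ⟨∇_k f, h⟩` -/
theorem lwz_div (hU : IsOpen U) (hG : IsMet U G) {f h : E n → Alt n p}
    (hf : ContDiffOn ℝ ∞ f U) (hh : ContDiffOn ℝ ∞ h U) {y : E n} (hy : y ∈ U) :
    ∑ j, pd j (fun z => ∑ k, vol G z * ((gmat G z)⁻¹ j k * ipG (gmat G z) (nab G k f z) (h z))) y =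
      nn G f h y * vol G y - ipG (gmat G y) (rough G f y) (h y) * vol G y := by
  have hu : ∀ k, ContDiffOn ℝ ∞ (fun z => ipG (gmat G z) (nab G k f z) (h z)) U := fun k =>
    smooth_ipG hG (nab_smooth hU hG k hf) hh
  have hE : ∀ j, pd j (fun z => ∑ k, vol G z * ((gmat G z)⁻¹ j k *
      ipG (gmat G z) (nab G k f z) (h z))) y =
      ∑ k, (vol G y * ((∑ l, chr G l j l y) *
        ((gmat G y)⁻¹ j k * ipG (gmat G y) (nab G k f y) (h y)) -
        (∑ l, (chr G j j l y * (gmat G y)⁻¹ l k + chr G k j l y * (gmat G y)⁻¹ j l)) *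
          ipG (gmat G y) (nab G k f y) (h y)) +
        vol G y * ((gmat G y)⁻¹ j k * ipG (gmat G y) (nab G j (nab G k f) y) (h y)) +
        vol G y * ((gmat G y)⁻¹ j k * ipG (gmat G y) (nab G k f y) (nab G j h y))) := by
    intro j
    rw [lwz_pd_sum j _ fun k _ => lwz_diff hU
      (hG.vol_smooth.mul ((hG.inv_smooth j k).mul (hu k))) hy]
    refine Finset.sum_congr rfl fun k _ => ?_
    rw [lwz_pd_mul j (lwz_diff hU hG.vol_smooth hy)
      (lwz_diff hU ((hG.inv_smooth j k).mul (hu k)) hy),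
      lwz_pd_mul j (lwz_diff hU (hG.inv_smooth j k) hy) (lwz_diff hU (hu k) hy),
      pd_vol hU hG j hy, pd_inv hU hG j j k hy, pd_ipG hU hG j (nab_smooth hU hG k hf) hh hy]
    ring
  have hB : nn G f h y = ∑ j, ∑ k, (gmat G y)⁻¹ j k *
      ipG (gmat G y) (nab G k f y) (nab G j h y) := by
    rw [nn, Finset.sum_comm]
    exact Finset.sum_congr rfl fun j _ => Finset.sum_congr rfl fun k _ => by
      rw [lwz_symm_inv hG hy j k]
  have hR : ipG (gmat G y) (rough G f y) (h y) =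
      -∑ j, ∑ k, (gmat G y)⁻¹ j k * ipG (gmat G y) (nab G j (nab G k f) y) (h y) +
        ∑ j, ∑ k, (gmat G y)⁻¹ j k *
          ∑ l, chr G l j k y * ipG (gmat G y) (nab G l f y) (h y) := by
    rw [rough, lwz_ipG_neg_left]
    simp only [lwz_ipG_sum_left, ipG_smul_left, lwz_ipG_sub_left, mul_sub,
      Finset.sum_sub_distrib]
    ring
  have hC := lwz_gam_cancel (fun l i j => chr G l i j y) (fun l i j => chr_symm hU hG l i j hy)
    (fun j k => (gmat G y)⁻¹ j k) (fun k => ipG (gmat G y) (nab G k f y) (h y))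
  rw [Finset.sum_congr rfl fun j _ => hE j]
  simp only [Finset.sum_add_distrib, ← Finset.mul_sum] at hC ⊢
  rw [hB, hR, hC]
  ring

theorem lwz_nn_smooth (hU : IsOpen U) (hG : IsMet U G) {f h : E n → Alt n p}
    (hf : ContDiffOn ℝ ∞ f U) (hh : ContDiffOn ℝ ∞ h U) : ContDiffOn ℝ ∞ (nn G f h) U :=
  ContDiffOn.sum fun j _ => ContDiffOn.sum fun k _ => (hG.inv_smooth j k).mul
    (smooth_ipG hG (nab_smooth hU hG j hf) (nab_smooth hU hG k hh))

theorem lwz_rough_smooth (hU : IsOpen U) (hG : IsMet U G) {f : E n → Alt n p}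
    (hf : ContDiffOn ℝ ∞ f U) : ContDiffOn ℝ ∞ (rough G f) U :=
  ContDiffOn.neg <| ContDiffOn.sum fun j _ => ContDiffOn.sum fun k _ =>
    (hG.inv_smooth j k).smul ((nab_smooth hU hG j (nab_smooth hU hG k hf)).sub
      (ContDiffOn.sum fun l _ => (chr_smooth hU hG l j k).smul (nab_smooth hU hG l hf)))

theorem lwz_nn_off (hU : IsOpen U) {f h : E n → Alt n p} {K : Set (E n)}
    (hK : IsCompact K) (h0 : ∀ y ∈ U, y ∉ K → h y = 0) {y : E n} (hy : y ∈ U) (hyK : y ∉ K) :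
    nn G f h y = 0 := by
  simp [nn, lwz_nab_off hU _ hK h0 hy hyK, lwz_ipG_zero_right]

theorem rough_adj (hU : IsOpen U) (hG : IsMet U G) {f h : E n → Alt n p}
    (hf : ContDiffOn ℝ ∞ f U) (hh : ContDiffOn ℝ ∞ h U)
    {K : Set (E n)} (hK : IsCompact K) (hKU : K ⊆ U) (h0 : ∀ y ∈ U, y ∉ K → h y = 0) :
    ∫ y in U, ipG (gmat G y) (rough G f y) (h y) * vol G y =
      ∫ y in U, nn G f h y * vol G y := by
  have hA : IntegrableOn (fun y => nn G f h y * vol G y) U :=
    lwz_integrableOn hU ((lwz_nn_smooth hU hG hf hh).mul hG.vol_smooth).continuousOn hK hKU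
      fun y hy hyK => by simp [lwz_nn_off hU hK h0 hy hyK]
  have hB : IntegrableOn (fun y => ipG (gmat G y) (rough G f y) (h y) * vol G y) U :=
    lwz_integrableOn hU ((smooth_ipG hG (lwz_rough_smooth hU hG hf) hh).mul
      hG.vol_smooth).continuousOn hK hKU
      fun y hy hyK => by simp [h0 y hy hyK, lwz_ipG_zero_right]
  have hX : ∀ j, ContDiffOn ℝ ∞ (fun z => ∑ k, vol G z * ((gmat G z)⁻¹ j k *
      ipG (gmat G z) (nab G k f z) (h z))) U := fun j => ContDiffOn.sum fun k _ =>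
    hG.vol_smooth.mul ((hG.inv_smooth j k).mul (smooth_ipG hG (nab_smooth hU hG k hf) hh))
  have hX0 : ∀ j, ∀ y ∈ U, y ∉ K → ∑ k, vol G y * ((gmat G y)⁻¹ j k *
      ipG (gmat G y) (nab G k f y) (h y)) = 0 := fun j y hy hyK => by
    simp [h0 y hy hyK, lwz_ipG_zero_right]
  have h1 : ∫ y in U, (nn G f h y * vol G y - ipG (gmat G y) (rough G f y) (h y) * vol G y) =
      0 := by
    rw [← setIntegral_congr_fun hU.measurableSet fun y hy => lwz_div hU hG hf hh hy,
      integral_finsetSum _ fun j _ => lwz_pd_integrable hU j (hX j) hK hKU (hX0 j)]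
    exact Finset.sum_eq_zero fun j _ => int_pd hU j (hX j) hK hKU (hX0 j)
  rw [integral_sub hA hB] at h1
  linarith

end BH
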