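import Pool.Agent.Lib.MP_4a593f_gt.BH.MolA
import Pool.Agent.Lib.MP_4a593f_gt.BH.Mol.Lim

/-!
Bridge: the kernels `rho n k` are the kernels `kap (k + 1)` of `BH/Mol`.
-/

open scoped Manifold ContDiff Topology Matrix
open MeasureTheory Filter

noncomputable section

namespace BH

open Pool.Agent.Lib.MP_4a593f_gt.BH

variable {n p : ℕ} {F F' : Type} [NormedAddCommGroup F] [NormedSpace ℝ F] [FiniteDimensional ℝ F]
  [NormedAddCommGroup F'] [NormedSpace ℝ F'] [FiniteDimensional ℝ F']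

theorem bmp_eq (k : ℕ) (x : E n) :
    bmp n k x = Mol.bump0 (E n) (((k : ℝ) + 1) • x) := by
  have hk : (k : ℝ) + 1 ≠ 0 := by positivity
  rw [ContDiffBump.apply, ContDiffBump.apply]
  have e1 : (bmp n k).rOut / (bmp n k).rIn = 2 := by
    change (1 / ((k : ℝ) + 1)) / (1 / (2 * ((k : ℝ) + 1))) = 2
    field_simp
  have e2 : (Mol.bump0 (E n)).rOut / (Mol.bump0 (E n)).rIn = 2 := by
    change (1 : ℝ) / (1 / 2) = 2
    norm_num
  have e3 : (bmp n k).rIn⁻¹ = 2 * ((k : ℝ) + 1) := by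
    change (1 / (2 * ((k : ℝ) + 1)))⁻¹ = 2 * ((k : ℝ) + 1)
    rw [one_div, inv_inv]
  have e4 : (Mol.bump0 (E n)).rIn⁻¹ = 2 := by
    change ((1 : ℝ) / 2)⁻¹ = 2
    norm_num
  rw [e1, e2, e3, e4, sub_zero, sub_zero, smul_smul]

theorem rho_eq (k : ℕ) (x : E n) : rho n k x = Mol.kap ((k : ℝ) + 1) x := by
  have hk : (0 : ℝ) < (k : ℝ) + 1 := by positivity
  have h0 : ∀ x : E n, bmp n k x = Mol.bump0 (E n) (((k : ℝ) + 1) • x) := bmp_eq k
  have h1 : ∫ x : E n, bmp n k x =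
      (((k : ℝ) + 1) ^ Module.finrank ℝ (E n))⁻¹ * ∫ x : E n, Mol.bump0 (E n) x := by
    rw [integral_congr_ae (ae_of_all _ h0),
      Measure.integral_comp_smul_of_nonneg (μ := (volume : Measure (E n)))
        (f := fun x => Mol.bump0 (E n) x) (R := (k : ℝ) + 1) (hR := hk.le), smul_eq_mul]
  rw [rho, Mol.kap, Mol.kap0, ContDiffBump.normed_def, ContDiffBump.normed_def, h1, h0]
  have h2 : ((k : ℝ) + 1) ^ Module.finrank ℝ (E n) ≠ 0 := pow_ne_zero _ hk.ne'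
  rw [div_eq_mul_inv, mul_inv, inv_inv, div_eq_mul_inv]
  ring

omit [FiniteDimensional ℝ F] in
theorem mol_eq_mol (k : ℕ) (u : E n → F) (x : E n) : mol k u x = Mol.mol ((k : ℝ) + 1) u x := by
  rw [mol, Mol.mol]
  simp only [rho_eq]

omit [FiniteDimensional ℝ F] in
theorem mol_eq_mol' (k : ℕ) (u : E n → F) : mol k u = Mol.mol ((k : ℝ) + 1) u :=
  funext fun x => mol_eq_mol k u x

end BH
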