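import Pool.Agent.Lib.MP_4a593f_gt.BH.MolB
import Pool.Agent.Lib.MP_4a593f_gt.BH.MolBr

/-!
Row MolC: Friedrichs' commutator lemma, from `BH/Mol/Com`, `BH/Mol/Lim` (helper77) by the bridge
`rho n k = kap (k + 1)` (`BH/MolBr`).
-/

open scoped Manifold ContDiff Topology Matrix
open MeasureTheory Filter

noncomputable section

namespace BH

open Pool.Agent.Lib.MP_4a593f_gt.BH

variable {n p : ℕ} {F F' : Type} [NormedAddCommGroup F] [NormedSpace ℝ F] [FiniteDimensional ℝ F]
  [NormedAddCommGroup F'] [NormedSpace ℝ F'] [FiniteDimensional ℝ F']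

omit [FiniteDimensional ℝ F] [FiniteDimensional ℝ F'] in
private theorem fried_com (k : ℕ) (B : E n → (F →L[ℝ] F')) (u : E n → F) :
    (fun z => B z (mol k u z) - mol k (fun y => B y (u y)) z) =
      Mol.com ((k : ℝ) + 1) B u := by
  funext z
  rw [Mol.com, mol_eq_mol, mol_eq_mol]

/-- FRIEDRICHS' COMMUTATOR LEMMA -/
theorem fried {B : E n → (F →L[ℝ] F')} (hB : ContDiff ℝ ∞ B) (hc : HasCompactSupport B) :
    ∃ C : ℝ, ∀ (k : ℕ) (u : E n → F), ContDiff ℝ ∞ u → HasCompactSupport u →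
      ∫ x, ‖fderiv ℝ (fun z => B z (mol k u z) - mol k (fun y => B y (u y)) z) x‖ ^ 2 ≤
        C * ∫ x, ‖u x‖ ^ 2 := by
  have : CompleteSpace F := FiniteDimensional.complete ℝ F
  have : CompleteSpace F' := FiniteDimensional.complete ℝ F'
  obtain ⟨C, -, h⟩ := Mol.com_bound (hB.of_le (by norm_num)) hc
  refine ⟨C, fun k u hu hcu => ?_⟩
  rw [fried_com]
  exact (h ((k : ℝ) + 1) (by have := k.cast_nonneg (α := ℝ); linarith) u hu.continuous hcu).2

theorem fried_lim {B : E n → (F →L[ℝ] F')} (hB : ContDiff ℝ ∞ B) (hc : HasCompactSupport B)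
    {u : E n → F} (hu : ContDiff ℝ ∞ u) (hcu : HasCompactSupport u) :
    Tendsto (fun k => ∫ x,
      ‖fderiv ℝ (fun z => B z (mol k u z) - mol k (fun y => B y (u y)) z) x‖ ^ 2) atTop
      (𝓝 0) := by
  have : CompleteSpace F := FiniteDimensional.complete ℝ F
  have : CompleteSpace F' := FiniteDimensional.complete ℝ F'
  have h := Mol.com_fderiv_tendsto (contDiff_infty.1 hB 2) hc (hu.of_le (by norm_num)) hcu
  have h1 : Tendsto (fun k : ℕ => (k : ℝ) + 1) atTop atTop :=
    tendsto_natCast_atTop_atTop.atTop_add tendsto_const_nhds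
  refine (h.comp h1).congr fun k => ?_
  rw [fried_com]
  rfl

end BH
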