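import Pool.Agent.Lib.MP_4a593f_gt.BH.Ip

/-!
Row MolA: mollifiers on `ℝⁿ`.
-/

open scoped Manifold ContDiff Topology Matrix
open MeasureTheory Filter

noncomputable section

namespace BH

variable {n p : ℕ} {F F' : Type} [NormedAddCommGroup F] [NormedSpace ℝ F] [FiniteDimensional ℝ F]
  [NormedAddCommGroup F'] [NormedSpace ℝ F'] [FiniteDimensional ℝ F']

/-- a bump function of radius `1/(k+1)` -/
def bmp (n k : ℕ) : ContDiffBump (0 : E n) where
  rIn := 1 / (2 * ((k : ℝ) + 1))
  rOut := 1 / ((k : ℝ) + 1)
  rIn_pos := by positivity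
  rIn_lt_rOut := by
    have : (0 : ℝ) < (k : ℝ) + 1 := by positivity
    exact one_div_lt_one_div_of_lt this (by linarith)

/-- the mollifier kernels -/
def rho (n k : ℕ) (y : E n) : ℝ := (bmp n k).normed volume y

/-- mollification -/
def mol (k : ℕ) (u : E n → F) (x : E n) : F := ∫ y, rho n k y • u (x - y)

/-! ### The kernels -/

theorem rho_cont (n k : ℕ) : Continuous (rho n k) := (bmp n k).continuous_normed

theorem rho_smooth (n k : ℕ) : ContDiff ℝ ∞ (rho n k) := (bmp n k).contDiff_normed

theorem rho_compact (n k : ℕ) : HasCompactSupport (rho n k) := (bmp n k).hasCompactSupport_normed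

theorem rho_int (n k : ℕ) : LocallyIntegrable (rho n k) volume :=
  (bmp n k).integrable_normed.locallyIntegrable

theorem rho_ball {n k : ℕ} {y : E n} (h : rho n k y ≠ 0) : ‖y‖ < 1 / ((k : ℝ) + 1) := by
  have h1 : y ∈ Function.support ((bmp n k).normed volume) := h
  rw [(bmp n k).support_normed_eq, mem_ball_zero_iff] at h1
  exact h1

theorem mol_conv (k : ℕ) (u : E n → F) :
    mol k u = MeasureTheory.convolution (rho n k) u (ContinuousLinearMap.lsmul ℝ ℝ) volume := rfl

theorem mol_integrable (k : ℕ) {u : E n → F} (hu : Continuous u) (x : E n) :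
    Integrable (fun y => rho n k y • u (x - y)) volume := by
  refine Continuous.integrable_of_hasCompactSupport ?_ ?_
  · exact (rho_cont n k).smul (hu.comp (continuous_const.sub continuous_id))
  · exact (rho_compact n k).smul_right

/-! ### Mollification -/

theorem mol_add (k : ℕ) {u v : E n → F} (hu : Continuous u) (hv : Continuous v) (x : E n) :
    mol k (fun y => u y + v y) x = mol k u x + mol k v x := by
  unfold mol
  rw [← integral_add (mol_integrable k hu x) (mol_integrable k hv x)]
  simp only [smul_add]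

theorem mol_smul (k : ℕ) (c : ℝ) (u : E n → F) (x : E n) :
    mol k (fun y => c • u y) x = c • mol k u x := by
  unfold mol
  rw [← integral_smul]
  refine integral_congr_ae (ae_of_all _ fun y => ?_)
  exact smul_comm _ _ _

theorem mol_smooth (k : ℕ) {u : E n → F} (hu : Continuous u) : ContDiff ℝ ∞ (mol k u) := by
  rw [mol_conv]
  exact (rho_compact n k).contDiff_convolution_left _ (rho_smooth n k) hu.locallyIntegrable

theorem mol_support (k : ℕ) {u : E n → F} {x : E n} (hx : mol k u x ≠ 0) :
    ∃ y, u y ≠ 0 ∧ dist x y ≤ 1 / ((k : ℝ) + 1) := by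
  by_contra hcon
  push Not at hcon
  apply hx
  unfold mol
  rw [← integral_zero (E n) F (μ := volume)]
  refine integral_congr_ae (ae_of_all _ fun y => ?_)
  change rho n k y • u (x - y) = 0
  by_cases h1 : rho n k y = 0
  · rw [h1, zero_smul]
  by_cases h2 : u (x - y) = 0
  · rw [h2, smul_zero]
  · exfalso
    have h3 := hcon (x - y) h2
    rw [dist_eq_norm, sub_sub_cancel] at h3
    exact absurd (rho_ball h1) h3.not_gt

theorem mol_compact (k : ℕ) {u : E n → F} (hc : HasCompactSupport u) :
    HasCompactSupport (mol k u) := by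
  rw [mol_conv]
  exact (rho_compact n k).convolution _ hc

theorem fderiv_mol (k : ℕ) {u : E n → F} (hu : ContDiff ℝ ∞ u) (hc : HasCompactSupport u)
    (x : E n) : fderiv ℝ (mol k u) x = mol k (fderiv ℝ u) x := by
  have h := hc.hasFDerivAt_convolution_right (ContinuousLinearMap.lsmul ℝ ℝ) (rho_int n k)
    (hu.of_le (by simp)) x
  rw [mol_conv, h.fderiv]
  rfl

theorem mol_clm (k : ℕ) (L : F →L[ℝ] F') {u : E n → F} (hu : Continuous u) (x : E n) :
    mol k (fun y => L (u y)) x = L (mol k u x) := by
  unfold mol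
  rw [← L.integral_comp_comm (mol_integrable k hu x)]
  refine integral_congr_ae (ae_of_all _ fun y => ?_)
  exact (map_smul L _ _).symm

theorem extDeriv_mol (k : ℕ) {f : E n → Alt n p} (hf : ContDiff ℝ ∞ f)
    (hc : HasCompactSupport f) (x : E n) : extDeriv (mol k f) x = mol k (extDeriv f) x := by
  have h1 : extDeriv (mol k f) x =
      ContinuousAlternatingMap.alternatizeUncurryFinCLM ℝ (E n) ℝ (fderiv ℝ (mol k f) x) := rfl
  rw [h1, fderiv_mol k hf hc, ← mol_clm k _ (hf.continuous_fderiv (by simp))]
  rfl

end BH
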