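import Pool.Agent.Lib.MP_4a593f_gt.BH.MolBr
import Pool.Agent.Lib.MP_4a593f_gt.BH.Mol.Unif

/-!
Row MolB: `L²` estimates and limits for mollifiers.
-/

open scoped Manifold ContDiff Topology Matrix
open MeasureTheory Filter

noncomputable section

namespace BH

open Pool.Agent.Lib.MP_4a593f_gt.BH

variable {n p : ℕ} {F F' : Type} [NormedAddCommGroup F] [NormedSpace ℝ F] [FiniteDimensional ℝ F]
  [NormedAddCommGroup F'] [NormedSpace ℝ F'] [FiniteDimensional ℝ F']

theorem molb_pos (k : ℕ) : (0 : ℝ) < (k : ℝ) + 1 := by positivity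

theorem molb_tendsto : Tendsto (fun k : ℕ => (k : ℝ) + 1) atTop atTop :=
  tendsto_atTop_add_const_right _ _ tendsto_natCast_atTop_atTop

omit [FiniteDimensional ℝ F] in
/-- Jensen -/
theorem mol_sq (k : ℕ) {u : E n → F} (hu : Continuous u) (hc : HasCompactSupport u) :
    ∫ x, ‖mol k u x‖ ^ 2 ≤ ∫ x, ‖u x‖ ^ 2 := by
  rw [mol_eq_mol']
  exact Mol.mol_sq_le (molb_pos k) hu hc

theorem mol_lim {u : E n → F} (hu : Continuous u) (hc : HasCompactSupport u) :
    Tendsto (fun k => ∫ x, ‖mol k u x - u x‖ ^ 2) atTop (𝓝 0) := by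
  have := FiniteDimensional.complete ℝ F
  have h := (Mol.mol_tendsto_cont hu hc).comp molb_tendsto
  refine h.congr fun k => ?_
  simp only [Function.comp_apply, mol_eq_mol']

theorem mol_unif {u : E n → F} (hu : Continuous u) (hc : HasCompactSupport u) :
    ∀ ε > 0, ∀ᶠ k in atTop, ∀ x, ‖mol k u x - u x‖ ≤ ε := by
  have := FiniteDimensional.complete ℝ F
  intro ε hε
  have h := molb_tendsto.eventually (Mol.mol_unif hu hc hε)
  filter_upwards [h] with k hk x
  rw [mol_eq_mol']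
  exact hk x

/-- the component `I` as a continuous linear map -/
def molbArr (n p : ℕ) (I : Fin p → Fin n) : Alt n p →L[ℝ] ℝ :=
  LinearMap.toContinuousLinearMap
    { toFun := fun a => arr a I
      map_add' := fun _ _ => rfl
      map_smul' := fun _ _ => rfl }

/-- a sum of squares of functionals as a continuous bilinear map -/
def molbSq {V : Type*} [NormedAddCommGroup V] [NormedSpace ℝ V] {ι : Type*} [Fintype ι] (c : ℝ)
    (f : ι → V →L[ℝ] ℝ) : V →L[ℝ] V →L[ℝ] ℝ := c • ∑ i, (f i).smulRight (f i)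

theorem molbSq_apply {V : Type*} [NormedAddCommGroup V] [NormedSpace ℝ V] {ι : Type*}
    [Fintype ι] (c : ℝ) (f : ι → V →L[ℝ] ℝ) (a b : V) :
    molbSq c f a b = c * ∑ i, f i a * f i b := by
  unfold molbSq
  simp

/-- `ip0` as a continuous bilinear map -/
def molbIp (n p : ℕ) : Alt n p →L[ℝ] Alt n p →L[ℝ] ℝ :=
  molbSq ((p.factorial : ℝ))⁻¹ (molbArr n p)

theorem molbIp_apply (a c : Alt n p) : molbIp n p a c = ip0 a c := molbSq_apply _ _ a c

theorem mol_adj (k : ℕ) {u v : E n → Alt n p} (hu : Continuous u) (hc : HasCompactSupport u)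
    (hv : Continuous v) (hc' : HasCompactSupport v) :
    ∫ x, ip0 (mol k u x) (v x) = ∫ x, ip0 (u x) (mol k v x) := by
  have h := Mol.mol_adj (molb_pos k) (molbIp n p) hu hv hc'
  simp only [molbIp_apply] at h
  rw [mol_eq_mol', mol_eq_mol']
  exact h

/-- for each `k`: a bound for the derivative -/
theorem fderiv_mol_sq (k : ℕ) : ∃ B : ℝ, ∀ (u : E n → F), Continuous u → HasCompactSupport u →
    ∫ x, ‖fderiv ℝ (mol k u) x‖ ^ 2 ≤ B * ∫ x, ‖u x‖ ^ 2 := by
  have := FiniteDimensional.complete ℝ F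
  refine ⟨Mol.dkap (E n) ((k : ℝ) + 1) ^ 2, fun u hu hc => ?_⟩
  rw [mol_eq_mol']
  exact Mol.mol_fderiv_sq_le (molb_pos k) hu hc

end BH
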