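import Pool.Agent.Lib.MP_4a593f_gt.BH.Del
import Pool.Agent.Lib.MP_4a593f_gt.BH.Mol

/-!
Rows P: the smoothing operators `P_k` and their adjoints `J_k` in one chart.
-/

open scoped Manifold ContDiff Bundle Topology Matrix
open MeasureTheory Filter

noncomputable section

universe u

namespace BH

variable {n p : ℕ} {M : Type u} [TopologicalSpace M] [ChartedSpace (E n) M]
  [IsManifold 𝓘(ℝ, E n) ∞ M] [CompactSpace M] [T2Space M]

variable (n M) in
/-- a chart with a cut-off `χ`, a second cut-off `ψ` in the chart, and a first index `k0` -/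
structure Piece where
  e : OpenPartialHomeomorph M (E n)
  he : e ∈ atlas (E n) M
  χ : M → ℝ
  hχ : SmF n χ
  hs : tsupport χ ⊆ e.source
  ψ : E n → ℝ
  hψ : ContDiff ℝ ∞ ψ
  ψc : HasCompactSupport ψ
  ψs : tsupport ψ ⊆ e.target
  k0 : ℕ
  ψ1 : ∀ x ∈ tsupport χ, ∀ y, dist y (e x) ≤ 2 / ((k0 : ℝ) + 1) → y ∈ e.target ∧ ψ y = 1


omit [IsManifold 𝓘(ℝ, E n) ∞ M] [CompactSpace M] [T2Space M] in
/-- extension by zero of a smooth function with compact support in an open set -/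
theorem Piece.ext_zero {F : Type*} [NormedAddCommGroup F] [NormedSpace ℝ F]
    (e : OpenPartialHomeomorph M (E n)) {K : Set (E n)} (hK : IsCompact K) (hKt : K ⊆ e.target)
    {f h : E n → F} (hf : ContDiffOn ℝ ∞ f e.target) (h0 : ∀ y ∈ e.target, y ∉ K → f y = 0)
    (h1 : ∀ y ∈ e.target, h y = f y) (h2 : ∀ y, y ∉ e.target → h y = 0) :
    ContDiff ℝ ∞ h ∧ HasCompactSupport h ∧ ∀ y, h y ≠ 0 → y ∈ K := by
  have h3 : ∀ y, h y ≠ 0 → y ∈ K := by
    intro y hy
    by_contra hyK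
    by_cases ht : y ∈ e.target
    · exact hy ((h1 y ht).trans (h0 y ht hyK))
    · exact hy (h2 y ht)
  refine ⟨?_, HasCompactSupport.intro hK fun y hy => ?_, h3⟩
  · rw [contDiff_iff_contDiffAt]
    intro y
    by_cases ht : y ∈ e.target
    · refine (hf.contDiffAt (e.open_target.mem_nhds ht)).congr_of_eventuallyEq ?_
      filter_upwards [e.open_target.mem_nhds ht] with z hz
      exact h1 z hz
    · have hy : y ∈ Kᶜ := fun h => ht (hKt h)
      refine (contDiffAt_const (c := (0 : F))).congr_of_eventuallyEq ?_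
      filter_upwards [hK.isClosed.isOpen_compl.mem_nhds hy] with z hz
      by_contra hne
      exact hz (h3 z hne)
  · by_contra hne
    exact hy (h3 y hne)

omit [IsManifold 𝓘(ℝ, E n) ∞ M] in
theorem Piece.K_compact (Q : Piece n M) : IsCompact (Q.e '' tsupport Q.χ) :=
  ((isClosed_tsupport _).isCompact).image_of_continuousOn (Q.e.continuousOn.mono Q.hs)

omit [IsManifold 𝓘(ℝ, E n) ∞ M] [CompactSpace M] [T2Space M] in
theorem Piece.K_subset (Q : Piece n M) : Q.e '' tsupport Q.χ ⊆ Q.e.target := by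
  rintro _ ⟨x, hx, rfl⟩
  exact Q.e.map_source (Q.hs hx)

omit [IsManifold 𝓘(ℝ, E n) ∞ M] [CompactSpace M] [T2Space M] in
theorem Piece.χ_off (Q : Piece n M) {y : E n} (hy : y ∈ Q.e.target)
    (h : y ∉ Q.e '' tsupport Q.χ) : Q.χ (Q.e.symm y) = 0 := by
  by_contra h0
  exact h ⟨Q.e.symm y, subset_tsupport _ h0, Q.e.right_inv hy⟩

theorem exists_piece {e : OpenPartialHomeomorph M (E n)} (he : e ∈ atlas (E n) M) {χ : M → ℝ}
    (hχ : SmF n χ) (hs : tsupport χ ⊆ e.source) : ∃ Q : Piece n M, Q.e = e ∧ Q.χ = χ := by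
  have hK : IsCompact (e '' tsupport χ) :=
    ((isClosed_tsupport _).isCompact).image_of_continuousOn (e.continuousOn.mono hs)
  have hKt : e '' tsupport χ ⊆ e.target := by
    rintro _ ⟨x, hx, rfl⟩
    exact e.map_source (hs hx)
  obtain ⟨ψ, hψ, ψc, -, ψs, V, hV, hKV, hV1⟩ := exists_cutE hK e.open_target hKt
  obtain ⟨δ, hδ, hsub⟩ := hK.exists_cthickening_subset_open (hV.inter e.open_target)
    (Set.subset_inter hKV hKt)
  obtain ⟨k0, hk0⟩ := exists_nat_gt (2 / δ)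
  refine ⟨⟨e, he, χ, hχ, hs, ψ, hψ, ψc, ψs, k0, fun x hx y hy => ?_⟩, rfl, rfl⟩
  have hle : 2 / ((k0 : ℝ) + 1) ≤ δ := by
    rw [div_le_iff₀ (by positivity)]
    rw [div_lt_iff₀ hδ] at hk0
    nlinarith
  have hmem := hsub (Metric.mem_cthickening_of_dist_le y (e x) δ _ ⟨x, hx, rfl⟩ (hy.trans hle))
  exact ⟨hmem.2, hV1 y hmem.1⟩

open Classical in
/-- the form `χ α` in the chart, extended by zero -/
def Piece.lx (Q : Piece n M) (α : Form n M p) (y : E n) : Alt n p :=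
  if y ∈ Q.e.target then Q.χ (Q.e.symm y) • loc Q.e α y else 0

open Classical in
/-- `ψ vol raise α` in the chart, extended by zero -/
def Piece.rx (Q : Piece n M) (g : Metric n M) (α : Form n M p) (y : E n) : Alt n p :=
  if y ∈ Q.e.target then
    (Q.ψ y * vol (gloc Q.e g) y) • pb (gmat (gloc Q.e g) y)⁻¹ (loc Q.e α y)
  else 0

open Classical in
/-- the part `dχ ∧ α` of `d(χ α)` -/
def Piece.wx (Q : Piece n M) (α : Form n M p) (y : E n) : Alt n (p + 1) :=
  if y ∈ Q.e.target then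
    loc Q.e (dM (fs Q.χ α)) y - Q.χ (Q.e.symm y) • loc Q.e (dM α) y
  else 0

theorem Piece.lx_smooth (Q : Piece n M) {α : Form n M p} (hα : Smooth α) :
    ContDiff ℝ ∞ (Q.lx α) ∧ HasCompactSupport (Q.lx α) ∧
      ∀ y, Q.lx α y ≠ 0 → y ∈ Q.e '' tsupport Q.χ := by
  refine Piece.ext_zero Q.e Q.K_compact Q.K_subset
    (f := fun y => Q.χ (Q.e.symm y) • loc Q.e α y) ((Q.hχ Q.e Q.he).smul (hα Q.e Q.he))
    (fun y hy hyK => ?_) (fun y hy => if_pos hy) (fun y hy => if_neg hy)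
  change Q.χ (Q.e.symm y) • loc Q.e α y = 0
  rw [Q.χ_off hy hyK, zero_smul]

theorem Piece.wx_smooth (Q : Piece n M) {α : Form n M p} (hα : Smooth α) :
    ContDiff ℝ ∞ (Q.wx α) ∧ HasCompactSupport (Q.wx α) ∧
      ∀ y, Q.wx α y ≠ 0 → y ∈ Q.e '' tsupport Q.χ := by
  have hfs : Smooth (fs Q.χ α) := Smooth.fs Q.hχ hα
  refine Piece.ext_zero Q.e Q.K_compact Q.K_subset
    (f := fun y => loc Q.e (dM (fs Q.χ α)) y - Q.χ (Q.e.symm y) • loc Q.e (dM α) y)
    ((hfs.dM Q.e Q.he).sub ((Q.hχ Q.e Q.he).smul (hα.dM Q.e Q.he)))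
    (fun y hy hyK => ?_) (fun y hy => if_pos hy) (fun y hy => if_neg hy)
  change loc Q.e (dM (fs Q.χ α)) y - Q.χ (Q.e.symm y) • loc Q.e (dM α) y = 0
  have h1 : loc Q.e (fs Q.χ α) =ᶠ[𝓝 y] fun _ => 0 := by
    filter_upwards [Q.e.open_target.mem_nhds hy,
      Q.K_compact.isClosed.isOpen_compl.mem_nhds hyK] with z hz hzK
    rw [loc_fs, Q.χ_off hz hzK, zero_smul]
  have h2 : extDeriv (fun _ : E n => (0 : Alt n p)) y = 0 := by
    unfold extDeriv
    rw [fderiv_fun_const]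
    ext v
    simp [ContinuousAlternatingMap.alternatizeUncurryFin_apply]
  rw [Q.χ_off hy hyK, zero_smul, sub_zero, loc_dM hfs Q.he hy, h1.extDeriv_eq, h2]

theorem Piece.rx_smooth (Q : Piece n M) (g : Metric n M) {α : Form n M p} (hα : Smooth α) :
    ContDiff ℝ ∞ (Q.rx g α) ∧ HasCompactSupport (Q.rx g α) ∧
      ∀ y, Q.rx g α y ≠ 0 → y ∈ tsupport Q.ψ := by
  have hG := isMet_gloc g Q.he
  refine Piece.ext_zero Q.e Q.ψc Q.ψs
    (f := fun y => (Q.ψ y * vol (gloc Q.e g) y) • pb (gmat (gloc Q.e g) y)⁻¹ (loc Q.e α y))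
    ((Q.hψ.contDiffOn.mul hG.vol_smooth).smul
      (smooth_pb (A := fun z => (gmat (gloc Q.e g) z)⁻¹) hG.inv_smooth (hα Q.e Q.he)))
    (fun y hy hyK => ?_) (fun y hy => if_pos hy) (fun y hy => if_neg hy)
  change (Q.ψ y * vol (gloc Q.e g) y) • pb (gmat (gloc Q.e g) y)⁻¹ (loc Q.e α y) = 0
  rw [image_eq_zero_of_notMem_tsupport hyK, zero_mul, zero_smul]

/-- `P_k α` -/
def Piece.P (Q : Piece n M) (k : ℕ) (α : Form n M p) : Form n M p :=
  BH.mk Q.e (mol (k + Q.k0) (Q.lx α))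

/-- `W_k α` -/
def Piece.W (Q : Piece n M) (k : ℕ) (α : Form n M p) : Form n M (p + 1) :=
  BH.mk Q.e (mol (k + Q.k0) (Q.wx α))

/-- `J_k α` -/
def Piece.J (Q : Piece n M) (g : Metric n M) (k : ℕ) (α : Form n M p) : Form n M p :=
  BH.mk Q.e fun y => (Q.χ (Q.e.symm y) * (vol (gloc Q.e g) y)⁻¹) •
    pb (gmat (gloc Q.e g) y) (mol (k + Q.k0) (Q.rx g α) y)

omit [IsManifold 𝓘(ℝ, E n) ∞ M] [CompactSpace M] [T2Space M] in
/-- mollifications of functions supported in `e(supp χ)` vanish outside `supp ψ` -/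
theorem Piece.mol_off {q : ℕ} (Q : Piece n M) (k : ℕ) {f : E n → Alt n q}
    (hf : ∀ y, f y ≠ 0 → y ∈ Q.e '' tsupport Q.χ) {y : E n} (hy : y ∉ tsupport Q.ψ) :
    mol (k + Q.k0) f y = 0 := by
  by_contra hne
  obtain ⟨z, hz, hd⟩ := mol_support (k + Q.k0) hne
  obtain ⟨x, hx, rfl⟩ := hf z hz
  have hle : (1 : ℝ) / (((k + Q.k0 : ℕ) : ℝ) + 1) ≤ 2 / ((Q.k0 : ℝ) + 1) := by
    rw [div_le_div_iff₀ (by positivity) (by positivity)]
    push_cast
    have hk : (0 : ℝ) ≤ k := Nat.cast_nonneg k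
    have hk0 : (0 : ℝ) ≤ Q.k0 := Nat.cast_nonneg _
    linarith
  have h1 := (Q.ψ1 x hx y (hd.trans hle)).2
  refine hy (subset_tsupport _ ?_)
  rw [Function.mem_support, h1]
  exact one_ne_zero

theorem Piece.P_smooth (Q : Piece n M) (k : ℕ) {α : Form n M p} (hα : Smooth α) :
    Smooth (Q.P k α) :=
  smooth_mk Q.he Q.ψc Q.ψs (mol_smooth _ (Q.lx_smooth hα).1.continuous).contDiffOn
    fun _ _ hyK => Q.mol_off k (Q.lx_smooth hα).2.2 hyK

theorem Piece.W_smooth (Q : Piece n M) (k : ℕ) {α : Form n M p} (hα : Smooth α) :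
    Smooth (Q.W k α) :=
  smooth_mk Q.he Q.ψc Q.ψs (mol_smooth _ (Q.wx_smooth hα).1.continuous).contDiffOn
    fun _ _ hyK => Q.mol_off k (Q.wx_smooth hα).2.2 hyK

theorem Piece.J_smooth (Q : Piece n M) (g : Metric n M) (k : ℕ) {α : Form n M p}
    (hα : Smooth α) : Smooth (Q.J g k α) := by
  have hG := isMet_gloc g Q.he
  refine smooth_mk Q.he Q.K_compact Q.K_subset
    (((Q.hχ Q.e Q.he).mul (ContDiffOn.inv hG.vol_smooth fun y hy => (hG.vol_pos hy).ne')).smul
      (smooth_pb (A := gmat (gloc Q.e g)) hG.smooth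
        (mol_smooth _ (Q.rx_smooth g hα).1.continuous).contDiffOn)) ?_
  intro y hy hyK
  change (Q.χ (Q.e.symm y) * (vol (gloc Q.e g) y)⁻¹) •
    pb (gmat (gloc Q.e g) y) (mol (k + Q.k0) (Q.rx g α) y) = 0
  rw [Q.χ_off hy hyK, zero_mul, zero_smul]

omit [IsManifold 𝓘(ℝ, E n) ∞ M] [CompactSpace M] [T2Space M] in
theorem Piece.lx_add (Q : Piece n M) (α β : Form n M p) :
    Q.lx (α + β) = fun y => Q.lx α y + Q.lx β y := by
  funext y
  unfold Piece.lx
  by_cases hy : y ∈ Q.e.target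
  · rw [if_pos hy, if_pos hy, if_pos hy, loc_add, Pi.add_apply, smul_add]
  · rw [if_neg hy, if_neg hy, if_neg hy, add_zero]

omit [IsManifold 𝓘(ℝ, E n) ∞ M] [CompactSpace M] [T2Space M] in
theorem Piece.lx_smul (Q : Piece n M) (c : ℝ) (α : Form n M p) :
    Q.lx (c • α) = fun y => c • Q.lx α y := by
  funext y
  unfold Piece.lx
  by_cases hy : y ∈ Q.e.target
  · rw [if_pos hy, if_pos hy, loc_smul, Pi.smul_apply, smul_comm]
  · rw [if_neg hy, if_neg hy, smul_zero]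

omit [IsManifold 𝓘(ℝ, E n) ∞ M] [CompactSpace M] [T2Space M] in
theorem Piece.fs_add (a : M → ℝ) (α β : Form n M p) : fs a (α + β) = fs a α + fs a β := by
  funext x
  exact smul_add (a x) (α x) (β x)

omit [IsManifold 𝓘(ℝ, E n) ∞ M] [CompactSpace M] [T2Space M] in
theorem Piece.fs_smul (a : M → ℝ) (c : ℝ) (α : Form n M p) : fs a (c • α) = c • fs a α := by
  funext x
  exact smul_comm (a x) c (α x)

omit [CompactSpace M] [T2Space M] in
theorem Piece.wx_add (Q : Piece n M) {α β : Form n M p} (hα : Smooth α) (hβ : Smooth β) :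
    Q.wx (α + β) = fun y => Q.wx α y + Q.wx β y := by
  funext y
  unfold Piece.wx
  by_cases hy : y ∈ Q.e.target
  · rw [if_pos hy, if_pos hy, if_pos hy, Piece.fs_add, dM_add (Smooth.fs Q.hχ hα)
      (Smooth.fs Q.hχ hβ), dM_add hα hβ, loc_add, loc_add, Pi.add_apply, Pi.add_apply, smul_add]
    abel
  · rw [if_neg hy, if_neg hy, if_neg hy, add_zero]

omit [IsManifold 𝓘(ℝ, E n) ∞ M] [CompactSpace M] [T2Space M] in
theorem Piece.wx_smul (Q : Piece n M) (c : ℝ) (α : Form n M p) :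
    Q.wx (c • α) = fun y => c • Q.wx α y := by
  funext y
  unfold Piece.wx
  by_cases hy : y ∈ Q.e.target
  · rw [if_pos hy, if_pos hy, Piece.fs_smul, dM_smul, dM_smul, loc_smul, loc_smul, Pi.smul_apply,
      Pi.smul_apply, smul_sub, smul_comm (Q.χ (Q.e.symm y)) c]
  · rw [if_neg hy, if_neg hy, smul_zero]

omit [CompactSpace M] [T2Space M] in
theorem Piece.rx_add (Q : Piece n M) (g : Metric n M) (α β : Form n M p) :
    Q.rx g (α + β) = fun y => Q.rx g α y + Q.rx g β y := by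
  funext y
  unfold Piece.rx
  by_cases hy : y ∈ Q.e.target
  · rw [if_pos hy, if_pos hy, if_pos hy, loc_add, Pi.add_apply, pb_add, smul_add]
  · rw [if_neg hy, if_neg hy, if_neg hy, add_zero]

omit [CompactSpace M] [T2Space M] in
theorem Piece.rx_smul (Q : Piece n M) (g : Metric n M) (c : ℝ) (α : Form n M p) :
    Q.rx g (c • α) = fun y => c • Q.rx g α y := by
  funext y
  unfold Piece.rx
  by_cases hy : y ∈ Q.e.target
  · rw [if_pos hy, if_pos hy, loc_smul, Pi.smul_apply, pb_smul, smul_comm]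
  · rw [if_neg hy, if_neg hy, smul_zero]

theorem Piece.P_add (Q : Piece n M) (k : ℕ) {α β : Form n M p} (hα : Smooth α)
    (hβ : Smooth β) : Q.P k (α + β) = Q.P k α + Q.P k β := by
  unfold Piece.P
  rw [← mk_add, Q.lx_add]
  congr 1
  funext y
  exact mol_add _ (Q.lx_smooth hα).1.continuous (Q.lx_smooth hβ).1.continuous y

theorem Piece.P_smul (Q : Piece n M) (k : ℕ) (c : ℝ) (α : Form n M p) :
    Q.P k (c • α) = c • Q.P k α := by
  unfold Piece.P
  rw [← mk_smul, Q.lx_smul]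
  congr 1
  funext y
  exact mol_smul _ c _ y

theorem Piece.W_add (Q : Piece n M) (k : ℕ) {α β : Form n M p} (hα : Smooth α)
    (hβ : Smooth β) : Q.W k (α + β) = Q.W k α + Q.W k β := by
  unfold Piece.W
  rw [← mk_add, Q.wx_add hα hβ]
  congr 1
  funext y
  exact mol_add _ (Q.wx_smooth hα).1.continuous (Q.wx_smooth hβ).1.continuous y

theorem Piece.W_smul (Q : Piece n M) (k : ℕ) (c : ℝ) {α : Form n M p} (hα : Smooth α) :
    Q.W k (c • α) = c • Q.W k α := by
  unfold Piece.W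
  rw [← mk_smul, Q.wx_smul]
  congr 1
  funext y
  exact mol_smul _ c _ y

theorem Piece.J_add (Q : Piece n M) (g : Metric n M) (k : ℕ) {α β : Form n M p}
    (hα : Smooth α) (hβ : Smooth β) : Q.J g k (α + β) = Q.J g k α + Q.J g k β := by
  unfold Piece.J
  rw [← mk_add, Q.rx_add]
  congr 1
  funext y
  rw [mol_add _ (Q.rx_smooth g hα).1.continuous (Q.rx_smooth g hβ).1.continuous y, pb_add,
    smul_add]

theorem Piece.J_smul (Q : Piece n M) (g : Metric n M) (k : ℕ) (c : ℝ) (α : Form n M p) :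
    Q.J g k (c • α) = c • Q.J g k α := by
  unfold Piece.J
  rw [← mk_smul, Q.rx_smul]
  congr 1
  funext y
  rw [mol_smul, pb_smul, smul_comm]

/-- the operators on smooth forms -/
def Piece.PO (Q : Piece n M) (S : Sys n M) (p k : ℕ) : Om S p →ₗ[ℝ] Om S p where
  toFun a := Om.of S (Q.P k a.f) (Q.P_smooth k a.smooth)
  map_add' a b := Om.ext (Q.P_add k a.smooth b.smooth)
  map_smul' c a := Om.ext (Q.P_smul k c a.f)

/-- the operators on smooth forms -/
def Piece.WO (Q : Piece n M) (S : Sys n M) (p k : ℕ) : Om S p →ₗ[ℝ] Om S (p + 1) where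
  toFun a := Om.of S (Q.W k a.f) (Q.W_smooth k a.smooth)
  map_add' a b := Om.ext (Q.W_add k a.smooth b.smooth)
  map_smul' c a := Om.ext (Q.W_smul k c a.smooth)

/-- the operators on smooth forms -/
def Piece.JO (Q : Piece n M) (S : Sys n M) (p k : ℕ) : Om S p →ₗ[ℝ] Om S p where
  toFun a := Om.of S (Q.J S.g k a.f) (Q.J_smooth S.g k a.smooth)
  map_add' a b := Om.ext (Q.J_add S.g k a.smooth b.smooth)
  map_smul' c a := Om.ext (Q.J_smul S.g k c a.f)

/-- multiplication by `χ` -/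
def Piece.MO (Q : Piece n M) (S : Sys n M) (p : ℕ) : Om S p →ₗ[ℝ] Om S p := mulO S p Q.χ Q.hχ

end BH
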