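import Pool.Agent.Lib.MP_4a593f_gt.BH.PEstC0

/-!
Row PEstC: `J_k`.
-/

open scoped Manifold ContDiff Bundle Topology Matrix
open MeasureTheory Filter

noncomputable section

universe u

namespace BH

variable {n p : ℕ} {M : Type u} [TopologicalSpace M] [ChartedSpace (E n) M]
  [IsManifold 𝓘(ℝ, E n) ∞ M] [CompactSpace M] [T2Space M]

private theorem pestc_J (Q : Piece n M) (g : Metric n M) (k : ℕ) (α : Form n M p) :
    Q.J g k α = BH.mk Q.e (fun z => pestd_B Q g p z (mol (k + Q.k0) (Q.rx g α) z)) := by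
  unfold Piece.J
  refine mk_congr fun y hy => ?_
  unfold pestd_B
  rw [if_pos hy]
  rfl

private theorem pestc_M (Q : Piece n M) (g : Metric n M) (α : Form n M p) :
    fs Q.χ α = BH.mk Q.e (fun z => pestd_B Q g p z (Q.rx g α z)) := by
  rw [pestd_Bu]
  have h1 : ∀ x, x ∉ Q.e.source → fs Q.χ α x = 0 := by
    intro x hx
    have h2 : Q.χ x = 0 := by
      by_contra hne
      exact hx (Q.hs (subset_tsupport _ hne))
    show Q.χ x • α x = 0
    rw [h2]
    ext v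
    exact zero_mul _
  rw [← mk_loc Q.he h1]
  refine mk_congr fun y hy => ?_
  unfold Piece.lx
  rw [if_pos hy, loc_fs]

private theorem pestc_sub (Q : Piece n M) (g : Metric n M) (k : ℕ) (α : Form n M p) :
    Q.J g k α - fs Q.χ α = BH.mk Q.e (fun z => pestd_B Q g p z
      (mol (k + Q.k0) (Q.rx g α) z - Q.rx g α z)) := by
  rw [pestc_J, pestc_M Q g, sub_eq_iff_eq_add, ← mk_add]
  congr 1
  funext y
  rw [map_sub, sub_add_cancel]

private theorem pestc_K (Q : Piece n M) (g : Metric n M) (v : E n → Alt n p) (y : E n)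
    (hy : pestd_B Q g p y (v y) ≠ 0) : y ∈ Q.e '' tsupport Q.χ := by
  by_contra hc
  apply hy
  rw [pestd_B_off Q g hc]
  rfl

private theorem pestc_smooth (Q : Piece n M) (g : Metric n M) {v : E n → Alt n p}
    (hv : ContDiff ℝ ∞ v) : ContDiff ℝ ∞ fun z => pestd_B Q g p z (v z) :=
  (pestd_B_smooth Q g p).clm_apply hv

theorem Piece.JO_adj (Q : Piece n M) (S : Sys n M) (p k : ℕ) (a b : Om S p) :
    inner ℝ (Q.JO S p k a) b = inner ℝ a (Q.PO S p k b) := by
  have hG := isMet_gloc S.g Q.he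
  obtain ⟨hr1, hr2, hr3⟩ := Q.rx_smooth S.g a.smooth
  obtain ⟨hl1, hl2, hl3⟩ := Q.lx_smooth b.smooth
  -- the support of `P_k b`
  have hψ : ∀ y, mol (k + Q.k0) (Q.lx b.f) y ≠ 0 → y ∈ Q.e.target ∧ Q.ψ y = 1 := by
    intro y hy
    obtain ⟨z, hz, hd⟩ := mol_support (k + Q.k0) hy
    obtain ⟨x, hx, rfl⟩ := hl3 z hz
    have hle : (1 : ℝ) / (((k + Q.k0 : ℕ) : ℝ) + 1) ≤ 2 / ((Q.k0 : ℝ) + 1) := by
      rw [div_le_div_iff₀ (by positivity) (by positivity)]
      push_cast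
      have hk : (0 : ℝ) ≤ k := Nat.cast_nonneg k
      have hk0 : (0 : ℝ) ≤ Q.k0 := Nat.cast_nonneg _
      linarith
    exact Q.ψ1 x hx y (hd.trans hle)
  have hinv : ∀ y ∈ Q.e.target, gmat (gloc Q.e S.g) y * (gmat (gloc Q.e S.g) y)⁻¹ = 1 :=
    fun y hy => Matrix.mul_nonsing_inv _ (isUnit_iff_ne_zero.2 (hG.pos y hy).det_pos.ne')
  have hsym : ∀ y ∈ Q.e.target, (gmat (gloc Q.e S.g) y)ᵀ = gmat (gloc Q.e S.g) y :=
    fun y hy => hG.gsymm hy
  -- left side
  have e1 : inner ℝ (Q.JO S p k a) b = ∫ y, ip0 (mol (k + Q.k0) (Q.rx S.g a.f) y) (Q.lx b.f y) := by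
    rw [real_inner_comm, inner_chart b (Q.JO S p k a) Q.he Q.K_compact Q.K_subset]
    · refine Eq.trans ?_ (setIntegral_eq_integral_of_forall_compl_eq_zero
        (s := Q.e.target) ?_)
      · refine setIntegral_congr_fun Q.e.open_target.measurableSet fun y hy => ?_
        show ipG (gmat (gloc Q.e S.g) y) (loc Q.e b.f y) (loc Q.e (Q.J S.g k a.f) y) *
          vol (gloc Q.e S.g) y = ip0 (mol (k + Q.k0) (Q.rx S.g a.f) y) (Q.lx b.f y)
        have h1 : loc Q.e (Q.J S.g k a.f) y = (Q.χ (Q.e.symm y) * (vol (gloc Q.e S.g) y)⁻¹) •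
            pb (gmat (gloc Q.e S.g) y) (mol (k + Q.k0) (Q.rx S.g a.f) y) := by
          unfold Piece.J
          exact loc_mk Q.he _ hy
        have hv := (hG.vol_pos hy).ne'
        unfold Piece.lx
        rw [if_pos hy, h1, ipG_comm (hsym y hy), ipG_smul_left, ip0_smul_right]
        unfold ipG
        rw [pb_pb, hinv y hy, pb_one]
        field_simp
      · intro y hy
        have h0 : Q.lx b.f y = 0 := by
          unfold Piece.lx
          rw [if_neg hy]
        rw [h0]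
        have := ip0_smul_right (0 : ℝ) (mol (k + Q.k0) (Q.rx S.g a.f) y) (0 : Alt n p)
        rwa [zero_smul, zero_mul] at this
    · intro x hx
      have h2 : (Q.JO S p k a).f x = BH.mk Q.e
          (fun z => pestd_B Q S.g p z (mol (k + Q.k0) (Q.rx S.g a.f) z)) x := by
        rw [← pestc_J]
        rfl
      rw [h2] at hx
      by_cases hs : x ∈ Q.e.source
      · rw [mk_on hs] at hx
        refine ⟨Q.e x, ?_, Q.e.left_inv hs⟩
        refine pestc_K (p := p) Q S.g (mol (k + Q.k0) (Q.rx S.g a.f)) (Q.e x) fun h0 => hx ?_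
        rw [h0]
        ext v
        rfl
      · exact absurd (mk_off hs) hx
  -- right side
  have e2 : inner ℝ a (Q.PO S p k b) = ∫ y, ip0 (Q.rx S.g a.f y) (mol (k + Q.k0) (Q.lx b.f) y) := by
    rw [inner_chart a (Q.PO S p k b) Q.he Q.ψc Q.ψs]
    · refine Eq.trans ?_ (setIntegral_eq_integral_of_forall_compl_eq_zero
        (s := Q.e.target) ?_)
      · refine setIntegral_congr_fun Q.e.open_target.measurableSet fun y hy => ?_
        show ipG (gmat (gloc Q.e S.g) y) (loc Q.e a.f y) (loc Q.e (Q.P k b.f) y) *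
          vol (gloc Q.e S.g) y = ip0 (Q.rx S.g a.f y) (mol (k + Q.k0) (Q.lx b.f) y)
        have h1 : loc Q.e (Q.P k b.f) y = mol (k + Q.k0) (Q.lx b.f) y := by
          unfold Piece.P
          exact loc_mk Q.he _ hy
        rw [h1]
        by_cases h0 : mol (k + Q.k0) (Q.lx b.f) y = 0
        · rw [h0]
          have h3 : ∀ c : Alt n p, ip0 c 0 = 0 := by
            intro c
            have := ip0_smul_right (0 : ℝ) c (0 : Alt n p)
            rwa [zero_smul, zero_mul] at this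
          unfold ipG
          rw [h3, h3, zero_mul]
        · unfold Piece.rx
          rw [if_pos hy, (hψ y h0).2, one_mul, ip0_smul_left]
          unfold ipG
          ring
      · intro y hy
        have h0 : Q.rx S.g a.f y = 0 := by
          unfold Piece.rx
          rw [if_neg hy]
        rw [h0]
        have := ip0_smul_left (0 : ℝ) (0 : Alt n p) (mol (k + Q.k0) (Q.lx b.f) y)
        rwa [zero_smul, zero_mul] at this
    · intro x hx
      have h2 : (Q.PO S p k b).f x = BH.mk Q.e (mol (k + Q.k0) (Q.lx b.f)) x := rfl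
      rw [h2] at hx
      by_cases hs : x ∈ Q.e.source
      · rw [mk_on hs] at hx
        refine ⟨Q.e x, ?_, Q.e.left_inv hs⟩
        by_contra hc
        apply hx
        rw [Q.mol_off k hl3 hc]
        ext v
        rfl
      · exact absurd (mk_off hs) hx
  rw [e1, e2]
  exact mol_adj (k + Q.k0) hr1.continuous hr2 hl1.continuous hl2

theorem Piece.JO_lim (Q : Piece n M) (S : Sys n M) (p : ℕ) (a : Om S p) :
    Tendsto (fun k => Q.JO S p k a) atTop (𝓝 (Q.MO S p a)) := by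
  obtain ⟨hr1, hr2, hr3⟩ := Q.rx_smooth S.g a.smooth
  obtain ⟨C1, hC1, h1⟩ := norm_mk S p Q.he Q.K_compact Q.K_subset
  obtain ⟨C2, hC2, h2⟩ := pestc_leib (pestd_B_smooth Q S.g p) (pestd_B_compact Q S.g p)
  rw [tendsto_iff_norm_sub_tendsto_zero]
  have h3 := (mol_lim hr1.continuous hr2).comp (tendsto_add_atTop_nat Q.k0)
  refine pestc_tendsto (C := C1 * C2) (fun k => ?_) h3
  have hs : ContDiff ℝ ∞ fun y => mol (k + Q.k0) (Q.rx S.g a.f) y - Q.rx S.g a.f y :=
    (mol_smooth _ hr1.continuous).sub hr1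
  have hc : HasCompactSupport fun y => mol (k + Q.k0) (Q.rx S.g a.f) y - Q.rx S.g a.f y :=
    (mol_compact _ hr2).sub hr2
  refine (h1 (Q.JO S p k a - Q.MO S p a) _ (pestc_sub Q S.g k a.f) (pestc_smooth Q S.g hs)
    fun y hy => pestc_K Q S.g
      (fun y => mol (k + Q.k0) (Q.rx S.g a.f) y - Q.rx S.g a.f y) y hy).trans ?_
  rw [mul_assoc]
  exact mul_le_mul_of_nonneg_left (h2 _ hs hc).1 hC1.le

theorem Piece.del_JO_bdd (Q : Piece n M) (S : Sys n M) (p k : ℕ) :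
    ∃ B : ℝ, 0 < B ∧ ∀ a : Om S (p + 1), ‖del S p (Q.JO S (p + 1) k a)‖ ≤ B * ‖a‖ := by
  obtain ⟨C1, hC1, h1⟩ := norm_del_mk S p Q.he Q.K_compact Q.K_subset
  obtain ⟨C2, hC2, h2⟩ := pestc_leib (pestd_B_smooth Q S.g (p + 1))
    (pestd_B_compact Q S.g (p + 1))
  obtain ⟨C3, hC3, h3⟩ := Q.rx_bdd S (p + 1)
  obtain ⟨C4, h4⟩ := fderiv_mol_sq (n := n) (F := Alt n (p + 1)) (k + Q.k0)
  refine ⟨Real.sqrt (C1 * (C2 * ((1 + |C4|) * C3))), Real.sqrt_pos.2 (by positivity),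
    fun a => ?_⟩
  obtain ⟨hr1, hr2, hr3⟩ := Q.rx_smooth S.g a.smooth
  have hs : ContDiff ℝ ∞ (mol (k + Q.k0) (Q.rx S.g a.f)) := mol_smooth _ hr1.continuous
  have hc : HasCompactSupport (mol (k + Q.k0) (Q.rx S.g a.f)) := mol_compact _ hr2
  have p1 : 0 ≤ ∫ y, ‖Q.rx S.g a.f y‖ ^ 2 := integral_nonneg fun y => by positivity
  have e1 := h1 (Q.JO S (p + 1) k a) _ (pestc_J Q S.g k a.f) (pestc_smooth Q S.g hs)
    fun y hy => pestc_K Q S.g _ y hy
  have e2 := (h2 _ hs hc).2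
  have e3 := mol_sq (k + Q.k0) hr1.continuous hr2
  have e4 := h4 _ hr1.continuous hr2
  have e5 : C4 * ∫ y, ‖Q.rx S.g a.f y‖ ^ 2 ≤ |C4| * ∫ y, ‖Q.rx S.g a.f y‖ ^ 2 :=
    mul_le_mul_of_nonneg_right (le_abs_self C4) p1
  have e6 := h3 a
  have e7 : (∫ y, ‖mol (k + Q.k0) (Q.rx S.g a.f) y‖ ^ 2) +
      ∫ y, ‖fderiv ℝ (mol (k + Q.k0) (Q.rx S.g a.f)) y‖ ^ 2 ≤
        (1 + |C4|) * C3 * ‖a‖ ^ 2 := by
    have h5 : (1 + |C4|) * ∫ y, ‖Q.rx S.g a.f y‖ ^ 2 ≤ (1 + |C4|) * (C3 * ‖a‖ ^ 2) :=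
      mul_le_mul_of_nonneg_left e6 (by positivity)
    linarith
  have e8 : ‖del S p (Q.JO S (p + 1) k a)‖ ^ 2 ≤
      C1 * (C2 * ((1 + |C4|) * C3)) * ‖a‖ ^ 2 := by
    refine e1.trans ?_
    have h6 := mul_le_mul_of_nonneg_left (e2.trans (mul_le_mul_of_nonneg_left e7 hC2.le)) hC1.le
    refine h6.trans (le_of_eq ?_)
    ring
  have e9 := Real.sqrt_le_sqrt e8
  rwa [Real.sqrt_sq (norm_nonneg _), Real.sqrt_mul (by positivity),
    Real.sqrt_sq (norm_nonneg _)] at e9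

theorem Piece.del_JO_lim (Q : Piece n M) (S : Sys n M) (p : ℕ) (a : Om S (p + 1)) :
    Tendsto (fun k => del S p (Q.JO S (p + 1) k a)) atTop
      (𝓝 (del S p (Q.MO S (p + 1) a))) := by
  obtain ⟨hr1, hr2, hr3⟩ := Q.rx_smooth S.g a.smooth
  obtain ⟨C1, hC1, h1⟩ := norm_del_mk S p Q.he Q.K_compact Q.K_subset
  obtain ⟨C2, hC2, h2⟩ := pestc_leib (pestd_B_smooth Q S.g (p + 1))
    (pestd_B_compact Q S.g (p + 1))
  rw [tendsto_iff_norm_sub_tendsto_zero]
  have h3 := (mol_lim hr1.continuous hr2).comp (tendsto_add_atTop_nat Q.k0)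
  have h4 := (pestc_lim hr1 hr2).comp (tendsto_add_atTop_nat Q.k0)
  have h5 := h3.add h4
  rw [add_zero] at h5
  refine pestc_tendsto (C := C1 * C2) (fun k => ?_) h5
  rw [← map_sub]
  have hs : ContDiff ℝ ∞ fun y => mol (k + Q.k0) (Q.rx S.g a.f) y - Q.rx S.g a.f y :=
    (mol_smooth _ hr1.continuous).sub hr1
  have hc : HasCompactSupport fun y => mol (k + Q.k0) (Q.rx S.g a.f) y - Q.rx S.g a.f y :=
    (mol_compact _ hr2).sub hr2
  refine (h1 (Q.JO S (p + 1) k a - Q.MO S (p + 1) a) _ (pestc_sub Q S.g k a.f)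
    (pestc_smooth Q S.g hs) fun y hy => pestc_K Q S.g
      (fun y => mol (k + Q.k0) (Q.rx S.g a.f) y - Q.rx S.g a.f y) y hy).trans ?_
  rw [mul_assoc]
  exact mul_le_mul_of_nonneg_left (h2 _ hs hc).2 hC1.le

end BH
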