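import Pool.Agent.Lib.MP_4a593f_gt.BH.PEstD0

/-!
Row PEstD: Friedrichs commutator, `J_k α - P_k α = mk [χA⁻¹, mol_k](ψAα)`, `A = vol raise`.
-/

open scoped Manifold ContDiff Bundle Topology Matrix
open MeasureTheory Filter

noncomputable section

universe u

namespace BH

variable {n p : ℕ} {M : Type u} [TopologicalSpace M] [ChartedSpace (E n) M]
  [IsManifold 𝓘(ℝ, E n) ∞ M] [CompactSpace M] [T2Space M]

omit [CompactSpace M] [T2Space M] in
private theorem pestd_JP (Q : Piece n M) (g : Metric n M) (k : ℕ) (α : Form n M p) :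
    Q.J g k α - Q.P k α = BH.mk Q.e (pestd_h Q g k α) := by
  have h1 : Q.J g k α = BH.mk Q.e (fun z => pestd_B Q g p z (mol (k + Q.k0) (Q.rx g α) z)) := by
    unfold Piece.J
    refine mk_congr fun y hy => ?_
    unfold pestd_B
    rw [if_pos hy]
    rfl
  have h2 : BH.mk Q.e (pestd_h Q g k α) + Q.P k α = Q.J g k α := by
    rw [h1]
    unfold Piece.P
    rw [← mk_add]
    congr 1
    funext y
    unfold pestd_h
    rw [pestd_Bu]
    exact sub_add_cancel _ _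
  rw [← h2]
  exact add_sub_cancel_right _ _

private theorem pestd_ext_smooth {h : E n → Alt n p} (hh : ContDiff ℝ ∞ h) :
    ContDiff ℝ ∞ (extDeriv h) := by
  have h1 : ContDiff ℝ ∞ (fderiv ℝ h) := hh.fderiv_right (by simp)
  exact (ContinuousAlternatingMap.alternatizeUncurryFinCLM ℝ (E n) ℝ
    (n := p)).contDiff.comp h1

private theorem pestd_ext_off {h : E n → Alt n p} {T : Set (E n)} (hT : IsClosed T)
    (h0 : ∀ y, h y ≠ 0 → y ∈ T) {y : E n} (hy : extDeriv h y ≠ 0) : y ∈ T := by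
  by_contra hc
  apply hy
  have h1 : h =ᶠ[𝓝 y] fun _ => 0 := by
    filter_upwards [hT.isOpen_compl.mem_nhds hc] with z hz
    by_contra hne
    exact hz (h0 z hne)
  rw [h1.extDeriv_eq]
  ext v
  simp [extDeriv, ContinuousAlternatingMap.alternatizeUncurryFin_apply]

private theorem pestd_sq_int {F : Type} [NormedAddCommGroup F] [NormedSpace ℝ F] {h : E n → F}
    (hh : ContDiff ℝ ∞ h) (hc : HasCompactSupport h) (c : ℝ) :
    Integrable fun y => c * ‖fderiv ℝ h y‖ ^ 2 := by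
  have h1 : Continuous (fderiv ℝ h) := (hh.continuous_fderiv (by simp))
  have h2 : HasCompactSupport (fderiv ℝ h) := hc.fderiv ℝ
  refine Continuous.integrable_of_hasCompactSupport
    (continuous_const.mul ((continuous_pow 2).comp h1.norm)) ?_
  refine h2.mono fun y hy => ?_
  intro h0
  apply hy
  show c * ‖fderiv ℝ h y‖ ^ 2 = 0
  rw [h0, norm_zero]
  ring

private theorem pestd_ext_int {h : E n → Alt n p} (hh : ContDiff ℝ ∞ h)
    (hc : HasCompactSupport h) :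
    ∫ y, ‖extDeriv h y‖ ^ 2 ≤ ((p : ℝ) + 1) ^ 2 * ∫ y, ‖fderiv ℝ h y‖ ^ 2 := by
  rw [← integral_const_mul]
  refine integral_mono_of_nonneg (Eventually.of_forall fun y => by positivity)
    (pestd_sq_int hh hc _) (Eventually.of_forall fun y => ?_)
  · have h3 : ‖extDeriv h y‖ ≤ ((p : ℝ) + 1) * ‖fderiv ℝ h y‖ :=
      ContinuousAlternatingMap.norm_alternatizeUncurryFin_le (fderiv ℝ h y)
    calc ‖extDeriv h y‖ ^ 2 ≤ (((p : ℝ) + 1) * ‖fderiv ℝ h y‖) ^ 2 :=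
          pow_le_pow_left₀ (norm_nonneg _) h3 2
      _ = ((p : ℝ) + 1) ^ 2 * ‖fderiv ℝ h y‖ ^ 2 := by ring

private theorem pestd_main (Q : Piece n M) (S : Sys n M) (p : ℕ) :
    ∃ C : ℝ, 0 < C ∧ ∀ k (a : Om S p),
      ‖dO S p (Q.JO S p k a - Q.PO S p k a)‖ ^ 2 ≤
        C * ∫ y, ‖fderiv ℝ (pestd_h Q S.g k a.f) y‖ ^ 2 := by
  obtain ⟨C, hC, H⟩ := norm_mk S (p + 1) Q.he (pestd_T_compact Q) (pestd_T_sub Q)
  refine ⟨C * ((p : ℝ) + 1) ^ 2, by positivity, fun k a => ?_⟩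
  have hs := pestd_h_smooth Q S.g k a.smooth
  have hT : ∀ y, pestd_h Q S.g k a.f y ≠ 0 → y ∈ pestd_T Q := fun y hy =>
    pestd_h_T Q S.g k a.smooth hy
  have hf : (dO S p (Q.JO S p k a - Q.PO S p k a)).f =
      BH.mk Q.e (extDeriv (pestd_h Q S.g k a.f)) := by
    have h1 : (Q.JO S p k a - Q.PO S p k a).f = BH.mk Q.e (pestd_h Q S.g k a.f) :=
      pestd_JP Q S.g k a.f
    rw [dO_f, h1]
    refine dM_mk Q.he (pestd_T_compact Q) (pestd_T_sub Q) hs.contDiffOn fun y _ hy => ?_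
    by_contra hne
    exact hy (hT y hne)
  have h2 := H _ _ hf (pestd_ext_smooth hs)
    (fun y hy => pestd_ext_off (pestd_T_compact Q).isClosed hT hy)
  have h3 := pestd_ext_int hs
    (HasCompactSupport.of_support_subset_isCompact (pestd_T_compact Q) fun y hy => hT y hy)
  calc _ ≤ C * ∫ y, ‖extDeriv (pestd_h Q S.g k a.f) y‖ ^ 2 := h2
    _ ≤ C * (((p : ℝ) + 1) ^ 2 * ∫ y, ‖fderiv ℝ (pestd_h Q S.g k a.f) y‖ ^ 2) :=
      mul_le_mul_of_nonneg_left h3 hC.le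
    _ = _ := by ring

/-- Friedrichs: `J_k α - P_k α = mk [χA⁻¹, mol_k](ψAα)` -/
theorem Piece.D_bdd (Q : Piece n M) (S : Sys n M) (p : ℕ) :
    ∃ C : ℝ, 0 < C ∧ ∀ k (a : Om S p),
      ‖dO S p (Q.JO S p k a - Q.PO S p k a)‖ ≤ C * ‖a‖ := by
  obtain ⟨C1, hC1, H1⟩ := pestd_main Q S p
  obtain ⟨C2, H2⟩ := fried (pestd_B_smooth Q S.g p) (pestd_B_compact Q S.g p)
  obtain ⟨C3, hC3, H3⟩ := Q.rx_bdd S p
  refine ⟨Real.sqrt (C1 * (|C2| * C3)) + 1, by positivity, fun k a => ?_⟩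
  have hr := Q.rx_smooth S.g a.smooth
  have h1 := H1 k a
  have h2 : ∫ y, ‖fderiv ℝ (pestd_h Q S.g k a.f) y‖ ^ 2 ≤
      C2 * ∫ x, ‖Q.rx S.g a.f x‖ ^ 2 := H2 (k + Q.k0) (Q.rx S.g a.f) hr.1 hr.2.1
  have h3 := H3 a
  have h4 : 0 ≤ ∫ x, ‖Q.rx S.g a.f x‖ ^ 2 := integral_nonneg fun x => by positivity
  have h5 : ‖dO S p (Q.JO S p k a - Q.PO S p k a)‖ ^ 2 ≤
      (C1 * (|C2| * C3)) * ‖a‖ ^ 2 := by
    calc _ ≤ C1 * ∫ y, ‖fderiv ℝ (pestd_h Q S.g k a.f) y‖ ^ 2 := h1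
      _ ≤ C1 * (|C2| * (C3 * ‖a‖ ^ 2)) := by
        refine mul_le_mul_of_nonneg_left ?_ hC1.le
        calc _ ≤ C2 * ∫ x, ‖Q.rx S.g a.f x‖ ^ 2 := h2
          _ ≤ |C2| * ∫ x, ‖Q.rx S.g a.f x‖ ^ 2 :=
            mul_le_mul_of_nonneg_right (le_abs_self C2) h4
          _ ≤ |C2| * (C3 * ‖a‖ ^ 2) := mul_le_mul_of_nonneg_left h3 (abs_nonneg _)
      _ = _ := by ring
  have h6 : 0 ≤ C1 * (|C2| * C3) := by positivity
  have h7 : ‖dO S p (Q.JO S p k a - Q.PO S p k a)‖ ≤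
      Real.sqrt (C1 * (|C2| * C3)) * ‖a‖ := by
    refine (sq_le_sq₀ (norm_nonneg _) (by positivity)).1 ?_
    rw [mul_pow, Real.sq_sqrt h6]
    exact h5
  refine h7.trans ?_
  have := norm_nonneg a
  nlinarith

theorem Piece.D_lim (Q : Piece n M) (S : Sys n M) (p : ℕ) (a : Om S p) :
    Tendsto (fun k => dO S p (Q.JO S p k a - Q.PO S p k a)) atTop (𝓝 0) := by
  obtain ⟨C1, hC1, H1⟩ := pestd_main Q S p
  have hr := Q.rx_smooth S.g a.smooth
  have h1 := fried_lim (pestd_B_smooth Q S.g p) (pestd_B_compact Q S.g p) hr.1 hr.2.1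
  have h2 : Tendsto (fun k => ∫ y, ‖fderiv ℝ (pestd_h Q S.g k a.f) y‖ ^ 2) atTop (𝓝 0) :=
    h1.comp (tendsto_add_atTop_nat Q.k0)
  have h3 : Tendsto (fun k => ‖dO S p (Q.JO S p k a - Q.PO S p k a)‖ ^ 2) atTop (𝓝 0) := by
    have h4 := h2.const_mul C1
    rw [mul_zero] at h4
    exact squeeze_zero (fun k => by positivity) (fun k => H1 k a) h4
  rw [tendsto_zero_iff_norm_tendsto_zero]
  have h5 := (Real.continuous_sqrt.tendsto 0).comp h3
  rw [Real.sqrt_zero] at h5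
  refine h5.congr fun k => ?_
  exact Real.sqrt_sq (norm_nonneg _)

end BH
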