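import Pool.Agent.Lib.MP_4a593f_gt.BH.PEstB
import Pool.Agent.Lib.MP_4a593f_gt.BH.PEstC
import Pool.Agent.Lib.MP_4a593f_gt.BH.PEstD
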