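import Pool.Agent.Lib.MP_4a593f_gt.BH.PDefs
import Pool.Agent.Lib.MP_4a593f_gt.BH.Sm.Nrm

/-!
Row PEstA: norms in a chart.
-/

open scoped Manifold ContDiff Bundle Topology Matrix
open MeasureTheory Filter

noncomputable section

universe u

namespace BH

variable {n p : ℕ} {M : Type u} [TopologicalSpace M] [ChartedSpace (E n) M]
  [IsManifold 𝓘(ℝ, E n) ∞ M] [CompactSpace M] [T2Space M]

/-- norm of a form supported in a chart -/
theorem norm_mk (S : Sys n M) (p : ℕ) {e : OpenPartialHomeomorph M (E n)}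
    (he : e ∈ atlas (E n) M) {K : Set (E n)} (hK : IsCompact K) (hKt : K ⊆ e.target) :
    ∃ C : ℝ, 0 < C ∧ ∀ (a : Om S p) (f : E n → Alt n p), a.f = mk e f → ContDiff ℝ ∞ f →
      (∀ y, f y ≠ 0 → y ∈ K) → ‖a‖ ^ 2 ≤ C * ∫ y, ‖f y‖ ^ 2 := by
  obtain ⟨C, hC0, hC⟩ := norm_sq_le_chart S p he hK hKt
  refine ⟨C + 1, by linarith, fun a f haf hf hs => ?_⟩
  have h0 : ∀ y, y ∉ K → f y = 0 := fun y hy => by
    by_contra h
    exact hy (hs y h)
  have hsm : Smooth (mk e f) := haf ▸ a.smooth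
  have ha : a = Om.of S (mk e f) hsm := Om.ext haf
  have h1 := hC f hsm ⟨hf, HasCompactSupport.intro hK h0⟩ h0
  rw [← ha] at h1
  have h2 : 0 ≤ ∫ y, ‖f y‖ ^ 2 := integral_nonneg fun y => by positivity
  linarith

omit [IsManifold 𝓘(ℝ, E n) ∞ M] [CompactSpace M] [T2Space M] in
/-- `ψ α` in a chart is smooth with compact support -/
theorem pea_sc {e : OpenPartialHomeomorph M (E n)} (he : e ∈ atlas (E n) M) {ψ : E n → ℝ}
    (hψ : ContDiff ℝ ∞ ψ) (ψc : HasCompactSupport ψ) (ψs : tsupport ψ ⊆ e.target)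
    {α : Form n M p} (hα : Smooth α) : Sc (fun y => ψ y • loc e α y) := by
  refine ⟨contDiff_iff_contDiffAt.2 fun y => ?_, ψc.smul_right⟩
  by_cases hy : y ∈ e.target
  · exact hψ.contDiffAt.smul ((hα e he).contDiffAt (e.open_target.mem_nhds hy))
  · have h1 : ψ =ᶠ[𝓝 y] fun _ => 0 :=
      notMem_tsupport_iff_eventuallyEq.1 fun h => hy (ψs h)
    have h2 : (fun z => ψ z • loc e α z) =ᶠ[𝓝 y] fun _ => 0 := by
      filter_upwards [h1] with z hz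
      change ψ z • loc e α z = 0
      rw [hz, zero_smul]
    exact contDiffAt_const.congr_of_eventuallyEq h2

/-- from pointwise bounds to `L²` bounds -/
theorem pea_int (Q : Piece n M) (S : Sys n M) (p q : ℕ) (D : ℝ) :
    ∃ C : ℝ, 0 < C ∧ ∀ (a : Om S p) (f : E n → Alt n q),
      (∀ y, ‖f y‖ ≤ D * ‖Q.ψ y • loc Q.e a.f y‖) → ∫ y, ‖f y‖ ^ 2 ≤ C * ‖a‖ ^ 2 := by
  obtain ⟨C, hC0, hC⟩ := chart_le_norm_sq S p Q.he Q.hψ Q.ψc Q.ψs
  refine ⟨D ^ 2 * C + 1, by positivity, fun a f hf => ?_⟩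
  have h1 := (pea_sc Q.he Q.hψ Q.ψc Q.ψs a.smooth).integrable
  have h2 : ∫ y, ‖f y‖ ^ 2 ≤ ∫ y, D ^ 2 * ‖Q.ψ y • loc Q.e a.f y‖ ^ 2 := by
    refine integral_mono_of_nonneg (Eventually.of_forall fun y => by positivity)
      (h1.const_mul _) (Eventually.of_forall fun y => ?_)
    have h3 := hf y
    have h4 : ‖f y‖ ^ 2 ≤ (D * ‖Q.ψ y • loc Q.e a.f y‖) ^ 2 :=
      pow_le_pow_left₀ (norm_nonneg _) h3 2
    rw [mul_pow] at h4
    exact h4
  rw [integral_const_mul] at h2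
  have h5 := hC a
  have h6 : D ^ 2 * ∫ y, ‖Q.ψ y • loc Q.e a.f y‖ ^ 2 ≤ D ^ 2 * (C * ‖a‖ ^ 2) :=
    mul_le_mul_of_nonneg_left h5 (sq_nonneg D)
  nlinarith [sq_nonneg ‖a‖]

omit [IsManifold 𝓘(ℝ, E n) ∞ M] [CompactSpace M] [T2Space M] in
theorem pea_K (Q : Piece n M) {y : E n} (hy : y ∈ Q.e '' tsupport Q.χ) :
    y ∈ Q.e.target ∧ Q.ψ y = 1 := by
  obtain ⟨x, hx, rfl⟩ := hy
  refine Q.ψ1 x hx (Q.e x) ?_
  rw [dist_self]
  positivity

omit [IsManifold 𝓘(ℝ, E n) ∞ M] [T2Space M] in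
theorem pea_Kc (Q : Piece n M) : IsCompact (Q.e '' tsupport Q.χ) :=
  ((isClosed_tsupport _).isCompact).image_of_continuousOn (Q.e.continuousOn.mono Q.hs)

theorem Piece.lx_bdd (Q : Piece n M) (S : Sys n M) (p : ℕ) :
    ∃ C : ℝ, 0 < C ∧ ∀ a : Om S p, ∫ y, ‖Q.lx a.f y‖ ^ 2 ≤ C * ‖a‖ ^ 2 := by
  obtain ⟨D, hD⟩ := isCompact_univ.exists_bound_of_continuousOn Q.hχ.continuous.continuousOn
  obtain ⟨C, hC0, hC⟩ := pea_int Q S p p |D|
  refine ⟨C, hC0, fun a => hC a _ fun y => ?_⟩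
  by_cases h0 : Q.lx a.f y = 0
  · rw [h0, norm_zero]
    positivity
  · obtain ⟨h1, h2⟩ := pea_K Q ((Q.lx_smooth a.smooth).2.2 y h0)
    unfold Piece.lx
    rw [if_pos h1, h2, one_smul, norm_smul]
    exact mul_le_mul_of_nonneg_right ((hD _ (Set.mem_univ _)).trans (le_abs_self D))
      (norm_nonneg _)

/-- the pullback is bounded on compact sets -/
theorem pea_pb {U : Set (E n)} {A : E n → Matrix (Fin n) (Fin n) ℝ}
    (hA : ∀ i j, ContDiffOn ℝ ∞ (fun y => A y i j) U) {K : Set (E n)} (hK : IsCompact K)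
    (hKU : K ⊆ U) (p : ℕ) :
    ∃ C : ℝ, 0 ≤ C ∧ ∀ y ∈ K, ∀ a : Alt n p, ‖pb (A y) a‖ ≤ C * ‖a‖ := by
  classical
  set b := Module.finBasis ℝ (Alt n p)
  have h1 : ∀ i, ∃ C : ℝ, ∀ y ∈ K, ‖pb (A y) (b i)‖ ≤ C := fun i =>
    hK.exists_bound_of_continuousOn
      ((smooth_pb hA (contDiffOn_const (c := b i))).continuousOn.mono hKU)
  choose C hC using h1
  refine ⟨∑ i, ‖(b.coord i).toContinuousLinearMap‖ * |C i|, by positivity, fun y hy a => ?_⟩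
  let L : Alt n p →ₗ[ℝ] Alt n p :=
    { toFun := pb (A y), map_add' := pb_add (A y), map_smul' := pb_smul (A y) }
  have h2 : pb (A y) a = ∑ i, b.repr a i • pb (A y) (b i) := by
    have h3 : L a = ∑ i, b.repr a i • L (b i) := by
      conv_lhs => rw [← b.sum_repr a]
      rw [map_sum]
      simp only [map_smul]
    exact h3
  rw [h2, Finset.sum_mul]
  refine (norm_sum_le _ _).trans (Finset.sum_le_sum fun i _ => ?_)
  rw [norm_smul]
  have h4 : ‖b.repr a i‖ ≤ ‖(b.coord i).toContinuousLinearMap‖ * ‖a‖ :=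
    (b.coord i).toContinuousLinearMap.le_opNorm a
  calc ‖b.repr a i‖ * ‖pb (A y) (b i)‖
      ≤ (‖(b.coord i).toContinuousLinearMap‖ * ‖a‖) * |C i| :=
        mul_le_mul h4 ((hC i y hy).trans (le_abs_self _)) (norm_nonneg _) (by positivity)
    _ = ‖(b.coord i).toContinuousLinearMap‖ * |C i| * ‖a‖ := by ring

theorem Piece.rx_bdd (Q : Piece n M) (S : Sys n M) (p : ℕ) :
    ∃ C : ℝ, 0 < C ∧ ∀ a : Om S p, ∫ y, ‖Q.rx S.g a.f y‖ ^ 2 ≤ C * ‖a‖ ^ 2 := by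
  have hG := isMet_gloc S.g Q.he
  obtain ⟨C1, hC1, h1⟩ := pea_pb (A := fun y => (gmat (gloc Q.e S.g) y)⁻¹) hG.inv_smooth
    (K := tsupport Q.ψ) Q.ψc Q.ψs p
  obtain ⟨D, hD⟩ := IsCompact.exists_bound_of_continuousOn (s := tsupport Q.ψ) Q.ψc
    (hG.vol_smooth.continuousOn.mono Q.ψs)
  obtain ⟨C, hC0, hC⟩ := pea_int Q S p p (|D| * C1)
  refine ⟨C, hC0, fun a => hC a _ fun y => ?_⟩
  by_cases h0 : Q.rx S.g a.f y = 0
  · rw [h0, norm_zero]
    positivity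
  · have hy := (Q.rx_smooth S.g a.smooth).2.2 y h0
    have hyt := Q.ψs hy
    have h2 : Q.rx S.g a.f y = vol (gloc Q.e S.g) y •
        pb (gmat (gloc Q.e S.g) y)⁻¹ (Q.ψ y • loc Q.e a.f y) := by
      unfold Piece.rx
      rw [if_pos hyt, pb_smul, smul_smul, mul_comm]
    rw [h2, norm_smul, mul_assoc]
    exact mul_le_mul ((hD y hy).trans (le_abs_self D)) (h1 y hy _) (norm_nonneg _)
      (abs_nonneg D)

/-- the Leibniz rule at a point -/
theorem pea_ext_mul {χ : E n → ℝ} {b : E n → Alt n p} {y : E n}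
    (hχ : DifferentiableAt ℝ χ y) (hb : DifferentiableAt ℝ b y) :
    extDeriv (fun y => χ y • b y) y = χ y • extDeriv b y + wdg χ b y := by
  rw [ext_eq_clm, ext_eq_clm, wdg_eq_clm]
  show ContinuousAlternatingMap.alternatizeUncurryFinCLM ℝ (E n) ℝ
    (fderiv ℝ (fun y => χ y • b y) y) = χ y •
      ContinuousAlternatingMap.alternatizeUncurryFinCLM ℝ (E n) ℝ (fderiv ℝ b y) +
      ContinuousAlternatingMap.alternatizeUncurryFinCLM ℝ (E n) ℝ
        ((fderiv ℝ χ y).smulRight (b y))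
  rw [fderiv_fun_smul hχ hb, map_add, map_smul]

omit [CompactSpace M] [T2Space M] in
/-- `wx` is `dχ ∧ α` -/
theorem pea_wx (Q : Piece n M) {α : Form n M p} (hα : Smooth α) {y : E n}
    (hy : y ∈ Q.e.target) :
    Q.wx α y = wdg (fun y => Q.χ (Q.e.symm y)) (loc Q.e α) y := by
  have h1 : loc Q.e (fs Q.χ α) = fun y => Q.χ (Q.e.symm y) • loc Q.e α y :=
    funext fun y => loc_fs Q.e Q.χ α y
  have hn := Q.e.open_target.mem_nhds hy
  have h2 := ((Q.hχ Q.e Q.he).contDiffAt hn).differentiableAt (by simp)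
  have h3 := ((hα Q.e Q.he).contDiffAt hn).differentiableAt (by simp)
  unfold Piece.wx
  rw [if_pos hy, loc_dM (Smooth.fs Q.hχ hα) Q.he hy, loc_dM hα Q.he hy, h1, pea_ext_mul h2 h3,
    add_sub_cancel_left]

/-- `dχ ∧ α` is bounded by `α` -/
theorem Piece.wx_bdd (Q : Piece n M) (S : Sys n M) (p : ℕ) :
    ∃ C : ℝ, 0 < C ∧ ∀ a : Om S p, ∫ y, ‖Q.wx a.f y‖ ^ 2 ≤ C * ‖a‖ ^ 2 := by
  have hKt : Q.e '' tsupport Q.χ ⊆ Q.e.target := fun y hy => (pea_K Q hy).1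
  obtain ⟨D, hD⟩ := (pea_Kc Q).exists_bound_of_continuousOn
    (((Q.hχ Q.e Q.he).continuousOn_fderiv_of_isOpen Q.e.open_target (by simp)).mono hKt)
  obtain ⟨C, hC0, hC⟩ := pea_int Q S p (p + 1) (((p : ℝ) + 1) * |D|)
  refine ⟨C, hC0, fun a => hC a _ fun y => ?_⟩
  by_cases h0 : Q.wx a.f y = 0
  · rw [h0, norm_zero]
    positivity
  · have hy := (Q.wx_smooth a.smooth).2.2 y h0
    obtain ⟨h1, h2⟩ := pea_K Q hy
    rw [pea_wx Q a.smooth h1, h2, one_smul]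
    refine (norm_wdg_le _ _ _).trans ?_
    rw [mul_assoc]
    refine mul_le_mul_of_nonneg_left ?_ (by positivity)
    exact mul_le_mul_of_nonneg_right ((hD y hy).trans (le_abs_self D)) (norm_nonneg _)

end BH
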