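import Pool.Agent.Lib.MP_4a593f_gt.BH.PEstA

/-!
Row PEstB: `P_k` and `W_k`.
-/

open scoped Manifold ContDiff Bundle Topology Matrix
open MeasureTheory Filter

noncomputable section

universe u

namespace BH

variable {n p : ℕ} {M : Type u} [TopologicalSpace M] [ChartedSpace (E n) M]
  [IsManifold 𝓘(ℝ, E n) ∞ M] [CompactSpace M] [T2Space M]

section aux

omit [IsManifold 𝓘(ℝ, E n) ∞ M] [T2Space M] in
theorem Piece.bKs_compact (Q : Piece n M) : IsCompact (Q.e '' tsupport Q.χ) :=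
  ((isClosed_tsupport _).isCompact).image_of_continuousOn (Q.e.continuousOn.mono Q.hs)

omit [IsManifold 𝓘(ℝ, E n) ∞ M] [CompactSpace M] [T2Space M] in
theorem Piece.bKs_sub (Q : Piece n M) : Q.e '' tsupport Q.χ ⊆ Q.e.target := by
  rintro _ ⟨x, hx, rfl⟩
  exact Q.e.map_source (Q.hs hx)

/-- a compact set that contains the supports of all the mollified forms of the piece -/
def Piece.bK (Q : Piece n M) : Set (E n) :=
  Metric.cthickening (1 / ((Q.k0 : ℝ) + 1)) (Q.e '' tsupport Q.χ)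

omit [IsManifold 𝓘(ℝ, E n) ∞ M] [T2Space M] in
theorem Piece.bK_compact (Q : Piece n M) : IsCompact Q.bK := Q.bKs_compact.cthickening

omit [IsManifold 𝓘(ℝ, E n) ∞ M] [T2Space M] in
theorem Piece.bK_sub (Q : Piece n M) : Q.bK ⊆ Q.e.target := by
  intro y hy
  have h0 : (0 : ℝ) < (Q.k0 : ℝ) + 1 := by positivity
  rw [Piece.bK, Q.bKs_compact.cthickening_eq_biUnion_closedBall (by positivity)] at hy
  simp only [Set.mem_iUnion, Metric.mem_closedBall] at hy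
  obtain ⟨_, ⟨x, hx, rfl⟩, hz⟩ := hy
  refine (Q.ψ1 x hx y (hz.trans ?_)).1
  gcongr
  norm_num

omit [IsManifold 𝓘(ℝ, E n) ∞ M] [CompactSpace M] [T2Space M] in
theorem Piece.bsupp (Q : Piece n M) (k : ℕ) {u : E n → Alt n p}
    (hu : ∀ y, u y ≠ 0 → y ∈ Q.e '' tsupport Q.χ) :
    ∀ y, mol (k + Q.k0) u y ≠ 0 → y ∈ Q.bK := by
  intro y hy
  obtain ⟨z, hz, hd⟩ := mol_support _ hy
  refine Metric.mem_cthickening_of_dist_le y z _ _ (hu z hz) (hd.trans ?_)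
  push_cast
  have h0 : (0 : ℝ) < (Q.k0 : ℝ) + 1 := by positivity
  gcongr
  linarith [(Nat.cast_nonneg k : (0 : ℝ) ≤ k)]

omit [IsManifold 𝓘(ℝ, E n) ∞ M] [CompactSpace M] [T2Space M] in
theorem Piece.bsupp0 (Q : Piece n M) {u : E n → Alt n p}
    (hu : ∀ y, u y ≠ 0 → y ∈ Q.e '' tsupport Q.χ) : ∀ y, u y ≠ 0 → y ∈ Q.bK :=
  fun y hy => Metric.self_subset_cthickening _ (hu y hy)

theorem Piece.bnorm (Q : Piece n M) (S : Sys n M) (p : ℕ) :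
    ∃ C : ℝ, 0 < C ∧ ∀ (a : Om S p) (f : E n → Alt n p), a.f = BH.mk Q.e f → ContDiff ℝ ∞ f →
      (∀ y, f y ≠ 0 → y ∈ Q.bK) → ‖a‖ ^ 2 ≤ C * ∫ y, ‖f y‖ ^ 2 :=
  norm_mk S p Q.he Q.bK_compact Q.bK_sub

omit [CompactSpace M] [T2Space M] in
theorem Piece.bfs (Q : Piece n M) (α : Form n M p) : fs Q.χ α = BH.mk Q.e (Q.lx α) := by
  rw [← mk_loc Q.he (α := fs Q.χ α)]
  · refine mk_congr fun y hy => ?_
    rw [loc_fs, Piece.lx, if_pos hy]
  · intro x hx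
    have h1 : Q.χ x = 0 := image_eq_zero_of_notMem_tsupport fun h => hx (Q.hs h)
    change Q.χ x • α x = 0
    rw [h1]
    ext v
    exact zero_mul _

omit [IsManifold 𝓘(ℝ, E n) ∞ M] [CompactSpace M] [T2Space M] in
theorem bsub_mk (e : OpenPartialHomeomorph M (E n)) (f h : E n → Alt n p) :
    BH.mk e (fun y => f y - h y) = BH.mk e f - BH.mk e h := by
  have h1 : (fun y => f y - h y) = fun y => f y + (fun z => (-1 : ℝ) • h z) y := by
    funext y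
    ext v
    change f y v - h y v = f y v + (-1 : ℝ) * h y v
    ring
  rw [h1, mk_add, mk_smul]
  funext x
  ext v
  change BH.mk e f x v + (-1 : ℝ) * BH.mk e h x v = BH.mk e f x v - BH.mk e h x v
  ring

theorem blim {X : Type*} [NormedAddCommGroup X] {x : ℕ → X} {l : X} {C : ℝ} {J : ℕ → ℝ}
    (h : ∀ k, ‖x k - l‖ ^ 2 ≤ C * J k) (hJ : Tendsto J atTop (𝓝 0)) :
    Tendsto x atTop (𝓝 l) := by
  rw [tendsto_iff_norm_sub_tendsto_zero]
  have h1 : Tendsto (fun k => √(C * J k)) atTop (𝓝 0) := by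
    have := (hJ.const_mul C).sqrt
    simpa using this
  refine squeeze_zero (fun _ => norm_nonneg _) (fun k => ?_) h1
  exact Real.le_sqrt_of_sq_le (h k)

theorem bint {F : Type} [NormedAddCommGroup F] [NormedSpace ℝ F] {u : E n → F}
    (hu : ContDiff ℝ ∞ u) (hc : HasCompactSupport u) (c : ℝ) :
    Integrable fun y => c * ‖fderiv ℝ u y‖ ^ 2 := by
  have hd : ContDiff ℝ ∞ (fderiv ℝ u) := hu.fderiv_right (by simp)
  have h1 : Continuous fun y => ‖fderiv ℝ u y‖ ^ 2 := by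
    have := hd.continuous
    fun_prop
  refine Continuous.integrable_of_hasCompactSupport (continuous_const.mul h1) ?_
  refine HasCompactSupport.mul_left ?_
  exact (hc.fderiv (𝕜 := ℝ)).comp_left (g := fun v => ‖v‖ ^ 2) (by simp)

theorem bbd {x y C : ℝ} (hC : 0 ≤ C) (hy : 0 ≤ y) (h : x ^ 2 ≤ C * y ^ 2) : x ≤ √C * y := by
  have h1 := Real.le_sqrt_of_sq_le h
  rwa [Real.sqrt_mul hC, Real.sqrt_sq hy] at h1

theorem Piece.bext (Q : Piece n M) {α : Form n M p} (hα : Smooth α) :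
    extDeriv (Q.lx α) = fun y => Q.lx (dM α) y + Q.wx α y := by
  funext y
  by_cases hy : y ∈ Q.e.target
  · have h1 : Q.lx α =ᶠ[𝓝 y] loc Q.e (fs Q.χ α) := by
      filter_upwards [Q.e.open_target.mem_nhds hy] with z hz
      rw [Piece.lx, if_pos hz, loc_fs]
    rw [h1.extDeriv_eq, ← loc_dM (Smooth.fs Q.hχ hα) Q.he hy, Piece.lx, Piece.wx, if_pos hy,
      if_pos hy]
    abel
  · have h1 : Q.lx α =ᶠ[𝓝 y] fun _ => 0 := by
      have h2 : y ∈ (Q.e '' tsupport Q.χ)ᶜ := fun h => hy (Q.bKs_sub h)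
      filter_upwards [Q.bKs_compact.isClosed.isOpen_compl.mem_nhds h2] with z hz
      by_contra h0
      exact hz ((Q.lx_smooth hα).2.2 z h0)
    rw [h1.extDeriv_eq, Piece.lx, Piece.wx, if_neg hy, if_neg hy, add_zero]
    unfold extDeriv
    rw [fderiv_const_apply]
    exact map_zero (ContinuousAlternatingMap.alternatizeUncurryFinCLM ℝ (E n) ℝ)

/-- the derivative of the mollified form -/
theorem Piece.bdmol (Q : Piece n M) (k : ℕ) {α : Form n M p} (hα : Smooth α) :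
    extDeriv (mol (k + Q.k0) (Q.lx α)) =
      fun y => mol (k + Q.k0) (Q.lx (dM α)) y + mol (k + Q.k0) (Q.wx α) y := by
  funext y
  have h1 := Q.lx_smooth hα
  rw [extDeriv_mol _ h1.1 h1.2.1, Q.bext hα]
  exact mol_add _ (Q.lx_smooth hα.dM).1.continuous (Q.wx_smooth hα).1.continuous y

theorem Piece.bdMP (Q : Piece n M) (k : ℕ) {α : Form n M p} (hα : Smooth α) :
    dM (Q.P k α) = BH.mk Q.e (extDeriv (mol (k + Q.k0) (Q.lx α))) := by
  have h1 := Q.lx_smooth hα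
  refine dM_mk Q.he Q.bK_compact Q.bK_sub (mol_smooth _ h1.1.continuous).contDiffOn ?_
  intro y _ hy
  by_contra h0
  exact hy (Q.bsupp k h1.2.2 y h0)

theorem Piece.bdMfs (Q : Piece n M) {α : Form n M p} (hα : Smooth α) :
    dM (fs Q.χ α) = BH.mk Q.e (fun y => Q.lx (dM α) y + Q.wx α y) := by
  have h1 := Q.lx_smooth hα
  rw [Q.bfs α, dM_mk Q.he Q.bK_compact Q.bK_sub h1.1.contDiffOn, Q.bext hα]
  intro y _ hy
  by_contra h0
  exact hy (Q.bsupp0 h1.2.2 y h0)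

end aux

theorem Piece.PO_bdd (Q : Piece n M) (S : Sys n M) (p : ℕ) :
    ∃ C : ℝ, 0 < C ∧ ∀ k (a : Om S p), ‖Q.PO S p k a‖ ≤ C * ‖a‖ := by
  obtain ⟨C1, h1, H1⟩ := Q.bnorm S p
  obtain ⟨C2, h2, H2⟩ := Q.lx_bdd S p
  refine ⟨√(C1 * C2), by positivity, fun k a => bbd (by positivity) (norm_nonneg _) ?_⟩
  have h3 := Q.lx_smooth a.smooth
  have h4 := H1 (Q.PO S p k a) _ rfl (mol_smooth _ h3.1.continuous) (Q.bsupp k h3.2.2)
  have h5 := mol_sq (k + Q.k0) h3.1.continuous h3.2.1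
  calc ‖Q.PO S p k a‖ ^ 2 ≤ C1 * ∫ y, ‖mol (k + Q.k0) (Q.lx a.f) y‖ ^ 2 := h4
    _ ≤ C1 * ∫ y, ‖Q.lx a.f y‖ ^ 2 := by gcongr
    _ ≤ C1 * (C2 * ‖a‖ ^ 2) := by gcongr; exact H2 a
    _ = C1 * C2 * ‖a‖ ^ 2 := by ring

theorem Piece.PO_lim (Q : Piece n M) (S : Sys n M) (p : ℕ) (a : Om S p) :
    Tendsto (fun k => Q.PO S p k a) atTop (𝓝 (Q.MO S p a)) := by
  obtain ⟨C1, h1, H1⟩ := Q.bnorm S p
  have h3 := Q.lx_smooth a.smooth
  refine blim (C := C1) (J := fun k => ∫ y, ‖mol (k + Q.k0) (Q.lx a.f) y - Q.lx a.f y‖ ^ 2)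
    (fun k => ?_) ((mol_lim h3.1.continuous h3.2.1).comp (tendsto_add_atTop_nat Q.k0))
  refine H1 (Q.PO S p k a - Q.MO S p a) _ ?_ ((mol_smooth _ h3.1.continuous).sub h3.1) ?_
  · rw [bsub_mk, ← Q.bfs]
    rfl
  · intro y hy
    by_cases h4 : Q.lx a.f y = 0
    · rw [h4, sub_zero] at hy
      exact Q.bsupp k h3.2.2 y hy
    · exact Q.bsupp0 h3.2.2 y h4

theorem Piece.dO_PO (Q : Piece n M) (S : Sys n M) (p k : ℕ) (a : Om S p) :
    dO S p (Q.PO S p k a) = Q.PO S (p + 1) k (dO S p a) + Q.WO S p k a := by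
  refine Om.ext ?_
  change dM (Q.P k a.f) = Q.P k (dM a.f) + Q.W k a.f
  rw [Q.bdMP k a.smooth, Q.bdmol k a.smooth, mk_add]
  rfl

theorem Piece.WO_bdd (Q : Piece n M) (S : Sys n M) (p : ℕ) :
    ∃ C : ℝ, 0 < C ∧ ∀ k (a : Om S p), ‖Q.WO S p k a‖ ≤ C * ‖a‖ := by
  obtain ⟨C1, h1, H1⟩ := Q.bnorm S (p + 1)
  obtain ⟨C2, h2, H2⟩ := Q.wx_bdd S p
  refine ⟨√(C1 * C2), by positivity, fun k a => bbd (by positivity) (norm_nonneg _) ?_⟩
  have h3 := Q.wx_smooth a.smooth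
  have h4 := H1 (Q.WO S p k a) _ rfl (mol_smooth _ h3.1.continuous) (Q.bsupp k h3.2.2)
  have h5 := mol_sq (k + Q.k0) h3.1.continuous h3.2.1
  calc ‖Q.WO S p k a‖ ^ 2 ≤ C1 * ∫ y, ‖mol (k + Q.k0) (Q.wx a.f) y‖ ^ 2 := h4
    _ ≤ C1 * ∫ y, ‖Q.wx a.f y‖ ^ 2 := by gcongr
    _ ≤ C1 * (C2 * ‖a‖ ^ 2) := by gcongr; exact H2 a
    _ = C1 * C2 * ‖a‖ ^ 2 := by ring

theorem Piece.WO_lim (Q : Piece n M) (S : Sys n M) (p : ℕ) (a : Om S p) :
    Tendsto (fun k => Q.WO S p k a) atTop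
      (𝓝 (dO S p (Q.MO S p a) - Q.MO S (p + 1) (dO S p a))) := by
  obtain ⟨C1, h1, H1⟩ := Q.bnorm S (p + 1)
  have h3 := Q.wx_smooth a.smooth
  refine blim (C := C1) (J := fun k => ∫ y, ‖mol (k + Q.k0) (Q.wx a.f) y - Q.wx a.f y‖ ^ 2)
    (fun k => ?_) ((mol_lim h3.1.continuous h3.2.1).comp (tendsto_add_atTop_nat Q.k0))
  refine H1 _ _ ?_ ((mol_smooth _ h3.1.continuous).sub h3.1) ?_
  · have h5 : BH.mk Q.e (Q.wx a.f) = dM (fs Q.χ a.f) - fs Q.χ (dM a.f) := by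
      rw [Q.bdMfs a.smooth, Q.bfs (dM a.f), ← bsub_mk]
      congr 1
      funext y
      abel
    rw [bsub_mk, h5]
    rfl
  · intro y hy
    by_cases h4 : Q.wx a.f y = 0
    · rw [h4, sub_zero] at hy
      exact Q.bsupp k h3.2.2 y hy
    · exact Q.bsupp0 h3.2.2 y h4

theorem Piece.dO_PO_bdd (Q : Piece n M) (S : Sys n M) (p k : ℕ) :
    ∃ B : ℝ, 0 < B ∧ ∀ a : Om S p, ‖dO S p (Q.PO S p k a)‖ ≤ B * ‖a‖ := by
  obtain ⟨C1, h1, H1⟩ := Q.bnorm S (p + 1)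
  obtain ⟨C2, h2, H2⟩ := Q.lx_bdd S p
  obtain ⟨B, hB⟩ := fderiv_mol_sq (n := n) (F := Alt n p) (k + Q.k0)
  refine ⟨√(C1 * (((p : ℝ) + 1) ^ 2 * ((|B| + 1) * C2))), by positivity,
    fun a => bbd (by positivity) (norm_nonneg _) ?_⟩
  have h3 := Q.lx_smooth a.smooth
  have hm := mol_smooth (k + Q.k0) h3.1.continuous
  have hmc := mol_compact (k + Q.k0) h3.2.1
  have hd : ContDiff ℝ ∞ (fderiv ℝ (mol (k + Q.k0) (Q.lx a.f))) := hm.fderiv_right (by simp)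
  have he : extDeriv (mol (k + Q.k0) (Q.lx a.f)) = fun y =>
      ContinuousAlternatingMap.alternatizeUncurryFinCLM ℝ (E n) ℝ
        (fderiv ℝ (mol (k + Q.k0) (Q.lx a.f)) y) := by
    funext y
    rfl
  have hes : ContDiff ℝ ∞ (extDeriv (mol (k + Q.k0) (Q.lx a.f))) := by
    rw [he]
    exact (ContinuousLinearMap.contDiff _).comp hd
  have h4 := H1 (dO S p (Q.PO S p k a)) _ (Q.bdMP k a.smooth) hes (by
    intro y hy
    rw [Q.bdmol k a.smooth] at hy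
    by_cases h5 : mol (k + Q.k0) (Q.lx (dM a.f)) y = 0
    · simp only [h5, zero_add] at hy
      exact Q.bsupp k (Q.wx_smooth a.smooth).2.2 y hy
    · exact Q.bsupp k (Q.lx_smooth a.smooth.dM).2.2 y h5)
  have h6 : ∫ y, ‖extDeriv (mol (k + Q.k0) (Q.lx a.f)) y‖ ^ 2 ≤
      ∫ y, ((p : ℝ) + 1) ^ 2 * ‖fderiv ℝ (mol (k + Q.k0) (Q.lx a.f)) y‖ ^ 2 := by
    have hi := bint hm hmc (((p : ℝ) + 1) ^ 2)
    refine integral_mono_of_nonneg (Eventually.of_forall fun y => by positivity) hi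
      (Eventually.of_forall fun y => ?_)
    change ‖extDeriv (mol (k + Q.k0) (Q.lx a.f)) y‖ ^ 2 ≤
      ((p : ℝ) + 1) ^ 2 * ‖fderiv ℝ (mol (k + Q.k0) (Q.lx a.f)) y‖ ^ 2
    rw [← mul_pow]
    gcongr
    exact ContinuousAlternatingMap.norm_alternatizeUncurryFin_le _
  rw [integral_const_mul] at h6
  have h7 := hB (Q.lx a.f) h3.1.continuous h3.2.1
  have h8 : 0 ≤ ∫ y, ‖Q.lx a.f y‖ ^ 2 := integral_nonneg fun y => by positivity
  calc ‖dO S p (Q.PO S p k a)‖ ^ 2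
      ≤ C1 * ∫ y, ‖extDeriv (mol (k + Q.k0) (Q.lx a.f)) y‖ ^ 2 := h4
    _ ≤ C1 * (((p : ℝ) + 1) ^ 2 * ∫ y, ‖fderiv ℝ (mol (k + Q.k0) (Q.lx a.f)) y‖ ^ 2) := by
        gcongr
    _ ≤ C1 * (((p : ℝ) + 1) ^ 2 * ((|B| + 1) * ∫ y, ‖Q.lx a.f y‖ ^ 2)) := by
        gcongr
        refine h7.trans (mul_le_mul_of_nonneg_right ?_ h8)
        linarith [le_abs_self B]
    _ ≤ C1 * (((p : ℝ) + 1) ^ 2 * ((|B| + 1) * (C2 * ‖a‖ ^ 2))) := by
        gcongr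
        exact H2 a
    _ = C1 * (((p : ℝ) + 1) ^ 2 * ((|B| + 1) * C2)) * ‖a‖ ^ 2 := by ring

end BH
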