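import Pool.Agent.Lib.MP_4a593f_gt.BH.Gl.DelC

/-!
Row PLemD: `d` and `δ` of a form supported in a chart are bounded by one derivative.
-/

open scoped Manifold ContDiff Bundle Topology Matrix
open MeasureTheory

noncomputable section

universe u

namespace BH

variable {n p : ℕ}

theorem lin_bdd {q : ℕ} (L : Alt n p →ₗ[ℝ] Alt n q) :
    ∃ C : ℝ, 0 ≤ C ∧ ∀ a, ‖L a‖ ≤ C * ‖a‖ := by
  obtain ⟨C, hC, h⟩ := L.toContinuousLinearMap.bound
  exact ⟨C, hC.le, h⟩

theorem norm_bv (k : Fin n) : ‖(bv k : E n)‖ = 1 := by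
  simp [bv]

theorem norm_pdF_le (k : Fin n) (f : E n → Alt n p) (y : E n) :
    ‖pdF k f y‖ ≤ ‖fderiv ℝ f y‖ := by
  have h := (fderiv ℝ f y).le_opNorm (bv k)
  rwa [norm_bv, mul_one] at h

variable {U : Set (E n)} {G : Fin n → Fin n → E n → ℝ}

theorem iou_bdd (p : ℕ) (hG : IsMet U G) {K : Set (E n)} (hK : IsCompact K) (hKU : K ⊆ U) :
    ∃ C : ℝ, 0 ≤ C ∧ ∀ y ∈ K, ∀ k, ∀ b : Alt n (p + 1), ‖iou (gmat G y) k b‖ ≤ C * ‖b‖ := by
  choose D hD using fun k j => hK.exists_bound_of_continuousOn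
    ((hG.inv_smooth k j).continuousOn.mono hKU)
  choose L hL0 hL using fun j : Fin n => lin_bdd (iot (p := p) j)
  refine ⟨∑ k, ∑ j, |D k j| * L j, Finset.sum_nonneg fun k _ => Finset.sum_nonneg fun j _ =>
    mul_nonneg (abs_nonneg _) (hL0 j), fun y hy k b => ?_⟩
  have h1 : ‖iou (gmat G y) k b‖ ≤ ∑ j, |D k j| * L j * ‖b‖ := by
    rw [iou_apply]
    refine (norm_sum_le _ _).trans (Finset.sum_le_sum fun j _ => ?_)
    rw [norm_smul, mul_assoc]
    exact mul_le_mul ((hD k j y hy).trans (le_abs_self _)) (hL j b) (norm_nonneg _)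
      (abs_nonneg _)
  refine h1.trans ?_
  rw [← Finset.sum_mul]
  refine mul_le_mul_of_nonneg_right ?_ (norm_nonneg _)
  exact Finset.single_le_sum (f := fun k => ∑ j, |D k j| * L j)
    (fun k _ => Finset.sum_nonneg fun j _ => mul_nonneg (abs_nonneg _) (hL0 j))
    (Finset.mem_univ k)

theorem act_bdd (p : ℕ) (hU : IsOpen U) (hG : IsMet U G) {K : Set (E n)} (hK : IsCompact K)
    (hKU : K ⊆ U) :
    ∃ C : ℝ, 0 ≤ C ∧ ∀ y ∈ K, ∀ k, ∀ b : Alt n (p + 1), ‖act (gam G k y) b‖ ≤ C * ‖b‖ := by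
  choose D hD using fun l k i => hK.exists_bound_of_continuousOn
    ((chr_smooth hU hG l k i).continuousOn.mono hKU)
  choose L hL0 hL using fun (i l : Fin n) => lin_bdd ((eps i) ∘ₗ (iot (p := p) l))
  refine ⟨∑ k, ∑ i, ∑ l, |D l k i| * L i l, Finset.sum_nonneg fun k _ =>
    Finset.sum_nonneg fun i _ => Finset.sum_nonneg fun l _ =>
      mul_nonneg (abs_nonneg _) (hL0 i l), fun y hy k b => ?_⟩
  have h1 : ‖act (gam G k y) b‖ ≤ ∑ i, ∑ l, |D l k i| * L i l * ‖b‖ := by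
    rw [act_succ, norm_neg]
    refine (norm_sum_le _ _).trans (Finset.sum_le_sum fun i _ => ?_)
    refine (norm_sum_le _ _).trans (Finset.sum_le_sum fun l _ => ?_)
    rw [norm_smul, mul_assoc]
    exact mul_le_mul ((hD l k i y hy).trans (le_abs_self _)) (hL i l b) (norm_nonneg _)
      (abs_nonneg _)
  refine h1.trans ?_
  simp only [← Finset.sum_mul]
  refine mul_le_mul_of_nonneg_right ?_ (norm_nonneg _)
  exact Finset.single_le_sum (f := fun k => ∑ i, ∑ l, |D l k i| * L i l)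
    (fun k _ => Finset.sum_nonneg fun i _ => Finset.sum_nonneg fun l _ =>
      mul_nonneg (abs_nonneg _) (hL0 i l)) (Finset.mem_univ k)

/-- pointwise bound of the codifferential -/
theorem codiff_bdd (p : ℕ) (hU : IsOpen U) (hG : IsMet U G) {K : Set (E n)} (hK : IsCompact K)
    (hKU : K ⊆ U) :
    ∃ C : ℝ, 0 ≤ C ∧ ∀ f : E n → Alt n (p + 1), ContDiffOn ℝ ∞ f U → ∀ y ∈ K,
      ‖codiff G f y‖ ≤ C * (‖f y‖ + ‖fderiv ℝ f y‖) := by
  obtain ⟨C1, h10, h1⟩ := iou_bdd p hG hK hKU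
  obtain ⟨C2, h20, h2⟩ := act_bdd p hU hG hK hKU
  refine ⟨n * (C1 * (1 + C2)), by positivity, fun f hf y hy => ?_⟩
  rw [codiff_nab hU hG hf (hKU hy), norm_neg]
  have h3 : ∀ k ∈ (Finset.univ : Finset (Fin n)), ‖iou (gmat G y) k (nab G k f y)‖ ≤
      C1 * (1 + C2) * (‖f y‖ + ‖fderiv ℝ f y‖) := by
    intro k _
    have h4 : ‖nab G k f y‖ ≤ (1 + C2) * (‖f y‖ + ‖fderiv ℝ f y‖) := by
      refine (norm_add_le _ _).trans ?_
      have h5 := norm_pdF_le k f y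
      have h6 := h2 y hy k (f y)
      nlinarith [norm_nonneg (f y), norm_nonneg (fderiv ℝ f y),
        mul_nonneg h20 (norm_nonneg (fderiv ℝ f y))]
    refine (h1 y hy k _).trans ?_
    rw [mul_assoc]
    exact mul_le_mul_of_nonneg_left h4 h10
  refine (norm_sum_le_of_le _ h3).trans (le_of_eq ?_)
  rw [Finset.sum_const, Finset.card_univ, Fintype.card_fin, nsmul_eq_mul]
  ring

/-- pointwise bound of the exterior derivative -/
theorem extDeriv_bdd (n p : ℕ) : ∃ C : ℝ, 0 ≤ C ∧ ∀ (f : E n → Alt n p) (y : E n),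
    ‖extDeriv f y‖ ≤ C * ‖fderiv ℝ f y‖ :=
  ⟨p + 1, by positivity, fun f y =>
    ContinuousAlternatingMap.norm_alternatizeUncurryFin_le (fderiv ℝ f y)⟩

variable {M : Type u} [TopologicalSpace M] [ChartedSpace (E n) M]
  [IsManifold 𝓘(ℝ, E n) ∞ M] [CompactSpace M] [T2Space M]

/-- the norm of a form supported in a chart -/
theorem norm_sq_le_loc (S : Sys n M) (q : ℕ) {e : OpenPartialHomeomorph M (E n)}
    (he : e ∈ atlas (E n) M) {K : Set (E n)} (hK : IsCompact K) (hKt : K ⊆ e.target) :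
    ∃ C : ℝ, 0 ≤ C ∧ ∀ b : Om S q, (∀ x, b.f x ≠ 0 → x ∈ e.symm '' K) →
      ‖b‖ ^ 2 ≤ C * ∫ y in K, ‖loc e b.f y‖ ^ 2 := by
  obtain ⟨C, hC0, hC⟩ := ipG_bdd (p := q) (isMet_gloc S.g he) hK hKt
  refine ⟨C, hC0.le, fun b hb => ?_⟩
  rw [← real_inner_self_eq_norm_sq, inner_chart _ _ he hK hKt hb]
  have hoff : ∀ y ∈ e.target \ K, loc e b.f y = 0 := by
    intro y hy
    refine loc_off ?_
    by_contra hne
    obtain ⟨z, hz, hzy⟩ := hb _ hne
    have := e.symm.injOn (hKt hz) hy.1 hzy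
    exact hy.2 (this ▸ hz)
  rw [setIntegral_eq_of_subset_of_forall_sdiff_eq_zero e.open_target.measurableSet hKt
    (fun y hy => by
      have h2 := ipG_smul_left (gmat (gloc e S.g) y) (0 : ℝ) (0 : Alt n q) 0
      rw [zero_smul, zero_mul] at h2
      rw [hoff y hy, h2, zero_mul]), ← integral_const_mul]
  have hloc : ContinuousOn (loc e b.f) K := (b.smooth e he).continuousOn.mono hKt
  refine setIntegral_mono_on ?_ ?_ hK.measurableSet fun y hy => (hC y hy _).2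
  · exact (((smooth_ipG (isMet_gloc S.g he) (b.smooth e he) (b.smooth e he)).continuousOn.mul
      (isMet_gloc S.g he).vol_smooth.continuousOn).mono hKt).integrableOn_compact hK
  · exact (continuousOn_const.mul (hloc.norm.pow 2)).integrableOn_compact hK

/-- integrals of squares of a smooth function and its derivative over a compact set -/
theorem setIntegral_le_sq {f : E n → Alt n p} (hf : ContDiff ℝ ∞ f) {K : Set (E n)}
    (hK : IsCompact K) (h0 : ∀ y, f y ≠ 0 → y ∈ K) {F : E n → ℝ} (hF : ContinuousOn F K)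
    {C : ℝ} (hle : ∀ y ∈ K, |F y| ≤ C * (‖f y‖ + ‖fderiv ℝ f y‖)) :
    ∫ y in K, F y ^ 2 ≤ 2 * C ^ 2 * ((∫ y, ‖f y‖ ^ 2) + ∫ y, ‖fderiv ℝ f y‖ ^ 2) := by
  have hoff : ∀ y, y ∉ K → f y = 0 := fun y hy => by
    by_contra h
    exact hy (h0 y h)
  have hd0 : ∀ y, y ∉ K → fderiv ℝ f y = 0 := by
    intro y hy
    have h1 : f =ᶠ[𝓝 y] fun _ => 0 := by
      filter_upwards [hK.isClosed.isOpen_compl.mem_nhds hy] with z hz
      exact hoff z hz
    rw [h1.fderiv_eq, fderiv_fun_const]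
    rfl
  have hcf : Continuous fun y => ‖f y‖ ^ 2 := hf.continuous.norm.pow 2
  have hcd : Continuous fun y => ‖fderiv ℝ f y‖ ^ 2 :=
    (hf.continuous_fderiv (by simp)).norm.pow 2
  have hs1 : HasCompactSupport fun y => ‖f y‖ ^ 2 :=
    HasCompactSupport.intro hK fun y hy => by simp [hoff y hy]
  have hs2 : HasCompactSupport fun y => ‖fderiv ℝ f y‖ ^ 2 :=
    HasCompactSupport.intro hK fun y hy => by
      have h1 : ‖(0 : E n →L[ℝ] Alt n p)‖ = 0 := ContinuousLinearMap.opNorm_zero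
      rw [hd0 y hy, h1]
      simp
  have hi1 : Integrable fun y => ‖f y‖ ^ 2 := hcf.integrable_of_hasCompactSupport hs1
  have hi2 : Integrable fun y => ‖fderiv ℝ f y‖ ^ 2 := hcd.integrable_of_hasCompactSupport hs2
  have hi : Integrable fun y => 2 * C ^ 2 * (‖f y‖ ^ 2 + ‖fderiv ℝ f y‖ ^ 2) :=
    (hi1.add hi2).const_mul _
  calc ∫ y in K, F y ^ 2 ≤ ∫ y in K, 2 * C ^ 2 * (‖f y‖ ^ 2 + ‖fderiv ℝ f y‖ ^ 2) := by
        refine setIntegral_mono_on ((hF.pow 2).integrableOn_compact hK) hi.integrableOn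
          hK.measurableSet fun y hy => ?_
        have h1 := hle y hy
        have h2 : F y ^ 2 ≤ (C * (‖f y‖ + ‖fderiv ℝ f y‖)) ^ 2 := by
          rw [← sq_abs]
          exact pow_le_pow_left₀ (abs_nonneg _) h1 2
        refine h2.trans ?_
        rw [mul_pow]
        have h3 : (‖f y‖ + ‖fderiv ℝ f y‖) ^ 2 ≤ 2 * (‖f y‖ ^ 2 + ‖fderiv ℝ f y‖ ^ 2) := by
          nlinarith [sq_nonneg (‖f y‖ - ‖fderiv ℝ f y‖)]
        nlinarith [sq_nonneg C]
    _ ≤ ∫ y, 2 * C ^ 2 * (‖f y‖ ^ 2 + ‖fderiv ℝ f y‖ ^ 2) :=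
        setIntegral_le_integral hi (Filter.Eventually.of_forall fun y => by positivity)
    _ = _ := by rw [integral_const_mul, integral_add hi1 hi2]

theorem norm_dO_mk (S : Sys n M) (p : ℕ) {e : OpenPartialHomeomorph M (E n)}
    (he : e ∈ atlas (E n) M) {K : Set (E n)} (hK : IsCompact K) (hKt : K ⊆ e.target) :
    ∃ C : ℝ, 0 < C ∧ ∀ (a : Om S p) (f : E n → Alt n p), a.f = mk e f → ContDiff ℝ ∞ f →
      (∀ y, f y ≠ 0 → y ∈ K) →
      ‖dO S p a‖ ^ 2 ≤ C * ((∫ y, ‖f y‖ ^ 2) + ∫ y, ‖fderiv ℝ f y‖ ^ 2) := by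
  obtain ⟨C, hC0, hC⟩ := norm_sq_le_loc S (p + 1) he hK hKt
  obtain ⟨D, hD0, hD⟩ := extDeriv_bdd n p
  refine ⟨C * (2 * D ^ 2) + 1, by positivity, fun a f haf hf h0 => ?_⟩
  have hoff : ∀ y ∈ e.target, y ∉ K → f y = 0 := fun y _ hy => by
    by_contra h
    exact hy (h0 y h)
  have h1 : (dO S p a).f = mk e (extDeriv f) := by
    rw [dO_f, haf]
    exact dM_mk he hK hKt hf.contDiffOn hoff
  have h2 := hC (dO S p a) fun x hx => by
    rw [h1] at hx
    exact mk_supp (fun y hy h => extDeriv_off e.open_target hK hoff hy h) hx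
  have hJ : (0 : ℝ) ≤ (∫ y, ‖f y‖ ^ 2) + ∫ y, ‖fderiv ℝ f y‖ ^ 2 := by positivity
  have hcont : ContinuousOn (fun y => ‖loc e (dO S p a).f y‖) K :=
    (((dO S p a).smooth e he).continuousOn.mono hKt).norm
  have h3 := setIntegral_le_sq hf hK h0 hcont fun y hy => by
    rw [abs_norm, h1, loc_mk he _ (hKt hy)]
    refine (hD f y).trans (mul_le_mul_of_nonneg_left ?_ hD0)
    linarith [norm_nonneg (f y)]
  refine h2.trans ((mul_le_mul_of_nonneg_left h3 hC0).trans ?_)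
  nlinarith

theorem norm_del_mk (S : Sys n M) (p : ℕ) {e : OpenPartialHomeomorph M (E n)}
    (he : e ∈ atlas (E n) M) {K : Set (E n)} (hK : IsCompact K) (hKt : K ⊆ e.target) :
    ∃ C : ℝ, 0 < C ∧ ∀ (a : Om S (p + 1)) (f : E n → Alt n (p + 1)), a.f = mk e f →
      ContDiff ℝ ∞ f → (∀ y, f y ≠ 0 → y ∈ K) →
      ‖del S p a‖ ^ 2 ≤ C * ((∫ y, ‖f y‖ ^ 2) + ∫ y, ‖fderiv ℝ f y‖ ^ 2) := by
  obtain ⟨C, hC0, hC⟩ := norm_sq_le_loc S p he hK hKt
  obtain ⟨D, hD0, hD⟩ := codiff_bdd p e.open_target (isMet_gloc S.g he) hK hKt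
  refine ⟨C * (2 * D ^ 2) + 1, by positivity, fun a f haf hf h0 => ?_⟩
  have hcl : IsClosed (e.symm '' K) :=
    (hK.image_of_continuousOn (e.continuousOn_symm.mono hKt)).isClosed
  have h2 := hC (del S p a) fun x hx => by
    by_contra hxK
    refine hx (del_off S a hcl.isOpen_compl (fun z hz => ?_) hxK)
    by_contra hne
    rw [haf] at hne
    exact hz (mk_supp (fun y _ h => by
      by_contra h'
      exact h (h0 y h')) hne)
  have hcont : ContinuousOn (fun y => ‖loc e (del S p a).f y‖) K :=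
    (((del S p a).smooth e he).continuousOn.mono hKt).norm
  have h3 := setIntegral_le_sq hf hK h0 hcont fun y hy => by
    rw [abs_norm, loc_del S a he (hKt hy), haf,
      codiff_congr e.open_target (h := f) (fun z hz => loc_mk he f hz) (hKt hy)]
    exact hD f hf.contDiffOn y hy
  have hJ : (0 : ℝ) ≤ (∫ y, ‖f y‖ ^ 2) + ∫ y, ‖fderiv ℝ f y‖ ^ 2 := by positivity
  refine h2.trans ((mul_le_mul_of_nonneg_left h3 hC0).trans ?_)
  nlinarith

end BH
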