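import Pool.Agent.Lib.MP_4a593f_gt.BH.PEstD0
import Pool.Agent.Lib.MP_4a593f_gt.BH.PLemD

/-!
Row PEstC, preparations: Leibniz bound for `B v`, limits of the mollification in `H¹`.
-/

open scoped Manifold ContDiff Bundle Topology Matrix
open MeasureTheory Filter

noncomputable section

universe u

namespace BH

variable {n : ℕ} {F : Type} [NormedAddCommGroup F] [NormedSpace ℝ F]

theorem pestc_sq_int {V : Type} [NormedAddCommGroup V] {w : E n → V}
    (hw : Continuous w) (hc : HasCompactSupport w) : Integrable fun y => ‖w y‖ ^ 2 := by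
  refine Continuous.integrable_of_hasCompactSupport (hw.norm.pow 2) ?_
  exact hc.comp_left (g := fun a : V => ‖a‖ ^ 2) (by simp)

/-- Leibniz bound -/
theorem pestc_leib {B : E n → pestd_Op F} (hB : ContDiff ℝ ∞ B) (hc : HasCompactSupport B) :
    ∃ C : ℝ, 0 < C ∧ ∀ v : E n → F, ContDiff ℝ ∞ v → HasCompactSupport v →
      ∫ y, ‖B y (v y)‖ ^ 2 ≤ C * ∫ y, ‖v y‖ ^ 2 ∧
      (∫ y, ‖B y (v y)‖ ^ 2) + ∫ y, ‖fderiv ℝ (fun z => B z (v z)) y‖ ^ 2 ≤
        C * ((∫ y, ‖v y‖ ^ 2) + ∫ y, ‖fderiv ℝ v y‖ ^ 2) := by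
  obtain ⟨C1, h1⟩ := hB.continuous.bounded_above_of_compact_support hc
  obtain ⟨C2, h2⟩ := (hB.continuous_fderiv (by simp)).bounded_above_of_compact_support
    (hc.fderiv ℝ)
  set D : ℝ := max 1 (max C1 C2) with hD
  have hD1 : 1 ≤ D := le_max_left _ _
  have hD0 : 0 < D := by linarith
  have h1' : ∀ y, ‖B y‖ ≤ D := fun y => (h1 y).trans ((le_max_left _ _).trans (le_max_right _ _))
  have h2' : ∀ y, ‖fderiv ℝ B y‖ ≤ D := fun y =>
    (h2 y).trans ((le_max_right _ _).trans (le_max_right _ _))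
  have key1 : ∀ (v : E n → F) (y : E n), ‖B y (v y)‖ ^ 2 ≤ D ^ 2 * ‖v y‖ ^ 2 := by
    intro v y
    rw [← mul_pow]
    refine pow_le_pow_left₀ (norm_nonneg _) ?_ 2
    exact ((B y).le_opNorm _).trans (mul_le_mul_of_nonneg_right (h1' y) (norm_nonneg _))
  have key2 : ∀ (v : E n → F), ContDiff ℝ ∞ v → ∀ y,
      ‖fderiv ℝ (fun z => B z (v z)) y‖ ^ 2 ≤
        2 * D ^ 2 * (‖v y‖ ^ 2 + ‖fderiv ℝ v y‖ ^ 2) := by
    intro v hv y
    have h3 := (((hB.differentiable (by simp)) y).hasFDerivAt.clm_apply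
      ((hv.differentiable (by simp)) y).hasFDerivAt).fderiv
    rw [h3]
    have h4 : ‖(B y).comp (fderiv ℝ v y) + (fderiv ℝ B y).flip (v y)‖ ≤
        D * (‖v y‖ + ‖fderiv ℝ v y‖) := by
      refine (norm_add_le _ _).trans ?_
      have h5 : ‖(B y).comp (fderiv ℝ v y)‖ ≤ D * ‖fderiv ℝ v y‖ :=
        (ContinuousLinearMap.opNorm_comp_le _ _).trans
          (mul_le_mul_of_nonneg_right (h1' y) (norm_nonneg _))
      have h6 : ‖(fderiv ℝ B y).flip (v y)‖ ≤ D * ‖v y‖ := by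
        refine (ContinuousLinearMap.le_opNorm _ _).trans ?_
        rw [ContinuousLinearMap.opNorm_flip]
        exact mul_le_mul_of_nonneg_right (h2' y) (norm_nonneg _)
      linarith
    refine (pow_le_pow_left₀ (norm_nonneg _) h4 2).trans ?_
    have h7 : 0 ≤ (‖v y‖ - ‖fderiv ℝ v y‖) ^ 2 := sq_nonneg _
    have h8 : 0 ≤ D ^ 2 := sq_nonneg D
    nlinarith [mul_nonneg h8 h7]
  refine ⟨3 * D ^ 2, by positivity, fun v hv hvc => ?_⟩
  have i1 : Integrable fun y => ‖v y‖ ^ 2 := pestc_sq_int hv.continuous hvc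
  have i2 : Integrable fun y => ‖fderiv ℝ v y‖ ^ 2 :=
    pestc_sq_int (hv.continuous_fderiv (by simp)) (hvc.fderiv ℝ)
  have e1 : ∫ y, ‖B y (v y)‖ ^ 2 ≤ D ^ 2 * ∫ y, ‖v y‖ ^ 2 := by
    rw [← integral_const_mul]
    exact integral_mono_of_nonneg (Eventually.of_forall fun y => by positivity)
      (i1.const_mul _) (Eventually.of_forall fun y => key1 v y)
  have e2 : ∫ y, ‖fderiv ℝ (fun z => B z (v z)) y‖ ^ 2 ≤
      2 * D ^ 2 * ((∫ y, ‖v y‖ ^ 2) + ∫ y, ‖fderiv ℝ v y‖ ^ 2) := by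
    rw [← integral_add i1 i2, ← integral_const_mul]
    exact integral_mono_of_nonneg (Eventually.of_forall fun y => by positivity)
      ((i1.add i2).const_mul _) (Eventually.of_forall fun y => key2 v hv y)
  have p1 : 0 ≤ ∫ y, ‖v y‖ ^ 2 := integral_nonneg fun y => by positivity
  have p2 : 0 ≤ ∫ y, ‖fderiv ℝ v y‖ ^ 2 := integral_nonneg fun y => by positivity
  have p3 : 0 < D ^ 2 := by positivity
  constructor
  · nlinarith [mul_nonneg p3.le p1]
  · nlinarith [mul_nonneg p3.le p1, mul_nonneg p3.le p2]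

/-- the derivative of the mollification converges -/
theorem pestc_lim [FiniteDimensional ℝ F] {v : E n → F} (hv : ContDiff ℝ ∞ v)
    (hc : HasCompactSupport v) :
    Tendsto (fun k => ∫ x, ‖fderiv ℝ (fun y => mol k v y - v y) x‖ ^ 2) atTop (𝓝 0) := by
  have h1 : Continuous (fderiv ℝ v) := hv.continuous_fderiv (by simp)
  have h2 : HasCompactSupport (fderiv ℝ v) := hc.fderiv ℝ
  have h3 := mol_lim h1 h2
  refine h3.congr fun k => ?_
  congr 1
  funext x
  have h4 : fderiv ℝ (fun y => mol k v y - v y) x = fderiv ℝ (mol k v) x - fderiv ℝ v x :=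
    fderiv_fun_sub (((mol_smooth k hv.continuous).differentiable (by simp)) x)
      ((hv.differentiable (by simp)) x)
  rw [h4, fderiv_mol k hv hc]

/-- squares -/
theorem pestc_tendsto {V : Type*} [NormedAddCommGroup V] {x : ℕ → V} {r : ℕ → ℝ} {C : ℝ}
    (h : ∀ k, ‖x k‖ ^ 2 ≤ C * r k) (hr : Tendsto r atTop (𝓝 0)) :
    Tendsto (fun k => ‖x k‖) atTop (𝓝 0) := by
  have h1 : Tendsto (fun k => Real.sqrt (C * r k)) atTop (𝓝 0) := by
    have h2 : Tendsto (fun k => C * r k) atTop (𝓝 0) := by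
      simpa using hr.const_mul C
    have h3 := (Real.continuous_sqrt.tendsto 0).comp h2
    rwa [Real.sqrt_zero] at h3
  refine squeeze_zero (fun k => norm_nonneg _) (fun k => ?_) h1
  exact Real.le_sqrt_of_sq_le (h k)

end BH
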