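import Pool.Agent.Lib.MP_4a593f_gt.BH.PEstA

/-!
Row PEstD, preparations: the operator `χA⁻¹` and the commutator, where
`J_k α - P_k α = mk [χA⁻¹, mol_k](ψAα)`, `A = vol raise`.
-/

open scoped Manifold ContDiff Bundle Topology Matrix
open MeasureTheory Filter

noncomputable section

universe u

namespace BH

variable {n p : ℕ} {M : Type u} [TopologicalSpace M] [ChartedSpace (E n) M]
  [IsManifold 𝓘(ℝ, E n) ∞ M] [CompactSpace M] [T2Space M]

/-- operators on a normed space -/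
abbrev pestd_Op (F : Type) [NormedAddCommGroup F] [NormedSpace ℝ F] : Type := F →L[ℝ] F

def pestd_mk {F : Type} [NormedAddCommGroup F] [NormedSpace ℝ F]
    [FiniteDimensional ℝ F] (L : F →ₗ[ℝ] F) : pestd_Op F := LinearMap.toContinuousLinearMap L

/-- `pb A` as an operator -/
def pestd_L (p : ℕ) (A : Matrix (Fin n) (Fin n) ℝ) : pestd_Op (Alt n p) :=
  pestd_mk
    { toFun := pb A
      map_add' := pb_add A
      map_smul' := pb_smul A }

theorem pestd_L_apply (A : Matrix (Fin n) (Fin n) ℝ) (a : Alt n p) :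
    pestd_L p A a = pb A a := rfl

open Classical in
/-- `χ A⁻¹`, extended by zero -/
def pestd_B (Q : Piece n M) (g : Metric n M) (p : ℕ) (y : E n) :
    pestd_Op (Alt n p) :=
  if y ∈ Q.e.target then
    (Q.χ (Q.e.symm y) * (vol (gloc Q.e g) y)⁻¹) • pestd_L p (gmat (gloc Q.e g) y)
  else 0

/-- the image of the support of `χ` -/
def pestd_K (Q : Piece n M) : Set (E n) := Q.e '' tsupport Q.χ

omit [IsManifold 𝓘(ℝ, E n) ∞ M] [T2Space M] in
theorem pestd_K_compact (Q : Piece n M) : IsCompact (pestd_K Q) :=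
  (isClosed_tsupport Q.χ).isCompact.image_of_continuousOn (Q.e.continuousOn.mono Q.hs)

omit [IsManifold 𝓘(ℝ, E n) ∞ M] [CompactSpace M] [T2Space M] in
theorem pestd_χ (Q : Piece n M) {y : E n} (hy : y ∈ Q.e.target) (h : y ∉ pestd_K Q) :
    Q.χ (Q.e.symm y) = 0 := by
  by_contra hc
  exact h ⟨Q.e.symm y, subset_tsupport _ hc, Q.e.right_inv hy⟩

omit [CompactSpace M] [T2Space M] in
theorem pestd_B_off (Q : Piece n M) (g : Metric n M) {y : E n} (h : y ∉ pestd_K Q) :
    pestd_B Q g p y = 0 := by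
  unfold pestd_B
  split_ifs with hy
  · rw [pestd_χ Q hy h, zero_mul, zero_smul]
  · rfl

omit [T2Space M] in
theorem pestd_B_smooth (Q : Piece n M) (g : Metric n M) (p : ℕ) :
    ContDiff ℝ ∞ (pestd_B Q g p) := by
  rw [contDiff_iff_contDiffAt]
  intro y
  by_cases hy : y ∈ Q.e.target
  · have hG := isMet_gloc g Q.he
    have ha : ContDiffOn ℝ ∞ (fun z => Q.χ (Q.e.symm z) * (vol (gloc Q.e g) z)⁻¹) Q.e.target :=
      (Q.hχ Q.e Q.he).mul (hG.vol_smooth.inv fun z hz => (hG.vol_pos hz).ne')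
    have hb : ContDiffOn ℝ ∞ (fun z => pestd_L p (gmat (gloc Q.e g) z)) Q.e.target := by
      rw [contDiffOn_clm_apply]
      intro w
      exact smooth_pb (A := gmat (gloc Q.e g)) (fun i j => hG.smooth i j) contDiffOn_const
    have h1 : ContDiffOn ℝ ∞ (fun z => (Q.χ (Q.e.symm z) * (vol (gloc Q.e g) z)⁻¹) •
        pestd_L p (gmat (gloc Q.e g) z)) Q.e.target := ha.smul hb
    refine (h1.contDiffAt (Q.e.open_target.mem_nhds hy)).congr_of_eventuallyEq ?_
    filter_upwards [Q.e.open_target.mem_nhds hy] with z hz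
    unfold pestd_B
    rw [if_pos hz]
  · have hy2 : y ∉ pestd_K Q := by
      rintro ⟨x, hx, rfl⟩
      exact hy (Q.e.map_source (Q.hs hx))
    have h2 : ∀ᶠ z in 𝓝 y, z ∉ pestd_K Q :=
      (pestd_K_compact Q).isClosed.isOpen_compl.mem_nhds hy2
    refine (contDiffAt_const (c := (0 : pestd_Op (Alt n p)))).congr_of_eventuallyEq ?_
    filter_upwards [h2] with z hz
    exact pestd_B_off Q g hz

omit [T2Space M] in
theorem pestd_B_compact (Q : Piece n M) (g : Metric n M) (p : ℕ) :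
    HasCompactSupport (pestd_B Q g p) := by
  refine HasCompactSupport.of_support_subset_isCompact (pestd_K_compact Q) fun y hy => ?_
  by_contra hc
  exact hy (pestd_B_off Q g hc)

omit [CompactSpace M] [T2Space M] in
/-- `B u = χ α` -/
theorem pestd_Bu (Q : Piece n M) (g : Metric n M) (α : Form n M p) :
    (fun y => pestd_B Q g p y (Q.rx g α y)) = Q.lx α := by
  funext y
  unfold pestd_B Piece.rx Piece.lx
  by_cases hy : y ∈ Q.e.target
  · rw [if_pos hy, if_pos hy, if_pos hy]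
    by_cases hK : y ∈ pestd_K Q
    · obtain ⟨x, hx, hxy⟩ := hK
      have hψ : Q.ψ y = 1 := by
        refine (Q.ψ1 x hx y ?_).2
        rw [hxy, dist_self]
        positivity
      have hG := isMet_gloc g Q.he
      have hv := (hG.vol_pos hy).ne'
      have hdet := (hG.pos y hy).det_pos.ne'
      rw [smul_apply, map_smul, pestd_L_apply, pb_pb, hψ, one_mul,
        Matrix.nonsing_inv_mul _ (isUnit_iff_ne_zero.2 hdet), pb_one, smul_smul, mul_assoc,
        inv_mul_cancel₀ hv, mul_one]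
    · rw [pestd_χ Q hy hK, zero_mul, smul_apply, zero_smul, zero_smul]
  · rw [if_neg hy, if_neg hy, if_neg hy]
    rfl

/-- the commutator -/
def pestd_h (Q : Piece n M) (g : Metric n M) (k : ℕ) (α : Form n M p) (z : E n) :
    Alt n p :=
  pestd_B Q g p z (mol (k + Q.k0) (Q.rx g α) z) -
    mol (k + Q.k0) (fun y => pestd_B Q g p y (Q.rx g α y)) z

/-- the compact set containing all supports -/
def pestd_T (Q : Piece n M) : Set (E n) :=
  Metric.cthickening (2 / ((Q.k0 : ℝ) + 1)) (pestd_K Q)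

omit [IsManifold 𝓘(ℝ, E n) ∞ M] [T2Space M] in
theorem pestd_mem_T (Q : Piece n M) {y : E n} :
    y ∈ pestd_T Q ↔ ∃ z ∈ pestd_K Q, dist y z ≤ 2 / ((Q.k0 : ℝ) + 1) := by
  unfold pestd_T
  rw [(pestd_K_compact Q).cthickening_eq_biUnion_closedBall (by positivity)]
  simp [Metric.mem_closedBall]

omit [IsManifold 𝓘(ℝ, E n) ∞ M] [T2Space M] in
theorem pestd_T_compact (Q : Piece n M) : IsCompact (pestd_T Q) :=
  (pestd_K_compact Q).cthickening

omit [IsManifold 𝓘(ℝ, E n) ∞ M] [T2Space M] in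
theorem pestd_T_sub (Q : Piece n M) : pestd_T Q ⊆ Q.e.target := by
  intro y hy
  obtain ⟨z, ⟨x, hx, rfl⟩, hd⟩ := (pestd_mem_T Q).1 hy
  exact (Q.ψ1 x hx y hd).1

theorem pestd_h_T (Q : Piece n M) (g : Metric n M) (k : ℕ) {α : Form n M p}
    (hα : Smooth α) {y : E n} (hy : pestd_h Q g k α y ≠ 0) : y ∈ pestd_T Q := by
  rw [pestd_mem_T]
  by_cases hK : y ∈ pestd_K Q
  · exact ⟨y, hK, by rw [dist_self]; positivity⟩
  · unfold pestd_h at hy
    rw [pestd_B_off Q g hK, pestd_Bu] at hy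
    have h1 : mol (k + Q.k0) (Q.lx α) y ≠ 0 := by
      intro h0
      apply hy
      rw [h0]
      exact sub_zero _
    obtain ⟨z, hz, hd⟩ := mol_support _ h1
    refine ⟨z, (Q.lx_smooth hα).2.2 z hz, hd.trans ?_⟩
    push_cast
    have h2 : (0 : ℝ) < (Q.k0 : ℝ) + 1 := by positivity
    have h3 : (Q.k0 : ℝ) + 1 ≤ (k : ℝ) + Q.k0 + 1 := by
      have : (0 : ℝ) ≤ k := Nat.cast_nonneg k
      linarith
    calc 1 / ((k : ℝ) + Q.k0 + 1) ≤ 1 / ((Q.k0 : ℝ) + 1) := one_div_le_one_div_of_le h2 h3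
      _ ≤ 2 / ((Q.k0 : ℝ) + 1) := by
        gcongr
        norm_num

theorem pestd_h_smooth (Q : Piece n M) (g : Metric n M) (k : ℕ) {α : Form n M p}
    (hα : Smooth α) : ContDiff ℝ ∞ (pestd_h Q g k α) := by
  unfold pestd_h
  rw [pestd_Bu]
  exact ((pestd_B_smooth Q g p).clm_apply (mol_smooth _ (Q.rx_smooth g hα).1.continuous)).sub
    (mol_smooth _ (Q.lx_smooth hα).1.continuous)

end BH
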