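import Mathlib

/-!
# Integrals over a compact set which depend smoothly on a parameter

`intK mu K f x` is the integral of `f (x, y)` over `y` in the compact set `K`. If `f` is `C^n`
at all points of `U x K`, then the integral is `C^n` on `U`, and for `n >= 1` the derivative is the
integral of the partial derivative.
-/

open Set Filter MeasureTheory Topology

namespace Pool.Agent.Lib.MP_4a593f_gt.BH

universe u

set_option linter.unusedSectionVars false

variable {H Y E : Type u} [NormedAddCommGroup H] [NormedSpace ℝ H]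
  [NormedAddCommGroup Y] [NormedSpace ℝ Y] [NormedAddCommGroup E] [NormedSpace ℝ E]
  [MeasurableSpace Y] [BorelSpace Y]

/-- Derivative in the first variable. -/
noncomputable def dfst (f : H × Y → E) (z : H × Y) : H →L[ℝ] E :=
  (fderiv ℝ f z).comp (ContinuousLinearMap.inl ℝ H Y)

theorem hasFDerivAt_fst {f : H × Y → E} {x : H} {y : Y} (hf : DifferentiableAt ℝ f (x, y)) :
    HasFDerivAt (fun z => f (z, y)) (dfst f (x, y)) x := by
  have h1 : HasFDerivAt (fun z : H => (z, y)) (ContinuousLinearMap.inl ℝ H Y) x :=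
    hasFDerivAt_prodMk_left x y
  exact hf.hasFDerivAt.comp x h1

theorem contDiffAt_dfst {f : H × Y → E} {z : H × Y} {n m : WithTop ℕ∞}
    (hf : ContDiffAt ℝ n f z) (hm : m + 1 ≤ n) : ContDiffAt ℝ m (dfst f) z := by
  have h1 : ContDiffAt ℝ m (fderiv ℝ f) z := hf.fderiv_right hm
  exact h1.clm_comp contDiffAt_const

theorem integrableOn_slice (μ : Measure Y) [IsFiniteMeasureOnCompacts μ] {K : Set Y}
    (hK : IsCompact K) {f : H × Y → E} {x : H} (hf : ∀ y ∈ K, ContinuousAt f (x, y)) :
    IntegrableOn (fun y => f (x, y)) K μ := by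
  refine ContinuousOn.integrableOn_compact hK (fun y hy => ?_)
  have h1 : ContinuousAt (fun y : Y => (x, y)) y := by fun_prop
  exact ((hf y hy).comp (f := fun y : Y => (x, y)) h1).continuousWithinAt

theorem exists_bound_near {K : Set Y} (hK : IsCompact K) {f : H × Y → E} {x : H}
    (hf : ∀ y ∈ K, ContinuousAt f (x, y)) :
    ∃ C : ℝ, ∀ᶠ z in 𝓝 x, ∀ y ∈ K, ‖f (z, y)‖ ≤ C := by
  have h0 : ContinuousOn (fun y => f (x, y)) K := fun y hy => by
    have h1 : ContinuousAt (fun y : Y => (x, y)) y := by fun_prop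
    exact ((hf y hy).comp (f := fun y : Y => (x, y)) h1).continuousWithinAt
  obtain ⟨C, hC⟩ := hK.exists_bound_of_continuousOn h0
  refine ⟨C + 1, hK.eventually_forall_of_forall_eventually fun y hy => ?_⟩
  have h2 : ∀ᶠ z in 𝓝 (x, y), ‖f z‖ < C + 1 :=
    (hf y hy).norm.eventually_lt_const (lt_of_le_of_lt (hC y hy) (lt_add_one C))
  exact h2.mono fun z hz => hz.le

/-- The derivative of a parametric integral. -/
theorem hasFDerivAt_intK (μ : Measure Y) [IsFiniteMeasureOnCompacts μ] {K : Set Y}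
    (hK : IsCompact K) {f : H × Y → E} {U : Set H} (hU : IsOpen U)
    (hf : ∀ x ∈ U, ∀ y ∈ K, ContDiffAt ℝ 1 f (x, y)) {x : H} (hx : x ∈ U) :
    HasFDerivAt (fun x => ∫ y in K, f (x, y) ∂μ) (∫ y in K, dfst f (x, y) ∂μ) x := by
  have hd : ∀ x ∈ U, ∀ y ∈ K, ContinuousAt (dfst f) (x, y) := fun x hx y hy =>
    (contDiffAt_dfst (m := 0) (hf x hx y hy) (by simp)).continuousAt
  obtain ⟨C, hC⟩ := exists_bound_near hK (hd x hx)
  have hs : {z | z ∈ U ∧ ∀ y ∈ K, ‖dfst f (z, y)‖ ≤ C} ∈ 𝓝 x := by
    filter_upwards [hU.mem_nhds hx, hC] with z h1 h2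
    exact ⟨h1, h2⟩
  refine hasFDerivAt_integral_of_dominated_of_fderiv_le (𝕜 := ℝ)
    (μ := μ.restrict K) (F := fun z y => f (z, y)) (F' := fun z y => dfst f (z, y))
    (bound := fun _ => C) hs ?_ ?_ ?_ ?_ ?_ ?_
  · filter_upwards [hU.mem_nhds hx] with z hz
    exact (integrableOn_slice μ hK fun y hy => (hf z hz y hy).continuousAt).1
  · exact integrableOn_slice μ hK fun y hy => (hf x hx y hy).continuousAt
  · exact (integrableOn_slice μ hK (hd x hx)).1
  · refine (ae_restrict_iff' hK.measurableSet).2 (ae_of_all _ fun y hy z hz => hz.2 y hy)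
  · exact integrableOn_const (hs := hK.measure_lt_top.ne)
  · refine (ae_restrict_iff' hK.measurableSet).2 (ae_of_all _ fun y hy z hz => ?_)
    exact hasFDerivAt_fst ((hf z hz.1 y hy).differentiableAt one_ne_zero)

theorem contDiffOn_intK_nat (μ : Measure Y) [IsFiniteMeasureOnCompacts μ] {K : Set Y}
    (hK : IsCompact K) {U : Set H} (hU : IsOpen U) (n : ℕ) :
    ∀ {E : Type u} [NormedAddCommGroup E] [NormedSpace ℝ E] {f : H × Y → E},
    (∀ x ∈ U, ∀ y ∈ K, ContDiffAt ℝ n f (x, y)) →
    ContDiffOn ℝ n (fun x => ∫ y in K, f (x, y) ∂μ) U := by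
  induction n with
  | zero =>
    intro E _ _ f hf
    rw [Nat.cast_zero, contDiffOn_zero]
    intro x hx
    refine ContinuousAt.continuousWithinAt ?_
    have hc : ∀ x ∈ U, ∀ y ∈ K, ContinuousAt f (x, y) := fun x hx y hy =>
      (hf x hx y hy).continuousAt
    obtain ⟨C, hC⟩ := exists_bound_near hK (hc x hx)
    refine continuousAt_of_dominated (μ := μ.restrict K) (bound := fun _ => C) ?_ ?_ ?_ ?_
    · filter_upwards [hU.mem_nhds hx] with z hz
      exact (integrableOn_slice μ hK (hc z hz)).1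
    · filter_upwards [hC] with z hz
      exact (ae_restrict_iff' hK.measurableSet).2 (ae_of_all _ fun y hy => hz y hy)
    · exact integrableOn_const (hs := hK.measure_lt_top.ne)
    · refine (ae_restrict_iff' hK.measurableSet).2 (ae_of_all _ fun y hy => ?_)
      have h1 : ContinuousAt (fun z : H => (z, y)) x := by fun_prop
      exact (hc x hx y hy).comp (f := fun z : H => (z, y)) h1
  | succ n ih =>
    intro E _ _ f hf
    have h1 : ∀ x ∈ U, ∀ y ∈ K, ContDiffAt ℝ 1 f (x, y) := fun x hx y hy =>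
      (hf x hx y hy).of_le (by exact_mod_cast Nat.le_add_left 1 n)
    have h2 := ih (f := dfst f) fun x hx y hy =>
      contDiffAt_dfst (hf x hx y hy) (by exact_mod_cast le_refl (n + 1))
    rw [Nat.cast_add, Nat.cast_one, contDiffOn_succ_iff_fderiv_of_isOpen hU]
    refine ⟨fun x hx => (hasFDerivAt_intK μ hK hU h1 hx).differentiableAt.differentiableWithinAt,
      by simp, ?_⟩
    refine h2.congr fun x hx => ?_
    exact (hasFDerivAt_intK μ hK hU h1 hx).fderiv

/-- Smoothness of a parametric integral over a compact set. -/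
theorem contDiffOn_intK (μ : Measure Y) [IsFiniteMeasureOnCompacts μ] {K : Set Y}
    (hK : IsCompact K) {U : Set H} (hU : IsOpen U) {n : ℕ∞} {f : H × Y → E}
    (hf : ∀ x ∈ U, ∀ y ∈ K, ContDiffAt ℝ n f (x, y)) :
    ContDiffOn ℝ n (fun x => ∫ y in K, f (x, y) ∂μ) U := by
  rw [contDiffOn_iff_forall_nat_le]
  intro m hm
  exact contDiffOn_intK_nat μ hK hU m fun x hx y hy => (hf x hx y hy).of_le (by exact_mod_cast hm)

end Pool.Agent.Lib.MP_4a593f_gt.BH
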