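import Pool.Agent.Lib.MP_4a593f_gt.Q5.Odd
import Pool.Agent.Lib.MP_4a593f_gt.Q5.Fin
import Pool.Agent.Lib.MP_4a593f_gt.BH.AlgC

/-!
Pointwise input for the theorems on closed manifolds: positivity of the curvature term on `p`-forms
in all degrees (also `p > n/2`), with `bochner` of `Big/K0.lean`.

* `pos_dual` : positivity in degree `n - p` implies positivity in degree `p`;
* `ric_pos` : degree 1 from positive sectional curvature;
* `pt_odd` : `n` even, positive sectional curvature, `k`-positive, `5 k ≤ 6 (n - 3)`: all odd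
  degrees;
* `pt_nm2` : `(n-2)`-positive: all degrees `0 < p < n`.
-/

open scoped BigOperators

namespace HopfPt

open HopfBig HopfN2 HopfQ4 HopfD8

variable {n : ℕ}

theorem sum_sq_pos {p : ℕ} {φ : (Fin p → Fin n) → ℝ} (h : φ ≠ 0) : 0 < ∑ I, φ I ^ 2 := by
  have hex : ∃ I, φ I ≠ 0 := by
    by_contra hcon
    push Not at hcon
    exact h (funext hcon)
  obtain ⟨I, hI⟩ := hex
  exact Finset.sum_pos' (fun J _ => sq_nonneg _) ⟨I, Finset.mem_univ I, by positivity⟩

/-- Positivity in degree `n - p` implies positivity in degree `p`. -/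
theorem pos_dual {p : ℕ} (hpn : p ≤ n)
    {R : Fin n → Fin n → Fin n → Fin n → ℝ} (h : IsCurvature R)
    (H : ∀ φ : (Fin (n - p) → Fin n) → ℝ, IsForm φ → φ ≠ 0 → 0 < bochner R φ)
    {φ : (Fin p → Fin n) → ℝ} (hφ : IsForm φ) (h0 : φ ≠ 0) : 0 < bochner R φ :=
  BH.bochner_star h (Nat.sub_add_cancel hpn) H φ hφ h0

/-! ### Degree one -/

/-- all sectional curvatures are positive -/
def SecPosA (R : Fin n → Fin n → Fin n → Fin n → ℝ) : Prop :=
  ∀ v w : Fin n → ℝ, 0 < (∑ i, v i * v i) * (∑ i, w i * w i) - (∑ i, v i * w i) ^ 2 →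
    0 < ∑ i, ∑ j, ∑ k, ∑ l, R i j k l * v i * w j * v k * w l

theorem sec_single (R : Fin n → Fin n → Fin n → Fin n → ℝ) (v : Fin n → ℝ) (a : Fin n) :
    ∑ i, ∑ j, ∑ k, ∑ l, R i j k l * v i * (Pi.single a (1 : ℝ) : Fin n → ℝ) j * v k *
      (Pi.single a (1 : ℝ) : Fin n → ℝ) l = ∑ i, ∑ k, R i a k a * v i * v k := by
  refine Finset.sum_congr rfl fun i _ => ?_
  rw [Finset.sum_eq_single a]
  · refine Finset.sum_congr rfl fun k _ => ?_
    rw [Finset.sum_eq_single a]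
    · simp
    · intro l _ hl
      rw [Pi.single_eq_of_ne hl, mul_zero]
    · intro h; exact absurd (Finset.mem_univ a) h
  · intro j _ hj
    refine Finset.sum_eq_zero fun k _ => Finset.sum_eq_zero fun l _ => ?_
    rw [Pi.single_eq_of_ne hj]
    ring
  · intro h; exact absurd (Finset.mem_univ a) h

theorem sec_single_nonneg {R : Fin n → Fin n → Fin n → Fin n → ℝ} (h : IsCurvature R)
    (hs : SecPosA R) (v : Fin n → ℝ) (a : Fin n) :
    0 ≤ ∑ i, ∑ k, R i a k a * v i * v k ∧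
      ((∃ b, b ≠ a ∧ v b ≠ 0) → 0 < ∑ i, ∑ k, R i a k a * v i * v k) := by
  have key : (∃ b, b ≠ a ∧ v b ≠ 0) → 0 < ∑ i, ∑ k, R i a k a * v i * v k := by
    rintro ⟨b, hb, hv⟩
    rw [← sec_single]
    apply hs
    have h1 : ∑ i, (Pi.single a (1 : ℝ) : Fin n → ℝ) i * (Pi.single a (1 : ℝ) : Fin n → ℝ) i =
        1 := by
      rw [Finset.sum_eq_single a]
      · simp
      · intro i _ hi
        rw [Pi.single_eq_of_ne hi, mul_zero]
      · intro h; exact absurd (Finset.mem_univ a) h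
    have h2 : ∑ i, v i * (Pi.single a (1 : ℝ) : Fin n → ℝ) i = v a := by
      rw [Finset.sum_eq_single a]
      · simp
      · intro i _ hi
        rw [Pi.single_eq_of_ne hi, mul_zero]
      · intro h; exact absurd (Finset.mem_univ a) h
    rw [h1, h2, mul_one]
    have h3 : v a * v a + v b * v b ≤ ∑ i, v i * v i := by
      rw [← Finset.sum_pair (f := fun i => v i * v i) (Ne.symm hb)]
      exact Finset.sum_le_sum_of_subset_of_nonneg (Finset.subset_univ _)
        fun i _ _ => mul_self_nonneg _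
    have h4 : 0 < v b * v b := mul_self_pos.2 hv
    nlinarith
  refine ⟨?_, key⟩
  by_cases hb : ∃ b, b ≠ a ∧ v b ≠ 0
  · exact (key hb).le
  · push Not at hb
    refine le_of_eq ?_
    symm
    refine Finset.sum_eq_zero fun i _ => Finset.sum_eq_zero fun k _ => ?_
    by_cases hi : i = a
    · subst hi
      have h1 : R i i k i = 0 := by
        have := h.1 i i k i
        linarith
      rw [h1]
      ring
    · rw [hb i hi]
      ring

/-- the Ricci curvature is positive -/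
def RicPosA (R : Fin n → Fin n → Fin n → Fin n → ℝ) : Prop :=
  ∀ v : Fin n → ℝ, v ≠ 0 → 0 < ∑ i, ∑ j, ricci R i j * v i * v j

theorem ric_eq (R : Fin n → Fin n → Fin n → Fin n → ℝ) (v : Fin n → ℝ) :
    ∑ i, ∑ j, ricci R i j * v i * v j = ∑ a, ∑ i, ∑ k, R i a k a * v i * v k := by
  have e : ∀ i j : Fin n, ricci R i j * v i * v j = ∑ a, R i a j a * v i * v j := by
    intro i j
    unfold ricci
    rw [Finset.sum_mul, Finset.sum_mul]
  simp only [e]
  rw [Finset.sum_comm' (s := Finset.univ) (t := fun _ => Finset.univ) (t' := Finset.univ)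
      (s' := fun _ => Finset.univ) (by simp)]
  rw [Finset.sum_comm]
  have e2 : ∀ i : Fin n, ∑ j, ∑ a, R i a j a * v i * v j = ∑ a, ∑ j, R i a j a * v i * v j :=
    fun i => Finset.sum_comm
  simp only [e2]
  exact Finset.sum_comm

/-- positive sectional curvature implies positive Ricci curvature -/
theorem SecPosA.ricPos (hn : 2 ≤ n) {R : Fin n → Fin n → Fin n → Fin n → ℝ} (h : IsCurvature R)
    (hs : SecPosA R) : RicPosA R := by
  intro v hv
  rw [ric_eq]
  obtain ⟨b, hb⟩ : ∃ b, v b ≠ 0 := by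
    by_contra hcon
    push Not at hcon
    exact hv (funext hcon)
  obtain ⟨a, ha⟩ : ∃ a : Fin n, a ≠ b := by
    have : Nontrivial (Fin n) := Fin.nontrivial_iff_two_le.2 hn
    exact exists_ne b
  exact Finset.sum_pos' (fun a _ => (sec_single_nonneg h hs v a).1)
    ⟨a, Finset.mem_univ a, (sec_single_nonneg h hs v a).2 ⟨b, ha.symm, hb⟩⟩

/-- Degree one. -/
theorem ric_pos {R : Fin n → Fin n → Fin n → Fin n → ℝ} (hs : RicPosA R)
    {φ : (Fin 1 → Fin n) → ℝ} (h0 : φ ≠ 0) : 0 < bochner R φ := by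
  have hv : (fun i : Fin n => φ ![i]) ≠ 0 := by
    intro hcon
    refine h0 (funext fun I => ?_)
    have h1 : I = ![I 0] := by
      funext x
      rw [Subsingleton.elim x 0]
      rfl
    rw [h1]
    exact congrFun hcon (I 0)
  exact hs (fun i => φ ![i]) hv

/-- Degree one, `k`-positive with `k ≤ n - 1`. -/
theorem deg_one {k : ℕ} (hn : 3 ≤ n) (hk : k + 1 ≤ n)
    {R : Fin n → Fin n → Fin n → Fin n → ℝ} (hR : IsCurvature R) (hKP : KPositive R k)
    {φ : (Fin 1 → Fin n) → ℝ} (hφ : IsForm φ) (h0 : φ ≠ 0) : 0 < bochner R φ := by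
  have hk' : (k : ℝ) + 1 ≤ n := by exact_mod_cast hk
  refine bochner_pos (C := 1) le_rfl one_pos ?_ ?_ hR hKP ?_ hφ h0
  · push_cast
    linarith
  · rw [Nat.le_div_iff_mul_le (by norm_num)]
    have h3 : n * 2 ≤ n * (n - 1) := Nat.mul_le_mul_left _ (by omega)
    have h4 : 2 * (n - 1) ≤ n * (n - 1) := Nat.mul_le_mul_right _ (by omega)
    omega
  · intro m X P N _ hP hN _
    have h := core_trivial X P N hP hN
    push_cast at h
    exact h

/-! ### All degrees -/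

/-- all odd degrees from degree 1 and the degrees `3 ≤ q ≤ n/2` -/
theorem odd_of_low (hn : Even n) {R : Fin n → Fin n → Fin n → Fin n → ℝ} (h : IsCurvature R)
    (h1 : ∀ φ : (Fin 1 → Fin n) → ℝ, IsForm φ → φ ≠ 0 → 0 < bochner R φ)
    (h3 : ∀ q : ℕ, Odd q → 3 ≤ q → 2 * q ≤ n → ∀ φ : (Fin q → Fin n) → ℝ, IsForm φ → φ ≠ 0 →
      0 < bochner R φ)
    {p : ℕ} (hp : Odd p) (hpn : p ≤ n) {φ : (Fin p → Fin n) → ℝ} (hφ : IsForm φ) (h0 : φ ≠ 0) :
    0 < bochner R φ := by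
  have low : ∀ q : ℕ, Odd q → 2 * q ≤ n → ∀ χ : (Fin q → Fin n) → ℝ, IsForm χ → χ ≠ 0 →
      0 < bochner R χ := by
    intro q hq h2 χ hχ hχ0
    rcases Nat.lt_or_ge q 2 with h4 | h4
    · have : q = 1 := by
        obtain ⟨b, hb⟩ := hq
        omega
      subst this
      exact h1 χ hχ hχ0
    · have h5 : 3 ≤ q := by
        obtain ⟨b, hb⟩ := hq
        omega
      exact h3 q hq h5 h2 χ hχ hχ0
  rcases Nat.lt_or_ge n (2 * p) with h4 | h4
  · refine pos_dual hpn h (fun χ hχ hχ0 => low (n - p) ?_ (by omega) χ hχ hχ0) hφ h0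
    exact Nat.Even.sub_odd hpn hn hp
  · exact low p hp h4 φ hφ h0

/-- `n` even, positive Ricci curvature or `k ≤ n - 1`, `k`-positive with `5 k ≤ 6 (n - 3)`: the
curvature term is positive in all odd degrees. -/
theorem pt_odd (hn : Even n) {R : Fin n → Fin n → Fin n → Fin n → ℝ} (h : IsCurvature R)
    {k : ℕ} (hs : RicPosA R ∨ k + 1 ≤ n) (hk : 5 * (k : ℝ) ≤ 6 * ((n : ℝ) - 3))
    (hKP : KPositive R k)
    {p : ℕ} (hp : Odd p) (hpn : p ≤ n) {φ : (Fin p → Fin n) → ℝ} (hφ : IsForm φ) (h0 : φ ≠ 0) :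
    0 < bochner R φ := by
  have hn3 : 3 ≤ n := by
    have h1 : (0 : ℝ) ≤ k := Nat.cast_nonneg k
    have h2 : (3 : ℝ) ≤ n := by linarith
    exact_mod_cast h2
  refine odd_of_low hn h (fun χ hχ hχ0 => ?_) (fun q hq h5 h2 χ hχ hχ0 => ?_) hp hpn hφ h0
  · rcases hs with hs | hs
    · exact ric_pos hs hχ0
    · exact deg_one hn3 hs h hKP hχ hχ0
  · have h4 : q ≠ 4 := by
      rintro rfl
      exact absurd hq (by decide)
    exact HopfQ5.six_fifths h5 h4 h2 hk h hKP hχ hχ0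

/-- `(n-2)`-positive: the curvature term is positive in all degrees `0 < p < n`. -/
theorem pt_nm2 (hn : 3 ≤ n) {R : Fin n → Fin n → Fin n → Fin n → ℝ} (h : IsCurvature R)
    (hKP : KPositive R (n - 2)) {p : ℕ} (hp : 0 < p) (hpn : p < n)
    {φ : (Fin p → Fin n) → ℝ} (hφ : IsForm φ) (h0 : φ ≠ 0) : 0 < bochner R φ := by
  rcases Nat.lt_or_ge n (2 * p) with h1 | h1
  · exact pos_dual hpn.le h
      (fun χ hχ hχ0 => HopfQ5.nminus2 hn h hKP (by omega) (by omega) hχ hχ0) hφ h0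
  · exact HopfQ5.nminus2 hn h hKP hp h1 hφ h0

/-- the quadratic bound: `C k ≤ p (n - p)` -/
theorem pt_quad {p k : ℕ} {C : ℝ} (hC : 3 ≤ C) (hCn : (n : ℝ) * (4 - C) * (n - 2 * C) ≤
        2 * n * (C - 2) ^ 2 + 4 * (C - 2) ^ 3) (hk : C * (k : ℝ) ≤ p * ((n : ℝ) - p))
    {R : Fin n → Fin n → Fin n → Fin n → ℝ} (h : IsCurvature R) (hKP : KPositive R k)
    {φ : (Fin p → Fin n) → ℝ} (hφ : IsForm φ) (h0 : φ ≠ 0) : 0 < bochner R φ :=
  bd_kpos (by linarith) (fun m' => HopfQ5.bdG hC hCn m' p) hk h hKP hφ h0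

/-- the quadratic bound: `4 k ≤ p (n - p)` -/
theorem pt_quad4 {p k : ℕ} (hk : 4 * k ≤ p * (n - p)) (hpn : p ≤ n)
    {R : Fin n → Fin n → Fin n → Fin n → ℝ} (h : IsCurvature R) (hKP : KPositive R k)
    {φ : (Fin p → Fin n) → ℝ} (hφ : IsForm φ) (h0 : φ ≠ 0) : 0 < bochner R φ := by
  refine pt_quad (C := 4) (by norm_num) ?_ ?_ h hKP hφ h0
  · have h1 : (0 : ℝ) ≤ n := Nat.cast_nonneg n
    nlinarith
  · rw [← Nat.cast_sub hpn]
    exact_mod_cast hk

end HopfPt
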