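import Mathlib

/-!
# Closed Riemannian manifolds: differential forms, de Rham Betti numbers, curvature

The definitions used in the statements. `M` is a smooth manifold modelled on `ℝⁿ`
(`IsManifold (I n) ∞ M`), without boundary. Some types of Mathlib and their instances get names
of their own here (`V`, `Alt`, `T`, `Tf`); nothing else is changed.
-/

open scoped Manifold ContDiff Bundle Topology

noncomputable section

universe u

namespace BHS

/-! ### The model space -/

/-- The model space `ℝⁿ`. -/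
def V (n : ℕ) : Type := EuclideanSpace ℝ (Fin n)

instance V.grp (n : ℕ) : NormedAddCommGroup (V n) :=
  (inferInstance : NormedAddCommGroup (EuclideanSpace ℝ (Fin n)))

instance V.sp (n : ℕ) : NormedSpace ℝ (V n) :=
  (inferInstance : NormedSpace ℝ (EuclideanSpace ℝ (Fin n)))

instance V.top (n : ℕ) : TopologicalSpace (V n) := inferInstance

/-- The model of the manifolds of dimension `n` without boundary. -/
abbrev I (n : ℕ) : ModelWithCorners ℝ (V n) (V n) := 𝓘(ℝ, V n)

/-- The standard basis of `ℝⁿ`. -/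
def bv {n : ℕ} (i : Fin n) : V n := EuclideanSpace.single i (1 : ℝ)

/-- Partial derivative. -/
def pd {n : ℕ} (i : Fin n) (u : V n → ℝ) (y : V n) : ℝ := fderiv ℝ u y (bv i)

/-- Alternating `p`-linear forms on `ℝⁿ`. -/
def Alt (n p : ℕ) : Type := (V n) [⋀^Fin p]→L[ℝ] ℝ

instance Alt.grp (n p : ℕ) : NormedAddCommGroup (Alt n p) :=
  (inferInstance : NormedAddCommGroup ((V n) [⋀^Fin p]→L[ℝ] ℝ))

instance Alt.sp (n p : ℕ) : NormedSpace ℝ (Alt n p) :=
  (inferInstance : NormedSpace ℝ ((V n) [⋀^Fin p]→L[ℝ] ℝ))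

/-- The exterior derivative of a form on `ℝⁿ` (Mathlib's). -/
def ext {n p : ℕ} (f : V n → Alt n p) : V n → Alt n (p + 1) :=
  extDeriv (E := V n) (F := ℝ) (n := p) f

/-! ### Tangent spaces and differential forms -/

section Forms

variable {n : ℕ} {M : Type u} [TopologicalSpace M] [ChartedSpace (V n) M]

/-- The tangent space at `x`. -/
def T (x : M) : Type := TangentSpace (I n) x

instance T.grp (x : M) : AddCommGroup (T (n := n) x) :=
  (inferInstance : AddCommGroup (TangentSpace (I n) x))

instance T.mod (x : M) : Module ℝ (T (n := n) x) :=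
  (inferInstance : Module ℝ (TangentSpace (I n) x))

instance T.top (x : M) : TopologicalSpace (T (n := n) x) :=
  (inferInstance : TopologicalSpace (TangentSpace (I n) x))

/-- The derivative at `y` of the inverse `e.symm` of the chart `e`. -/
def Dsymm (e : OpenPartialHomeomorph M (V n)) (y : V n) : V n →L[ℝ] T (n := n) (e.symm y) :=
  mfderiv (I n) (I n) e.symm y

/-- The derivative at `x` of the chart `e`. -/
def Dch (e : OpenPartialHomeomorph M (V n)) (x : M) : T (n := n) x →L[ℝ] V n :=
  mfderiv (I n) (I n) e x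

/-- Alternating `p`-linear forms on the tangent space at `x`. -/
def Tf (x : M) (p : ℕ) : Type := (T (n := n) x) [⋀^Fin p]→L[ℝ] ℝ

instance Tf.grp (x : M) (p : ℕ) : AddCommGroup (Tf (n := n) x p) :=
  (inferInstance : AddCommGroup ((T (n := n) x) [⋀^Fin p]→L[ℝ] ℝ))

instance Tf.mod (x : M) (p : ℕ) : Module ℝ (Tf (n := n) x p) :=
  (inferInstance : Module ℝ ((T (n := n) x) [⋀^Fin p]→L[ℝ] ℝ))

/-- The pullback of a form on the tangent space at `e.symm y` under the derivative of
`e.symm`. -/
def pull (e : OpenPartialHomeomorph M (V n)) {p : ℕ} (y : V n)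
    (a : Tf (n := n) (e.symm y) p) : Alt n p :=
  ContinuousAlternatingMap.compContinuousLinearMap a (Dsymm e y)

/-- The pullback of a form on `ℝⁿ` to the tangent space at `x` under the derivative of `e`. -/
def pullCh (e : OpenPartialHomeomorph M (V n)) {p : ℕ} (x : M) (a : Alt n p) :
    Tf (n := n) x p :=
  ContinuousAlternatingMap.compContinuousLinearMap a (Dch e x)

variable (n M) in
/-- A field of alternating `p`-forms on the tangent spaces of `M` (no regularity). -/
def Form (p : ℕ) : Type u := (x : M) → Tf (n := n) x p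

instance Form.grp (p : ℕ) : AddCommGroup (Form n M p) := Pi.addCommGroup

instance Form.mod (p : ℕ) : Module ℝ (Form n M p) := Pi.module _ _ _

/-- The form `α` in the chart `e`: its pullback under `e.symm`. -/
def loc {p : ℕ} (e : OpenPartialHomeomorph M (V n)) (α : Form n M p) : V n → Alt n p :=
  fun y => pull e y (α (e.symm y))

/-- Smooth forms: smooth in every chart of the atlas. -/
def Smooth {p : ℕ} (α : Form n M p) : Prop :=
  ∀ e ∈ atlas (V n) M, ContDiffOn ℝ ∞ (loc e α) e.target

/-- The exterior derivative, computed at `x` in the chart at `x`. -/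
def dM {p : ℕ} (α : Form n M p) : Form n M (p + 1) := fun x =>
  pullCh (chartAt (V n) x) x (ext (loc (chartAt (V n) x) α) (chartAt (V n) x x))

theorem loc_add {p : ℕ} (e : OpenPartialHomeomorph M (V n)) (α β : Form n M p) :
    loc e (α + β) = loc e α + loc e β := rfl

theorem loc_smul {p : ℕ} (e : OpenPartialHomeomorph M (V n)) (c : ℝ) (α : Form n M p) :
    loc e (c • α) = c • loc e α := rfl

theorem loc_zero {p : ℕ} (e : OpenPartialHomeomorph M (V n)) :
    loc e (0 : Form n M p) = 0 := rfl

theorem smooth_zero {p : ℕ} : Smooth (0 : Form n M p) := fun e _ => by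
  rw [loc_zero]
  exact contDiffOn_const

theorem Smooth.add {p : ℕ} {α β : Form n M p} (hα : Smooth α) (hβ : Smooth β) :
    Smooth (α + β) := fun e he => by
  rw [loc_add]
  exact (hα e he).add (hβ e he)

theorem Smooth.smul {p : ℕ} (c : ℝ) {α : Form n M p} (hα : Smooth α) :
    Smooth (c • α) := fun e he => by
  rw [loc_smul]
  exact (hα e he).const_smul c

theorem Smooth.differentiableAt {p : ℕ} {α : Form n M p} (hα : Smooth α) (x : M) :
    DifferentiableAt ℝ (loc (chartAt (V n) x) α) (chartAt (V n) x x) :=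
  ((hα _ (chart_mem_atlas _ x)).contDiffAt
    ((chartAt (V n) x).open_target.mem_nhds (mem_chart_target _ x))).differentiableAt (by simp)

theorem ext_add {p : ℕ} {f h : V n → Alt n p} {y : V n} (hf : DifferentiableAt ℝ f y)
    (hh : DifferentiableAt ℝ h y) : ext (f + h) y = ext f y + ext h y :=
  extDeriv_add (E := V n) (F := ℝ) hf hh

theorem ext_smul {p : ℕ} (c : ℝ) {f : V n → Alt n p} {y : V n} :
    ext (c • f) y = c • ext f y :=
  extDeriv_smul (E := V n) (F := ℝ) ..

theorem dM_add {p : ℕ} {α β : Form n M p} (hα : Smooth α) (hβ : Smooth β) :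
    dM (α + β) = dM α + dM β := by
  funext x
  unfold dM
  rw [loc_add, ext_add (hα.differentiableAt x) (hβ.differentiableAt x)]
  rfl

theorem dM_smul {p : ℕ} (c : ℝ) {α : Form n M p} : dM (c • α) = c • dM α := by
  funext x
  unfold dM
  rw [loc_smul, ext_smul]
  rfl

theorem dM_zero {p : ℕ} : dM (0 : Form n M p) = 0 := by
  have h := dM_smul (0 : ℝ) (α := (0 : Form n M p))
  rwa [zero_smul, zero_smul] at h

variable (n M)

/-- The closed smooth `p`-forms. -/
def closedForms (p : ℕ) : Submodule ℝ (Form n M p) where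
  carrier := {α | Smooth α ∧ dM α = 0}
  zero_mem' := ⟨smooth_zero, dM_zero⟩
  add_mem' := fun h1 h2 => ⟨h1.1.add h2.1, by rw [dM_add h1.1 h2.1, h1.2, h2.2, add_zero]⟩
  smul_mem' := fun c _ h => ⟨h.1.smul c, by rw [dM_smul, h.2, smul_zero]⟩

/-- The exact `p`-forms: the forms `dβ`, `β` a smooth `(p-1)`-form (`0` for `p = 0`). -/
def exactForms : (p : ℕ) → Submodule ℝ (Form n M p)
  | 0 => ⊥
  | p + 1 =>
    { carrier := {α | ∃ β : Form n M p, Smooth β ∧ dM β = α}
      zero_mem' := ⟨0, smooth_zero, dM_zero⟩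
      add_mem' := fun ⟨β, h1, h2⟩ ⟨γ, h3, h4⟩ =>
        ⟨β + γ, h1.add h3, by rw [dM_add h1 h3, h2, h4]⟩
      smul_mem' := fun c _ ⟨β, h1, h2⟩ => ⟨c • β, h1.smul c, by rw [dM_smul, h2]⟩ }

/-- The `p`-th real Betti number: the dimension of the `p`-th de Rham cohomology, closed forms
modulo exact forms. -/
def betti (p : ℕ) : ℕ :=
  Module.finrank ℝ (closedForms n M p ⧸ (exactForms n M p).comap (closedForms n M p).subtype)

/-- The Euler characteristic. -/
def euler : ℤ := ∑ p ∈ Finset.range (n + 1), (-1) ^ p * (betti n M p : ℤ)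

end Forms

/-! ### Curvature of a metric in coordinates -/

section Curv

variable {n : ℕ}

/-- The matrix of the metric with components `G i j` at `y`. -/
def gmat (G : Fin n → Fin n → V n → ℝ) (y : V n) : Matrix (Fin n) (Fin n) ℝ :=
  Matrix.of fun i j => G i j y

/-- Christoffel symbols `Γ^k_ij`. -/
def chr (G : Fin n → Fin n → V n → ℝ) (k i j : Fin n) (y : V n) : ℝ :=
  (1 / 2) * ∑ l, (gmat G y)⁻¹ k l * (pd i (G j l) y + pd j (G i l) y - pd l (G i j) y)

/-- The curvature tensor `R_ijkl = ⟨R(∂_i,∂_j)∂_l, ∂_k⟩`; the sectional curvature of the plane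
spanned by orthonormal `v, w` is `R_ijkl vⁱ wʲ vᵏ wˡ`. -/
def riem (G : Fin n → Fin n → V n → ℝ) (i j k l : Fin n) (y : V n) : ℝ :=
  ∑ m, G k m y * (pd i (chr G m j l) y - pd j (chr G m i l) y +
    ∑ a, (chr G m i a y * chr G a j l y - chr G m j a y * chr G a i l y))

/-- The inner product `⟨v, w⟩` for the metric with components `G i j` at `y`. -/
def dot (G : Fin n → Fin n → V n → ℝ) (y : V n) (v w : Fin n → ℝ) : ℝ :=
  ∑ i, ∑ j, G i j y * v i * w j

/-- The squared area `|v|²|w|² - ⟨v,w⟩²`. -/
def area (G : Fin n → Fin n → V n → ℝ) (y : V n) (v w : Fin n → ℝ) : ℝ :=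
  dot G y v v * dot G y w w - dot G y v w ^ 2

/-- `R(v, w, v, w) = R_ijkl vⁱ wʲ vᵏ wˡ`. -/
def rvw (G : Fin n → Fin n → V n → ℝ) (y : V n) (v w : Fin n → ℝ) : ℝ :=
  ∑ i, ∑ j, ∑ k, ∑ l, riem G i j k l y * v i * w j * v k * w l

end Curv

/-! ### Riemannian manifolds -/

section Riem

variable {n : ℕ} {M : Type u} [TopologicalSpace M] [ChartedSpace (V n) M]
  [IsManifold (I n) ∞ M]

variable (n M)

/-- Smooth Riemannian metrics on `M`. -/
def Metric : Type u := Bundle.ContMDiffRiemannianMetric (I n) ∞ (V n)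
  (fun x : M => TangentSpace (I n) x)

variable {n M}

/-- The inner product of tangent vectors. -/
def inn (g : Metric n M) (x : M) (v w : T (n := n) x) : ℝ :=
  Bundle.ContMDiffRiemannianMetric.inner g x v w

/-- The components `⟨∂_i, ∂_j⟩` of the metric in the chart `e`. -/
def gloc (e : OpenPartialHomeomorph M (V n)) (g : Metric n M) (i j : Fin n) (y : V n) : ℝ :=
  inn g (e.symm y) (Dsymm e y (bv i)) (Dsymm e y (bv j))

/-- At every point `x`, every sectional curvature `K(x,P)` satisfies `a x ≤ K(x,P) ≤ b x`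
(in coordinates, in every chart of the atlas). -/
def SecBetween (g : Metric n M) (a b : M → ℝ) : Prop :=
  ∀ e ∈ atlas (V n) M, ∀ y ∈ e.target, ∀ v w : Fin n → ℝ,
    a (e.symm y) * area (gloc e g) y v w ≤ rvw (gloc e g) y v w ∧
      rvw (gloc e g) y v w ≤ b (e.symm y) * area (gloc e g) y v w

/-- Positive sectional curvature. -/
def SecPos (g : Metric n M) : Prop :=
  ∀ e ∈ atlas (V n) M, ∀ y ∈ e.target, ∀ v w : Fin n → ℝ,
    0 < area (gloc e g) y v w → 0 < rvw (gloc e g) y v w

/-- The curvature operator is `k`-positive at every point: `∑ R(ω_s, ω_s) > 0` for all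
orthonormal bivectors `ω_1, ..., ω_k`, i.e. the sum of the `k` smallest eigenvalues of the
curvature operator is positive. -/
def CurvKPos (g : Metric n M) (k : ℕ) : Prop :=
  ∀ e ∈ atlas (V n) M, ∀ y ∈ e.target, ∀ w : Fin k → Fin n → Fin n → ℝ,
    (∀ s i j, w s j i = -w s i j) →
    (∀ s t, (1 / 2) * ∑ i, ∑ j, ∑ a, ∑ c,
      gloc e g i a y * gloc e g j c y * w s i j * w t a c = if s = t then 1 else 0) →
    0 < ∑ s, (1 / 4) * ∑ i, ∑ j, ∑ a, ∑ c, riem (gloc e g) i j a c y * w s i j * w s a c

end Riem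

end BHS
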